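import Pool.Agent.Helper44.FT.Lap

/-!
# Block FT-R4: finite type gives a linear recursion

Proof. Let `f = ∑ x_i`, `L x_i = lam i • x_i` on `U`. By induction `Y n = ∑ (lam i)^n • x_i` on `U` (`lap_congr`, `lap_sum`). Let `Λ` be the finset of the nonzero values of `lam`. If it is empty, `L f = ∑ lam i • x_i = 0`. Otherwise let `k + 1` be its cardinality and
`P = ∏ λ ∈ Λ, (X - C λ)` (monic of degree `k + 1`), `c0 j = - P.coeff j`. For every `i`: `(lam i)^(k+2) = ∑ j, c0 j * (lam i)^(j+1)`: both sides are `0` if `lam i = 0`, and otherwise it is `lam i * P (lam i) = 0` (`Polynomial.eval_eq_sum_range`, `Polynomial.Monic`). Insert into `Y (k+2)`.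
-/

namespace Pool.Agent.Helper44.FT

theorem fin_rec {U : Set (ℝ × ℝ)} {f : ℝ × ℝ → EuclideanSpace ℝ (Fin 3)} {E F G : ℝ × ℝ → ℝ}
    {L : (ℝ × ℝ → EuclideanSpace ℝ (Fin 3)) → ℝ × ℝ → EuclideanSpace ℝ (Fin 3)}
    (S : Sf U f E F G L)
    (hft : ∃ (k : ℕ) (x : Fin k → ℝ × ℝ → EuclideanSpace ℝ (Fin 3)) (lam : Fin k → ℝ),
      (∀ i, ContDiffOn ℝ ((⊤ : ℕ∞) : WithTop ℕ∞) (x i) U) ∧
      (∀ p ∈ U, f p = ∑ i, x i p) ∧
      (∀ i, ∀ p ∈ U, L (x i) p = lam i • x i p)) :
    (∀ p ∈ U, L f p = 0) ∨ ∃ (k : ℕ) (c0 : Fin (k + 1) → ℝ),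
      ∀ Y : ℕ → ℝ × ℝ → EuclideanSpace ℝ (Fin 3), (∀ p ∈ U, Y 0 p = f p) →
        (∀ n, ∀ p ∈ U, L (Y n) p = Y (n + 1) p) →
        ∀ p ∈ U, Y (k + 2) p = ∑ j : Fin (k + 1), c0 j • Y (j.1 + 1) p := by
  classical
  obtain ⟨m, x, lam, hx, hf, he⟩ := hft
  set Λ : Finset ℝ := (Finset.univ.image lam).filter (fun t => t ≠ 0) with hΛ
  have hmemΛ : ∀ i, lam i ≠ 0 → lam i ∈ Λ := by
    intro i hi
    rw [hΛ, Finset.mem_filter]
    exact ⟨Finset.mem_image_of_mem _ (Finset.mem_univ i), hi⟩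
  -- powers
  have hpow : ∀ Y : ℕ → ℝ × ℝ → EuclideanSpace ℝ (Fin 3), (∀ p ∈ U, Y 0 p = f p) →
      (∀ n, ∀ p ∈ U, L (Y n) p = Y (n + 1) p) → ∀ n, ∀ p ∈ U, Y n p = ∑ i, lam i ^ n • x i p := by
    intro Y h0 h1 n
    induction n with
    | zero =>
      intro p hp
      rw [h0 p hp, hf p hp]
      simp
    | succ n ih =>
      intro p hp
      rw [← h1 n p hp, lap_congr S ih p hp, lap_sum S x (fun i => lam i ^ n) hx p hp]
      refine Finset.sum_congr rfl fun i _ => ?_
      rw [he i p hp, smul_smul, pow_succ]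
  by_cases hemp : Λ = ∅
  · left
    intro p hp
    have h1 : ∀ i, lam i = 0 := by
      intro i
      by_contra hi
      have := hmemΛ i hi
      rw [hemp] at this
      exact absurd this (Finset.notMem_empty _)
    have h2 : ∀ q ∈ U, f q = (fun q => ∑ i, (1 : ℝ) • x i q) q := by
      intro q hq
      rw [hf q hq]
      simp
    rw [lap_congr S h2 p hp, lap_sum S x (fun _ => 1) hx p hp]
    refine Finset.sum_eq_zero fun i _ => ?_
    rw [he i p hp, h1 i, zero_smul, smul_zero]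
  · right
    obtain ⟨k, hk⟩ : ∃ k, Λ.card = k + 1 := by
      have : Λ.card ≠ 0 := by rwa [Ne, Finset.card_eq_zero]
      exact Nat.exists_eq_succ_of_ne_zero this
    set P : Polynomial ℝ := ∏ t ∈ Λ, (Polynomial.X - Polynomial.C t) with hP
    have hmonic : P.Monic := Polynomial.monic_prod_of_monic _ _ fun t _ => Polynomial.monic_X_sub_C t
    have hdeg : P.natDegree = k + 1 := by
      rw [hP, Polynomial.natDegree_prod_of_monic _ _ fun t _ => Polynomial.monic_X_sub_C t]
      simp [hk]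
    refine ⟨k, fun j => -P.coeff j, ?_⟩
    intro Y h0 h1 p hp
    have hroot : ∀ i, lam i ^ (k + 2) = ∑ j : Fin (k + 1), -P.coeff j * lam i ^ (j.1 + 1) := by
      intro i
      by_cases hi : lam i = 0
      · rw [hi]
        rw [zero_pow (by omega)]
        refine (Finset.sum_eq_zero fun j _ => ?_).symm
        rw [zero_pow (by omega), mul_zero]
      · have hz : P.eval (lam i) = 0 := by
          rw [hP, Polynomial.eval_prod]
          refine Finset.prod_eq_zero (hmemΛ i hi) ?_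
          simp
        rw [Polynomial.eval_eq_sum_range, hdeg, Finset.sum_range_succ] at hz
        have hc : P.coeff (k + 1) = 1 := by rw [← hdeg]; exact hmonic
        rw [hc, one_mul] at hz
        have h3 : ∑ j : Fin (k + 1), -P.coeff j * lam i ^ (j.1 + 1) =
            -(∑ j ∈ Finset.range (k + 1), P.coeff j * lam i ^ j) * lam i := by
          rw [Finset.sum_range, ← Finset.sum_neg_distrib, Finset.sum_mul]
          refine Finset.sum_congr rfl fun j _ => ?_
          rw [pow_succ]; ring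
        rw [h3]
        rw [show k + 2 = (k + 1) + 1 by ring, pow_succ]
        have h4 : lam i ^ (k + 1) = -(∑ j ∈ Finset.range (k + 1), P.coeff j * lam i ^ j) := by
          linarith
        rw [h4]
    rw [hpow Y h0 h1 (k + 2) p hp]
    have h5 : ∀ j : Fin (k + 1), (-P.coeff j) • Y (j.1 + 1) p =
        ∑ i, (-P.coeff j * lam i ^ (j.1 + 1)) • x i p := by
      intro j
      rw [hpow Y h0 h1 (j.1 + 1) p hp, Finset.smul_sum]
      exact Finset.sum_congr rfl fun i _ => by rw [smul_smul]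
    rw [Finset.sum_congr rfl fun j _ => h5 j, Finset.sum_comm]
    refine Finset.sum_congr rfl fun i _ => ?_
    rw [hroot i, Finset.sum_smul]

end Pool.Agent.Helper44.FT
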