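import Mathlib

/-!
# Block FT-R2: the Laplace operator of a surface of revolution

`Sf U f E F G L` collects the hypotheses of the frozen statement S12701. For a surface of revolution over a unit speed profile
`(r, z)`: `E = 1`, `F = 0`, `G = r²` on `U`, so `L φ = -(1/r) (∂_s (r φ_s) + ∂_θ (φ_θ / r))` on `U`. (All functions are smooth near the points of the open set `U`; `fderiv` is local: `Filter.EventuallyEq.fderiv_eq`.)
(a) `lap_congr`: `L φ` at a point of the open set `U` depends only on `φ` on `U`. (b) `lap_sum`: linearity of `fderiv` (twice) for functions smooth on `U` (for these two claims only `ContDiffOn f U` and the linear independence, so `E G - F² > 0`, are used; the coefficients `E, F, G` are smooth on `U`; `Real.sqrt` is smooth at positive arguments).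
-/

namespace Pool.Agent.Helper44.FT

/-- The hypotheses of the frozen statement on the immersion and its Laplace operator. -/
structure Sf (U : Set (ℝ × ℝ)) (f : ℝ × ℝ → EuclideanSpace ℝ (Fin 3)) (E F G : ℝ × ℝ → ℝ)
    (L : (ℝ × ℝ → EuclideanSpace ℝ (Fin 3)) → ℝ × ℝ → EuclideanSpace ℝ (Fin 3)) : Prop where
  opn : IsOpen U
  smooth : ContDiffOn ℝ ((⊤ : ℕ∞) : WithTop ℕ∞) f U
  indep : ∀ p ∈ U, LinearIndependent ℝ
      ![fderiv ℝ f p ((1:ℝ), (0:ℝ)), fderiv ℝ f p ((0:ℝ), (1:ℝ))]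
  hE : ∀ p, E p = inner ℝ (fderiv ℝ f p ((1:ℝ), (0:ℝ))) (fderiv ℝ f p ((1:ℝ), (0:ℝ)))
  hF : ∀ p, F p = inner ℝ (fderiv ℝ f p ((1:ℝ), (0:ℝ))) (fderiv ℝ f p ((0:ℝ), (1:ℝ)))
  hG : ∀ p, G p = inner ℝ (fderiv ℝ f p ((0:ℝ), (1:ℝ))) (fderiv ℝ f p ((0:ℝ), (1:ℝ)))
  hL : ∀ (φ : ℝ × ℝ → EuclideanSpace ℝ (Fin 3)) (p : ℝ × ℝ),
      L φ p = -(Real.sqrt (E p * G p - F p ^ 2))⁻¹ •
        (fderiv ℝ (fun q => (Real.sqrt (E q * G q - F q ^ 2))⁻¹ •
            (G q • fderiv ℝ φ q ((1:ℝ), (0:ℝ)) - F q • fderiv ℝ φ q ((0:ℝ), (1:ℝ))))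
            p ((1:ℝ), (0:ℝ)) +
         fderiv ℝ (fun q => (Real.sqrt (E q * G q - F q ^ 2))⁻¹ •
            (E q • fderiv ℝ φ q ((0:ℝ), (1:ℝ)) - F q • fderiv ℝ φ q ((1:ℝ), (0:ℝ))))
            p ((0:ℝ), (1:ℝ)))

/-- The Gram determinant is positive at the points of `U`. -/
theorem Sf.det_pos {U : Set (ℝ × ℝ)} {f : ℝ × ℝ → EuclideanSpace ℝ (Fin 3)} {E F G : ℝ × ℝ → ℝ}
    {L : (ℝ × ℝ → EuclideanSpace ℝ (Fin 3)) → ℝ × ℝ → EuclideanSpace ℝ (Fin 3)}
    (S : Sf U f E F G L) {p : ℝ × ℝ} (hp : p ∈ U) : 0 < E p * G p - F p ^ 2 := by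
  have hli := S.indep p hp
  rw [LinearIndependent.pair_iff] at hli
  rw [S.hE p, S.hF p, S.hG p]
  generalize fderiv ℝ f p ((1:ℝ), (0:ℝ)) = a at hli ⊢
  generalize fderiv ℝ f p ((0:ℝ), (1:ℝ)) = b at hli ⊢
  have hb : b ≠ 0 := by
    intro h
    have := (hli 0 1 (by simp [h])).2
    exact one_ne_zero this
  have hG : 0 < inner ℝ b b := real_inner_self_pos.2 hb
  have hw : inner ℝ b b • a - inner ℝ a b • b ≠ 0 := by
    intro h
    have := (hli (inner ℝ b b) (-inner ℝ a b) (by rw [neg_smul, ← sub_eq_add_neg]; exact h)).1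
    exact hG.ne' this
  have h1 : 0 < inner ℝ (inner ℝ b b • a - inner ℝ a b • b) (inner ℝ b b • a - inner ℝ a b • b) :=
    real_inner_self_pos.2 hw
  have h2 : inner ℝ (inner ℝ b b • a - inner ℝ a b • b) (inner ℝ b b • a - inner ℝ a b • b)
      = inner ℝ b b * (inner ℝ a a * inner ℝ b b - inner ℝ a b ^ 2) := by
    simp only [inner_sub_left, inner_sub_right, real_inner_smul_left, real_inner_smul_right]
    rw [real_inner_comm a b]
    ring
  rw [h2] at h1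
  exact (mul_pos_iff_of_pos_left hG).1 h1

/-- Partial derivatives of a smooth map are smooth. -/
theorem contDiffAt_partial {φ : ℝ × ℝ → EuclideanSpace ℝ (Fin 3)} {p : ℝ × ℝ}
    (h : ContDiffAt ℝ ((⊤ : ℕ∞) : WithTop ℕ∞) φ p) (v : ℝ × ℝ) :
    ContDiffAt ℝ 1 (fun q => fderiv ℝ φ q v) p := by
  have h1 : ContDiffAt ℝ 1 (fderiv ℝ φ) p := by
    refine (h.of_le ?_).fderiv_right (m := 1) (n := 2) ?_
    · exact WithTop.coe_le_coe.2 (le_top : (2 : ℕ∞) ≤ ⊤)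
    · norm_num
  exact h1.clm_apply contDiffAt_const

theorem lap_congr {U : Set (ℝ × ℝ)} {f : ℝ × ℝ → EuclideanSpace ℝ (Fin 3)} {E F G : ℝ × ℝ → ℝ}
    {L : (ℝ × ℝ → EuclideanSpace ℝ (Fin 3)) → ℝ × ℝ → EuclideanSpace ℝ (Fin 3)}
    (S : Sf U f E F G L) {φ ψ : ℝ × ℝ → EuclideanSpace ℝ (Fin 3)} (h : ∀ p ∈ U, φ p = ψ p) :
    ∀ p ∈ U, L φ p = L ψ p := by
  intro p hp
  have hd : ∀ q ∈ U, fderiv ℝ φ q = fderiv ℝ ψ q := fun q hq =>
    Filter.EventuallyEq.fderiv_eq (Filter.eventually_of_mem (S.opn.mem_nhds hq) h)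
  rw [S.hL φ p, S.hL ψ p]
  have h1 : fderiv ℝ (fun q => (Real.sqrt (E q * G q - F q ^ 2))⁻¹ •
            (G q • fderiv ℝ φ q ((1:ℝ), (0:ℝ)) - F q • fderiv ℝ φ q ((0:ℝ), (1:ℝ)))) p =
      fderiv ℝ (fun q => (Real.sqrt (E q * G q - F q ^ 2))⁻¹ •
            (G q • fderiv ℝ ψ q ((1:ℝ), (0:ℝ)) - F q • fderiv ℝ ψ q ((0:ℝ), (1:ℝ)))) p := by
    apply Filter.EventuallyEq.fderiv_eq
    filter_upwards [S.opn.mem_nhds hp] with q hq
    rw [hd q hq]
  have h2 : fderiv ℝ (fun q => (Real.sqrt (E q * G q - F q ^ 2))⁻¹ •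
            (E q • fderiv ℝ φ q ((0:ℝ), (1:ℝ)) - F q • fderiv ℝ φ q ((1:ℝ), (0:ℝ)))) p =
      fderiv ℝ (fun q => (Real.sqrt (E q * G q - F q ^ 2))⁻¹ •
            (E q • fderiv ℝ ψ q ((0:ℝ), (1:ℝ)) - F q • fderiv ℝ ψ q ((1:ℝ), (0:ℝ)))) p := by
    apply Filter.EventuallyEq.fderiv_eq
    filter_upwards [S.opn.mem_nhds hp] with q hq
    rw [hd q hq]
  rw [h1, h2]

theorem lap_sum {U : Set (ℝ × ℝ)} {f : ℝ × ℝ → EuclideanSpace ℝ (Fin 3)} {E F G : ℝ × ℝ → ℝ}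
    {L : (ℝ × ℝ → EuclideanSpace ℝ (Fin 3)) → ℝ × ℝ → EuclideanSpace ℝ (Fin 3)}
    (S : Sf U f E F G L) {m : ℕ} (x : Fin m → ℝ × ℝ → EuclideanSpace ℝ (Fin 3)) (c : Fin m → ℝ)
    (hx : ∀ i, ContDiffOn ℝ ((⊤ : ℕ∞) : WithTop ℕ∞) (x i) U) :
    ∀ p ∈ U, L (fun q => ∑ i, c i • x i q) p = ∑ i, c i • L (x i) p := by
  intro p hp
  have hxa : ∀ i, ∀ q ∈ U, ContDiffAt ℝ ((⊤ : ℕ∞) : WithTop ℕ∞) (x i) q := fun i q hq =>
    (hx i).contDiffAt (S.opn.mem_nhds hq)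
  have hfa : ContDiffAt ℝ ((⊤ : ℕ∞) : WithTop ℕ∞) f p := S.smooth.contDiffAt (S.opn.mem_nhds hp)
  have hd : ∀ q ∈ U, fderiv ℝ (fun q => ∑ i, c i • x i q) q = ∑ i, c i • fderiv ℝ (x i) q := by
    intro q hq
    rw [fderiv_fun_sum]
    · refine Finset.sum_congr rfl fun i _ => ?_
      rw [fderiv_fun_const_smul]
      exact ((hxa i q hq).differentiableAt (by simp))
    · intro i _
      exact ((hxa i q hq).differentiableAt (by simp)).fun_const_smul (c i)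
  have hE1 : ContDiffAt ℝ 1 E p := by
    have : E = fun p => inner ℝ (fderiv ℝ f p ((1:ℝ), (0:ℝ))) (fderiv ℝ f p ((1:ℝ), (0:ℝ))) :=
      funext S.hE
    rw [this]
    exact (contDiffAt_partial hfa _).inner ℝ (contDiffAt_partial hfa _)
  have hF1 : ContDiffAt ℝ 1 F p := by
    have : F = fun p => inner ℝ (fderiv ℝ f p ((1:ℝ), (0:ℝ))) (fderiv ℝ f p ((0:ℝ), (1:ℝ))) :=
      funext S.hF
    rw [this]
    exact (contDiffAt_partial hfa _).inner ℝ (contDiffAt_partial hfa _)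
  have hG1 : ContDiffAt ℝ 1 G p := by
    have : G = fun p => inner ℝ (fderiv ℝ f p ((0:ℝ), (1:ℝ))) (fderiv ℝ f p ((0:ℝ), (1:ℝ))) :=
      funext S.hG
    rw [this]
    exact (contDiffAt_partial hfa _).inner ℝ (contDiffAt_partial hfa _)
  have hR : ContDiffAt ℝ 1 (fun q => (Real.sqrt (E q * G q - F q ^ 2))⁻¹) p := by
    have hpos := S.det_pos hp
    refine ContDiffAt.inv (((hE1.mul hG1).sub (hF1.pow 2)).sqrt hpos.ne') ?_
    exact (Real.sqrt_pos.2 hpos).ne'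
  have key : ∀ (A B : ℝ × ℝ → ℝ) (u w : ℝ × ℝ), ContDiffAt ℝ 1 A p → ContDiffAt ℝ 1 B p →
      ∀ t : ℝ × ℝ, fderiv ℝ (fun q => (Real.sqrt (E q * G q - F q ^ 2))⁻¹ •
          (A q • fderiv ℝ (fun q => ∑ i, c i • x i q) q u -
            B q • fderiv ℝ (fun q => ∑ i, c i • x i q) q w)) p t =
        ∑ i, c i • fderiv ℝ (fun q => (Real.sqrt (E q * G q - F q ^ 2))⁻¹ •
          (A q • fderiv ℝ (x i) q u - B q • fderiv ℝ (x i) q w)) p t := by
    intro A B u w hA hB t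
    have hi : ∀ i, DifferentiableAt ℝ (fun q => (Real.sqrt (E q * G q - F q ^ 2))⁻¹ •
          (A q • fderiv ℝ (x i) q u - B q • fderiv ℝ (x i) q w)) p := by
      intro i
      have := hR.smul ((hA.smul (contDiffAt_partial (hxa i p hp) u)).sub
        (hB.smul (contDiffAt_partial (hxa i p hp) w)))
      exact this.differentiableAt (by simp)
    have he : (fun q => (Real.sqrt (E q * G q - F q ^ 2))⁻¹ •
          (A q • fderiv ℝ (fun q => ∑ i, c i • x i q) q u -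
            B q • fderiv ℝ (fun q => ∑ i, c i • x i q) q w)) =ᶠ[nhds p]
        (fun q => ∑ i, c i • ((Real.sqrt (E q * G q - F q ^ 2))⁻¹ •
          (A q • fderiv ℝ (x i) q u - B q • fderiv ℝ (x i) q w))) := by
      filter_upwards [S.opn.mem_nhds hp] with q hq
      rw [hd q hq]
      simp only [_root_.sum_apply, _root_.smul_apply, Finset.smul_sum]
      rw [← Finset.sum_sub_distrib, Finset.smul_sum]
      refine Finset.sum_congr rfl fun i _ => ?_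
      rw [smul_comm (A q) (c i), smul_comm (B q) (c i), ← smul_sub, smul_comm]
    rw [he.fderiv_eq, fderiv_fun_sum fun i _ => (hi i).fun_const_smul (c i)]
    simp only [_root_.sum_apply]
    refine Finset.sum_congr rfl fun i _ => ?_
    rw [fderiv_fun_const_smul (hi i)]
    rfl
  rw [S.hL, key G F _ _ hG1 hF1, key E F _ _ hE1 hF1]
  simp only [S.hL (x _) p]
  rw [← Finset.sum_add_distrib, Finset.smul_sum]
  refine Finset.sum_congr rfl fun i _ => ?_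
  rw [← smul_add, smul_comm]

end Pool.Agent.Helper44.FT
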