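import Pool.Agent.Helper44.FT.Vf

/-!
# The neighbourhood of the axis (definitions and formulas)
-/

namespace Pool.Agent.Helper44.FT

open MvPolynomial

variable {k : ℕ}

/-- `2 i` times the vertical component of `Y_n`, divided by `f`. -/
noncomputable def UU (n : Fin (k + 1)) : MvPolynomial (Va k) ℂ := X (.a n) * X .z - X (.b n) * X .e

/-- the same for the derivative of the vertical component -/
noncomputable def PP (n : Fin (k + 1)) : MvPolynomial (Va k) ℂ := X (.al n) * X .z - X (.be n) * X .e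

theorem dv_UU (n : Fin (k + 1)) : dv (vf k) (UU n) = PP n - mm k * UU n := by
  have hC : (C (1 / 2) : MvPolynomial (Va k) ℂ) + C (1 / 2) = 1 := by
    rw [← C_add]; norm_num
  simp only [UU, PP, map_sub, dv_mul, dv_X, vf, KK, LL, mm]
  linear_combination (X (.a n) * X .z * X .z - X (.b n) * X .e * X .e) * hC

theorem dv_PP (n : Fin (k + 1)) : dv (vf k) (PP n) =
    -(2 * mm k * PP n) - nx (fun n => UU n) (∑ j, X (.c j) * UU j) n := by
  have hC : (C (1 / 2) : MvPolynomial (Va k) ℂ) + C (1 / 2) = 1 := by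
    rw [← C_add]; norm_num
  have hn : (nx (fun n => UU n) (∑ j, X (.c j) * UU j) n : MvPolynomial (Va k) ℂ) =
      nx (fun n => X (.a n)) (∑ j, X (.c j) * X (.a j)) n * X .z -
        nx (fun n => X (.b n)) (∑ j, X (.c j) * X (.b j)) n * X .e := by
    unfold nx
    split_ifs
    · rfl
    · simp only [UU, Finset.sum_mul, mul_sub, Finset.sum_sub_distrib]
      congr 1
      · exact Finset.sum_congr rfl fun _ _ => by ring
      · exact Finset.sum_congr rfl fun _ _ => by ring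
  rw [hn]
  simp only [PP, map_sub, dv_mul, dv_X, vf, KK, LL, mm]
  linear_combination (X (.al n) * X .z * X .z - X (.be n) * X .e * X .e) * hC

theorem dv_ze : dv (vf k) (X .z * X .e) =
    -(2 * mm k * (X .z * X .e)) - X .d * G0 k * (X .z * X .e) := by
  have hC : (C (1 / 2) : MvPolynomial (Va k) ℂ) + C (1 / 2) = 1 := by
    rw [← C_add]; norm_num
  simp only [dv_mul, dv_X, vf, mm, G0]
  linear_combination (X .z + X .e) * (X .z * X .e) * hC

theorem dv_zme : dv (vf k) (X .z - X .e) = -(2 * mm k * (X .z - X .e)) - X .d * UU 0 := by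
  have hC : (C (1 / 2) : MvPolynomial (Va k) ℂ) + C (1 / 2) = 1 := by
    rw [← C_add]; norm_num
  simp only [map_sub, dv_X, vf, mm, UU]
  linear_combination (X .z + X .e) * (X .z - X .e) * hC

/-- Points near the axis: `x.2` is the radius. -/
def Nr (c0 : Fin (k + 1) → ℂ) (r : ℝ) : Set ((Va k → ℂ) × ℂ) :=
  {x | x.1 ∈ W k ∧ Par c0 x.1 ∧ ¬ Z0 x.1 ∧ x.2 ^ 2 * (x.1 .z * x.1 .e) = 1 ∧ ‖x.2‖ ≤ r ∧
    ‖x.2 * x.1 .z - 1‖ ≤ 1 / 8 ∧ ‖x.2 * x.1 .e - 1‖ ≤ 1 / 8}

/-- Local flow with `log f` as time. -/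
structure StepD (c0 : Fin (k + 1) → ℂ) (r0 w0 : ℝ) : Prop where
  r_pos : 0 < r0
  r_le : r0 ≤ 1
  w_pos : 0 < w0
  w_le : w0 ≤ 1
  step : ∀ x ∈ Nr c0 r0, ∃ g : ℂ → Va k → ℂ, g 0 = x.1 ∧ ∀ w : ℂ, ‖w‖ < w0 →
    (∀ F : MvPolynomial (Va k) ℂ, HasDerivAt (fun w => eval (g w) F)
      (eval (g w) (dv (vf k) F) / eval (g w) (mm k)) w) ∧
    (‖x.2 * Complex.exp w‖ ≤ r0 → (g w, x.2 * Complex.exp w) ∈ Nr c0 r0)

end Pool.Agent.Helper44.FT
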