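import Pool.Agent.Helper44.FT.LinZ

/-!
# Block FT-LT: points of `W` with `d = 0`, `c = 0` which are not `Z0` have `z = e`

Proof. Suppose `p ∈ W`, `Lin p`, not `Z0 p`, `z ≠ e`. By `lin_z`, `lin_e` `z, e ≠ 0`. Let `X` be the set of all `p ∈ W` with `Lin p`, not `Z0 p`, `p e = 1` and `‖p i‖ ≤ 1` for the variables of type `a, al, b, be`.
(1) There is `M` with `1/M ≤ ‖p z‖ ≤ M` on `X`: otherwise take `p_j ∈ X` with `p_j z → 0`, and `ms (1/m_j) p_j`, `m_j` the maximum of `‖p_j i‖` over these variables; a subsequence converges to a point of `W` (`W_closed`) with `Lin`, `z = 0`, `e = 1`, not `Z0`: contradicts `lin_z`. If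
`‖p_j z‖ → ∞`, apply first `sc (p_j z)⁻¹` and use `lin_e`. (`ms m` does not change `Lin`, as `d = 0`.) (2) So `X` is bounded, and there is `r ∈ (0,1)` such that for `p ∈ X`, `‖t‖ < r`, `q = fl t p` is defined (`FlowOn`, radius `M + 2`), in `W`, `Lin`, not `Z0` (`fl_not_Z0`), and `z' = -z²`,
`e' = -e²` along the flow (`d = 0`), so `1 / q z = 1 / p z + t`, `1 / q e = 1 + t` (`z`, `e` have no zero: `fl_z_ne`). (3) Apply `sc (q e)⁻¹` and `ms` with a small positive number: we get a point `q' ∈ X` with `1 / q' z - 1 = (1 / p z - 1) / (1 + t)`. With `t = -r/2` and iteration: `‖1/z - 1‖`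
becomes arbitrarily large (if it is not `0`), contradicting (1).
-/

namespace Pool.Agent.Helper44.FT

open MvPolynomial

namespace LinT

variable {k : ℕ}

/-- The part of type `a, al, b, be`. -/
def yp (p : Va k → ℂ) : Va k → ℂ
  | .c _ => 0
  | .d => 0
  | .z => 0
  | .e => 0
  | .a n => p (.a n)
  | .al n => p (.al n)
  | .b n => p (.b n)
  | .be n => p (.be n)

theorem yp_zero_iff (p : Va k → ℂ) : yp p = 0 ↔ Z0 p := by
  constructor
  · intro h n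
    refine ⟨?_, ?_, ?_, ?_⟩
    · simpa [yp] using congrFun h (.a n)
    · simpa [yp] using congrFun h (.al n)
    · simpa [yp] using congrFun h (.b n)
    · simpa [yp] using congrFun h (.be n)
  · intro h
    funext i
    cases i with
    | c j => rfl
    | d => rfl
    | z => rfl
    | e => rfl
    | a n => exact (h n).1
    | al n => exact (h n).2.1
    | b n => exact (h n).2.2.1
    | be n => exact (h n).2.2.2

theorem yp_pos {p : Va k → ℂ} (h : ¬ Z0 p) : 0 < ‖yp p‖ := by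
  rw [norm_pos_iff]
  intro h'
  exact h ((yp_zero_iff p).1 h')

theorem yp_ms (m : ℂ) (p : Va k → ℂ) : yp (ms m p) = m • yp p := by
  funext i
  cases i <;> simp [yp, ms]

theorem yp_cont : Continuous (yp : (Va k → ℂ) → (Va k → ℂ)) := by
  rw [continuous_pi_iff]
  intro i
  cases i <;> simp only [yp] <;> fun_prop

theorem ms_Lin {p : Va k → ℂ} (h : Lin p) (m : ℂ) : Lin (ms m p) := by
  refine ⟨?_, fun j => ?_⟩
  · simp [ms, h.1]
  · simp [ms, h.2 j]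

theorem sc_Lin {p : Va k → ℂ} (h : Lin p) (l : ℂ) : Lin (sc l p) := by
  refine ⟨?_, fun j => ?_⟩
  · simp [sc, h.1]
  · simp [sc, h.2 j]

theorem sc_not_Z0 {p : Va k → ℂ} (h : ¬ Z0 p) {l : ℂ} (hl : l ≠ 0) : ¬ Z0 (sc l p) := by
  intro h'
  apply h
  intro n
  have hh := h' n
  simp only [sc, mul_eq_zero, pow_eq_zero_iff', hl, false_and, false_or, ne_eq] at hh
  exact hh

theorem sw_Lin {p : Va k → ℂ} (h : Lin p) : Lin (sw p) := by
  refine ⟨?_, fun j => ?_⟩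
  · simp [sw, h.1]
  · simp [sw, h.2 j]

theorem sw_not_Z0 {p : Va k → ℂ} (h : ¬ Z0 p) : ¬ Z0 (sw p) := by
  intro h'
  apply h
  intro n
  have hh := h' n
  simp only [sw] at hh
  exact ⟨hh.2.2.1, hh.2.2.2, hh.1, hh.2.1⟩

/-- Normalisation of the part of type `a, al, b, be`. -/
theorem exists_ms {p : Va k → ℂ} (hp : p ∈ W k) (hl : Lin p) (hZ : ¬ Z0 p) :
    ∃ q ∈ W k, Lin q ∧ ‖yp q‖ = 1 ∧ q .z = p .z ∧ q .e = p .e := by
  have h0 := yp_pos hZ
  have hm : ((‖yp p‖⁻¹ : ℝ) : ℂ) ≠ 0 := by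
    exact_mod_cast (inv_pos.2 h0).ne'
  refine ⟨ms ((‖yp p‖⁻¹ : ℝ) : ℂ) p, W_ms hp hm, ms_Lin hl _, ?_, rfl, rfl⟩
  rw [yp_ms, norm_smul, Complex.norm_real, Real.norm_eq_abs, abs_of_pos (inv_pos.2 h0),
    inv_mul_cancel₀ h0.ne']

theorem not_Z0_of {p : Va k → ℂ} (h : ‖yp p‖ = 1) : ¬ Z0 p := by
  intro h'
  rw [(yp_zero_iff p).2 h', norm_zero] at h
  exact zero_ne_one h

theorem norm_le_of {p : Va k → ℂ} (hl : Lin p) (hy : ‖yp p‖ = 1) (he : p .e = 1) {M : ℝ}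
    (hM : 1 ≤ M) (hz : ‖p .z‖ ≤ M) : ‖p‖ ≤ M := by
  rw [pi_norm_le_iff_of_nonneg (by linarith)]
  have hy' : ∀ i, ‖yp p i‖ ≤ M := fun i => (norm_le_pi_norm (yp p) i).trans (hy.le.trans hM)
  intro i
  cases i with
  | c j => rw [hl.2 j, norm_zero]; linarith
  | d => rw [hl.1, norm_zero]; linarith
  | z => exact hz
  | e => rw [he, norm_one]; exact hM
  | a n => exact hy' (.a n)
  | al n => exact hy' (.al n)
  | b n => exact hy' (.b n)
  | be n => exact hy' (.be n)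

theorem low (k : ℕ) : ∃ δ : ℝ, 0 < δ ∧ δ ≤ 1 ∧ ∀ p ∈ W k, Lin p → ¬ Z0 p → p .e = 1 →
    δ ≤ ‖p .z‖ := by
  set K : Set (Va k → ℂ) := {p | p ∈ W k ∧ Lin p ∧ ‖yp p‖ = 1 ∧ p .e = 1 ∧ ‖p .z‖ ≤ 1} with hK
  have hKc : IsCompact K := by
    refine (isCompact_closedBall (0 : Va k → ℂ) 1).of_isClosed_subset ?_ ?_
    · have h1 : IsClosed {p : Va k → ℂ | Lin p} := by
        have : {p : Va k → ℂ | Lin p} = {p | p .d = 0} ∩ ⋂ j, {p | p (.c j) = 0} := by
          ext p; simp [Lin]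
        rw [this]
        refine IsClosed.inter (isClosed_eq (continuous_apply _) continuous_const) ?_
        exact isClosed_iInter fun j => isClosed_eq (continuous_apply _) continuous_const
      have h2 : IsClosed {p : Va k → ℂ | ‖yp p‖ = 1} :=
        isClosed_eq yp_cont.norm continuous_const
      have h3 : IsClosed {p : Va k → ℂ | p .e = 1} :=
        isClosed_eq (continuous_apply _) continuous_const
      have h4 : IsClosed {p : Va k → ℂ | ‖p .z‖ ≤ 1} :=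
        isClosed_le (continuous_apply _).norm continuous_const
      exact (W_closed k).inter (h1.inter (h2.inter (h3.inter h4)))
    · rintro p ⟨_, hl, hy, he, hz⟩
      rw [mem_closedBall_zero_iff]
      exact norm_le_of hl hy he le_rfl hz
  rcases K.eq_empty_or_nonempty with hE | hN
  · refine ⟨1, one_pos, le_rfl, fun p hp hl hZ he => ?_⟩
    by_contra hlt
    push Not at hlt
    obtain ⟨q, hq, hql, hqy, hqz, hqe⟩ := exists_ms hp hl hZ
    have : q ∈ K := ⟨hq, hql, hqy, by rw [hqe, he], by rw [hqz]; exact hlt.le⟩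
    rw [hE] at this
    exact this
  · obtain ⟨q0, hq0, hmin⟩ := hKc.exists_isMinOn hN
      ((continuous_apply (Va.z : Va k)).norm.continuousOn (s := K))
    have hq0z : q0 .z ≠ 0 := by
      intro h0
      exact not_Z0_of hq0.2.2.1 (lin_z hq0.1 hq0.2.1 h0 (by rw [hq0.2.2.2.1]; exact one_ne_zero))
    refine ⟨‖q0 .z‖, norm_pos_iff.2 hq0z, hq0.2.2.2.2, fun p hp hl hZ he => ?_⟩
    by_contra hlt
    push Not at hlt
    obtain ⟨q, hq, hql, hqy, hqz, hqe⟩ := exists_ms hp hl hZ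
    have hqK : q ∈ K := ⟨hq, hql, hqy, by rw [hqe, he],
      by rw [hqz]; exact hlt.le.trans hq0.2.2.2.2⟩
    have h1 : ‖q0 .z‖ ≤ ‖q .z‖ := hmin hqK
    rw [hqz] at h1
    linarith

theorem high (k : ℕ) : ∃ M : ℝ, 1 ≤ M ∧ ∀ p ∈ W k, Lin p → ¬ Z0 p → p .e = 1 →
    ‖p .z‖ ≤ M ∧ ‖(p .z)⁻¹‖ ≤ M := by
  obtain ⟨δ, hδ, hδ1, h⟩ := low k
  refine ⟨δ⁻¹, (one_le_inv₀ hδ).2 hδ1, fun p hp hl hZ he => ?_⟩
  have hz := h p hp hl hZ he
  have hz0 : p .z ≠ 0 := norm_pos_iff.1 (hδ.trans_le hz)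
  constructor
  · have h2 := h (sc (p .z)⁻¹ (sw p)) (W_sc (W_sw hp) _) (sc_Lin (sw_Lin hl) _)
      (sc_not_Z0 (sw_not_Z0 hZ) (inv_ne_zero hz0))
      (by simp only [sc, sw, wt, pow_one]; exact inv_mul_cancel₀ hz0)
    simp only [sc, sw, wt, pow_one, he, mul_one, norm_inv] at h2
    rw [le_inv_comm₀ hδ (norm_pos_iff.2 hz0)] at h2
    exact h2
  · rw [norm_inv]
    exact inv_anti₀ hδ hz

/-- Along the flow `1 / x` grows like `t` if `x' = - x²`. -/
theorem inv_flow {r : ℝ} {x : ℂ → ℂ} (hx : ∀ t : ℂ, ‖t‖ < r → HasDerivAt x (-(x t * x t)) t)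
    (h0 : ∀ t : ℂ, ‖t‖ < r → x t ≠ 0) {t : ℂ} (ht : ‖t‖ < r) : (x t)⁻¹ = (x 0)⁻¹ + t := by
  have hd : ∀ s ∈ Metric.ball (0 : ℂ) r, HasDerivWithinAt (fun s => (x s)⁻¹ - s) 0
      (Metric.ball (0 : ℂ) r) s := by
    intro s hs
    rw [mem_ball_zero_iff] at hs
    have h1 := ((hx s hs).inv (h0 s hs)).sub (hasDerivAt_id s)
    have h2 : -(-(x s * x s)) / x s ^ 2 - 1 = 0 := by
      have := h0 s hs
      field_simp
      ring
    rw [h2] at h1
    exact h1.hasDerivWithinAt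
  have h0r : (0 : ℂ) ∈ Metric.ball (0 : ℂ) r := by
    rw [mem_ball_zero_iff, norm_zero]
    exact (norm_nonneg t).trans_lt ht
  have htr : t ∈ Metric.ball (0 : ℂ) r := by rwa [mem_ball_zero_iff]
  have h3 := (convex_ball (0 : ℂ) r).norm_image_sub_le_of_norm_hasDerivWithin_le (C := 0) hd
    (fun s _ => by simp) h0r htr
  rw [zero_mul, norm_le_zero_iff, sub_eq_zero] at h3
  have h4 : (x t)⁻¹ - t = (x 0)⁻¹ - 0 := h3
  linear_combination h4

theorem step (k : ℕ) : ∃ l : ℝ, 1 < l ∧ ∀ p ∈ W k, Lin p → ‖yp p‖ = 1 → p .e = 1 →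
    ∃ q ∈ W k, Lin q ∧ ‖yp q‖ = 1 ∧ q .e = 1 ∧ (q .z)⁻¹ - 1 = l * ((p .z)⁻¹ - 1) := by
  obtain ⟨M, hM1, hM⟩ := high k
  obtain ⟨r1, C, hC, hF⟩ := exists_flowOn (vf k) M
  obtain ⟨r2, hr2, h2⟩ := fl_not_Z0 k M
  obtain ⟨r3, hr3, h3⟩ := fl_z_ne k M
  obtain ⟨r4, hr4, h4⟩ := fl_e_ne k M
  have hr1 := hF.pos
  set r : ℝ := min (min r1 r2) (min (min r3 r4) 1) with hr
  have hr0 : 0 < r := by
    rw [hr]
    exact lt_min (lt_min hr1 hr2) (lt_min (lt_min hr3 hr4) one_pos)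
  have hr1' : r ≤ r1 := (min_le_left _ _).trans (min_le_left _ _)
  have hr2' : r ≤ r2 := (min_le_left _ _).trans (min_le_right _ _)
  have hr3' : r ≤ r3 := (min_le_right _ _).trans ((min_le_left _ _).trans (min_le_left _ _))
  have hr4' : r ≤ r4 := (min_le_right _ _).trans ((min_le_left _ _).trans (min_le_right _ _))
  have hr5' : r ≤ 1 := (min_le_right _ _).trans (min_le_right _ _)
  refine ⟨(1 - r / 2)⁻¹, ?_, ?_⟩
  · rw [one_lt_inv₀ (by linarith)]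
    linarith
  intro p hp hl hy he
  have hZ := not_Z0_of hy
  have hpM := (hM p hp hl hZ he).1
  have hpR : ‖p‖ ≤ M := norm_le_of hl hy he hM1 hpM
  have hz0 : p .z ≠ 0 := by
    intro h0
    exact hZ (lin_z hp hl h0 (by rw [he]; exact one_ne_zero))
  have he0 : p .e ≠ 0 := by rw [he]; exact one_ne_zero
  have hd : ∀ t : ℂ, ‖t‖ < r → fl (vf k) t p .d = 0 := fun t ht => by
    rw [fl_d hF hpR (ht.trans_le hr1'), hl.1]
  have hf0 : fl (vf k) 0 p = p := fl_zero _ _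
  have hz : ∀ t : ℂ, ‖t‖ < r → (fl (vf k) t p .z)⁻¹ = (p .z)⁻¹ + t := by
    intro t ht
    have := inv_flow (r := r) (x := fun t => fl (vf k) t p .z) (fun s hs => ?_)
      (fun s hs => h3 p hpR s (hs.trans_le hr3') hz0) ht
    · simpa only [hf0] using this
    · have h5 := hF.deriv p hpR s (hs.trans_le hr1') (X .z)
      rw [dv_X, ev_z, hd s hs] at h5
      simpa only [eval_X, zero_mul, sub_zero] using h5
  have he' : ∀ t : ℂ, ‖t‖ < r → (fl (vf k) t p .e)⁻¹ = (p .e)⁻¹ + t := by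
    intro t ht
    have := inv_flow (r := r) (x := fun t => fl (vf k) t p .e) (fun s hs => ?_)
      (fun s hs => h4 p hpR s (hs.trans_le hr4') he0) ht
    · simpa only [hf0] using this
    · have h5 := hF.deriv p hpR s (hs.trans_le hr1') (X .e)
      rw [dv_X, ev_e, hd s hs] at h5
      simpa only [eval_X, zero_mul, sub_zero] using h5
  set t : ℂ := ((-(r / 2) : ℝ) : ℂ) with htdef
  have ht : ‖t‖ < r := by
    rw [htdef, Complex.norm_real, Real.norm_eq_abs, abs_neg, abs_of_pos (by linarith)]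
    linarith
  set q : Va k → ℂ := fl (vf k) t p with hq
  have hqW : q ∈ W k := fl_W hF hp hpR (ht.trans_le hr1')
  have hqL : Lin q := ⟨hd t ht, fun j => by rw [hq, fl_c hF hpR (ht.trans_le hr1'), hl.2 j]⟩
  have hqZ : ¬ Z0 q := h2 p hpR t (ht.trans_le hr2') hZ
  have hqz : (q .z)⁻¹ = (p .z)⁻¹ + t := hz t ht
  have hqe : (q .e)⁻¹ = 1 + t := by rw [hq, he' t ht, he, inv_one]
  have hqe0 : q .e ≠ 0 := h4 p hpR t (ht.trans_le hr4') he0
  have hqz0 : q .z ≠ 0 := h3 p hpR t (ht.trans_le hr3') hz0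
  obtain ⟨w, hw, hwl, hwy, hwz, hwe⟩ := exists_ms (W_sc hqW (q .e)⁻¹) (sc_Lin hqL _)
    (sc_not_Z0 hqZ (inv_ne_zero hqe0))
  refine ⟨w, hw, hwl, hwy, ?_, ?_⟩
  · rw [hwe]
    simp only [sc, wt, pow_one]
    exact inv_mul_cancel₀ hqe0
  · rw [hwz]
    simp only [sc, wt, pow_one]
    have h1t : (1 + t) ≠ 0 := by rw [← hqe]; exact inv_ne_zero hqe0
    have hcast : (((1 - r / 2)⁻¹ : ℝ) : ℂ) = (1 + t)⁻¹ := by
      rw [htdef]
      push_cast
      ring_nf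
    rw [hcast, mul_inv, inv_inv, hqz]
    have hqe2 : q .e = (1 + t)⁻¹ := by rw [← hqe, inv_inv]
    rw [hqe2]
    field_simp
    ring

theorem iter (k : ℕ) : ∃ l : ℝ, 1 < l ∧ ∀ p ∈ W k, Lin p → ‖yp p‖ = 1 → p .e = 1 → ∀ n : ℕ,
    ∃ q ∈ W k, Lin q ∧ ‖yp q‖ = 1 ∧ q .e = 1 ∧ (q .z)⁻¹ - 1 = l ^ n * ((p .z)⁻¹ - 1) := by
  obtain ⟨l, hl1, h⟩ := step k
  refine ⟨l, hl1, fun p hp hl hy he n => ?_⟩
  induction n with
  | zero => exact ⟨p, hp, hl, hy, he, by simp⟩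
  | succ n ih =>
    obtain ⟨q, hq, hql, hqy, hqe, hqz⟩ := ih
    obtain ⟨w, hw, hwl, hwy, hwe, hwz⟩ := h q hq hql hqy hqe
    refine ⟨w, hw, hwl, hwy, hwe, ?_⟩
    rw [hwz, hqz, pow_succ]
    ring

end LinT

open LinT in
theorem lin_all {k : ℕ} {p : Va k → ℂ} (hp : p ∈ W k) (hl : Lin p) (hZ : ¬ Z0 p) : p .z = p .e := by
  by_contra hne
  have hz0 : p .z ≠ 0 := by
    intro h0
    rcases eq_or_ne (p .e) 0 with he | he
    · exact hne (by rw [h0, he])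
    · exact hZ (lin_z hp hl h0 he)
  have he0 : p .e ≠ 0 := by
    intro h0
    exact hZ (lin_e hp hl h0 hz0)
  obtain ⟨w, hw, hwl, hwy, hwz, hwe⟩ := exists_ms (W_sc hp (p .e)⁻¹) (sc_Lin hl _)
    (sc_not_Z0 hZ (inv_ne_zero he0))
  simp only [sc, wt, pow_one] at hwz hwe
  rw [inv_mul_cancel₀ he0] at hwe
  obtain ⟨l, hl1, hit⟩ := iter k
  obtain ⟨M, hM1, hM⟩ := high k
  have hD : (w .z)⁻¹ - 1 ≠ 0 := by
    rw [hwz, mul_inv, inv_inv]
    intro h
    apply hne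
    have : p .e * (p .z)⁻¹ = 1 := by linear_combination h
    field_simp at this
    exact this.symm
  have hD' : 0 < ‖(w .z)⁻¹ - 1‖ := norm_pos_iff.2 hD
  obtain ⟨n, hn⟩ := pow_unbounded_of_one_lt ((M + 1) / ‖(w .z)⁻¹ - 1‖) hl1
  obtain ⟨q, hq, hql, hqy, hqe, hqz⟩ := hit w hw hwl hwy hwe n
  have h1 := (hM q hq hql (not_Z0_of hqy) hqe).2
  have h2 : ‖(q .z)⁻¹ - 1‖ ≤ M + 1 := by
    calc ‖(q .z)⁻¹ - 1‖ ≤ ‖(q .z)⁻¹‖ + ‖(1 : ℂ)‖ := norm_sub_le _ _
      _ ≤ M + 1 := by rw [norm_one]; linarith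
  rw [hqz, norm_mul, norm_pow, Complex.norm_real, Real.norm_eq_abs,
    abs_of_pos (by linarith)] at h2
  rw [div_lt_iff₀ hD'] at hn
  linarith

end Pool.Agent.Helper44.FT
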