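import Pool.Agent.Helper44.FT.NullAll
import Pool.Agent.Helper44.FT.LinT

/-!
# Block FT-DE: points of `W` near infinity

Proof of `at_inf`: otherwise there are `p_j ∈ W`, `Par c0 p_j`, not `Z0`, `t_j = max ‖z‖ ‖e‖ ≥ j` (`j ≥ 1`) and `‖z - e‖ > ε ‖e‖`. `q_j = sc (1/t_j) p_j`: `c → 0` (`wt (c j) ≥ 2`), `max ‖z‖ ‖e‖ = 1`; a subsequence of `(z, e)` converges to `(z0, e0)`, `max ‖z0‖ ‖e0‖ = 1`. `clos` gives
`q ∈ W`, not `Z0`, with `q z = z0`, `q e = e0` and `Nul q` (impossible by `null_all`) or `Lin q`, so `z0 = e0` (`lin_all`), `‖e0‖ = 1`, but `‖z0 - e0‖ ≥ ε ‖e0‖`, contradiction.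
-/

namespace Pool.Agent.Helper44.FT

theorem Z0_of_sc {k : ℕ} {l : ℂ} (hl : l ≠ 0) {p : Va k → ℂ} (h : Z0 (sc l p)) : Z0 p := by
  intro n
  obtain ⟨h1, h2, h3, h4⟩ := h n
  unfold sc at h1 h2 h3 h4
  exact ⟨(mul_eq_zero.mp h1).resolve_left (pow_ne_zero _ hl),
    (mul_eq_zero.mp h2).resolve_left (pow_ne_zero _ hl),
    (mul_eq_zero.mp h3).resolve_left (pow_ne_zero _ hl),
    (mul_eq_zero.mp h4).resolve_left (pow_ne_zero _ hl)⟩

theorem at_inf {k : ℕ} (c0 : Fin (k + 1) → ℂ) (ε : ℝ) (hε : 0 < ε) :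
    ∃ R : ℝ, ∀ p ∈ W k, Par c0 p → ¬ Z0 p → (R ≤ ‖p .z‖ ∨ R ≤ ‖p .e‖) →
      ‖p .z - p .e‖ ≤ ε * ‖p .e‖ := by
  classical
  by_contra hcon
  push Not at hcon
  choose p hpW hpP hpZ hpR hpe using hcon
  set P : ℕ → Va k → ℂ := fun j => p ((j : ℝ) + 1) with hP
  set T : ℕ → ℝ := fun j => max ‖P j .z‖ ‖P j .e‖ with hT
  have hTj : ∀ j : ℕ, (j : ℝ) + 1 ≤ T j := by
    intro j
    rcases hpR ((j : ℝ) + 1) with h | h
    · exact h.trans (le_max_left _ _)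
    · exact h.trans (le_max_right _ _)
  have hT1 : ∀ j, 1 ≤ T j := fun j => by
    have : (0 : ℝ) ≤ j := Nat.cast_nonneg j
    linarith [hTj j]
  have hT0 : ∀ j, 0 < T j := fun j => lt_of_lt_of_le one_pos (hT1 j)
  have hTinf : Filter.Tendsto T Filter.atTop Filter.atTop :=
    Filter.tendsto_atTop_mono hTj
      (Filter.tendsto_atTop_add_const_right _ 1 tendsto_natCast_atTop_atTop)
  have hTinv : Filter.Tendsto (fun j => ((T j : ℂ))⁻¹) Filter.atTop (nhds 0) := by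
    rw [tendsto_zero_iff_norm_tendsto_zero]
    have h1 : (fun j => ‖((T j : ℂ))⁻¹‖) = fun j => (T j)⁻¹ := by
      funext j
      rw [norm_inv, Complex.norm_real, Real.norm_of_nonneg (hT0 j).le]
    rw [h1]
    exact tendsto_inv_atTop_zero.comp hTinf
  set q : ℕ → Va k → ℂ := fun j => sc ((T j : ℂ))⁻¹ (P j) with hq
  have hl : ∀ j, ((T j : ℂ))⁻¹ ≠ 0 := fun j =>
    inv_ne_zero (Complex.ofReal_ne_zero.mpr (hT0 j).ne')
  have hqz : ∀ j, q j .z = ((T j : ℂ))⁻¹ * P j .z := fun j => by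
    change ((T j : ℂ))⁻¹ ^ 1 * P j .z = _
    rw [pow_one]
  have hqe : ∀ j, q j .e = ((T j : ℂ))⁻¹ * P j .e := fun j => by
    change ((T j : ℂ))⁻¹ ^ 1 * P j .e = _
    rw [pow_one]
  have hnl : ∀ j, ‖((T j : ℂ))⁻¹‖ = (T j)⁻¹ := fun j => by
    rw [norm_inv, Complex.norm_real, Real.norm_of_nonneg (hT0 j).le]
  have hmax : ∀ j, max ‖q j .z‖ ‖q j .e‖ = 1 := by
    intro j
    rw [hqz, hqe, norm_mul, norm_mul, hnl, ← mul_max_of_nonneg _ _ (inv_nonneg.mpr (hT0 j).le)]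
    exact inv_mul_cancel₀ (hT0 j).ne'
  have hball : ∀ j, ((q j .z, q j .e) : ℂ × ℂ) ∈ Metric.closedBall (0 : ℂ × ℂ) 1 := by
    intro j
    rw [mem_closedBall_zero_iff, Prod.norm_def]
    exact (hmax j).le
  obtain ⟨x, -, φ, hφ, hlim⟩ := (isCompact_closedBall (0 : ℂ × ℂ) 1).tendsto_subseq hball
  have hz : Filter.Tendsto (fun j => q (φ j) .z) Filter.atTop (nhds x.1) :=
    (continuous_fst.tendsto _).comp hlim
  have he : Filter.Tendsto (fun j => q (φ j) .e) Filter.atTop (nhds x.2) :=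
    (continuous_snd.tendsto _).comp hlim
  obtain ⟨y, hyW, hyZ, hyz, hye, hy⟩ := clos (fun j => q (φ j))
    (fun j => W_sc (hpW _) _)
    (fun j => by
      change ((T (φ j) : ℂ))⁻¹ ^ 0 * P (φ j) .d = 1
      rw [pow_zero, one_mul]
      exact (hpP _).1)
    (fun i => by
      have h1 : ∀ j, q (φ j) (.c i) = ((T (φ j) : ℂ))⁻¹ ^ wt (Va.c i) * c0 i := by
        intro j
        change ((T (φ j) : ℂ))⁻¹ ^ wt (Va.c i) * P (φ j) (.c i) = _
        rw [show P (φ j) (.c i) = c0 i from (hpP _).2 i]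
      simp only [h1]
      have h2 : Filter.Tendsto (fun j => ((T (φ j) : ℂ))⁻¹ ^ wt (Va.c i)) Filter.atTop (nhds 0) := by
        have h3 := (hTinv.comp hφ.tendsto_atTop).pow (wt (Va.c i))
        rwa [zero_pow (by
          have := i.2
          change 2 * (k + 1 - i.1) ≠ 0
          omega)] at h3
      simpa using h2.mul_const (c0 i))
    (fun j h => hpZ _ (Z0_of_sc (hl _) h)) hz he
  rcases hy with hy | hy
  · exact hyZ (null_all hyW hy)
  · have hzx : x.1 = x.2 := by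
      rw [← hyz, ← hye]
      exact lin_all hyW hy hyZ
    have h1 : max ‖x.1‖ ‖x.2‖ = 1 := by
      have h2 := (hz.norm).max (he.norm)
      have h3 : (fun j => max ‖q (φ j) .z‖ ‖q (φ j) .e‖) = fun _ => (1 : ℝ) := by
        funext j; exact hmax _
      rw [h3] at h2
      exact tendsto_nhds_unique h2 tendsto_const_nhds
    have h2 : ε * ‖x.2‖ ≤ ‖x.1 - x.2‖ := by
      refine le_of_tendsto_of_tendsto' (he.norm.const_mul ε) (hz.sub he).norm fun j => ?_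
      rw [hqz, hqe, ← mul_sub, norm_mul, norm_mul, hnl]
      have h3 := (hpe ((φ j : ℝ) + 1)).le
      have h4 := mul_le_mul_of_nonneg_left h3 (inv_nonneg.mpr (hT0 (φ j)).le)
      calc ε * ((T (φ j))⁻¹ * ‖P (φ j) .e‖) = (T (φ j))⁻¹ * (ε * ‖P (φ j) .e‖) := by ring
        _ ≤ _ := h4
    rw [hzx, sub_self, norm_zero] at h2
    rw [hzx, max_self] at h1
    rw [h1] at h2
    linarith

end Pool.Agent.Helper44.FT
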