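import Pool.Agent.Helper44.FT.SymB

/-!
# Block FT-TC: change of time

Flow of the vector field `vf / mm` for small (complex) times, uniformly for `‖p‖ ≤ R`, `‖eval p mm‖ ≥ 1/2`.
Proof. On the variables `Option (Va k)` (`none` = `M`, which will be `1 / mm`) consider the polynomial vector field `Q (some i) = X none * rename some (vf k i)`,
`Q none = - X none ^ 3 * rename some (dv (vf k) (mm k))`. Let `q none = 1 / eval p mm` (`‖·‖ ≤ 2`), `q (some i) = p i`, and `g w i = fl Q w q (some i)` (`exists_flowOn` with radius `max R 2`).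
`dv Q (X none * rename some mm - 1)` is a multiple of `X none * rename some mm - 1`:
`-M³ (D mm) mm + M * M * D mm = -M² (D mm) (M mm - 1)`, so all its iterated derivatives vanish at `q`, and `M mm = 1` along the flow (`it_fl`). For all `F`: `dv Q (rename some F) = X none * rename some (dv F)` (derivations which agree on generators), so the derivative of
`eval (g w) F` is `eval (g w) (dv F) * M = eval (g w) (dv F) / eval (g w) mm`. `g w ∈ W`: all iterated `dv Q`-derivatives of `rename some (dv^[j] G0)` are of the form `∑ H_i * rename some (dv^[i] G0)`, so they vanish at `q`. In the same way for `Z0`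
(ideal generated by the variables `a, al, b, be`), and `¬ Z0`: if `Z0 (g w)` then go back with time `-w` (`fl_neg` for `Q`).
-/

namespace Pool.Agent.Helper44.FT

open MvPolynomial

namespace TC

variable {ι : Type*}

/-- The vector field with an additional variable. -/
noncomputable def QQ (P : ι → MvPolynomial ι ℂ) (m : MvPolynomial ι ℂ) :
    Option ι → MvPolynomial (Option ι) ℂ
  | none => -(X none ^ 3 * rename some (dv P m))
  | some i => X none * rename some (P i)

theorem dv_rename (P : ι → MvPolynomial ι ℂ) (m F : MvPolynomial ι ℂ) :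
    dv (QQ P m) (rename some F) = X none * rename some (dv P F) := by
  induction F using MvPolynomial.induction_on with
  | C a => simp
  | add F G hF hG => rw [map_add, map_add, hF, hG, map_add, map_add]; ring
  | mul_X F i hF =>
    rw [map_mul, dv_mul, hF, rename_X, dv_X, dv_mul, dv_X, map_add, map_mul, map_mul, rename_X]
    simp only [QQ]
    ring

/-- The relation. -/
noncomputable def HH (m : MvPolynomial ι ℂ) : MvPolynomial (Option ι) ℂ :=
  X none * rename some m - 1

theorem dv_HH (P : ι → MvPolynomial ι ℂ) (m : MvPolynomial ι ℂ) :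
    dv (QQ P m) (HH m) = -(X none ^ 2 * rename some (dv P m)) * HH m := by
  have h1 : dv (QQ P m) (1 : MvPolynomial (Option ι) ℂ) = 0 := by
    have := dv_C (QQ P m) 1
    rwa [C_1] at this
  rw [HH, map_sub, dv_mul, dv_rename, dv_X, h1]
  simp only [QQ]
  ring

/-- An ideal generated by a set whose derivatives lie in the ideal is invariant. -/
theorem ideal_inv {κ : Type*} (P : κ → MvPolynomial κ ℂ) (s : Set (MvPolynomial κ ℂ))
    (hs : ∀ F ∈ s, dv P F ∈ Ideal.span s) {F : MvPolynomial κ ℂ} (hF : F ∈ Ideal.span s) :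
    dv P F ∈ Ideal.span s := by
  induction hF using Submodule.span_induction with
  | mem x hx => exact hs x hx
  | zero => simp
  | add x y _ _ hx hy => rw [map_add]; exact Ideal.add_mem _ hx hy
  | smul a x hx hx' =>
    rw [smul_eq_mul, dv_mul]
    exact Ideal.add_mem _ (Ideal.mul_mem_left _ _ hx) (Ideal.mul_mem_left _ _ hx')

theorem it_ideal {κ : Type*} (P : κ → MvPolynomial κ ℂ) (s : Set (MvPolynomial κ ℂ))
    (hs : ∀ F ∈ s, dv P F ∈ Ideal.span s) {q : κ → ℂ} (hq : ∀ F ∈ s, eval q F = 0)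
    {F : MvPolynomial κ ℂ} (hF : F ∈ Ideal.span s) (j : ℕ) : it P F q j = 0 := by
  have hz : ∀ G ∈ Ideal.span s, eval q G = 0 := by
    intro G hG
    have hle : Ideal.span s ≤ RingHom.ker (eval q) := by
      rw [Ideal.span_le]
      intro x hx
      exact hq x hx
    exact hle hG
  induction j generalizing F with
  | zero => rw [it_zero]; exact hz F hF
  | succ j ih => rw [it_succ]; exact ih (ideal_inv P s hs hF)

/-- Along the flow the generators of an invariant ideal vanish. -/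
theorem fl_ideal {κ : Type*} [Fintype κ] {P : κ → MvPolynomial κ ℂ} {R r C : ℝ}
    (hFl : FlowOn P R r C) (s : Set (MvPolynomial κ ℂ))
    (hs : ∀ F ∈ s, dv P F ∈ Ideal.span s) {q : κ → ℂ} (hq : ∀ F ∈ s, eval q F = 0)
    (hR : ‖q‖ ≤ R) {t : ℂ} (ht : ‖t‖ < r) {F : MvPolynomial κ ℂ} (hF : F ∈ s) :
    eval (fl P t q) F = 0 := by
  have h := it_fl hFl hR (fun j => it_ideal P s hs hq (Ideal.subset_span hF) j) ht 0
  rwa [it_zero] at h

variable {k : ℕ}

/-- The generators: relation. -/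
theorem gen_rel (m : MvPolynomial ι ℂ) (P : ι → MvPolynomial ι ℂ) :
    ∀ F ∈ ({HH m} : Set (MvPolynomial (Option ι) ℂ)),
      dv (QQ P m) F ∈ Ideal.span ({HH m} : Set (MvPolynomial (Option ι) ℂ)) := by
  intro F hF
  rw [Set.mem_singleton_iff] at hF
  rw [hF, dv_HH]
  exact Ideal.mul_mem_left _ _ (Ideal.subset_span rfl)

theorem gen_W (m G : MvPolynomial ι ℂ) (P : ι → MvPolynomial ι ℂ) :
    ∀ F ∈ Set.range (fun j : ℕ => rename some ((dv P)^[j] G) : ℕ → MvPolynomial (Option ι) ℂ),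
      dv (QQ P m) F ∈ Ideal.span (Set.range
        (fun j : ℕ => rename some ((dv P)^[j] G) : ℕ → MvPolynomial (Option ι) ℂ)) := by
  rintro F ⟨j, rfl⟩
  simp only
  rw [dv_rename]
  refine Ideal.mul_mem_left _ _ (Ideal.subset_span ⟨j + 1, ?_⟩)
  simp only
  rw [Function.iterate_succ_apply']

/-- The variables of type `a, al, b, be`. -/
def zs (k : ℕ) : Set (Va k) :=
  {i | ∃ n, i = .a n ∨ i = .al n ∨ i = .b n ∨ i = .be n}

theorem vf_mem (i : Va k) (hi : i ∈ zs k) :
    vf k i ∈ Ideal.span ((fun i => (X i : MvPolynomial (Va k) ℂ)) '' zs k) := by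
  have ha : ∀ n, (X (.a n) : MvPolynomial (Va k) ℂ) ∈
      Ideal.span ((fun i => (X i : MvPolynomial (Va k) ℂ)) '' zs k) := fun n =>
    Ideal.subset_span ⟨.a n, ⟨n, Or.inl rfl⟩, rfl⟩
  have hal : ∀ n, (X (.al n) : MvPolynomial (Va k) ℂ) ∈
      Ideal.span ((fun i => (X i : MvPolynomial (Va k) ℂ)) '' zs k) := fun n =>
    Ideal.subset_span ⟨.al n, ⟨n, Or.inr (Or.inl rfl)⟩, rfl⟩
  have hb : ∀ n, (X (.b n) : MvPolynomial (Va k) ℂ) ∈
      Ideal.span ((fun i => (X i : MvPolynomial (Va k) ℂ)) '' zs k) := fun n =>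
    Ideal.subset_span ⟨.b n, ⟨n, Or.inr (Or.inr (Or.inl rfl))⟩, rfl⟩
  have hbe : ∀ n, (X (.be n) : MvPolynomial (Va k) ℂ) ∈
      Ideal.span ((fun i => (X i : MvPolynomial (Va k) ℂ)) '' zs k) := fun n =>
    Ideal.subset_span ⟨.be n, ⟨n, Or.inr (Or.inr (Or.inr rfl))⟩, rfl⟩
  have hnx : ∀ (x : Fin (k + 1) → MvPolynomial (Va k) ℂ) (n : Fin (k + 1)),
      (∀ j, x j ∈ Ideal.span ((fun i => (X i : MvPolynomial (Va k) ℂ)) '' zs k)) →
      nx x (∑ j, X (.c j) * x j) n ∈
        Ideal.span ((fun i => (X i : MvPolynomial (Va k) ℂ)) '' zs k) := by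
    intro x n hx
    unfold nx
    split_ifs
    · exact hx _
    · exact Ideal.sum_mem _ fun j _ => Ideal.mul_mem_left _ _ (hx j)
  obtain ⟨n, h | h | h | h⟩ := hi <;> subst h <;> simp only [vf]
  · exact Ideal.sub_mem _ (hal n) (Ideal.mul_mem_left _ _ (ha n))
  · refine Ideal.add_mem _ (Ideal.add_mem _ (Ideal.sub_mem _ (Ideal.neg_mem_iff _ |>.2
      (Ideal.mul_mem_left _ _ (hal n))) (hnx _ n ha)) ?_) ?_
    · exact Ideal.mul_mem_left _ _ (Ideal.mul_mem_left _ _ (ha n))
    · exact Ideal.mul_mem_left _ _ (Ideal.mul_mem_left _ _ (hb n))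
  · exact Ideal.sub_mem _ (hbe n) (Ideal.mul_mem_left _ _ (hb n))
  · refine Ideal.add_mem _ (Ideal.add_mem _ (Ideal.sub_mem _ (Ideal.neg_mem_iff _ |>.2
      (Ideal.mul_mem_left _ _ (hbe n))) (hnx _ n hb)) ?_) ?_
    · exact Ideal.mul_mem_left _ _ (Ideal.mul_mem_left _ _ (hb n))
    · exact Ideal.mul_mem_left _ _ (Ideal.mul_mem_left _ _ (ha n))

/-- The generators for `Z0` in the extended ring. -/
noncomputable def ZS (k : ℕ) : Set (MvPolynomial (Option (Va k)) ℂ) :=
  (fun i => rename some (X i : MvPolynomial (Va k) ℂ)) '' zs k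

theorem gen_Z (m : MvPolynomial (Va k) ℂ) :
    ∀ F ∈ ZS k, dv (QQ (vf k) m) F ∈ Ideal.span (ZS k) := by
  rintro F ⟨i, hi, rfl⟩
  simp only
  rw [dv_rename, dv_X]
  refine Ideal.mul_mem_left _ _ ?_
  have h := Ideal.mem_map_of_mem (rename some :
    MvPolynomial (Va k) ℂ →ₐ[ℂ] MvPolynomial (Option (Va k)) ℂ) (vf_mem i hi)
  rw [Ideal.map_span] at h
  refine Ideal.span_mono ?_ h
  rintro _ ⟨_, ⟨i, hi, rfl⟩, rfl⟩
  exact ⟨i, hi, rfl⟩

theorem eval_rename_some (q : Option ι → ℂ) (F : MvPolynomial ι ℂ) :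
    eval q (rename some F) = eval (fun i => q (some i)) F := by
  rw [eval_rename]
  rfl

theorem z0_iff (q : Option (Va k) → ℂ) :
    (∀ F ∈ ZS k, eval q F = 0) ↔ Z0 (fun i => q (some i)) := by
  constructor
  · intro h n
    have h1 : ∀ i ∈ zs k, q (some i) = 0 := fun i hi => by
      have := h _ ⟨i, hi, rfl⟩
      simpa using this
    exact ⟨h1 _ ⟨n, Or.inl rfl⟩, h1 _ ⟨n, Or.inr (Or.inl rfl)⟩, h1 _ ⟨n, Or.inr (Or.inr (Or.inl rfl))⟩,
      h1 _ ⟨n, Or.inr (Or.inr (Or.inr rfl))⟩⟩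
  · rintro h F ⟨i, ⟨n, hi⟩, rfl⟩
    obtain ⟨h1, h2, h3, h4⟩ := h n
    simp only [rename_X, eval_X]
    rcases hi with rfl | rfl | rfl | rfl
    · exact h1
    · exact h2
    · exact h3
    · exact h4

/-- The extended point. -/
noncomputable def ext (p : ι → ℂ) (y : ℂ) : Option ι → ℂ
  | none => y
  | some i => p i

end TC

theorem time_change (k : ℕ) (R : ℝ) : ∃ w0 C : ℝ, 0 < w0 ∧ ∀ p ∈ W k, ‖p‖ ≤ R → 1 / 2 ≤ ‖eval p (mm k)‖ →
    ∃ g : ℂ → Va k → ℂ, g 0 = p ∧ ∀ w : ℂ, ‖w‖ < w0 → g w ∈ W k ∧ eval (g w) (mm k) ≠ 0 ∧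
      ‖g w - p‖ ≤ C * ‖w‖ ∧ (¬ Z0 p → ¬ Z0 (g w)) ∧
      ∀ F : MvPolynomial (Va k) ℂ, HasDerivAt (fun w => eval (g w) F)
        (eval (g w) (dv (vf k) F) / eval (g w) (mm k)) w := by
  set Q := TC.QQ (vf k) (mm k) with hQ
  set R1 : ℝ := max R 2 with hR1
  obtain ⟨r, C, hC, hF⟩ := exists_flowOn Q (R1 + 1)
  obtain ⟨r2, hr2, hneg⟩ := fl_neg Q R1
  have hCp : 0 < 1 / (C + 1) := by positivity
  refine ⟨min r (min r2 (1 / (C + 1))), C, lt_min hF.pos (lt_min hr2 hCp), fun p hp hpR hpm => ?_⟩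
  set q : Option (Va k) → ℂ := TC.ext p (1 / eval p (mm k)) with hq
  have hm0 : eval p (mm k) ≠ 0 := by
    intro h
    rw [h, norm_zero] at hpm
    norm_num at hpm
  have hqn : ‖q‖ ≤ R1 := by
    rw [pi_norm_le_iff_of_nonneg (by
      have : (2 : ℝ) ≤ R1 := le_max_right _ _
      linarith)]
    intro i
    cases i with
    | none =>
      refine le_trans ?_ (le_max_right R 2)
      change ‖1 / eval p (mm k)‖ ≤ 2
      rw [norm_div, norm_one, div_le_iff₀ (by linarith)]
      linarith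
    | some i => exact ((norm_le_pi_norm p i).trans hpR).trans (le_max_left _ _)
  have hqn1 : ‖q‖ ≤ R1 + 1 := by linarith
  have hqs : (fun i => q (some i)) = p := rfl
  refine ⟨fun w i => fl Q w q (some i), ?_, fun w hw => ?_⟩
  · funext i
    change fl Q 0 q (some i) = p i
    rw [fl_zero]
    rfl
  have hw1 : ‖w‖ < r := lt_of_lt_of_le hw (min_le_left _ _)
  have hw2 : ‖w‖ < r2 := lt_of_lt_of_le hw ((min_le_right _ _).trans (min_le_left _ _))
  have hw3 : ‖w‖ < 1 / (C + 1) := lt_of_lt_of_le hw ((min_le_right _ _).trans (min_le_right _ _))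
  have hrel : ∀ w : ℂ, ‖w‖ < r → fl Q w q none * eval (fun i => fl Q w q (some i)) (mm k) = 1 := by
    intro w hw
    have h := TC.fl_ideal hF {TC.HH (mm k)} (TC.gen_rel (mm k) (vf k)) (q := q) (by
      intro F hF'
      rw [Set.mem_singleton_iff] at hF'
      rw [hF', TC.HH, map_sub, map_mul, eval_X, TC.eval_rename_some, map_one, hqs]
      change 1 / eval p (mm k) * eval p (mm k) - 1 = 0
      rw [one_div_mul_cancel hm0, sub_self]) hqn1 hw (Set.mem_singleton _)
    rw [TC.HH, map_sub, map_mul, eval_X, TC.eval_rename_some, map_one] at h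
    linear_combination h
  have hlip := hF.lip q hqn1 w hw1
  refine ⟨?_, ?_, ?_, ?_, ?_⟩
  · intro j
    have h := TC.fl_ideal hF _ (TC.gen_W (mm k) (G0 k) (vf k)) (q := q) (by
      rintro F ⟨i, rfl⟩
      simp only
      rw [TC.eval_rename_some, hqs]
      exact hp i) hqn1 hw1 ⟨j, rfl⟩
    simp only at h
    rw [TC.eval_rename_some] at h
    exact h
  · intro h
    have := hrel w hw1
    rw [h, mul_zero] at this
    exact zero_ne_one this
  · rw [pi_norm_le_iff_of_nonneg (by positivity)]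
    intro i
    exact (norm_le_pi_norm (fl Q w q - q) (some i)).trans hlip
  · intro hZ hZ'
    apply hZ
    rw [← TC.z0_iff (fl Q w q)] at hZ'
    have hq' : ‖fl Q w q‖ ≤ R1 + 1 := by
      have h1 : ‖fl Q w q‖ ≤ ‖q‖ + ‖fl Q w q - q‖ := by
        calc ‖fl Q w q‖ = ‖q + (fl Q w q - q)‖ := by congr 1; abel
          _ ≤ _ := norm_add_le _ _
      have h2 : C * ‖w‖ ≤ 1 := by
        have h3 : C * ‖w‖ ≤ (C + 1) * ‖w‖ := by
          have := norm_nonneg w
          nlinarith
        have h4 : (C + 1) * ‖w‖ ≤ (C + 1) * (1 / (C + 1)) := by gcongr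
        rw [mul_one_div_cancel (by positivity)] at h4
        linarith
      linarith
    have h := fun F (hFm : F ∈ TC.ZS k) => TC.fl_ideal hF (TC.ZS k) (TC.gen_Z (mm k)) hZ' hq'
      (t := -w) (by rwa [norm_neg]) hFm
    rw [hneg q hqn w hw2] at h
    exact (TC.z0_iff q).1 h
  · intro F
    have h := hF.deriv q hqn1 w hw1 (rename some F)
    have h1 : (fun w => eval (fl Q w q) (rename some F)) =
        fun w => eval (fun i => fl Q w q (some i)) F := by
      funext w
      rw [TC.eval_rename_some]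
    rw [h1] at h
    refine h.congr_deriv ?_
    rw [hQ, TC.dv_rename, ← hQ, map_mul, eval_X, TC.eval_rename_some]
    have h2 := hrel w hw1
    have h3 : eval (fun i => fl Q w q (some i)) (mm k) ≠ 0 := by
      intro h
      rw [h, mul_zero] at h2
      exact zero_ne_one h2
    rw [eq_div_iff h3]
    linear_combination (eval (fun i => fl Q w q (some i)) (dv (vf k) F)) * h2

end Pool.Agent.Helper44.FT
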