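import Pool.Agent.Helper44.FT.Axis
import Pool.Agent.Helper44.FT.Inf
import Pool.Agent.Helper44.FT.TimeCh

/-!
# Block FT-F0: local flow with time `log f` near the axis

Proof. Let `x = (p, f) ∈ Nr c0 r0`. Put `ps = sc f p` (`W_sc`): `ps z = E`, `ps e = 1/E` with `‖E - 1‖, ‖1/E - 1‖ ≤ 1/8`, `ps (c j) = f^(wt) c0 j`, `ps d = 1`, not `Z0`; by `bdA` (with `L` a bound for `(1 + ‖c0 j‖)`, `‖f‖ ≤ 1`) the points `ps` lie in a
fixed ball of radius `R`, and `eval ps mm = (E + 1/E)/2` has absolute value `≥ 1/2`. `time_change` (radius `R`) gives `w0` and `gs` with `gs 0 = ps`, `d/dw eval (gs w) F = eval (gs w) (dv F) / eval (gs w) mm`, `gs w ∈ W`, not `Z0`. Put `g w = sc (1/f) (gs w)`. As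
`eval (sc l q) (dv F) = l⁻¹ ...`: (homogeneity: `eval (sc l q) (vf k i) = l^(wt i + 1) eval q (vf k i)`, `eval (sc l q) mm = l eval q mm`) `g` satisfies the same differential equation for the variables `F = X i`, and then for all `F` (chain rule: `dv F = ∑ pderiv i F * vf i`, or
`MvPolynomial.induction_on`). Along `g` the coordinates `c j`, `d` are constant, and `(z e)' = - 2 z e` (`dv_ze`, `eval G0 = 0` on `W`), so `f² e^(2w) z e = 1`. By continuity `w ↦ f e^w z` is near its value: `‖(f e^w z)' ‖` is bounded by a constant (in terms of `gs`), so for `w0` small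
`‖f e^w z - f p z‖ ≤ 1/4`, `‖f e^w z - 1‖ ≤ 1/2`. Finally if `‖f e^w‖ ≤ r0`, `r0` small, then `‖z‖` or `‖e‖` is `≥ 1/r0`, so by `at_inf` with `ε = 1/100` `‖z - e‖ ≤ ‖e‖/100`; with `E = f e^w z`, `E' = f e^w e`, `E E' = 1`, `‖E - 1‖ ≤ 1/2` we get `‖E - E'‖ ≤ ‖E'‖/100`, so `E² = E/E'` satisfies
`‖E² - 1‖ ≤ 1/100` and so `‖E - 1‖ ≤ 1/8`, `‖E' - 1‖ ≤ 1/8`.
`exists_near`: for `p ∈ W`, `Par`, not `Z0`, `‖z‖` or `‖e‖` large, choose `f` with `f² = 1/(z e)` (`IsAlgClosed.exists_pow_nat_eq` or `Complex.cpow`); `(f z)² = z/e` is within `1/100` of `1`, so `f z` is near `1` or `-1`; replace `f` by `-f` in the second case.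
-/

namespace Pool.Agent.Helper44.FT

open MvPolynomial

variable {k : ℕ}

namespace StepAux

theorem ev_vf_sc (l : ℂ) (q : Va k → ℂ) (i : Va k) :
    eval (sc l q) (vf k i) = l ^ (wt i + 1) * eval q (vf k i) := by
  have hKK : eval (sc l q) (KK k) = l * eval q (KK k) := by
    rw [ev_KK, ev_KK]; simp only [sc, wt]; simp; ring
  have hLL : eval (sc l q) (LL k) = l * eval q (LL k) := by
    rw [ev_LL, ev_LL]; simp only [sc, wt]; simp; ring
  have hmm : eval (sc l q) (mm k) = l * eval q (mm k) := by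
    rw [ev_mm, ev_mm]; simp only [sc, wt]; ring
  have hnx : ∀ (u : Fin (k + 1) → Va k), (∀ n, wt (u n) = 2 * n.1 + 1) → ∀ n : Fin (k + 1),
      nx (fun n => sc l q (u n)) (∑ j, sc l q (.c j) * sc l q (u j)) n =
        l ^ (2 * n.1 + 3) * nx (fun n => q (u n)) (∑ j, q (.c j) * q (u j)) n := by
    intro u hu n
    unfold nx
    split_ifs with h
    · simp only [sc, hu]
      ring_nf
    · have hn : n.1 = k := by have := n.2; omega
      rw [Finset.mul_sum]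
      refine Finset.sum_congr rfl fun j _ => ?_
      have hj : 2 * n.1 + 3 = wt (Va.c j : Va k) + wt (u j) := by
        rw [hu]; simp only [wt]; have := j.2; omega
      rw [hj, pow_add]
      simp only [sc]
      ring
  cases i with
  | c j => rw [ev_c, ev_c]; ring
  | d => rw [ev_d, ev_d]; ring
  | z => rw [ev_z, ev_z]; simp only [sc, wt]; simp; ring
  | e => rw [ev_e, ev_e]; simp only [sc, wt]; simp; ring
  | a n => rw [ev_a, ev_a, hKK]; simp only [sc, wt]; ring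
  | b n => rw [ev_b, ev_b, hLL]; simp only [sc, wt]; ring
  | al n =>
    rw [ev_al, ev_al, hKK, hmm, hnx (fun n => Va.a n) (fun n => rfl) n]
    simp only [sc, wt]; ring
  | be n =>
    rw [ev_be, ev_be, hLL, hmm, hnx (fun n => Va.b n) (fun n => rfl) n]
    simp only [sc, wt]; ring

theorem sc_sc (l m : ℂ) (q : Va k → ℂ) : sc l (sc m q) = sc (l * m) q := by
  funext i
  simp only [sc, mul_pow]
  ring

theorem sc_one (q : Va k → ℂ) : sc 1 q = q := by
  funext i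
  simp [sc]

theorem Z0_sc {l : ℂ} (hl : l ≠ 0) {q : Va k → ℂ} (h : Z0 (sc l q)) : Z0 q := by
  intro n
  obtain ⟨h1, h2, h3, h4⟩ := h n
  simp only [sc] at h1 h2 h3 h4
  refine ⟨?_, ?_, ?_, ?_⟩
  · exact (mul_eq_zero.mp h1).resolve_left (pow_ne_zero _ hl)
  · exact (mul_eq_zero.mp h2).resolve_left (pow_ne_zero _ hl)
  · exact (mul_eq_zero.mp h3).resolve_left (pow_ne_zero _ hl)
  · exact (mul_eq_zero.mp h4).resolve_left (pow_ne_zero _ hl)

/-- chain rule -/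
theorem chain {g : ℂ → Va k → ℂ} {w m : ℂ}
    (h : ∀ i, HasDerivAt (fun w => g w i) (eval (g w) (vf k i) / m) w) (F : MvPolynomial (Va k) ℂ) :
    HasDerivAt (fun w => eval (g w) F) (eval (g w) (dv (vf k) F) / m) w := by
  induction F using MvPolynomial.induction_on with
  | C a =>
    simp only [eval_C, dv_C, map_zero, zero_div]
    exact hasDerivAt_const w a
  | add F G hF hG =>
    have h1 := hF.add hG
    simp only [map_add, add_div]
    exact h1
  | mul_X F i hF =>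
    have h1 := hF.mul (h i)
    rw [dv_mul, dv_X]
    simp only [map_mul, map_add, eval_X]
    have e1 : (eval (g w) (dv (vf k) F) * g w i + eval (g w) F * eval (g w) (vf k i)) / m =
        eval (g w) (dv (vf k) F) / m * g w i + eval (g w) F * (eval (g w) (vf k i) / m) := by
      ring
    rw [e1]
    exact h1

theorem eq_of_hasDerivAt_zero {h : ℂ → ℂ} {r : ℝ} (hd : ∀ w : ℂ, ‖w‖ < r → HasDerivAt h 0 w) {w : ℂ}
    (hw : ‖w‖ < r) : h w = h 0 := by
  have hr : 0 < r := lt_of_le_of_lt (norm_nonneg _) hw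
  have hs : IsOpen (Metric.ball (0 : ℂ) r) := Metric.isOpen_ball
  have hc : IsPreconnected (Metric.ball (0 : ℂ) r) := (convex_ball (0 : ℂ) r).isPreconnected
  refine hs.is_const_of_deriv_eq_zero (𝕜 := ℂ) hc (f := h) ?_ ?_ ?_ ?_
  · intro x hx
    exact (hd x (by simpa using hx)).differentiableAt.differentiableWithinAt
  · intro x hx
    exact (hd x (by simpa using hx)).deriv
  · simpa using hw
  · simpa using hr

/-- the elementary estimate -/
theorem close_one {E E' : ℂ} (h1 : E * E' = 1) (h2 : ‖E - 1‖ ≤ 1 / 2) (h3 : ‖E - E'‖ ≤ 1 / 100 * ‖E'‖) :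
    ‖E - 1‖ ≤ 1 / 8 ∧ ‖E' - 1‖ ≤ 1 / 8 := by
  have hE : ‖E‖ * ‖E'‖ = 1 := by rw [← norm_mul, h1, norm_one]
  have h4 : ‖E - 1‖ * ‖E + 1‖ ≤ 1 / 100 := by
    rw [← norm_mul]
    have : (E - 1) * (E + 1) = E * (E - E') := by linear_combination h1
    rw [this, norm_mul]
    calc ‖E‖ * ‖E - E'‖ ≤ ‖E‖ * (1 / 100 * ‖E'‖) := by gcongr
      _ = 1 / 100 * (‖E‖ * ‖E'‖) := by ring
      _ = 1 / 100 := by rw [hE]; ring
  have h5 : 3 / 2 ≤ ‖E + 1‖ := by
    have h6 : ‖(2 : ℂ)‖ ≤ ‖E + 1‖ + ‖E - 1‖ := by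
      have : (2 : ℂ) = (E + 1) - (E - 1) := by ring
      rw [this]
      exact norm_sub_le _ _
    rw [Complex.norm_ofNat] at h6
    linarith
  have h7 : ‖E - 1‖ ≤ 1 / 150 := by
    nlinarith [norm_nonneg (E - 1)]
  have h8 : ‖E‖ ≤ 151 / 150 := by
    have : ‖E‖ ≤ ‖E - 1‖ + ‖(1 : ℂ)‖ := by
      have h : E = (E - 1) + 1 := by ring
      calc ‖E‖ = ‖(E - 1) + 1‖ := by rw [← h]
        _ ≤ _ := norm_add_le _ _
    rw [norm_one] at this
    linarith
  have h9 : ‖E'‖ ≤ 2 := by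
    have : ‖E'‖ ≤ ‖E‖ + ‖E - E'‖ := by
      have h : E' = E - (E - E') := by ring
      calc ‖E'‖ = ‖E - (E - E')‖ := by rw [← h]
        _ ≤ _ := norm_sub_le _ _
    linarith
  refine ⟨by linarith, ?_⟩
  have h10 : E' - 1 = E' * (1 - E) := by linear_combination h1
  rw [h10, norm_mul, norm_sub_rev]
  nlinarith [norm_nonneg (E - 1), norm_nonneg E']

end StepAux

open StepAux

theorem exists_step (c0 : Fin (k + 1) → ℂ) : ∃ r0 w0 : ℝ, StepD c0 r0 w0 := by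
  obtain ⟨C, hC1, hC⟩ := bdA k
  obtain ⟨Ri, hRi⟩ := at_inf c0 (1 / 100) (by norm_num)
  set L : ℝ := 2 + ∑ j, ‖c0 j‖ with hLdef
  have hL2 : 2 ≤ L := by
    have : 0 ≤ ∑ j, ‖c0 j‖ := Finset.sum_nonneg fun _ _ => norm_nonneg _
    linarith
  have hLc : ∀ j, ‖c0 j‖ ≤ L := by
    intro j
    have : ‖c0 j‖ ≤ ∑ j, ‖c0 j‖ := Finset.single_le_sum (f := fun j => ‖c0 j‖)
      (fun _ _ => norm_nonneg _) (Finset.mem_univ j)
    linarith
  set R : ℝ := ∑ i : Va k, (C * L) ^ wt i with hRdef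
  have hCL : 0 ≤ C * L := by positivity
  obtain ⟨w1, C1, hw1, hT⟩ := time_change k R
  set w0 : ℝ := min w1 (min (1 / 16) (1 / (16 * (|C1| + 1)))) with hw0
  have hw0pos : 0 < w0 := by
    rw [hw0]
    refine lt_min hw1 (lt_min (by norm_num) (by positivity))
  set r0 : ℝ := min 1 (1 / (|Ri| + 1)) with hr0
  have hr0pos : 0 < r0 := lt_min one_pos (by positivity)
  have hr01 : r0 ≤ 1 := min_le_left _ _
  refine ⟨r0, w0, hr0pos, hr01, hw0pos, ?_, ?_⟩
  · calc w0 ≤ 1 / 16 := (min_le_right _ _).trans (min_le_left _ _)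
      _ ≤ 1 := by norm_num
  rintro ⟨p, f⟩ ⟨hpW, hpar, hpZ, hfze, hf, hfz, hfe⟩
  simp only at hpW hpar hpZ hfze hf hfz hfe
  have hf0 : f ≠ 0 := by
    rintro rfl
    simp at hfze
  have hf1 : ‖f‖ ≤ 1 := hf.trans hr01
  have hEz : ‖f * p .z‖ ≤ 9 / 8 := by
    have h : f * p .z = (f * p .z - 1) + 1 := by ring
    calc ‖f * p .z‖ = ‖(f * p .z - 1) + 1‖ := by rw [← h]
      _ ≤ ‖f * p .z - 1‖ + ‖(1 : ℂ)‖ := norm_add_le _ _
      _ ≤ 9 / 8 := by rw [norm_one]; linarith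
  have hEe : ‖f * p .e‖ ≤ 9 / 8 := by
    have h : f * p .e = (f * p .e - 1) + 1 := by ring
    calc ‖f * p .e‖ = ‖(f * p .e - 1) + 1‖ := by rw [← h]
      _ ≤ ‖f * p .e - 1‖ + ‖(1 : ℂ)‖ := norm_add_le _ _
      _ ≤ 9 / 8 := by rw [norm_one]; linarith
  set ps : Va k → ℂ := sc f p with hps
  have hpsz : ps .z = f * p .z := by simp [hps, sc, wt]
  have hpse : ps .e = f * p .e := by simp [hps, sc, wt]
  have hpsd : ps .d = 1 := by simp [hps, sc, wt, hpar.1]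
  have hpsc : ∀ j, ‖ps (.c j)‖ ≤ L ^ wt (Va.c j : Va k) := by
    intro j
    have h1 : ‖ps (.c j)‖ = ‖f‖ ^ wt (Va.c j : Va k) * ‖c0 j‖ := by
      rw [hps]; simp only [sc]
      rw [norm_mul, norm_pow, hpar.2 j]
    rw [h1]
    have h2 : ‖f‖ ^ wt (Va.c j : Va k) ≤ 1 := pow_le_one₀ (norm_nonneg _) hf1
    have h3 : wt (Va.c j : Va k) ≠ 0 := by
      simp only [wt]; have := j.2; omega
    have h4 : L ≤ L ^ wt (Va.c j : Va k) := le_self_pow₀ (by linarith) h3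
    calc ‖f‖ ^ wt (Va.c j : Va k) * ‖c0 j‖ ≤ 1 * ‖c0 j‖ := by gcongr
      _ ≤ L := by rw [one_mul]; exact hLc j
      _ ≤ _ := h4
  have hpsW : ps ∈ W k := W_sc hpW f
  have hpsi := hC ps hpsW hpsd L (by linarith) hpsc (by rw [hpsz]; linarith) (by rw [hpse]; linarith)
  have hpsR : ‖ps‖ ≤ R := by
    have hR0 : 0 ≤ R := Finset.sum_nonneg fun i _ => pow_nonneg hCL _
    rw [pi_norm_le_iff_of_nonneg hR0]
    intro i
    refine (hpsi i).trans ?_
    exact Finset.single_le_sum (f := fun i : Va k => (C * L) ^ wt i)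
      (fun i _ => pow_nonneg hCL _) (Finset.mem_univ i)
  have hpsm : 1 / 2 ≤ ‖eval ps (mm k)‖ := by
    rw [ev_mm, hpsz, hpse]
    have h1 : ‖(2 : ℂ)‖ ≤ ‖f * p .z + f * p .e‖ + ‖f * p .z - 1‖ + ‖f * p .e - 1‖ := by
      have h : (2 : ℂ) = (f * p .z + f * p .e) - (f * p .z - 1) - (f * p .e - 1) := by ring
      rw [h]
      refine (norm_sub_le _ _).trans ?_
      gcongr
      exact norm_sub_le _ _
    rw [norm_div]
    rw [Complex.norm_ofNat] at h1 ⊢
    linarith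
  obtain ⟨gs, hgs0, hgs⟩ := hT ps hpsW hpsR hpsm
  have hfi : f⁻¹ * f = 1 := inv_mul_cancel₀ hf0
  have hg0 : sc f⁻¹ (gs 0) = p := by
    rw [hgs0, hps, sc_sc, hfi, sc_one]
  refine ⟨fun w => sc f⁻¹ (gs w), hg0, ?_⟩
  -- the differential equation
  have hder : ∀ w : ℂ, ‖w‖ < w0 → ∀ F : MvPolynomial (Va k) ℂ,
      HasDerivAt (fun w => eval (sc f⁻¹ (gs w)) F)
        (eval (sc f⁻¹ (gs w)) (dv (vf k) F) / eval (sc f⁻¹ (gs w)) (mm k)) w := by
    intro w hw F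
    have hw' : ‖w‖ < w1 := lt_of_lt_of_le hw (min_le_left _ _)
    obtain ⟨-, hmne, -, -, hd⟩ := hgs w hw'
    refine chain (g := fun w => sc f⁻¹ (gs w)) (fun i => ?_) F
    have h1 := (hd (X i)).const_mul ((f⁻¹) ^ wt i)
    simp only [eval_X, dv_X] at h1
    have h2 : eval (sc f⁻¹ (gs w)) (mm k) = f⁻¹ * eval (gs w) (mm k) := by
      rw [ev_mm, ev_mm]; simp only [sc, wt]; ring
    have h3 : eval (sc f⁻¹ (gs w)) (vf k i) / eval (sc f⁻¹ (gs w)) (mm k) =
        f⁻¹ ^ wt i * (eval (gs w) (vf k i) / eval (gs w) (mm k)) := by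
      rw [ev_vf_sc, h2, pow_succ]
      have hfi0 : f⁻¹ ≠ 0 := inv_ne_zero hf0
      field_simp
    show HasDerivAt (fun w => sc f⁻¹ (gs w) i) (eval (sc f⁻¹ (gs w)) (vf k i) / eval (sc f⁻¹ (gs w)) (mm k)) w
    rw [h3]
    exact h1
  intro w hw
  refine ⟨hder w hw, ?_⟩
  intro hle
  simp only at hle
  have hw' : ‖w‖ < w1 := lt_of_lt_of_le hw (min_le_left _ _)
  have hw16 : ‖w‖ < 1 / 16 := lt_of_lt_of_le hw ((min_le_right _ _).trans (min_le_left _ _))
  have hwC : ‖w‖ < 1 / (16 * (|C1| + 1)) :=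
    lt_of_lt_of_le hw ((min_le_right _ _).trans (min_le_right _ _))
  obtain ⟨hgW, hmne, hgl, hgZ, -⟩ := hgs w hw'
  have hqW : ∀ w : ℂ, ‖w‖ < w0 → sc f⁻¹ (gs w) ∈ W k := fun w hw =>
    W_sc (hgs w (lt_of_lt_of_le hw (min_le_left _ _))).1 _
  have hmne' : ∀ w : ℂ, ‖w‖ < w0 → eval (sc f⁻¹ (gs w)) (mm k) ≠ 0 := by
    intro w hw
    have h2 : eval (sc f⁻¹ (gs w)) (mm k) = f⁻¹ * eval (gs w) (mm k) := by
      rw [ev_mm, ev_mm]; simp only [sc, wt]; ring
    rw [h2]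
    exact mul_ne_zero (inv_ne_zero hf0) (hgs w (lt_of_lt_of_le hw (min_le_left _ _))).2.1
  -- constants
  have hcc : ∀ j, sc f⁻¹ (gs w) (.c j) = c0 j := by
    intro j
    have h1 : ∀ w : ℂ, ‖w‖ < w0 → HasDerivAt (fun w => eval (sc f⁻¹ (gs w)) (X (.c j))) 0 w := by
      intro w hw
      have := hder w hw (X (.c j))
      rw [dv_X, ev_c, zero_div] at this
      exact this
    have h2 := eq_of_hasDerivAt_zero h1 hw
    simp only [eval_X] at h2
    rw [h2, hg0, hpar.2 j]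
  have hdd : sc f⁻¹ (gs w) .d = 1 := by
    have h1 : ∀ w : ℂ, ‖w‖ < w0 → HasDerivAt (fun w => eval (sc f⁻¹ (gs w)) (X .d)) 0 w := by
      intro w hw
      have := hder w hw (X .d)
      rw [dv_X, ev_d, zero_div] at this
      exact this
    have h2 := eq_of_hasDerivAt_zero h1 hw
    simp only [eval_X] at h2
    rw [h2, hg0, hpar.1]
  -- the product
  have hprod : (f * Complex.exp w) ^ 2 * (sc f⁻¹ (gs w) .z * sc f⁻¹ (gs w) .e) = 1 := by
    have h1 : ∀ w : ℂ, ‖w‖ < w0 →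
        HasDerivAt (fun w => (f * Complex.exp w) ^ 2 * eval (sc f⁻¹ (gs w)) (X .z * X .e)) 0 w := by
      intro w hw
      have h3 := hder w hw (X .z * X .e)
      have hG : eval (sc f⁻¹ (gs w)) (G0 k) = 0 := by
        have := hqW w hw 0
        rwa [it_zero] at this
      rw [dv_ze] at h3
      have h4 : eval (sc f⁻¹ (gs w)) (-(2 * mm k * (X .z * X .e)) - X .d * G0 k * (X .z * X .e)) /
          eval (sc f⁻¹ (gs w)) (mm k) = -2 * eval (sc f⁻¹ (gs w)) (X .z * X .e) := by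
        have h2' : eval (sc f⁻¹ (gs w)) (2 : MvPolynomial (Va k) ℂ) = 2 := by
          exact map_ofNat _ 2
        simp only [map_sub, map_neg, map_mul, hG, h2']
        rw [div_eq_iff (hmne' w hw)]
        ring
      rw [h4] at h3
      have h5 : HasDerivAt (fun w : ℂ => (f * Complex.exp w) ^ 2) (2 * (f * Complex.exp w) ^ 2) w := by
        have h6 := ((Complex.hasDerivAt_exp w).const_mul f).pow 2
        have e2 : 2 * (f * Complex.exp w) ^ 2 = (2 : ℕ) * (f * Complex.exp w) ^ (2 - 1) * (f * Complex.exp w) := by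
          push_cast
          ring
        rw [e2]
        exact h6
      have h7 := h5.mul h3
      have e3 : (0 : ℂ) = 2 * (f * Complex.exp w) ^ 2 * eval (sc f⁻¹ (gs w)) (X .z * X .e) +
          (f * Complex.exp w) ^ 2 * (-2 * eval (sc f⁻¹ (gs w)) (X .z * X .e)) := by ring
      rw [e3]
      exact h7
    have h2 := eq_of_hasDerivAt_zero h1 hw
    simp only [map_mul, eval_X, Complex.exp_zero, mul_one] at h2
    rw [h2, hg0]
    exact hfze
  have hfne : f * Complex.exp w ≠ 0 := mul_ne_zero hf0 (Complex.exp_ne_zero w)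
  -- near one
  have hgz : f * sc f⁻¹ (gs w) .z = gs w .z := by
    simp only [sc, wt, pow_one]
    rw [← mul_assoc, mul_inv_cancel₀ hf0, one_mul]
  have hdist : ‖gs w .z - ps .z‖ ≤ 1 / 16 := by
    have h1 : ‖gs w .z - ps .z‖ ≤ ‖gs w - ps‖ := norm_le_pi_norm (gs w - ps) Va.z
    have h2 : C1 * ‖w‖ ≤ 1 / 16 := by
      have h3 : ‖w‖ * (16 * (|C1| + 1)) ≤ 1 := by
        rw [lt_div_iff₀ (by positivity)] at hwC
        exact hwC.le
      have h4 : C1 * ‖w‖ ≤ |C1| * ‖w‖ := by gcongr; exact le_abs_self _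
      nlinarith [norm_nonneg w]
    linarith
  have hE1 : ‖f * Complex.exp w * sc f⁻¹ (gs w) .z - 1‖ ≤ 1 / 2 := by
    have h1 : f * Complex.exp w * sc f⁻¹ (gs w) .z = Complex.exp w * gs w .z := by
      rw [← hgz]; ring
    rw [h1]
    have h2 : Complex.exp w * gs w .z - 1 =
        (Complex.exp w - 1) * gs w .z + ((gs w .z - ps .z) + (ps .z - 1)) := by ring
    have h3 : ‖Complex.exp w - 1‖ ≤ 2 * ‖w‖ := Complex.norm_exp_sub_one_le (by linarith)
    have h4 : ‖ps .z - 1‖ ≤ 1 / 8 := by rw [hpsz]; exact hfz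
    have h5 : ‖gs w .z‖ ≤ 2 := by
      have h : gs w .z = (gs w .z - ps .z) + (ps .z - 1) + 1 := by ring
      calc ‖gs w .z‖ = ‖(gs w .z - ps .z) + (ps .z - 1) + 1‖ := by rw [← h]
        _ ≤ ‖gs w .z - ps .z‖ + ‖ps .z - 1‖ + ‖(1 : ℂ)‖ := norm_add₃_le
        _ ≤ 2 := by rw [norm_one]; linarith
    rw [h2]
    calc ‖(Complex.exp w - 1) * gs w .z + ((gs w .z - ps .z) + (ps .z - 1))‖
        ≤ ‖(Complex.exp w - 1) * gs w .z‖ + ‖(gs w .z - ps .z) + (ps .z - 1)‖ := norm_add_le _ _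
      _ ≤ ‖Complex.exp w - 1‖ * ‖gs w .z‖ + (‖gs w .z - ps .z‖ + ‖ps .z - 1‖) := by
          rw [norm_mul]; gcongr; exact norm_add_le _ _
      _ ≤ (2 * ‖w‖) * 2 + (1 / 16 + 1 / 8) := by gcongr
      _ ≤ 1 / 2 := by linarith
  have hZ : ¬ Z0 (sc f⁻¹ (gs w)) := by
    intro h
    have h1 := Z0_sc (inv_ne_zero hf0) h
    refine hgZ ?_ h1
    intro h2
    rw [hps] at h2
    exact hpZ (Z0_sc hf0 h2)
  have hPar : Par c0 (sc f⁻¹ (gs w)) := ⟨hdd, hcc⟩
  -- at infinity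
  have hbig : Ri ≤ ‖sc f⁻¹ (gs w) .z‖ ∨ Ri ≤ ‖sc f⁻¹ (gs w) .e‖ := by
    by_contra hcon
    push Not at hcon
    obtain ⟨hz, he⟩ := hcon
    have hp1 : ‖f * Complex.exp w‖ ^ 2 * (‖sc f⁻¹ (gs w) .z‖ * ‖sc f⁻¹ (gs w) .e‖) = 1 := by
      rw [← norm_mul, ← norm_pow, ← norm_mul, hprod, norm_one]
    have hb : ‖f * Complex.exp w‖ * (|Ri| + 1) ≤ 1 := by
      have : r0 ≤ 1 / (|Ri| + 1) := min_le_right _ _
      rw [le_div_iff₀ (by positivity)] at this
      have h0 : 0 ≤ |Ri| + 1 := by positivity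
      nlinarith
    have hRi1 : Ri ≤ |Ri| := le_abs_self _
    have hRi0 : 0 < Ri := lt_of_le_of_lt (norm_nonneg _) hz
    have h1 : ‖sc f⁻¹ (gs w) .z‖ * ‖sc f⁻¹ (gs w) .e‖ < (|Ri| + 1) * (|Ri| + 1) := by
      apply mul_lt_mul'' (by linarith) (by linarith) (norm_nonneg _) (norm_nonneg _)
    have hpos : 0 < ‖f * Complex.exp w‖ := norm_pos_iff.mpr hfne
    have h2 : ‖f * Complex.exp w‖ ^ 2 * ((|Ri| + 1) * (|Ri| + 1)) ≤ 1 := by
      have : ‖f * Complex.exp w‖ ^ 2 * ((|Ri| + 1) * (|Ri| + 1)) = (‖f * Complex.exp w‖ * (|Ri| + 1)) ^ 2 := by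
        ring
      rw [this]
      exact pow_le_one₀ (by positivity) hb
    have h3 : ‖f * Complex.exp w‖ ^ 2 * (‖sc f⁻¹ (gs w) .z‖ * ‖sc f⁻¹ (gs w) .e‖) <
        ‖f * Complex.exp w‖ ^ 2 * ((|Ri| + 1) * (|Ri| + 1)) := by
      apply mul_lt_mul_of_pos_left h1 (by positivity)
    linarith
  have hinf := hRi _ (hqW w hw) hPar hZ hbig
  have hclose := close_one (E := f * Complex.exp w * sc f⁻¹ (gs w) .z)
    (E' := f * Complex.exp w * sc f⁻¹ (gs w) .e) (by rw [← hprod]; ring) hE1 (by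
      rw [← mul_sub, norm_mul, norm_mul (f * Complex.exp w) (sc f⁻¹ (gs w) .e)]
      nlinarith [norm_nonneg (f * Complex.exp w)])
  exact ⟨hqW w hw, hPar, hZ, hprod, hle, hclose.1, hclose.2⟩

theorem exists_near (c0 : Fin (k + 1) → ℂ) (r : ℝ) (hr : 0 < r) : ∃ R : ℝ, ∀ p ∈ W k, Par c0 p → ¬ Z0 p →
    (R ≤ ‖p .z‖ ∨ R ≤ ‖p .e‖) → ∃ f : ℂ, (p, f) ∈ Nr c0 r := by
  obtain ⟨Ri, hRi⟩ := at_inf c0 (1 / 100) (by norm_num)
  refine ⟨max (max Ri 1) (2 / r), ?_⟩
  intro p hp hpar hZ hbig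
  have hR2 : 0 < 2 / r := by positivity
  have h1 : ‖p .z - p .e‖ ≤ 1 / 100 * ‖p .e‖ := by
    refine hRi p hp hpar hZ ?_
    rcases hbig with h | h
    · left; exact ((le_max_left _ _).trans (le_max_left _ _)).trans h
    · right; exact ((le_max_left _ _).trans (le_max_left _ _)).trans h
  have h2 : ‖p .z‖ ≤ 101 / 100 * ‖p .e‖ := by
    have h : p .z = (p .z - p .e) + p .e := by ring
    have : ‖p .z‖ ≤ ‖p .z - p .e‖ + ‖p .e‖ := by
      calc ‖p .z‖ = ‖(p .z - p .e) + p .e‖ := by rw [← h]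
        _ ≤ _ := norm_add_le _ _
    linarith
  have h3 : ‖p .e‖ ≤ 100 / 99 * ‖p .z‖ := by
    have h : p .e = p .z - (p .z - p .e) := by ring
    have : ‖p .e‖ ≤ ‖p .z‖ + ‖p .z - p .e‖ := by
      calc ‖p .e‖ = ‖p .z - (p .z - p .e)‖ := by rw [← h]
        _ ≤ _ := norm_sub_le _ _
    linarith
  have hzb : 99 / 100 * (2 / r) ≤ ‖p .z‖ := by
    rcases hbig with h | h
    · have := (le_max_right _ _).trans h
      linarith
    · have := (le_max_right _ _).trans h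
      linarith
  have heb : 99 / 100 * (2 / r) ≤ ‖p .e‖ := by
    rcases hbig with h | h
    · have := (le_max_right _ _).trans h
      linarith
    · have := (le_max_right _ _).trans h
      linarith
  have hz0 : p .z ≠ 0 := by
    intro h
    rw [h, norm_zero] at hzb
    linarith
  have he0 : p .e ≠ 0 := by
    intro h
    rw [h, norm_zero] at heb
    linarith
  obtain ⟨f, hf⟩ := IsAlgClosed.exists_pow_nat_eq ((p .z * p .e)⁻¹) (n := 2) (by norm_num)
  have hfze : f ^ 2 * (p .z * p .e) = 1 := by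
    rw [hf]; exact inv_mul_cancel₀ (mul_ne_zero hz0 he0)
  have hfn : ‖f‖ ≤ r := by
    have h4 : ‖f‖ ^ 2 * (‖p .z‖ * ‖p .e‖) = 1 := by
      rw [← norm_mul, ← norm_pow, ← norm_mul, hfze, norm_one]
    by_contra hcon
    push Not at hcon
    have h5 : (99 / 100 * (2 / r)) * (99 / 100 * (2 / r)) ≤ ‖p .z‖ * ‖p .e‖ := by
      apply mul_le_mul hzb heb (by positivity) (norm_nonneg _)
    have h6 : r ^ 2 * ((99 / 100 * (2 / r)) * (99 / 100 * (2 / r))) = (99 / 50) ^ 2 := by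
      field_simp
      norm_num
    have h7 : r ^ 2 ≤ ‖f‖ ^ 2 := by gcongr
    have h8 : r ^ 2 * ((99 / 100 * (2 / r)) * (99 / 100 * (2 / r))) ≤ ‖f‖ ^ 2 * (‖p .z‖ * ‖p .e‖) := by
      apply mul_le_mul h7 h5 (by positivity) (by positivity)
    rw [h6, h4] at h8
    norm_num at h8
  have hE : ‖(f * p .z - 1)‖ * ‖f * p .z + 1‖ ≤ 1 / 100 := by
    rw [← norm_mul]
    have h4 : (f * p .z - 1) * (f * p .z + 1) * p .e = p .z - p .e := by
      linear_combination p .z * hfze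
    have h5 : ‖(f * p .z - 1) * (f * p .z + 1)‖ * ‖p .e‖ ≤ 1 / 100 * ‖p .e‖ := by
      rw [← norm_mul, h4]; exact h1
    exact le_of_mul_le_mul_right h5 (norm_pos_iff.mpr he0)
  have key : ∀ f : ℂ, f ^ 2 * (p .z * p .e) = 1 → ‖f‖ ≤ r → ‖f * p .z - 1‖ ≤ 1 / 10 →
      (p, f) ∈ Nr c0 r := by
    intro f hfze hfn hf1
    have hz1 : 9 / 10 ≤ ‖f * p .z‖ := by
      have h : (1 : ℂ) = f * p .z - (f * p .z - 1) := by ring
      have : ‖(1 : ℂ)‖ ≤ ‖f * p .z‖ + ‖f * p .z - 1‖ := by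
        calc ‖(1 : ℂ)‖ = ‖f * p .z - (f * p .z - 1)‖ := by rw [← h]
          _ ≤ _ := norm_sub_le _ _
      rw [norm_one] at this
      linarith
    have h11 : ‖f * p .z‖ * ‖f * p .e‖ = 1 := by
      rw [← norm_mul]
      have : f * p .z * (f * p .e) = 1 := by rw [← hfze]; ring
      rw [this, norm_one]
    have he1 : ‖f * p .e‖ ≤ 10 / 9 := by
      nlinarith [norm_nonneg (f * p .e)]
    have h12 : f * p .e - 1 = f * p .e * (1 - f * p .z) := by linear_combination hfze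
    have h13 : ‖f * p .e - 1‖ ≤ 1 / 8 := by
      rw [h12, norm_mul, norm_sub_rev]
      nlinarith [norm_nonneg (f * p .e), norm_nonneg (f * p .z - 1)]
    exact ⟨hp, hpar, hZ, hfze, hfn, by simpa using hf1.trans (by norm_num), h13⟩
  by_cases hc : ‖f * p .z - 1‖ ≤ 1 / 10
  · exact ⟨f, key f hfze hfn hc⟩
  · push Not at hc
    refine ⟨-f, key (-f) (by rw [neg_sq]; exact hfze) (by rw [norm_neg]; exact hfn) ?_⟩
    have : ‖-f * p .z - 1‖ = ‖f * p .z + 1‖ := by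
      rw [← norm_neg]; congr 1; ring
    rw [this]
    nlinarith [norm_nonneg (f * p .z + 1)]

end Pool.Agent.Helper44.FT
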