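import Pool.Agent.Helper44.FT.VBound
import Pool.Agent.Helper44.FT.Step

/-!
# Block FT-F4: `D a_0` is small near the axis

Let `x = (p, f) ∈ Nr c0 r0` (`exists_near`), `‖f‖ ≤ r1`, `a = a_0 = - b_0`. `UU_0 = a (z + e)`, and `D b_0 = - D a_0` on `W` (`hp 1`), so `D UU_0 = (D a_0) (z + e) + a (D z + D e)`, `D z + D e = - z² - e² - a (z - e)`, and `D UU_0 = PP_0 - mm UU_0 = PP_0 - a (z + e)²/2` (`dv_UU`); hence
`(z + e) D a_0 = PP_0 + a (z - e) ((z - e)/2 + a)`. By `vbound`: `‖PP_0‖ ≤ C`, `‖z - e‖ ≤ C`, `‖a‖ = ‖f UU_0‖ / ‖f (z + e)‖ ≤ C` as `‖f (z+e)‖ ≥ 2 - 1/4`. Finally `‖z‖ ≤ (9/8)/‖f‖`, `‖z + e‖ ≥ (7/4)/‖f‖`, so `‖D a_0‖ ‖z‖ ≤ ‖(z + e) D a_0‖`.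
-/

namespace Pool.Agent.Helper44.FT

open MvPolynomial

/-- The identity `(z + e) D a_0 = PP_0 + a (z - e) ((z - e)/2 + a)` on `W` (with `d = 1`). -/
theorem axis_id {k : ℕ} {p : Va k → ℂ} (hp : p ∈ W k) (hd : p .d = 1) :
    (p .z + p .e) * eval p (vf k (.a 0)) =
      eval p (PP (k := k) 0) + p (.a 0) * (p .z - p .e) * ((p .z - p .e) / 2 + p (.a 0)) := by
  have hab := W_ab hp
  have h1 := hp 1
  rw [it_succ, it_zero] at h1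
  simp only [G0, map_add, dv_X, ev_a, ev_b, ev_KK, ev_LL, hd, hab] at h1
  simp only [ev_a, ev_KK, hd, PP, map_sub, map_mul, eval_X]
  linear_combination (p .e) * h1

theorem axis_bound {k : ℕ} (c0 : Fin (k + 1) → ℂ) : ∃ C R : ℝ, ∀ p ∈ W k, Par c0 p → ¬ Z0 p →
    (R ≤ ‖p .z‖ ∨ R ≤ ‖p .e‖) → ‖eval p (vf k (.a 0))‖ * ‖p .z‖ ≤ C := by
  obtain ⟨r0, w0, h⟩ := exists_step c0
  obtain ⟨r1, C, hr1, hr10, hC, hv⟩ := vbound h
  obtain ⟨R, hR⟩ := exists_near c0 r1 hr1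
  refine ⟨C + C * C * (C / 2 + C), R, fun p hp hpar hZ hbig => ?_⟩
  obtain ⟨f, hf⟩ := hR p hp hpar hZ hbig
  obtain ⟨-, -, -, hfz, hfr, hz, he⟩ := hf
  obtain ⟨huv, hze⟩ := hv (p, f) ⟨hp, hpar, hZ, hfz, hfr.trans hr10, hz, he⟩ hfr
  obtain ⟨hu, hP⟩ := huv 0
  simp only at hfz hfr hz he hze hu hP
  have hf0 : f ≠ 0 := by
    rintro rfl
    simp at hfz
  have hfn : 0 < ‖f‖ := norm_pos_iff.mpr hf0
  have hP' : ‖eval p (PP (k := k) 0)‖ ≤ C := by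
    rw [norm_mul, norm_pow, mul_comm C] at hP
    exact le_of_mul_le_mul_left hP (by positivity)
  have hfz' : ‖f * p .z‖ ≤ 9 / 8 := by
    calc ‖f * p .z‖ = ‖(f * p .z - 1) + 1‖ := by congr 1; ring
      _ ≤ ‖f * p .z - 1‖ + ‖(1 : ℂ)‖ := norm_add_le _ _
      _ ≤ 1 / 8 + 1 := by rw [norm_one]; linarith
      _ = 9 / 8 := by norm_num
  have hfze : 7 / 4 ≤ ‖f * (p .z + p .e)‖ := by
    have h2 : ‖(2 : ℂ)‖ ≤ ‖f * (p .z + p .e)‖ + (‖f * p .z - 1‖ + ‖f * p .e - 1‖) := by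
      calc ‖(2 : ℂ)‖ = ‖f * (p .z + p .e) - ((f * p .z - 1) + (f * p .e - 1))‖ := by
            congr 1; ring
        _ ≤ ‖f * (p .z + p .e)‖ + ‖(f * p .z - 1) + (f * p .e - 1)‖ := norm_sub_le _ _
        _ ≤ _ := by gcongr; exact norm_add_le _ _
    have h2' : ‖(2 : ℂ)‖ = 2 := by norm_num
    rw [h2'] at h2
    linarith
  have hz2 : ‖p .z‖ ≤ ‖p .z + p .e‖ := by
    rw [norm_mul] at hfz' hfze
    have : ‖f‖ * ‖p .z‖ ≤ ‖f‖ * ‖p .z + p .e‖ := by linarith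
    exact le_of_mul_le_mul_left this hfn
  have ha : ‖p (.a 0)‖ ≤ C := by
    have hUU : f * eval p (UU (k := k) 0) = p (.a 0) * (f * (p .z + p .e)) := by
      have hab := W_ab hp
      simp only [UU, map_sub, map_mul, eval_X, hab]
      ring
    rw [hUU, norm_mul] at hu
    nlinarith [norm_nonneg (p (.a 0))]
  calc ‖eval p (vf k (.a 0))‖ * ‖p .z‖ ≤ ‖eval p (vf k (.a 0))‖ * ‖p .z + p .e‖ := by gcongr
    _ = ‖(p .z + p .e) * eval p (vf k (.a 0))‖ := by rw [norm_mul, mul_comm]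
    _ = ‖eval p (PP (k := k) 0) + p (.a 0) * (p .z - p .e) * ((p .z - p .e) / 2 + p (.a 0))‖ := by
        rw [axis_id hp hpar.1]
    _ ≤ ‖eval p (PP (k := k) 0)‖ + ‖p (.a 0) * (p .z - p .e) * ((p .z - p .e) / 2 + p (.a 0))‖ :=
        norm_add_le _ _
    _ = ‖eval p (PP (k := k) 0)‖ + ‖p (.a 0)‖ * ‖p .z - p .e‖ * ‖(p .z - p .e) / 2 + p (.a 0)‖ := by
        rw [norm_mul, norm_mul]
    _ ≤ C + C * C * (C / 2 + C) := by
        have h3 : ‖(p .z - p .e) / 2 + p (.a 0)‖ ≤ C / 2 + C := by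
          calc ‖(p .z - p .e) / 2 + p (.a 0)‖ ≤ ‖(p .z - p .e) / 2‖ + ‖p (.a 0)‖ := norm_add_le _ _
            _ = ‖p .z - p .e‖ / 2 + ‖p (.a 0)‖ := by rw [norm_div]; norm_num
            _ ≤ C / 2 + C := by gcongr
        gcongr

end Pool.Agent.Helper44.FT
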