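import Pool.Agent.Helper44.FT.Lie

/-!
# Block FT-L2: Leibniz formula; the Taylor series along the vector field is a ring homomorphism

(a) `leibniz`: the `n`-th derivative of a product; induction on `n` with `dv_mul` and
`Finset.sum_antidiagonal_choose_succ_nsmul` (and `Nat.choose_symm_of_eq_add` in the second sum).
(b) `tay_mul`: (a) evaluated at `p`: `(n choose i) / n! = 1 / (i! (n-i)!)`. (c), (d), (e): easy, coefficientwise.
-/

namespace Pool.Agent.Helper44.FT

open MvPolynomial

theorem leibniz {ι : Type*} (P : ι → MvPolynomial ι ℂ) (F G : MvPolynomial ι ℂ) (n : ℕ) :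
    (dv P)^[n] (F * G) = ∑ ij ∈ Finset.HasAntidiagonal.antidiagonal n,
      n.choose ij.1 • ((dv P)^[ij.1] F * (dv P)^[ij.2] G) := by
  induction n with
  | zero => simp
  | succ n ih =>
    rw [Finset.sum_antidiagonal_choose_succ_nsmul
      (fun i j => (dv P)^[i] F * (dv P)^[j] G) n, Function.iterate_succ_apply', ih, map_sum,
      ← Finset.sum_add_distrib]
    refine Finset.sum_congr rfl fun ij hij => ?_
    rw [map_nsmul, dv_mul, ← Function.iterate_succ_apply' (dv P), ← Function.iterate_succ_apply' (dv P),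
      nsmul_add, Nat.choose_symm_of_eq_add (Finset.HasAntidiagonal.mem_antidiagonal.1 hij).symm, add_comm]

/-- The Taylor series at `p` along the vector field. -/
noncomputable def tay {ι : Type*} (P : ι → MvPolynomial ι ℂ) (p : ι → ℂ) (F : MvPolynomial ι ℂ) :
    PowerSeries ℂ :=
  PowerSeries.mk fun j => it P F p j / (j.factorial : ℂ)

theorem tay_mul {ι : Type*} (P : ι → MvPolynomial ι ℂ) (p : ι → ℂ) (F G : MvPolynomial ι ℂ) :
    tay P p (F * G) = tay P p F * tay P p G := by
  ext n
  rw [PowerSeries.coeff_mul]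
  simp only [tay, PowerSeries.coeff_mk]
  unfold it
  rw [leibniz, map_sum, Finset.sum_div]
  refine Finset.sum_congr rfl fun ij hij => ?_
  rw [map_nsmul, map_mul, nsmul_eq_mul]
  have h1 : (n.choose ij.1 : ℂ) * (ij.1.factorial : ℂ) * (ij.2.factorial : ℂ) =
      (n.factorial : ℂ) := by
    have h := (Finset.HasAntidiagonal.mem_antidiagonal.1 hij)
    subst h
    rw [Nat.choose_symm_add]
    exact_mod_cast Nat.add_choose_mul_factorial_mul_factorial ij.1 ij.2
  have h2 : (ij.1.factorial : ℂ) ≠ 0 := Nat.cast_ne_zero.2 (Nat.factorial_ne_zero _)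
  have h3 : (ij.2.factorial : ℂ) ≠ 0 := Nat.cast_ne_zero.2 (Nat.factorial_ne_zero _)
  have h4 : (n.factorial : ℂ) ≠ 0 := Nat.cast_ne_zero.2 (Nat.factorial_ne_zero _)
  rw [div_mul_div_comm, div_eq_div_iff h4 (mul_ne_zero h2 h3), ← h1]
  ring

theorem tay_add {ι : Type*} (P : ι → MvPolynomial ι ℂ) (p : ι → ℂ) (F G : MvPolynomial ι ℂ) :
    tay P p (F + G) = tay P p F + tay P p G := by
  ext n
  rw [map_add]
  simp only [tay, PowerSeries.coeff_mk]
  rw [it_add, add_div]

theorem tay_C {ι : Type*} (P : ι → MvPolynomial ι ℂ) (p : ι → ℂ) (a : ℂ) :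
    tay P p (C a) = PowerSeries.C a := by
  ext n
  simp only [tay, PowerSeries.coeff_mk]
  rw [PowerSeries.coeff_C]
  rcases n with _ | n
  · simp [it]
  · rw [it_succ, dv_C, if_neg (Nat.succ_ne_zero n)]
    have h : it P 0 p n = 0 := by
      have h1 := it_add P 0 0 p n
      rw [add_zero] at h1
      exact left_eq_add.1 h1
    rw [h, zero_div]

theorem tay_dv {ι : Type*} (P : ι → MvPolynomial ι ℂ) (p : ι → ℂ) (F : MvPolynomial ι ℂ) :
    tay P p (dv P F) = PowerSeries.derivative ℂ (tay P p F) := by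
  ext n
  rw [PowerSeries.coeff_derivative]
  simp only [tay, PowerSeries.coeff_mk]
  rw [it_succ, Nat.factorial_succ]
  push_cast
  have h2 : (n.factorial : ℂ) ≠ 0 := Nat.cast_ne_zero.2 (Nat.factorial_ne_zero _)
  have h3 : (n : ℂ) + 1 ≠ 0 := Nat.cast_add_one_ne_zero n
  field_simp

end Pool.Agent.Helper44.FT
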