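import Pool.Agent.Helper44.FT.Vf
import Pool.Agent.Helper44.FT.LieHom

/-!
# Block FT-PL: the planar case (`z = e = 0`, all `c j = 0`, `d = 1`): everything vanishes

Proof (formal power series in `t`). Write `A n = tay vf p (X (a n))` etc. `X z` divides all its derivatives, so `tay (X z) = 0`,
`tay (X e) = 0`, `tay (X (c j)) = 0` (all derivatives vanish at `p`), `tay (X d) = 1`. `p ∈ W k` says `tay (G0 k) = 0`, i.e. `B 0 = - A 0`.
Put `u = A 0`. By `tay_dv`, `tay_mul`: `A n' = AL n + u A n`, `AL n' = u AL n - A (n+1)`, `B n' = BE n - u B n`, `BE n' = - u BE n - B (n+1)`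
(`A (k+1) = B (k+1) = 0`). Let `E` be the power series with `E(0) = 1`, `E' = - u E` and `F` the one with `F(0) = 1`, `F' = u F` (solve for the coefficients
recursively); `(E F)' = 0` so `E F = 1`. Then `(A n E)' = AL n E`, `(AL n E)' = - A (n+1) E`, so
`E' = - A 0 E` and the derivative of `E` of order `2 k + 3` is `± A (k+1) E = 0`; in the same way `F' = - B 0 F`, `(B n F)' = BE n F`, ...,
and the derivative of `F` of order `2 k + 3` is zero. So `E` and `F` are polynomials (coefficients of index `≥ 2k+3` vanish) with product `1`, so they are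
constant (degree), so `u E = 0`, `u = 0`, `A 0 = 0`, `B 0 = 0`, and then `AL 0 = A 0' - u A 0 = 0`, `A 1 = 0` and so on: all vanish; take
constant coefficients.
-/

namespace Pool.Agent.Helper44.FT

open MvPolynomial

namespace PL

abbrev PS : Type := PowerSeries ℂ

/-- the derivative -/
noncomputable abbrev D : Derivation ℂ PS PS := PowerSeries.derivative ℂ

theorem D_mul (f g : PS) : D (f * g) = D f * g + f * D g := by
  rw [Derivation.leibniz]
  simp only [smul_eq_mul]
  ring

/-- uniqueness for linear equations -/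
theorem uniq {f h : PS} (hf : D f = h * f) (h0 : PowerSeries.constantCoeff f = 0) : f = 0 := by
  have key : ∀ n, ∀ m ≤ n, PowerSeries.coeff m f = 0 := by
    intro n
    induction n with
    | zero =>
      intro m hm
      obtain rfl : m = 0 := by omega
      rw [PowerSeries.coeff_zero_eq_constantCoeff_apply]
      exact h0
    | succ n ih =>
      intro m hm
      rcases Nat.lt_or_ge m (n + 1) with h1 | h1
      · exact ih m (by omega)
      · obtain rfl : m = n + 1 := by omega
        have h2 := PowerSeries.coeff_derivative f n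
        have h3 : PowerSeries.coeff n (D f) = 0 := by
          rw [hf, PowerSeries.coeff_mul]
          apply Finset.sum_eq_zero
          intro ij hij
          rw [Finset.HasAntidiagonal.mem_antidiagonal] at hij
          rw [ih ij.2 (by omega), mul_zero]
        rw [h3] at h2
        have h4 : ((n : ℂ) + 1) ≠ 0 := by exact_mod_cast Nat.succ_ne_zero n
        rcases mul_eq_zero.mp h2.symm with h5 | h5
        · exact h5
        · exact absurd h5 h4
  ext n
  rw [key n n le_rfl]
  simp

/-- coefficients of the solution of a linear equation -/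
noncomputable def solc (h : PS) : ℕ → ℂ
  | 0 => 1
  | n + 1 => (∑ i : Fin (n + 1), PowerSeries.coeff (n - i.1) h * solc h i.1) / (n + 1)
  decreasing_by exact i.2

theorem exists_sol (h : PS) : ∃ f : PS, D f = h * f ∧ PowerSeries.constantCoeff f = 1 := by
  refine ⟨PowerSeries.mk (solc h), ?_, ?_⟩
  · ext n
    rw [PowerSeries.coeff_derivative, PowerSeries.coeff_mk, solc, PowerSeries.coeff_mul]
    have h4 : ((n : ℂ) + 1) ≠ 0 := by exact_mod_cast Nat.succ_ne_zero n
    rw [div_mul_cancel₀ _ h4]
    rw [Finset.Nat.sum_antidiagonal_eq_sum_range_succ_mk]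
    rw [← Finset.sum_range_reflect]
    rw [Finset.sum_range]
    apply Finset.sum_congr rfl
    intro i _
    have h1 : n + 1 - 1 - i.1 = n - i.1 := by omega
    have h2 : n - (n - i.1) = i.1 := by have := i.2; omega
    simp only [h1, h2, PowerSeries.coeff_mk]
  · rw [← PowerSeries.coeff_zero_eq_constantCoeff_apply, PowerSeries.coeff_mk, solc]

theorem chain (k : ℕ) (A AL : ℕ → PS) (E : PS) (hE : D E = -(A 0 * E))
    (hA : ∀ n ≤ k, D (A n * E) = AL n * E) (hAL : ∀ n ≤ k, D (AL n * E) = -(A (n + 1) * E))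
    (hk : A (k + 1) = 0) : ∀ m, 2 * k + 3 ≤ m → PowerSeries.coeff m E = 0 := by
  have h1 : ∀ n ≤ k + 1, (D)^[2 * n + 1] E = (-1 : ℂ) ^ (n + 1) • (A n * E) := by
    intro n
    induction n with
    | zero => intro _; simp [hE]
    | succ n ih =>
      intro hn
      rw [show 2 * (n + 1) + 1 = (2 * n + 1) + 1 + 1 by ring, Function.iterate_succ_apply',
        Function.iterate_succ_apply', ih (by omega), Derivation.map_smul, hA n (by omega),
        Derivation.map_smul, hAL n (by omega)]
      simp [pow_succ]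
  have h2 := h1 (k + 1) le_rfl
  rw [hk, zero_mul, smul_zero] at h2
  intro m hm
  have h3 := PowerSeries.coeff_iterate_derivative E (2 * (k + 1) + 1) (m - (2 * (k + 1) + 1))
  have h2' : (PowerSeries.derivative ℂ)^[2 * (k + 1) + 1] E = 0 := h2
  rw [h2', map_zero, show m - (2 * (k + 1) + 1) + (2 * (k + 1) + 1) = m by omega] at h3
  rcases mul_eq_zero.mp h3.symm with h4 | h4
  · exfalso
    have h5 : (m - (2 * (k + 1) + 1) + 1).ascFactorial (2 * (k + 1) + 1) = 0 := by exact_mod_cast h4
    exact (Nat.ascFactorial_pos _ _).ne' h5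
  · exact h4

/-- a power series with finitely many terms and an inverse of the same kind is constant -/
theorem const_of (N : ℕ) (E F : PS) (hE : ∀ m, N ≤ m → PowerSeries.coeff m E = 0)
    (hF : ∀ m, N ≤ m → PowerSeries.coeff m F = 0) (h : E * F = 1) : D E = 0 := by
  have cE : ((PowerSeries.trunc N E : Polynomial ℂ) : PS) = E := by
    ext m
    rw [Polynomial.coeff_coe, PowerSeries.coeff_trunc]
    split_ifs with h1
    · rfl
    · exact (hE m (by omega)).symm
  have cF : ((PowerSeries.trunc N F : Polynomial ℂ) : PS) = F := by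
    ext m
    rw [Polynomial.coeff_coe, PowerSeries.coeff_trunc]
    split_ifs with h1
    · rfl
    · exact (hF m (by omega)).symm
  have h1 : PowerSeries.trunc N E * PowerSeries.trunc N F = 1 := by
    apply Polynomial.coe_injective ℂ
    rw [Polynomial.coe_mul, cE, cF, Polynomial.coe_one, h]
  have h2 : IsUnit (PowerSeries.trunc N E) := IsUnit.of_mul_eq_one _ h1
  obtain ⟨c, -, hc⟩ := Polynomial.isUnit_iff.mp h2
  rw [← cE, ← hc]
  rw [PowerSeries.derivative_coe, Polynomial.derivative_C]
  simp

/-- `tay` of a chain -/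
noncomputable def ext0 {k : ℕ} (x : Fin (k + 1) → PS) (n : ℕ) : PS :=
  if h : n < k + 1 then x ⟨n, h⟩ else 0

end PL

open PL

theorem planar {k : ℕ} {p : Va k → ℂ} (hp : p ∈ W k) (hn : Nul p) (hz : p .z = 0) (he : p .e = 0) :
    Z0 p := by
  set T : MvPolynomial (Va k) ℂ → PS := tay (vf k) p with hT
  have Tmul : ∀ F G, T (F * G) = T F * T G := tay_mul (vf k) p
  have Tadd : ∀ F G, T (F + G) = T F + T G := tay_add (vf k) p
  have TC : ∀ a, T (C a) = PowerSeries.C a := tay_C (vf k) p
  have Tdv : ∀ F, T (dv (vf k) F) = D (T F) := tay_dv (vf k) p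
  have T0 : T 0 = 0 := by
    have := TC 0
    simpa using this
  have Tneg : ∀ F, T (-F) = -T F := by
    intro F
    have := Tadd F (-F)
    rw [add_neg_cancel, T0] at this
    exact (neg_eq_of_add_eq_zero_right this.symm).symm
  have Tsub : ∀ F G, T (F - G) = T F - T G := by
    intro F G
    rw [sub_eq_add_neg, Tadd, Tneg, sub_eq_add_neg]
  have Tsum : ∀ (s : Finset (Fin (k + 1))) (f : Fin (k + 1) → MvPolynomial (Va k) ℂ),
      T (∑ j ∈ s, f j) = ∑ j ∈ s, T (f j) := by
    intro s f
    classical
    induction s using Finset.induction_on with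
    | empty => simp [T0]
    | insert a s ha ih => rw [Finset.sum_insert ha, Finset.sum_insert ha, Tadd, ih]
  have Tcc : ∀ F, PowerSeries.constantCoeff (T F) = eval p F := by
    intro F
    rw [← PowerSeries.coeff_zero_eq_constantCoeff_apply, hT, tay, PowerSeries.coeff_mk]
    simp
  have DX : ∀ i, D (T (X i)) = T (vf k i) := by
    intro i
    rw [← Tdv, dv_X]
  -- z, e, c, d
  have hZ : T (X .z) = 0 := by
    apply uniq (h := -T (X .z) - T (X .d) * T (X (.a 0)))
    · rw [DX]
      simp only [vf, Tsub, Tneg, Tmul]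
      ring
    · rw [Tcc]; simpa using hz
  have hE : T (X .e) = 0 := by
    apply uniq (h := -T (X .e) - T (X .d) * T (X (.b 0)))
    · rw [DX]
      simp only [vf, Tsub, Tneg, Tmul]
      ring
    · rw [Tcc]; simpa using he
  have hc : ∀ j, T (X (.c j)) = 0 := by
    intro j
    apply uniq (h := 0)
    · rw [DX]
      simp only [vf, T0, zero_mul]
    · rw [Tcc]; simpa using hn.2 j
  have hd : T (X .d) = 1 := by
    have h1 : T (X .d) - 1 = 0 := by
      apply uniq (h := 0)
      · rw [map_sub, DX, zero_mul]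
        simp only [vf, T0]
        rw [Derivation.map_one_eq_zero, sub_zero]
      · rw [map_sub, Tcc]
        simp [hn.1]
    exact sub_eq_zero.mp h1
  set u : PS := T (X (.a 0)) with hu
  have hB0 : T (X (.b 0)) = -u := by
    have h1 : T (G0 k) = 0 := by
      ext j
      rw [hT, tay, PowerSeries.coeff_mk, hp j]
      simp
    rw [G0, Tadd] at h1
    rw [hu]
    exact eq_neg_of_add_eq_zero_right h1
  have hKK : T (KK k) = -u := by
    simp only [KK, Tsub, Tneg, Tmul, hd, hZ, hE]
    rw [← hu]; ring
  have hLL : T (LL k) = u := by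
    simp only [LL, Tsub, Tneg, Tmul, hd, hZ, hE, hB0]
    ring
  have hmm : T (mm k) = 0 := by
    simp only [mm, Tmul, Tadd, hZ, hE]
    ring
  -- chains
  set A : ℕ → PS := ext0 fun n => T (X (.a n)) with hA
  set AL : ℕ → PS := ext0 fun n => T (X (.al n)) with hAL
  set B : ℕ → PS := ext0 fun n => T (X (.b n)) with hB
  set BE : ℕ → PS := ext0 fun n => T (X (.be n)) with hBE
  have e0 : ∀ (x : Fin (k + 1) → PS) (n : ℕ) (h : n < k + 1), ext0 x n = x ⟨n, h⟩ := by
    intro x n h; rw [ext0, dif_pos h]
  have nxT : ∀ (x : Fin (k + 1) → MvPolynomial (Va k) ℂ) (y : MvPolynomial (Va k) ℂ), T y = 0 →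
      ∀ (n : ℕ) (h : n < k + 1), T (nx x y ⟨n, h⟩) = ext0 (fun n => T (x n)) (n + 1) := by
    intro x y hy n h
    unfold nx ext0
    by_cases h1 : n + 1 < k + 1
    · rw [dif_pos h1, dif_pos h1]
    · rw [dif_neg h1, dif_neg h1, hy]
  have hsa : T (∑ j, X (.c j) * X (.a j)) = 0 := by
    rw [Tsum]
    apply Finset.sum_eq_zero
    intro j _
    rw [Tmul, hc, zero_mul]
  have hsb : T (∑ j, X (.c j) * X (.b j)) = 0 := by
    rw [Tsum]
    apply Finset.sum_eq_zero
    intro j _
    rw [Tmul, hc, zero_mul]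
  have rA : ∀ n ≤ k, D (A n) = AL n + u * A n := by
    intro n hn'
    have h : n < k + 1 := by omega
    rw [hA, hAL, e0 _ n h, e0 _ n h, DX]
    simp only [vf, Tsub, Tmul, hKK]
    ring
  have rAL : ∀ n ≤ k, D (AL n) = u * AL n - A (n + 1) := by
    intro n hn'
    have h : n < k + 1 := by omega
    rw [hAL, e0 _ n h, DX]
    simp only [vf, Tsub, Tadd, Tneg, Tmul, hKK, hmm, hZ, hE]
    rw [nxT _ _ hsa n h]
    ring
  have rB : ∀ n ≤ k, D (B n) = BE n - u * B n := by
    intro n hn'
    have h : n < k + 1 := by omega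
    rw [hB, hBE, e0 _ n h, e0 _ n h, DX]
    simp only [vf, Tsub, Tmul, hLL]
  have rBE : ∀ n ≤ k, D (BE n) = -(u * BE n) - B (n + 1) := by
    intro n hn'
    have h : n < k + 1 := by omega
    rw [hBE, e0 _ n h, DX]
    simp only [vf, Tsub, Tadd, Tneg, Tmul, hLL, hmm, hZ, hE]
    rw [nxT _ _ hsb n h]
    ring
  have A0 : A 0 = u := by rw [hA, e0 _ 0 (by omega), hu]; rfl
  have B0 : B 0 = -u := by
    rw [hB, e0 _ 0 (by omega), ← hB0]; rfl
  have Ak : A (k + 1) = 0 := by rw [hA, ext0, dif_neg (by omega)]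
  have Bk : B (k + 1) = 0 := by rw [hB, ext0, dif_neg (by omega)]
  obtain ⟨E, hE1, hE2⟩ := exists_sol (-u)
  obtain ⟨F, hF1, hF2⟩ := exists_sol u
  have hEF : E * F = 1 := by
    have h1 : E * F - 1 = 0 := by
      apply uniq (h := 0)
      · rw [map_sub, D_mul, hE1, hF1, Derivation.map_one_eq_zero]
        ring
      · rw [map_sub, map_mul, hE2, hF2]; simp
    exact sub_eq_zero.mp h1
  have cE := chain k A AL E (by rw [hE1, A0]; ring)
    (fun n hn' => by rw [D_mul, hE1, rA n hn']; ring)
    (fun n hn' => by rw [D_mul, hE1, rAL n hn']; ring) Ak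
  have cF := chain k B BE F (by rw [hF1, B0]; ring)
    (fun n hn' => by rw [D_mul, hF1, rB n hn']; ring)
    (fun n hn' => by rw [D_mul, hF1, rBE n hn']; ring) Bk
  have hDE := const_of _ E F cE cF hEF
  have hu0 : u = 0 := by
    rw [hE1] at hDE
    rcases mul_eq_zero.mp hDE with h1 | h1
    · exact neg_eq_zero.mp h1
    · exfalso
      rw [h1, zero_mul] at hEF
      exact zero_ne_one hEF
  have allA : ∀ n ≤ k, A n = 0 ∧ AL n = 0 := by
    intro n
    induction n with
    | zero =>
      intro _
      have h1 : A 0 = 0 := by rw [A0, hu0]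
      have h2 := rA 0 (by omega)
      rw [h1, hu0, map_zero] at h2
      exact ⟨h1, by simpa using h2.symm⟩
    | succ n ih =>
      intro hn'
      obtain ⟨h1, h2⟩ := ih (by omega)
      have h3 := rAL n (by omega)
      rw [h2, map_zero, hu0] at h3
      have h4 : A (n + 1) = 0 := by simpa using h3
      have h5 := rA (n + 1) hn'
      rw [h4, map_zero, hu0] at h5
      exact ⟨h4, by simpa using h5.symm⟩
  have allB : ∀ n ≤ k, B n = 0 ∧ BE n = 0 := by
    intro n
    induction n with
    | zero =>
      intro _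
      have h1 : B 0 = 0 := by rw [B0, hu0, neg_zero]
      have h2 := rB 0 (by omega)
      rw [h1, hu0, map_zero] at h2
      exact ⟨h1, by simpa using h2.symm⟩
    | succ n ih =>
      intro hn'
      obtain ⟨h1, h2⟩ := ih (by omega)
      have h3 := rBE n (by omega)
      rw [h2, map_zero, hu0] at h3
      have h4 : B (n + 1) = 0 := by simpa using h3
      have h5 := rB (n + 1) hn'
      rw [h4, map_zero, hu0] at h5
      exact ⟨h4, by simpa using h5.symm⟩
  intro n
  have hn' : n.1 ≤ k := by have := n.2; omega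
  have cc : ∀ i, T (X i) = 0 → p i = 0 := by
    intro i hi
    have h1 := Tcc (X i)
    rw [hi, map_zero, eval_X] at h1
    exact h1.symm
  have q1 := (allA n.1 hn').1
  have q2 := (allA n.1 hn').2
  have q3 := (allB n.1 hn').1
  have q4 := (allB n.1 hn').2
  rw [hA, e0 _ n.1 n.2] at q1
  rw [hAL, e0 _ n.1 n.2] at q2
  rw [hB, e0 _ n.1 n.2] at q3
  rw [hBE, e0 _ n.1 n.2] at q4
  exact ⟨cc _ q1, cc _ q2, cc _ q3, cc _ q4⟩

end Pool.Agent.Helper44.FT
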