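import Pool.Agent.Helper44.FT.SymA
import Pool.Agent.Helper44.FT.Planar

/-!
# Block FT-A: bounds for the points of `W` (compactness)

Proof by contradiction. For a point `p` put `T p = max over the variables i of type a, al, b, be of ‖p i‖ ^ (1 / wt i)` (real power).
If the theorem fails, then for every `j : ℕ`, `j ≥ 1`, there are `p_j ∈ W`, `p_j d = 1`, `Λ_j > 0` with the three bounds and an `i` with
`‖p_j i‖ > (j Λ_j)^(wt i)`; `i` is not of type `c`, `d`, `z`, `e` (for `j ≥ 1`: `wt d = 0`, `‖p d‖ = 1`), so `T p_j > j Λ_j`. The points `q_j = sc (1 / T p_j) p_j ∈ W`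
(`W_sc`) have `‖q_j (c i)‖ ≤ (1/j)^(wt)`, `‖q_j z‖, ‖q_j e‖ ≤ 1/j`, `q_j d = 1` and `T q_j = 1`, so all coordinates are bounded by `1`. A subsequence converges
(`tendsto_subseq_of_bounded` or `IsCompact.tendsto_subseq`) to `q ∈ W` (`W_closed`) with `Nul q`, `q z = q e = 0`, `T q = 1` (`T` is continuous). `planar` gives
`Z0 q`, so `T q = 0`, a contradiction.
-/

namespace Pool.Agent.Helper44.FT

open Filter Topology

/-- Scaling a point of `W` (helper10). -/
theorem bdA_scale {k : ℕ} {p : Va k → ℂ} (hp : p ∈ W k) (hd : p .d = 1) {L C : ℝ} (hL : 0 < L)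
    (hC : 1 ≤ C) (hc : ∀ j, ‖p (.c j)‖ ≤ L ^ wt (Va.c j)) (hz : ‖p .z‖ ≤ L) (he : ‖p .e‖ ≤ L)
    {i : Va k} (hi : (C * L) ^ wt i < ‖p i‖) :
    ∃ q ∈ W k, q .d = 1 ∧ (∀ i, ‖q i‖ ≤ 1) ∧ (∀ j, ‖q (.c j)‖ ≤ 1 / C) ∧ ‖q .z‖ ≤ 1 / C ∧
      ‖q .e‖ ≤ 1 / C ∧ 1 ≤ ∑ i ∈ Finset.univ.filter (fun i : Va k => wt i ≠ 0), ‖q i‖ := by
  have hC0 : 0 < C := lt_of_lt_of_le one_pos hC
  have hCL : 0 < C * L := mul_pos hC0 hL
  have hwi : wt i ≠ 0 := by
    intro h0
    cases i with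
    | d => rw [h0, hd] at hi; simp at hi
    | c j => simp only [wt] at h0; omega
    | z => simp [wt] at h0
    | e => simp [wt] at h0
    | a n => simp [wt] at h0
    | al n => simp [wt] at h0
    | b n => simp [wt] at h0
    | be n => simp [wt] at h0
  set T : Finset (Va k) := Finset.univ.filter (fun i : Va k => wt i ≠ 0) with hT
  have hiT : i ∈ T := by simp [hT, hwi]
  obtain ⟨m, hmT, hm⟩ := Finset.exists_max_image T (fun i => ‖p i‖ ^ ((wt i : ℝ)⁻¹)) ⟨i, hiT⟩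
  have hwm : wt m ≠ 0 := by simpa [hT] using hmT
  set t : ℝ := ‖p m‖ ^ ((wt m : ℝ)⁻¹) with ht
  have ht1 : C * L < t := by
    have h1 : C * L < ‖p i‖ ^ ((wt i : ℝ)⁻¹) := by
      calc C * L = ((C * L) ^ wt i) ^ ((wt i : ℝ)⁻¹) := by
            rw [Real.pow_rpow_inv_natCast hCL.le hwi]
        _ < ‖p i‖ ^ ((wt i : ℝ)⁻¹) := by
            apply Real.rpow_lt_rpow (by positivity) hi
            have : (0 : ℝ) < wt i := by exact_mod_cast Nat.pos_of_ne_zero hwi
            positivity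
    exact lt_of_lt_of_le h1 (hm i hiT)
  have ht0 : 0 < t := hCL.trans ht1
  have hpow : ∀ j, wt j ≠ 0 → ‖p j‖ ≤ t ^ wt j := by
    intro j hj
    have h1 := hm j (by simp [hT, hj])
    calc ‖p j‖ = (‖p j‖ ^ ((wt j : ℝ)⁻¹)) ^ wt j := by
          rw [Real.rpow_inv_natCast_pow (norm_nonneg _) hj]
      _ ≤ t ^ wt j := by
          apply pow_le_pow_left₀ (by positivity) h1
  have hpm : ‖p m‖ = t ^ wt m := by
    rw [ht, Real.rpow_inv_natCast_pow (norm_nonneg _) hwm]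
  refine ⟨sc ((t⁻¹ : ℝ) : ℂ) p, W_sc hp _, ?_, ?_, ?_, ?_, ?_, ?_⟩
  · simp [sc, wt, hd]
  all_goals
    have hn : ∀ j, ‖sc ((t⁻¹ : ℝ) : ℂ) p j‖ = ‖p j‖ / t ^ wt j := by
      intro j
      unfold sc
      rw [norm_mul, norm_pow, Complex.norm_real, Real.norm_of_nonneg (by positivity), inv_pow]
      field_simp
  · intro j
    rw [hn]
    by_cases hj : wt j = 0
    · have : j = .d := by
        cases j with
        | d => rfl
        | c j => simp only [wt] at hj; omega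
        | z => simp [wt] at hj
        | e => simp [wt] at hj
        | a n => simp [wt] at hj
        | al n => simp [wt] at hj
        | b n => simp [wt] at hj
        | be n => simp [wt] at hj
      subst this
      simp [hd, wt]
    · rw [div_le_one (by positivity)]
      exact hpow j hj
  · intro j
    rw [hn]
    have hw : wt (Va.c j) ≠ 0 := by simp only [wt]; omega
    calc ‖p (.c j)‖ / t ^ wt (Va.c j) ≤ L ^ wt (Va.c j) / t ^ wt (Va.c j) := by
          gcongr; exact hc j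
      _ = (L / t) ^ wt (Va.c j) := by rw [div_pow]
      _ ≤ (1 / C) ^ wt (Va.c j) := by
          apply pow_le_pow_left₀ (by positivity)
          rw [div_le_div_iff₀ ht0 hC0]
          nlinarith
      _ ≤ (1 / C) ^ 1 := by
          apply pow_le_pow_of_le_one (by positivity)
          · rw [div_le_one hC0]; exact hC
          · omega
      _ = 1 / C := by rw [pow_one]
  · rw [hn]
    simp only [wt, pow_one]
    rw [div_le_div_iff₀ ht0 hC0]
    nlinarith
  · rw [hn]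
    simp only [wt, pow_one]
    rw [div_le_div_iff₀ ht0 hC0]
    nlinarith
  · have h1 : ‖sc ((t⁻¹ : ℝ) : ℂ) p m‖ = 1 := by
      rw [hn, hpm, div_self]
      positivity
    rw [← h1]
    exact Finset.single_le_sum (f := fun i => ‖sc ((t⁻¹ : ℝ) : ℂ) p i‖) (fun _ _ => norm_nonneg _) hmT

theorem bdA (k : ℕ) : ∃ C : ℝ, 1 ≤ C ∧ ∀ p ∈ W k, p .d = 1 → ∀ L : ℝ, 0 < L →
    (∀ j, ‖p (.c j)‖ ≤ L ^ wt (Va.c j)) → ‖p .z‖ ≤ L → ‖p .e‖ ≤ L → ∀ i, ‖p i‖ ≤ (C * L) ^ wt i := by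
  by_contra h
  push Not at h
  have h' : ∀ n : ℕ, ∃ q ∈ W k, q .d = 1 ∧ (∀ i, ‖q i‖ ≤ 1) ∧ (∀ j, ‖q (.c j)‖ ≤ 1 / ((n : ℝ) + 1)) ∧
      ‖q .z‖ ≤ 1 / ((n : ℝ) + 1) ∧ ‖q .e‖ ≤ 1 / ((n : ℝ) + 1) ∧
      1 ≤ ∑ i ∈ Finset.univ.filter (fun i : Va k => wt i ≠ 0), ‖q i‖ := by
    intro n
    have hn : (1 : ℝ) ≤ (n : ℝ) + 1 := by
      have : (0 : ℝ) ≤ n := Nat.cast_nonneg n
      linarith
    obtain ⟨p, hp, hd, L, hL, hc, hz, he, i, hi⟩ := h ((n : ℝ) + 1) hn
    exact bdA_scale hp hd hL hn hc hz he hi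
  choose q hW hd hb hc hz he hs using h'
  obtain ⟨x, -, φ, hφ, hx⟩ := tendsto_subseq_of_bounded (Metric.isBounded_closedBall (x := (0 : Va k → ℂ)) (r := 1))
    (x := q) (fun n => by
      rw [mem_closedBall_zero_iff, pi_norm_le_iff_of_nonneg zero_le_one]
      exact hb n)
  have hlim : Tendsto (fun n => 1 / ((φ n : ℝ) + 1)) atTop (𝓝 0) :=
    (tendsto_one_div_add_atTop_nhds_zero_nat (𝕜 := ℝ)).comp hφ.tendsto_atTop
  have hxi : ∀ i, Tendsto (fun n => q (φ n) i) atTop (𝓝 (x i)) := by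
    intro i
    exact (tendsto_pi_nhds.mp hx) i
  have hxW : x ∈ W k := (W_closed k).mem_of_tendsto hx (Eventually.of_forall fun n => hW (φ n))
  have hz0 : ∀ i, (∀ n, ‖q n i‖ ≤ 1 / ((n : ℝ) + 1)) → x i = 0 := by
    intro i hi
    have h1 : Tendsto (fun n => q (φ n) i) atTop (𝓝 0) := by
      apply squeeze_zero_norm (fun n => hi (φ n)) hlim
    exact tendsto_nhds_unique (hxi i) h1
  have hxd : x .d = 1 := by
    apply tendsto_nhds_unique (hxi .d)
    simp only [hd]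
    exact tendsto_const_nhds
  have hZ := planar hxW ⟨hxd, fun j => hz0 _ fun n => hc n j⟩ (hz0 _ hz) (hz0 _ he)
  have hsum : Tendsto (fun n => ∑ i ∈ Finset.univ.filter (fun i : Va k => wt i ≠ 0), ‖q (φ n) i‖) atTop
      (𝓝 (∑ i ∈ Finset.univ.filter (fun i : Va k => wt i ≠ 0), ‖x i‖)) := by
    apply tendsto_finsetSum
    intro i _
    exact (hxi i).norm
  have h1 : 1 ≤ ∑ i ∈ Finset.univ.filter (fun i : Va k => wt i ≠ 0), ‖x i‖ :=
    ge_of_tendsto hsum (Eventually.of_forall fun n => hs (φ n))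
  have h2 : ∑ i ∈ Finset.univ.filter (fun i : Va k => wt i ≠ 0), ‖x i‖ = 0 := by
    apply Finset.sum_eq_zero
    intro i hi
    rw [norm_eq_zero]
    cases i with
    | d => exact absurd rfl (Finset.mem_filter.mp hi).2
    | c j => exact hz0 _ fun n => hc n j
    | z => exact hz0 _ hz
    | e => exact hz0 _ he
    | a n => exact (hZ n).1
    | al n => exact (hZ n).2.1
    | b n => exact (hZ n).2.2.1
    | be n => exact (hZ n).2.2.2
  linarith

end Pool.Agent.Helper44.FT
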