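import Pool.Agent.Helper44.FT.MeanC

/-!
# Block FT-H: constant mean curvature

Let `p ∈ W`, `p d = 1`, `p z, p e ≠ 0`, not `Z0 p`, `i0 = p (a 0)`. First `i0 ≠ 0`: if `p (a 0) = 0 = p (b 0)`: (`mean_const` along the flow) `a 0` is constant along the flow of `p`, all derivatives of `a 0` and `b 0` vanish at `p`: `al_0 = D a_0 + K a_0`, so by induction all `a_n, al_n, b_n, be_n` (as functions on the flow line) vanish: `Z0 p`
(or: the power series / functions `t ↦ a_n (fl t p)`, `b_n`, ... vanish identically near `0`, by the equations `ev_a`, `ev_al`, `ev_b`, `ev_be`). Let `J = (z - e + i0)/(z e)` at `p`, and suppose `J ≠ 0`. `K = {q ∈ W | Par c0 q, q (a 0) = i0, q z ≠ 0, q e ≠ 0, (q z - q e + i0)/(q z q e) = J}` (then `¬ Z0 q`, as `i0 ≠ 0`). Bounded: by `at_inf` with `ε = 1/2`, if `‖z‖` or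
`‖e‖ ≥ R` then `‖z‖ ≥ ‖e‖/2`, `‖J‖ ‖z‖ ‖e‖ = ‖z - e + i0‖ ≤ ‖e‖ + ‖i0‖`, so `‖z‖`, `‖e‖` are bounded; then `bdA`. Invariant under the flow for small times: `a 0` is constant by `mean_const`, `z, e ≠ 0` by `fl_z_ne`, `fl_e_ne`, and `J` is constant: with `b_0 = - i0`, `z' = - z² - i0 z`, `e' = - e² + i0 e`,
`(z - e + i0)' = -(z + e)(z - e + i0)`, `(z e)' = -(z + e) z e`. `liou_flow` gives `vf = 0` at `p`: `- z² - i0 z = 0`, `- e² + i0 e = 0`, so `z = - i0`, `e = i0`.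
-/

namespace Pool.Agent.Helper44.FT

open MvPolynomial

namespace Cls

variable {k : ℕ}

/-- A function with vanishing derivative on a ball is constant. -/
theorem const_of_deriv {r : ℝ} {h : ℂ → ℂ} (hd : ∀ t : ℂ, ‖t‖ < r → HasDerivAt h 0 t) (t : ℂ)
    (ht : ‖t‖ < r) : h t = h 0 := by
  have hr : 0 < r := lt_of_le_of_lt (norm_nonneg t) ht
  have h0 : (0 : ℂ) ∈ Metric.ball (0 : ℂ) r := by simpa using hr
  have h1 : t ∈ Metric.ball (0 : ℂ) r := by simpa using ht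
  have hD : DifferentiableOn ℂ h (Metric.ball (0 : ℂ) r) := fun s hs =>
    (hd s (by simpa using hs)).differentiableAt.differentiableWithinAt
  have hE : Set.EqOn (deriv h) 0 (Metric.ball (0 : ℂ) r) := fun s hs =>
    (hd s (by simpa using hs)).deriv
  exact Metric.isOpen_ball.is_const_of_deriv_eq_zero
    (convex_ball (0 : ℂ) r).isPreconnected hD hE h1 h0

/-- If `F` vanishes along the flow then so does its derivative. -/
theorem dv_zero {R r C : ℝ} (hF : FlowOn (vf k) R r C) {p : Va k → ℂ} (hR : ‖p‖ ≤ R)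
    {F : MvPolynomial (Va k) ℂ} (h : ∀ t : ℂ, ‖t‖ < r → eval (fl (vf k) t p) F = 0) (t : ℂ)
    (ht : ‖t‖ < r) : eval (fl (vf k) t p) (dv (vf k) F) = 0 := by
  have h1 := hF.deriv p hR t ht F
  have hev : (fun t => eval (fl (vf k) t p) F) =ᶠ[nhds t] fun _ => (0 : ℂ) := by
    have : {s : ℂ | ‖s‖ < r} ∈ nhds t := (isOpen_lt continuous_norm continuous_const).mem_nhds ht
    filter_upwards [this] with s hs using h s hs
  have h2 : HasDerivAt (fun t => eval (fl (vf k) t p) F) 0 t :=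
    (hasDerivAt_const t (0 : ℂ)).congr_of_eventuallyEq hev
  exact h1.unique h2

theorem all_zero {R r C : ℝ} (hF : FlowOn (vf k) R r C) {p : Va k → ℂ} (hR : ‖p‖ ≤ R)
    (ha : ∀ t : ℂ, ‖t‖ < r → fl (vf k) t p (.a 0) = 0)
    (hb : ∀ t : ℂ, ‖t‖ < r → fl (vf k) t p (.b 0) = 0) (m : ℕ) (hm : m < k + 1) :
    ∀ t : ℂ, ‖t‖ < r → fl (vf k) t p (.a ⟨m, hm⟩) = 0 ∧ fl (vf k) t p (.al ⟨m, hm⟩) = 0 ∧
      fl (vf k) t p (.b ⟨m, hm⟩) = 0 ∧ fl (vf k) t p (.be ⟨m, hm⟩) = 0 := by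
  have key : ∀ (n : Fin (k + 1)), (∀ t : ℂ, ‖t‖ < r → fl (vf k) t p (.a n) = 0) →
      (∀ t : ℂ, ‖t‖ < r → fl (vf k) t p (.b n) = 0) →
      ∀ t : ℂ, ‖t‖ < r → fl (vf k) t p (.a n) = 0 ∧ fl (vf k) t p (.al n) = 0 ∧
      fl (vf k) t p (.b n) = 0 ∧ fl (vf k) t p (.be n) = 0 := by
    intro n h1 h2 t ht
    refine ⟨h1 t ht, ?_, h2 t ht, ?_⟩
    · have h3 := dv_zero hF hR (F := X (.a n)) (fun s hs => by simpa using h1 s hs) t ht
      rw [dv_X, ev_a, h1 t ht] at h3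
      simpa using h3
    · have h3 := dv_zero hF hR (F := X (.b n)) (fun s hs => by simpa using h2 s hs) t ht
      rw [dv_X, ev_b, h2 t ht] at h3
      simpa using h3
  induction m with
  | zero =>
    exact key ⟨0, hm⟩ ha hb
  | succ m ih =>
    have hm' : m < k + 1 := by omega
    have ih := ih hm'
    apply key
    · intro t ht
      have h3 := dv_zero hF hR (F := X (.al ⟨m, hm'⟩)) (fun s hs => by
        simpa using (ih s hs).2.1) t ht
      obtain ⟨h4, h5, h6, h7⟩ := ih t ht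
      rw [dv_X, ev_al, h4, h5, h6] at h3
      have h8 : nx (fun n => fl (vf k) t p (.a n))
          (∑ j, fl (vf k) t p (.c j) * fl (vf k) t p (.a j)) ⟨m, hm'⟩ =
          fl (vf k) t p (.a ⟨m + 1, hm⟩) := by
        unfold nx
        rw [dif_pos hm]
      rw [h8] at h3
      simpa using h3
    · intro t ht
      have h3 := dv_zero hF hR (F := X (.be ⟨m, hm'⟩)) (fun s hs => by
        simpa using (ih s hs).2.2.2) t ht
      obtain ⟨h4, h5, h6, h7⟩ := ih t ht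
      rw [dv_X, ev_be, h4, h6, h7] at h3
      have h8 : nx (fun n => fl (vf k) t p (.b n))
          (∑ j, fl (vf k) t p (.c j) * fl (vf k) t p (.b j)) ⟨m, hm'⟩ =
          fl (vf k) t p (.b ⟨m + 1, hm⟩) := by
        unfold nx
        rw [dif_pos hm]
      rw [h8] at h3
      simpa using h3

/-- `a 0` is constant along the flow. -/
theorem a0_const {R r C : ℝ} (hF : FlowOn (vf k) R r C) {p : Va k → ℂ} (hp : p ∈ W k)
    (hd : p .d = 1) (hR : ‖p‖ ≤ R) (t : ℂ) (ht : ‖t‖ < r) :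
    fl (vf k) t p (.a 0) = p (.a 0) := by
  have h := const_of_deriv (h := fun t => eval (fl (vf k) t p) (X (.a 0))) (r := r) (fun s hs => by
    have h1 := hF.deriv p hR s hs (X (.a 0))
    rw [dv_X, mean_const (fl_W hF hp hR hs) ((fl_d hF hR hs).trans hd)] at h1
    exact h1) t ht
  simpa [fl_zero] using h

end Cls

theorem a0_ne {k : ℕ} {p : Va k → ℂ} (hp : p ∈ W k) (hd : p .d = 1) (hZ : ¬ Z0 p) : p (.a 0) ≠ 0 := by
  intro ha
  apply hZ
  obtain ⟨r, C, -, hF⟩ := exists_flowOn (vf k) ‖p‖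
  have h1 : ∀ t : ℂ, ‖t‖ < r → fl (vf k) t p (.a 0) = 0 := fun t ht => by
    rw [Cls.a0_const hF hp hd le_rfl t ht, ha]
  have h2 : ∀ t : ℂ, ‖t‖ < r → fl (vf k) t p (.b 0) = 0 := fun t ht => by
    rw [W_ab (fl_W hF hp le_rfl ht), h1 t ht, neg_zero]
  intro n
  have h3 := Cls.all_zero hF le_rfl h1 h2 n.1 n.2 0 (by simpa using hF.pos)
  rw [fl_zero] at h3
  exact h3

namespace Cls

variable {k : ℕ}

/-- The invariant set. -/
def SS (k : ℕ) (c0 : Fin (k + 1) → ℂ) (i0 J : ℂ) : Set (Va k → ℂ) :=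
  {q | q ∈ W k ∧ Par c0 q ∧ q (.a 0) = i0 ∧ q .z ≠ 0 ∧ q .e ≠ 0 ∧
    (q .z - q .e + i0) / (q .z * q .e) = J}

theorem wt_le (i : Va k) : wt i ≤ 2 * k + 2 := by
  cases i <;> simp only [wt] <;> omega

theorem ss_bound (c0 : Fin (k + 1) → ℂ) (i0 J : ℂ) (hi : i0 ≠ 0) (hJ : J ≠ 0) :
    ∃ M : ℝ, ∀ q ∈ SS k c0 i0 J, ‖q‖ ≤ M := by
  obtain ⟨R, hR⟩ := at_inf (k := k) c0 (1 / 2) (by norm_num)
  obtain ⟨C, hC1, hC⟩ := bdA k
  have hJ' : 0 < ‖J‖ := norm_pos_iff.2 hJ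
  set M0 : ℝ := max 1 ((1 + 2 * ‖i0‖) / ‖J‖) with hM0
  set L : ℝ := 1 + ∑ j, ‖c0 j‖ + |R| + 2 * M0 with hL
  have hM1 : 1 ≤ M0 := le_max_left _ _
  have hs0 : 0 ≤ ∑ j, ‖c0 j‖ := Finset.sum_nonneg fun _ _ => norm_nonneg _
  have hL1 : 1 ≤ L := by
    have := abs_nonneg R
    linarith
  refine ⟨(C * L) ^ (2 * k + 2), fun q hq => ?_⟩
  obtain ⟨hW, hP, ha, hz, he, hJq⟩ := hq
  have hZ : ¬ Z0 q := fun h => hi (by rw [← ha]; exact (h 0).1)
  have hze : q .z - q .e + i0 = J * (q .z * q .e) := by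
    rw [← hJq]
    field_simp
  have hzb : ‖q .z‖ ≤ L ∧ ‖q .e‖ ≤ L := by
    by_cases hbig : R ≤ ‖q .z‖ ∨ R ≤ ‖q .e‖
    · have h1 := hR q hW hP hZ hbig
      have h2 : ‖J‖ * (‖q .z‖ * ‖q .e‖) ≤ ‖q .e‖ / 2 + ‖i0‖ := by
        rw [← norm_mul, ← norm_mul, ← hze]
        calc ‖q .z - q .e + i0‖ ≤ ‖q .z - q .e‖ + ‖i0‖ := norm_add_le _ _
          _ ≤ ‖q .e‖ / 2 + ‖i0‖ := by linarith
      have h3 : ‖q .e‖ / 2 ≤ ‖q .z‖ := by
        have : ‖q .e‖ ≤ ‖q .z‖ + ‖q .z - q .e‖ := by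
          calc ‖q .e‖ = ‖q .z - (q .z - q .e)‖ := by congr 1; ring
            _ ≤ _ := norm_sub_le _ _
        linarith
      have h4 : ‖q .z‖ ≤ 2 * ‖q .e‖ := by
        have : ‖q .z‖ ≤ ‖q .e‖ + ‖q .z - q .e‖ := by
          calc ‖q .z‖ = ‖q .e + (q .z - q .e)‖ := by congr 1; ring
            _ ≤ _ := norm_add_le _ _
        have := norm_nonneg (q .e)
        linarith
      have h5 : ‖q .e‖ ≤ M0 := by
        by_contra hlt
        push Not at hlt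
        have h6 : 1 < ‖q .e‖ := lt_of_le_of_lt hM1 hlt
        have h7 : (1 + 2 * ‖i0‖) / ‖J‖ < ‖q .e‖ := lt_of_le_of_lt (le_max_right _ _) hlt
        rw [div_lt_iff₀ hJ'] at h7
        have h8 : ‖J‖ * (‖q .e‖ / 2 * ‖q .e‖) ≤ ‖q .e‖ / 2 + ‖i0‖ := by
          refine le_trans ?_ h2
          gcongr
        have h9 : (1 + 2 * ‖i0‖) * ‖q .e‖ < ‖q .e‖ * ‖J‖ * ‖q .e‖ :=
          mul_lt_mul_of_pos_right h7 (by linarith)
        have h10 : ‖i0‖ ≤ ‖i0‖ * ‖q .e‖ := le_mul_of_one_le_right (norm_nonneg _) h6.le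
        nlinarith
      have := abs_nonneg R
      constructor <;> linarith
    · push Not at hbig
      have := le_abs_self R
      constructor <;> linarith [hbig.1, hbig.2]
  have hcb : ∀ j, ‖q (.c j)‖ ≤ L ^ wt (Va.c j) := by
    intro j
    rw [hP.2 j]
    have h1 : ‖c0 j‖ ≤ ∑ j, ‖c0 j‖ :=
      Finset.single_le_sum (f := fun j => ‖c0 j‖) (fun _ _ => norm_nonneg _) (Finset.mem_univ j)
    have h2 : ‖c0 j‖ ≤ L := by
      have := abs_nonneg R
      linarith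
    refine h2.trans (le_self_pow₀ hL1 ?_)
    have := j.2
    simp only [wt, ne_eq]
    omega
  have hCL : 1 ≤ C * L := one_le_mul_of_one_le_of_one_le hC1 hL1
  rw [pi_norm_le_iff_of_nonneg (by positivity)]
  intro i
  exact (hC q hW hP.1 L (by linarith) hcb hzb.1 hzb.2 i).trans
    (pow_le_pow_right₀ hCL (wt_le i))

theorem ss_inv (c0 : Fin (k + 1) → ℂ) (i0 J : ℂ) (M : ℝ) (hM : ∀ q ∈ SS k c0 i0 J, ‖q‖ ≤ M) :
    ∃ r : ℝ, 0 < r ∧ ∀ q ∈ SS k c0 i0 J, ∀ t : ℂ, ‖t‖ < r → fl (vf k) t q ∈ SS k c0 i0 J := by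
  obtain ⟨r1, C, -, hF⟩ := exists_flowOn (vf k) M
  obtain ⟨r2, hr2, h2⟩ := fl_z_ne k M
  obtain ⟨r3, hr3, h3⟩ := fl_e_ne k M
  refine ⟨min r1 (min r2 r3), lt_min hF.pos (lt_min hr2 hr3), fun q hq t ht => ?_⟩
  have hqM := hM q hq
  obtain ⟨hW, hP, ha, hz, he, hJq⟩ := hq
  have hs : ∀ s : ℂ, ‖s‖ < min r1 (min r2 r3) → ‖s‖ < r1 ∧ ‖s‖ < r2 ∧ ‖s‖ < r3 := fun s hs =>
    ⟨lt_of_lt_of_le hs (min_le_left _ _),
      lt_of_lt_of_le hs ((min_le_right _ _).trans (min_le_left _ _)),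
      lt_of_lt_of_le hs ((min_le_right _ _).trans (min_le_right _ _))⟩
  have hd : q .d = 1 := hP.1
  have hA : ∀ s : ℂ, ‖s‖ < min r1 (min r2 r3) → fl (vf k) s q (.a 0) = i0 := fun s hs' => by
    rw [a0_const hF hW hd hqM s (hs s hs').1, ha]
  have hz' : ∀ s : ℂ, ‖s‖ < min r1 (min r2 r3) → fl (vf k) s q .z ≠ 0 := fun s hs' =>
    h2 q hqM s (hs s hs').2.1 hz
  have he' : ∀ s : ℂ, ‖s‖ < min r1 (min r2 r3) → fl (vf k) s q .e ≠ 0 := fun s hs' =>
    h3 q hqM s (hs s hs').2.2 he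
  refine ⟨fl_W hF hW hqM (hs t ht).1, ⟨(fl_d hF hqM (hs t ht).1).trans hd, fun j =>
    (fl_c hF hqM (hs t ht).1 j).trans (hP.2 j)⟩, hA t ht, hz' t ht, he' t ht, ?_⟩
  have hc := const_of_deriv (h := fun s => (fl (vf k) s q .z - fl (vf k) s q .e + i0) /
    (fl (vf k) s q .z * fl (vf k) s q .e)) (r := min r1 (min r2 r3)) (fun s hs' => by
      have hWs := fl_W hF hW hqM (hs s hs').1
      have hds : fl (vf k) s q .d = 1 := (fl_d hF hqM (hs s hs').1).trans hd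
      have hbs := W_ab hWs
      rw [hA s hs'] at hbs
      have hDz := hF.deriv q hqM s (hs s hs').1 (X .z)
      have hDe := hF.deriv q hqM s (hs s hs').1 (X .e)
      rw [dv_X, ev_z, hA s hs', hds] at hDz
      rw [dv_X, ev_e, hbs, hds] at hDe
      simp only [eval_X] at hDz hDe
      have hN := (hDz.sub hDe).add_const i0
      have hD := hDz.mul hDe
      have hQ := hN.div hD (mul_ne_zero (hz' s hs') (he' s hs'))
      have hzs := hz' s hs'
      have hes := he' s hs'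
      refine hQ.congr_deriv ?_
      simp only [Pi.mul_apply]
      rw [div_eq_zero_iff]
      left
      simp only [Pi.sub_apply]
      ring) t ht
  simp only [fl_zero] at hc
  rw [hc, hJq]

end Cls

theorem classify {k : ℕ} {p : Va k → ℂ} (hp : p ∈ W k) (hd : p .d = 1) (hz : p .z ≠ 0) (he : p .e ≠ 0) :
    Z0 p ∨ p .z - p .e + p (.a 0) = 0 ∨ (p .z = -p (.a 0) ∧ p .e = p (.a 0)) := by
  by_cases hZ : Z0 p
  · exact Or.inl hZ
  by_cases hJ0 : p .z - p .e + p (.a 0) = 0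
  · exact Or.inr (Or.inl hJ0)
  right; right
  have hi := a0_ne hp hd hZ
  set J : ℂ := (p .z - p .e + p (.a 0)) / (p .z * p .e) with hJ
  have hJne : J ≠ 0 := div_ne_zero hJ0 (mul_ne_zero hz he)
  obtain ⟨M, hM⟩ := Cls.ss_bound (k := k) (fun j => p (.c j)) (p (.a 0)) J hi hJne
  have hpS : p ∈ Cls.SS k (fun j => p (.c j)) (p (.a 0)) J :=
    ⟨hp, ⟨hd, fun _ => rfl⟩, rfl, hz, he, rfl⟩
  have hv := liou_flow (vf k) _ M hM (Cls.ss_inv _ _ _ M hM) p hpS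
  have h1 := hv .z
  have h2 := hv .e
  rw [ev_z, hd] at h1
  rw [ev_e, hd, W_ab hp] at h2
  constructor
  · apply mul_left_cancel₀ hz
    linear_combination -h1
  · apply mul_left_cancel₀ he
    linear_combination -h2

end Pool.Agent.Helper44.FT
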