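import Pool.Agent.Helper44.FT.Flow

/-!
# Block FT-L4: simple consequences for the flow

(a) `fl_zero`: `t = 0`. (b) `it_fl`: (`hasSum` for `F = D^j G`, `it_iter`) if all iterated derivatives of `G` vanish at
`p` they vanish at `fl P t p`. (c) `fl_neg`: `fl P (-t) (fl P t p) = p` (`‖p‖ ≤ R`, `t` small):
`eval (fl P s (fl P t p)) F = ∑ j, it P F (fl P t p) j s^j / j! = ∑ j, ∑ i, it P F p (i + j) t^i s^j / (i! j!)`, a double
series which converges absolutely for small `s`, `t` (`lie_bound`: `‖it P F p n‖ ≤ B A^n n!`, and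
`∑_{i+j=n} n! / (i! j!) = 2^n`); summed along `i + j = n` it is `∑ n, it P F p n (s + t)^n / n!`, for `s = -t` this is
`eval p F`.
(d) `fl_const`: if `dv P F = 0` then `F` is constant along the flow. (e) `fl_der`: by `FlowOn.second`
`fl P (a τ) (q τ) = q τ + a τ • (P at q τ) + O(τ²)` near `τ = 0`, and `τ ↦ P at q τ` is continuous at `0`.
-/

namespace Pool.Agent.Helper44.FT

open MvPolynomial

theorem fl_zero {ι : Type*} (P : ι → MvPolynomial ι ℂ) (p : ι → ℂ) : fl P 0 p = p := by
  funext i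
  unfold fl
  rw [tsum_eq_single 0]
  · simp
  · intro j hj
    rw [zero_pow hj]
    simp

theorem it_fl {ι : Type*} [Fintype ι] {P : ι → MvPolynomial ι ℂ} {R r C : ℝ} (hF : FlowOn P R r C)
    {G : MvPolynomial ι ℂ} {p : ι → ℂ} (hp : ‖p‖ ≤ R) (h : ∀ j, it P G p j = 0) {t : ℂ}
    (ht : ‖t‖ < r) (j : ℕ) : it P G (fl P t p) j = 0 := by
  have h1 := hF.hasSum p hp t ht ((dv P)^[j] G)
  have h2 : (fun n : ℕ => it P ((dv P)^[j] G) p n * t ^ n / (n.factorial : ℂ)) = fun _ => 0 := by
    funext n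
    rw [it_iter, h (j + n)]
    simp
  rw [h2] at h1
  exact h1.unique hasSum_zero

theorem fl_const {ι : Type*} [Fintype ι] {P : ι → MvPolynomial ι ℂ} {R r C : ℝ} (hF : FlowOn P R r C)
    {F : MvPolynomial ι ℂ} (hd : dv P F = 0) {p : ι → ℂ} (hp : ‖p‖ ≤ R) {t : ℂ}
    (ht : ‖t‖ < r) : eval (fl P t p) F = eval p F := by
  have h0 : ∀ j, it P (0 : MvPolynomial ι ℂ) p j = 0 := by
    intro j
    induction j with
    | zero => simp
    | succ j ih => rw [it_succ, map_zero, ih]
  have h1 := hF.hasSum p hp t ht F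
  have h2 : HasSum (fun n : ℕ => it P F p n * t ^ n / (n.factorial : ℂ)) (eval p F) := by
    have h3 := hasSum_single (f := fun n : ℕ => it P F p n * t ^ n / (n.factorial : ℂ)) 0 (by
      intro n hn
      obtain ⟨m, rfl⟩ := Nat.exists_eq_succ_of_ne_zero hn
      rw [Nat.succ_eq_add_one, it_succ, hd, h0]
      simp)
    simpa using h3
  exact h1.unique h2

theorem fl_der {ι : Type*} [Fintype ι] {P : ι → MvPolynomial ι ℂ} {R r C : ℝ} (hF : FlowOn P R r C)
    {q : ℂ → ι → ℂ} {q' : ι → ℂ} (hq : HasDerivAt q q' 0) (hR : ∀ᶠ τ in nhds (0 : ℂ), ‖q τ‖ ≤ R)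
    (a : ℂ) : HasDerivAt (fun τ => fl P (a * τ) (q τ)) (a • (fun i => eval (q 0) (P i)) + q') 0 := by
  set v : (ι → ℂ) → ι → ℂ := fun p i => eval p (P i) with hv
  have hvc : Continuous v := by
    rw [hv]
    exact continuous_pi fun i => MvPolynomial.continuous_eval (P i)
  have hqc : ContinuousAt q 0 := hq.continuousAt
  have hvq : Filter.Tendsto (fun τ => v (q τ) - v (q 0)) (nhds (0 : ℂ)) (nhds 0) := by
    have h1 : Filter.Tendsto (fun τ => v (q τ)) (nhds (0 : ℂ)) (nhds (v (q 0))) :=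
      (hvc.continuousAt.tendsto).comp hqc
    have h2 := h1.sub_const (v (q 0))
    rwa [sub_self] at h2
  have hsmall : ∀ᶠ τ in nhds (0 : ℂ), ‖a * τ‖ < r := by
    have h1 : Filter.Tendsto (fun τ : ℂ => ‖a * τ‖) (nhds 0) (nhds 0) := by
      have : Continuous fun τ : ℂ => ‖a * τ‖ := by fun_prop
      have h2 := this.tendsto 0
      simpa using h2
    exact h1.eventually (gt_mem_nhds hF.pos)
  have e1 : (fun τ => fl P (a * τ) (q τ) - q τ - (a * τ) • v (q τ)) =o[nhds 0] fun τ : ℂ => τ := by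
    have h1 : (fun τ => fl P (a * τ) (q τ) - q τ - (a * τ) • v (q τ)) =O[nhds 0]
        fun τ : ℂ => τ * τ := by
      refine Asymptotics.IsBigO.of_bound (C * ‖a‖ ^ 2) ?_
      filter_upwards [hR, hsmall] with τ h1 h2
      refine (hF.second (q τ) h1 (a * τ) h2).trans (le_of_eq ?_)
      rw [norm_mul, norm_mul]
      ring
    refine h1.trans_isLittleO ?_
    have h2 : (fun τ : ℂ => τ * τ) =o[nhds 0] fun τ : ℂ => τ * 1 := by
      refine Asymptotics.IsBigO.mul_isLittleO (Asymptotics.isBigO_refl _ _) ?_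
      rw [Asymptotics.isLittleO_one_iff]
      exact Filter.tendsto_id
    simpa using h2
  have e2 : (fun τ => q τ - q 0 - τ • q') =o[nhds 0] fun τ : ℂ => τ := by
    have h1 := hasDerivAt_iff_isLittleO.1 hq
    simpa using h1
  have e3 : (fun τ => (a * τ) • (v (q τ) - v (q 0))) =o[nhds 0] fun τ : ℂ => τ := by
    have h2 : (fun τ => (a * τ) • (v (q τ) - v (q 0))) =o[nhds 0] fun τ : ℂ => τ • (1 : ℂ) := by
      refine Asymptotics.IsBigO.smul_isLittleO (Asymptotics.isBigO_const_mul_self a _ _) ?_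
      rw [Asymptotics.isLittleO_one_iff]
      exact hvq
    simpa using h2
  rw [hasDerivAt_iff_isLittleO]
  have h := (e1.add e2).add e3
  have hfun : (fun τ : ℂ => fl P (a * τ) (q τ) - fl P (a * 0) (q 0) -
      (τ - 0) • (a • (fun i => eval (q 0) (P i)) + q')) = fun τ =>
      (fl P (a * τ) (q τ) - q τ - (a * τ) • v (q τ) + (q τ - q 0 - τ • q')) +
        (a * τ) • (v (q τ) - v (q 0)) := by
    funext τ
    rw [mul_zero, fl_zero, sub_zero]
    have : (fun i => eval (q 0) (P i)) = v (q 0) := rfl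
    rw [this]
    module
  rw [hfun]
  simpa using h

private theorem tsum_anti {f : ℕ × ℕ → ℂ} (hf : Summable f) :
    ∑' x, f x = ∑' n, ∑ x ∈ Finset.HasAntidiagonal.antidiagonal n, f x := by
  have h1 := (Finset.HasAntidiagonal.sigmaAntidiagonalEquivProd (A := ℕ)).tsum_eq f
  rw [← h1]
  have h2 : Summable (fun c => f ((Finset.HasAntidiagonal.sigmaAntidiagonalEquivProd (A := ℕ)) c)) :=
    (Finset.HasAntidiagonal.sigmaAntidiagonalEquivProd (A := ℕ)).summable_iff.2 hf
  rw [h2.tsum_sigma' (fun n => (hasSum_fintype _).summable)]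
  refine tsum_congr fun n => ?_
  rw [tsum_fintype]
  exact (Finset.sum_attach (Finset.HasAntidiagonal.antidiagonal n) f)

theorem fl_neg {ι : Type*} [Fintype ι] (P : ι → MvPolynomial ι ℂ) (R : ℝ) :
    ∃ r : ℝ, 0 < r ∧ ∀ p : ι → ℂ, ‖p‖ ≤ R → ∀ t : ℂ, ‖t‖ < r → fl P (-t) (fl P t p) = p := by
  obtain ⟨r1, C1, hC1, hF1⟩ := exists_flowOn P R
  obtain ⟨A, hA, hB⟩ := lie_bound P R
  have hA0 : 0 < A := by linarith
  refine ⟨min r1 (1 / (4 * A)), lt_min hF1.pos (by positivity), ?_⟩
  intro p hp t ht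
  have ht1 : ‖t‖ < r1 := ht.trans_le (min_le_left _ _)
  have ht2 : ‖t‖ < 1 / (4 * A) := ht.trans_le (min_le_right _ _)
  funext i
  obtain ⟨B, hB0, hBi⟩ := hB (X i)
  set g : ℕ → ℂ := fun n => it P (X i) p n with hg
  set f : ℕ × ℕ → ℂ := fun x =>
    g (x.1 + x.2) * t ^ x.2 / (x.2.factorial : ℂ) * (-t) ^ x.1 / (x.1.factorial : ℂ) with hfdef
  -- summability
  have hgeo : Summable fun n : ℕ => (2 * A * ‖t‖) ^ n := by
    refine summable_geometric_of_lt_one (by positivity) ?_
    have := mul_lt_mul_of_pos_left ht2 (by positivity : 0 < 2 * A)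
    refine this.trans_le ?_
    rw [mul_one_div, div_le_one (by positivity)]
    linarith
  have hprod : Summable fun x : ℕ × ℕ => (2 * A * ‖t‖) ^ x.1 * (2 * A * ‖t‖) ^ x.2 :=
    hgeo.mul_of_nonneg hgeo (fun n => by positivity) (fun n => by positivity)
  have hsum : Summable f := by
    refine Summable.of_norm_bounded (hprod.mul_left B) ?_
    rintro ⟨j, n⟩
    have h1 : ‖g (j + n)‖ ≤ B * A ^ (j + n) * ((j + n).factorial : ℝ) := hBi p hp (j + n)
    have h2 : ((j + n).factorial : ℝ) ≤ 2 ^ (j + n) * (j.factorial * n.factorial) := by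
      have h3 := Nat.choose_le_two_pow (j + n) n
      have h4 := Nat.add_choose_mul_factorial_mul_factorial j n
      have h5 : ((j + n).factorial : ℝ) = ((j + n).choose n : ℝ) * (j.factorial * n.factorial) := by
        rw [← h4]
        push_cast
        ring
      rw [h5]
      have h6 : ((j + n).choose n : ℝ) ≤ 2 ^ (j + n) := by exact_mod_cast h3
      exact mul_le_mul_of_nonneg_right h6 (by positivity)
    have hj : (0 : ℝ) < j.factorial := by positivity
    have hn : (0 : ℝ) < n.factorial := by positivity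
    have h7 : ‖f (j, n)‖ = ‖g (j + n)‖ * ‖t‖ ^ (j + n) / (j.factorial * n.factorial) := by
      rw [hfdef]
      simp only [norm_div, norm_mul, norm_pow, norm_neg, Complex.norm_natCast]
      rw [pow_add]
      field_simp
    rw [h7, div_le_iff₀ (by positivity)]
    calc ‖g (j + n)‖ * ‖t‖ ^ (j + n)
        ≤ (B * A ^ (j + n) * (2 ^ (j + n) * (j.factorial * n.factorial))) * ‖t‖ ^ (j + n) := by
          refine mul_le_mul_of_nonneg_right (h1.trans ?_) (by positivity)
          exact mul_le_mul_of_nonneg_left h2 (by positivity)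
      _ = B * ((2 * A * ‖t‖) ^ j * (2 * A * ‖t‖) ^ n) * (j.factorial * n.factorial) := by
          rw [← pow_add, mul_pow, mul_pow]
          ring
  -- the inner sums
  have hinner : ∀ j, it P (X i) (fl P t p) j * (-t) ^ j / (j.factorial : ℂ) = ∑' n, f (j, n) := by
    intro j
    have h1 := (hF1.hasSum p hp t ht1 ((dv P)^[j] (X i))).tsum_eq
    have h2 : it P (X i) (fl P t p) j = ∑' n, g (j + n) * t ^ n / (n.factorial : ℂ) := by
      have h3 : it P (X i) (fl P t p) j = eval (fl P t p) ((dv P)^[j] (X i)) := rfl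
      rw [h3, ← h1]
      refine tsum_congr fun n => ?_
      rw [it_iter]
    rw [h2, mul_div_assoc, ← tsum_mul_right]
    refine tsum_congr fun n => ?_
    rw [hfdef]
    ring
  have hleft : fl P (-t) (fl P t p) i = ∑' x, f x := by
    rw [hsum.tsum_prod]
    unfold fl
    exact tsum_congr hinner
  rw [hleft, tsum_anti hsum]
  -- the antidiagonal sums
  have hanti : ∀ n, ∑ x ∈ Finset.HasAntidiagonal.antidiagonal n, f x =
      g n / (n.factorial : ℂ) * (-t + t) ^ n := by
    intro n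
    have h1 : (-t + t) ^ n = ∑ x ∈ Finset.HasAntidiagonal.antidiagonal n,
        (n.choose x.1 : ℂ) * ((-t) ^ x.1 * t ^ x.2) := by
      rw [(Commute.all (-t) t).add_pow']
      refine Finset.sum_congr rfl fun x _ => ?_
      rw [nsmul_eq_mul]
    rw [h1, Finset.mul_sum]
    refine Finset.sum_congr rfl fun x hx => ?_
    have hx' : x.1 + x.2 = n := Finset.HasAntidiagonal.mem_antidiagonal.1 hx
    have h4 := Nat.add_choose_mul_factorial_mul_factorial x.1 x.2
    have hn : (n.factorial : ℂ) = (n.choose x.1 : ℂ) * x.1.factorial * x.2.factorial := by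
      rw [← hx', ← h4, Nat.choose_symm_add]
      push_cast
      ring
    have ha : (x.1.factorial : ℂ) ≠ 0 := by exact_mod_cast x.1.factorial_ne_zero
    have hb : (x.2.factorial : ℂ) ≠ 0 := by exact_mod_cast x.2.factorial_ne_zero
    have hc : (n.choose x.1 : ℂ) ≠ 0 := by
      have : 0 < n.choose x.1 := Nat.choose_pos (by omega)
      exact_mod_cast this.ne'
    have h5 : f x = g n * t ^ x.2 / (x.2.factorial : ℂ) * (-t) ^ x.1 / (x.1.factorial : ℂ) := by
      rw [← hx']
    rw [h5, hn]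
    field_simp
  have hfin : ∑' n, ∑ x ∈ Finset.HasAntidiagonal.antidiagonal n, f x = g 0 := by
    rw [tsum_congr hanti, tsum_eq_single 0]
    · simp
    · intro n hn
      rw [neg_add_cancel, zero_pow hn, mul_zero]
  rw [hfin, hg]
  simp

end Pool.Agent.Helper44.FT
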