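import Pool.Agent.Helper44.FT.Vf
import Pool.Agent.Helper44.FT.FlowB

/-!
# Block FT-INV: what the flow preserves

(a) `fl_W`: `it_fl`. (b) `fl_c`, `fl_d`: `fl_const`. (c) `fl_z0`: `X z` divides `vf k z`, so it divides all its iterated derivatives
(ideal `span {X z}`: `dv` maps it into itself, because `dv (F * X z) = dv F * X z + F * vf z`), so all derivatives of `X z`
vanish at a point with `p z = 0`: use `it_fl` with `G = X z`, `j = 0`. (d) `fl_e0` in the same way. (e) `fl_Z0`: the ideal generated by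
all `X (a n)`, `X (al n)`, `X (b n)`, `X (be n)` is mapped into itself by `dv`. (f) `fl_not_Z0`: from (e) and `fl_neg`.
For (f): choose `r` smaller than the times of `FlowOn` for the radius `R + 1` and of `fl_neg` for `R + 1`, and so small that
`‖fl t p‖ ≤ R + 1` (`FlowOn.lip`).
(g) the same for `z`: `fl_z_ne`, `fl_e_ne`.
-/

namespace Pool.Agent.Helper44.FT

open MvPolynomial

variable {k : ℕ} {R r C : ℝ}

namespace SymB

/-- If `P i` lies in the ideal generated by the variables in `S` for `i ∈ S`, the derivation preserves this ideal. -/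
theorem dv_mem {ι : Type*} (P : ι → MvPolynomial ι ℂ) (S : Set ι)
    (hS : ∀ i ∈ S, P i ∈ Ideal.span ((fun i => (X i : MvPolynomial ι ℂ)) '' S))
    (F : MvPolynomial ι ℂ) (hF : F ∈ Ideal.span ((fun i => (X i : MvPolynomial ι ℂ)) '' S)) :
    dv P F ∈ Ideal.span ((fun i => (X i : MvPolynomial ι ℂ)) '' S) := by
  refine Submodule.span_induction (p := fun F _ => dv P F ∈
    Ideal.span ((fun i => (X i : MvPolynomial ι ℂ)) '' S)) ?_ ?_ ?_ ?_ hF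
  · rintro _ ⟨i, hi, rfl⟩
    simpa using hS i hi
  · simp
  · intro x y _ _ hx hy
    rw [map_add]
    exact Ideal.add_mem _ hx hy
  · intro a x hx' hx
    rw [smul_eq_mul, dv_mul]
    exact Ideal.add_mem _ (Ideal.mul_mem_left _ _ hx') (Ideal.mul_mem_left _ _ hx)

theorem iter_mem {ι : Type*} (P : ι → MvPolynomial ι ℂ) (S : Set ι)
    (hS : ∀ i ∈ S, P i ∈ Ideal.span ((fun i => (X i : MvPolynomial ι ℂ)) '' S)) (j : ℕ)
    (F : MvPolynomial ι ℂ) (hF : F ∈ Ideal.span ((fun i => (X i : MvPolynomial ι ℂ)) '' S)) :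
    (dv P)^[j] F ∈ Ideal.span ((fun i => (X i : MvPolynomial ι ℂ)) '' S) := by
  induction j generalizing F with
  | zero => exact hF
  | succ j ih =>
    rw [Function.iterate_succ_apply]
    exact ih _ (dv_mem P S hS F hF)

theorem it_mem {ι : Type*} (P : ι → MvPolynomial ι ℂ) (S : Set ι)
    (hS : ∀ i ∈ S, P i ∈ Ideal.span ((fun i => (X i : MvPolynomial ι ℂ)) '' S))
    (p : ι → ℂ) (hp : ∀ i ∈ S, p i = 0) (i : ι) (hi : i ∈ S) (j : ℕ) : it P (X i) p j = 0 := by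
  have h1 := iter_mem P S hS j (X i) (Ideal.subset_span ⟨i, hi, rfl⟩)
  have h2 : Ideal.span ((fun i => (X i : MvPolynomial ι ℂ)) '' S) ≤ RingHom.ker (eval p) := by
    rw [Ideal.span_le]
    rintro _ ⟨i, hi, rfl⟩
    simp [RingHom.mem_ker, hp i hi]
  exact h2 h1

theorem fl_mem {ι : Type*} [Fintype ι] {P : ι → MvPolynomial ι ℂ} (hF : FlowOn P R r C) (S : Set ι)
    (hS : ∀ i ∈ S, P i ∈ Ideal.span ((fun i => (X i : MvPolynomial ι ℂ)) '' S))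
    {p : ι → ℂ} (hR : ‖p‖ ≤ R) {t : ℂ} (ht : ‖t‖ < r) (hp : ∀ i ∈ S, p i = 0) (i : ι) (hi : i ∈ S) :
    fl P t p i = 0 := by
  have h := it_fl hF hR (fun j => it_mem P S hS p hp i hi j) ht 0
  simpa using h

theorem mem_z (k : ℕ) : ∀ i ∈ ({Va.z} : Set (Va k)), vf k i ∈
    Ideal.span ((fun i => (X i : MvPolynomial (Va k) ℂ)) '' {Va.z}) := by
  rintro _ rfl
  have h : (X Va.z : MvPolynomial (Va k) ℂ) ∈
      Ideal.span ((fun i => (X i : MvPolynomial (Va k) ℂ)) '' {Va.z}) :=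
    Ideal.subset_span ⟨Va.z, rfl, rfl⟩
  exact Ideal.sub_mem _ (neg_mem (Ideal.mul_mem_left _ _ h)) (Ideal.mul_mem_left _ _ h)

theorem mem_e (k : ℕ) : ∀ i ∈ ({Va.e} : Set (Va k)), vf k i ∈
    Ideal.span ((fun i => (X i : MvPolynomial (Va k) ℂ)) '' {Va.e}) := by
  rintro _ rfl
  have h : (X Va.e : MvPolynomial (Va k) ℂ) ∈
      Ideal.span ((fun i => (X i : MvPolynomial (Va k) ℂ)) '' {Va.e}) :=
    Ideal.subset_span ⟨Va.e, rfl, rfl⟩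
  exact Ideal.sub_mem _ (neg_mem (Ideal.mul_mem_left _ _ h)) (Ideal.mul_mem_left _ _ h)

/-- The variables of the chain. -/
def Sy (k : ℕ) : Set (Va k) := {i | (∃ n, i = .a n) ∨ (∃ n, i = .al n) ∨ (∃ n, i = .b n) ∨ (∃ n, i = .be n)}

theorem Z0_iff (p : Va k → ℂ) : Z0 p ↔ ∀ i ∈ Sy k, p i = 0 := by
  constructor
  · rintro h _ (⟨n, rfl⟩ | ⟨n, rfl⟩ | ⟨n, rfl⟩ | ⟨n, rfl⟩)
    · exact (h n).1
    · exact (h n).2.1
    · exact (h n).2.2.1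
    · exact (h n).2.2.2
  · intro h n
    exact ⟨h _ (Or.inl ⟨n, rfl⟩), h _ (Or.inr (Or.inl ⟨n, rfl⟩)),
      h _ (Or.inr (Or.inr (Or.inl ⟨n, rfl⟩))), h _ (Or.inr (Or.inr (Or.inr ⟨n, rfl⟩)))⟩

theorem nx_mem (I : Ideal (MvPolynomial (Va k) ℂ)) (x : Fin (k + 1) → MvPolynomial (Va k) ℂ)
    (y : MvPolynomial (Va k) ℂ) (hx : ∀ n, x n ∈ I) (hy : y ∈ I) (n : Fin (k + 1)) : nx x y n ∈ I := by
  unfold nx
  split_ifs
  · exact hx _
  · exact hy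

theorem mem_y (k : ℕ) : ∀ i ∈ Sy k, vf k i ∈
    Ideal.span ((fun i => (X i : MvPolynomial (Va k) ℂ)) '' Sy k) := by
  have hX : ∀ i ∈ Sy k, (X i : MvPolynomial (Va k) ℂ) ∈
      Ideal.span ((fun i => (X i : MvPolynomial (Va k) ℂ)) '' Sy k) :=
    fun i hi => Ideal.subset_span ⟨i, hi, rfl⟩
  have ha : ∀ n, (X (.a n) : MvPolynomial (Va k) ℂ) ∈
      Ideal.span ((fun i => (X i : MvPolynomial (Va k) ℂ)) '' Sy k) := fun n => hX _ (Or.inl ⟨n, rfl⟩)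
  have hal : ∀ n, (X (.al n) : MvPolynomial (Va k) ℂ) ∈
      Ideal.span ((fun i => (X i : MvPolynomial (Va k) ℂ)) '' Sy k) :=
    fun n => hX _ (Or.inr (Or.inl ⟨n, rfl⟩))
  have hb : ∀ n, (X (.b n) : MvPolynomial (Va k) ℂ) ∈
      Ideal.span ((fun i => (X i : MvPolynomial (Va k) ℂ)) '' Sy k) :=
    fun n => hX _ (Or.inr (Or.inr (Or.inl ⟨n, rfl⟩)))
  have hbe : ∀ n, (X (.be n) : MvPolynomial (Va k) ℂ) ∈
      Ideal.span ((fun i => (X i : MvPolynomial (Va k) ℂ)) '' Sy k) :=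
    fun n => hX _ (Or.inr (Or.inr (Or.inr ⟨n, rfl⟩)))
  rintro _ (⟨n, rfl⟩ | ⟨n, rfl⟩ | ⟨n, rfl⟩ | ⟨n, rfl⟩)
  · exact Ideal.sub_mem _ (hal n) (Ideal.mul_mem_left _ _ (ha n))
  · exact Ideal.add_mem _ (Ideal.add_mem _ (Ideal.sub_mem _ (neg_mem (Ideal.mul_mem_left _ _ (hal n)))
      (nx_mem _ _ _ ha (Ideal.sum_mem _ fun j _ => Ideal.mul_mem_left _ _ (ha j)) n))
      (Ideal.mul_mem_left _ _ (Ideal.mul_mem_left _ _ (ha n))))
      (Ideal.mul_mem_left _ _ (Ideal.mul_mem_left _ _ (hb n)))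
  · exact Ideal.sub_mem _ (hbe n) (Ideal.mul_mem_left _ _ (hb n))
  · exact Ideal.add_mem _ (Ideal.add_mem _ (Ideal.sub_mem _ (neg_mem (Ideal.mul_mem_left _ _ (hbe n)))
      (nx_mem _ _ _ hb (Ideal.sum_mem _ fun j _ => Ideal.mul_mem_left _ _ (hb j)) n))
      (Ideal.mul_mem_left _ _ (Ideal.mul_mem_left _ _ (hb n))))
      (Ideal.mul_mem_left _ _ (Ideal.mul_mem_left _ _ (ha n)))

/-- Going back along the flow. -/
theorem back (k : ℕ) (R : ℝ) : ∃ r : ℝ, 0 < r ∧ ∃ C' r' : ℝ, FlowOn (vf k) (R + 1) r' C' ∧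
    ∀ p : Va k → ℂ, ‖p‖ ≤ R → ∀ t : ℂ, ‖t‖ < r →
      ‖fl (vf k) t p‖ ≤ R + 1 ∧ ‖-t‖ < r' ∧ fl (vf k) (-t) (fl (vf k) t p) = p := by
  obtain ⟨r1, C1, hC, hF⟩ := exists_flowOn (vf k) (R + 1)
  obtain ⟨r2, hr2, hn⟩ := fl_neg (vf k) R
  refine ⟨min (min r1 r2) (1 / (C1 + 1)), ?_, C1, r1, hF, fun p hp t ht => ?_⟩
  · refine lt_min (lt_min hF.pos hr2) ?_
    positivity
  · have h1 : ‖t‖ < r1 := lt_of_lt_of_le ht ((min_le_left _ _).trans (min_le_left _ _))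
    have h2 : ‖t‖ < r2 := lt_of_lt_of_le ht ((min_le_left _ _).trans (min_le_right _ _))
    have h3 : ‖t‖ < 1 / (C1 + 1) := lt_of_lt_of_le ht (min_le_right _ _)
    refine ⟨?_, by simpa using h1, hn p hp t h2⟩
    have h4 := hF.lip p (by linarith) t h1
    have h5 : C1 * ‖t‖ ≤ 1 := by
      have h6 : ‖t‖ * (C1 + 1) < 1 := by
        rwa [lt_div_iff₀ (by linarith)] at h3
      nlinarith [norm_nonneg t]
    calc ‖fl (vf k) t p‖ = ‖p + (fl (vf k) t p - p)‖ := by congr 1; abel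
      _ ≤ ‖p‖ + ‖fl (vf k) t p - p‖ := norm_add_le _ _
      _ ≤ R + 1 := by linarith

theorem ne_of_S (k : ℕ) (R : ℝ) (S : Set (Va k))
    (hS : ∀ i ∈ S, vf k i ∈ Ideal.span ((fun i => (X i : MvPolynomial (Va k) ℂ)) '' S)) :
    ∃ r : ℝ, 0 < r ∧ ∀ p : Va k → ℂ, ‖p‖ ≤ R → ∀ t : ℂ, ‖t‖ < r →
    (¬ ∀ i ∈ S, p i = 0) → ¬ ∀ i ∈ S, fl (vf k) t p i = 0 := by
  obtain ⟨r, hr, C', r', hF, h⟩ := back k R
  refine ⟨r, hr, fun p hp t ht hne h0 => hne ?_⟩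
  obtain ⟨h1, h2, h3⟩ := h p hp t ht
  intro i hi
  have h4 := fl_mem hF S hS h1 h2 h0 i hi
  rwa [h3] at h4

end SymB

theorem fl_W (hF : FlowOn (vf k) R r C) {p : Va k → ℂ} (hp : p ∈ W k) (hR : ‖p‖ ≤ R) {t : ℂ}
    (ht : ‖t‖ < r) : fl (vf k) t p ∈ W k := by
  intro j
  exact it_fl hF hR hp ht j

theorem fl_c (hF : FlowOn (vf k) R r C) {p : Va k → ℂ} (hR : ‖p‖ ≤ R) {t : ℂ}
    (ht : ‖t‖ < r) (j : Fin (k + 1)) : fl (vf k) t p (.c j) = p (.c j) := by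
  have h := fl_const hF (F := X (.c j)) (by simp [vf]) hR ht
  simpa using h

theorem fl_d (hF : FlowOn (vf k) R r C) {p : Va k → ℂ} (hR : ‖p‖ ≤ R) {t : ℂ}
    (ht : ‖t‖ < r) : fl (vf k) t p .d = p .d := by
  have h := fl_const hF (F := X .d) (by simp [vf]) hR ht
  simpa using h

theorem fl_z0 (hF : FlowOn (vf k) R r C) {p : Va k → ℂ} (hR : ‖p‖ ≤ R) {t : ℂ}
    (ht : ‖t‖ < r) (h : p .z = 0) : fl (vf k) t p .z = 0 :=
  SymB.fl_mem hF {Va.z} (SymB.mem_z k) hR ht (by rintro _ rfl; exact h) Va.z rfl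

theorem fl_e0 (hF : FlowOn (vf k) R r C) {p : Va k → ℂ} (hR : ‖p‖ ≤ R) {t : ℂ}
    (ht : ‖t‖ < r) (h : p .e = 0) : fl (vf k) t p .e = 0 :=
  SymB.fl_mem hF {Va.e} (SymB.mem_e k) hR ht (by rintro _ rfl; exact h) Va.e rfl

theorem fl_Z0 (hF : FlowOn (vf k) R r C) {p : Va k → ℂ} (hR : ‖p‖ ≤ R) {t : ℂ}
    (ht : ‖t‖ < r) (h : Z0 p) : Z0 (fl (vf k) t p) := by
  rw [SymB.Z0_iff] at h ⊢
  exact fun i hi => SymB.fl_mem hF (SymB.Sy k) (SymB.mem_y k) hR ht h i hi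

theorem fl_not_Z0 (k : ℕ) (R : ℝ) : ∃ r : ℝ, 0 < r ∧ ∀ p : Va k → ℂ, ‖p‖ ≤ R → ∀ t : ℂ, ‖t‖ < r →
    ¬ Z0 p → ¬ Z0 (fl (vf k) t p) := by
  obtain ⟨r, hr, h⟩ := SymB.ne_of_S k R (SymB.Sy k) (SymB.mem_y k)
  refine ⟨r, hr, fun p hp t ht => ?_⟩
  rw [SymB.Z0_iff, SymB.Z0_iff]
  exact h p hp t ht

theorem fl_z_ne (k : ℕ) (R : ℝ) : ∃ r : ℝ, 0 < r ∧ ∀ p : Va k → ℂ, ‖p‖ ≤ R → ∀ t : ℂ, ‖t‖ < r →
    p .z ≠ 0 → fl (vf k) t p .z ≠ 0 := by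
  obtain ⟨r, hr, h⟩ := SymB.ne_of_S k R {Va.z} (SymB.mem_z k)
  refine ⟨r, hr, fun p hp t ht hz h0 => ?_⟩
  refine h p hp t ht (fun h' => hz (h' _ rfl)) ?_
  rintro _ rfl
  exact h0

theorem fl_e_ne (k : ℕ) (R : ℝ) : ∃ r : ℝ, 0 < r ∧ ∀ p : Va k → ℂ, ‖p‖ ≤ R → ∀ t : ℂ, ‖t‖ < r →
    p .e ≠ 0 → fl (vf k) t p .e ≠ 0 := by
  obtain ⟨r, hr, h⟩ := SymB.ne_of_S k R {Va.e} (SymB.mem_e k)
  refine ⟨r, hr, fun p hp t ht hz h0 => ?_⟩
  refine h p hp t ht (fun h' => hz (h' _ rfl)) ?_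
  rintro _ rfl
  exact h0

end Pool.Agent.Helper44.FT
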