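import Pool.Agent.Helper44.FT.Liou
import Pool.Agent.Helper44.FT.SymB

/-!
# Block FT-NL: Liouville lemma for the normalised flow

`nf t p` = flow for time `t`, then homothety such that the variable `e` is `1` again. Claim: if `S` is a bounded set of points with `p e = 1` which is
mapped into itself by `nf t`, `‖t‖` small, then at every point of `S`: `vf i = wt i * p i * vf e` (values at `p`).
Proof. `liouville` with `Ψ = nf`, `V p i = eval p (vf k i) - wt i * p i * eval p (vf k .e)`; all times small: `FlowOn` for `R = M + 1`; for small `t`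
`‖fl t p .e - 1‖ ≤ C ‖t‖ < 1/2`, so the inverse is holomorphic. (zero) `fl_zero`. (hol) from `FlowOn.holo`, coordinatewise:
`(E τ)⁻¹ ^ wt i * (fl (s τ) (q τ)) i`. (der) by `FlowOn.second`, `τ ↦ fl (a τ) (q τ)` has at `0` the derivative
`a • (fun i => eval (q 0) (vf k i)) + q'` (`fl (a τ) (q τ) - q τ - a τ • vf (q τ) = O(τ²)`, `vf` continuous); `q 0 ∈ S`, so `q 0 .e = 1`, and `q' .e = 0` because `q τ .e = 1` near `0`;
then the product rule.
-/

namespace Pool.Agent.Helper44.FT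

open MvPolynomial

variable {k : ℕ}

/-- Normalised flow. -/
noncomputable def nf (t : ℂ) (p : Va k → ℂ) : Va k → ℂ :=
  sc (fl (vf k) t p .e)⁻¹ (fl (vf k) t p)

theorem norm_liou (S : Set (Va k → ℂ)) (M : ℝ) (hM : ∀ p ∈ S, ‖p‖ ≤ M) (he : ∀ p ∈ S, p .e = 1)
    (hS : ∃ r : ℝ, 0 < r ∧ ∀ p ∈ S, ∀ t : ℂ, ‖t‖ < r → nf t p ∈ S) :
    ∀ p ∈ S, ∀ i, eval p (vf k i) = wt i * p i * eval p (vf k .e) := by
  obtain ⟨r₀, hr₀, hS⟩ := hS
  obtain ⟨r₁, C, hC, hF⟩ := exists_flowOn (vf k) M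
  have hr₁ := hF.pos
  have hC1 : 0 < 2 * (C + 1) := by linarith
  have hr : 0 < min r₀ (min r₁ (1 / (2 * (C + 1)))) :=
    lt_min hr₀ (lt_min hr₁ (by positivity))
  have hne : ∀ p ∈ S, ∀ t : ℂ, ‖t‖ < min r₀ (min r₁ (1 / (2 * (C + 1)))) →
      fl (vf k) t p .e ≠ 0 := by
    intro p hp t ht h0
    have ht1 : ‖t‖ < r₁ := ht.trans_le ((min_le_right _ _).trans (min_le_left _ _))
    have ht2 : ‖t‖ < 1 / (2 * (C + 1)) :=
      ht.trans_le ((min_le_right _ _).trans (min_le_right _ _))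
    have h1 := hF.lip p (hM p hp) t ht1
    have h2 : ‖(fl (vf k) t p - p) .e‖ ≤ ‖fl (vf k) t p - p‖ := norm_le_pi_norm _ _
    rw [Pi.sub_apply, h0, he p hp, zero_sub, norm_neg, norm_one] at h2
    have h3 : C * ‖t‖ ≤ C * (1 / (2 * (C + 1))) := mul_le_mul_of_nonneg_left ht2.le hC
    have h4 : C * (1 / (2 * (C + 1))) < 1 := by
      rw [mul_one_div, div_lt_one hC1]
      linarith
    linarith
  have main := liouville S M _ hr hM nf
    (fun p i => eval p (vf k i) - wt i * p i * eval p (vf k .e)) ?_ ?_ ?_ ?_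
  · intro p hp i
    have h := congrFun (main p hp) i
    simp only [Pi.zero_apply] at h
    exact sub_eq_zero.1 h
  · -- zero
    intro p hp
    unfold nf
    rw [fl_zero, he p hp, inv_one]
    funext i
    simp [sc]
  · -- maps
    intro p hp t ht
    exact hS p hp t (ht.trans_le (min_le_left _ _))
  · -- hol
    intro U hU s q hs hq h
    have h1 : DifferentiableOn ℂ (fun τ => fl (vf k) (s τ) (q τ)) U :=
      hF.holo U hU s q hs hq (fun τ hτ => ⟨hM _ (h τ hτ).1,
        (h τ hτ).2.trans_le ((min_le_right _ _).trans (min_le_left _ _))⟩)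
    rw [differentiableOn_pi] at h1 ⊢
    intro i
    have h2 : ∀ τ ∈ U, fl (vf k) (s τ) (q τ) .e ≠ 0 := fun τ hτ => hne _ (h τ hτ).1 _ (h τ hτ).2
    exact (((h1 .e).inv h2).pow (wt i)).mul (h1 i)
  · -- der
    intro q q' a hev hq
    have hq0 : q 0 ∈ S := hev.self_of_nhds
    have hR : ∀ᶠ τ in nhds (0 : ℂ), ‖q τ‖ ≤ M := hev.mono fun τ hτ => hM _ hτ
    have hd := fl_der hF hq hR a
    rw [hasDerivAt_pi] at hd ⊢
    have hqe : q' .e = 0 := by
      have h1 : HasDerivAt (fun τ => q τ .e) (q' .e) 0 := (hasDerivAt_pi.1 hq) .e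
      have h2 : HasDerivAt (fun _ : ℂ => (1 : ℂ)) 0 (0 : ℂ) := hasDerivAt_const _ _
      have h3 : (fun τ => q τ .e) =ᶠ[nhds (0 : ℂ)] fun _ => (1 : ℂ) :=
        hev.mono fun τ hτ => he _ hτ
      exact (h1.congr_of_eventuallyEq h3.symm).unique h2
    intro i
    have hE0 : fl (vf k) (a * 0) (q 0) = q 0 := by rw [mul_zero, fl_zero]
    have he0 : q 0 .e = 1 := he _ hq0
    have hE := hd .e
    have hne0 : fl (vf k) (a * 0) (q 0) .e ≠ 0 := by
      rw [hE0, he0]
      exact one_ne_zero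
    have h5 := ((hE.fun_inv hne0).fun_pow (wt i)).fun_mul (hd i)
    refine h5.congr_deriv ?_
    simp only [Pi.add_apply, Pi.smul_apply, smul_eq_mul, hE0, he0, hqe, inv_one,
      one_pow, div_one, mul_one, one_mul, add_zero]
    ring

end Pool.Agent.Helper44.FT
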