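import Mathlib

/-!
# Block FT-RB: second recursion

Claim: if `a`, `b` satisfy the recursion with `a 0 = - b 0` and `a (k+1) = b (k+1) = 0` then `b 0 = 0`.
Proof. Let `b 0 ≠ 0`; dividing by `b 0` let `b 0 = 1`. There is a least `N ≤ k` with `(μ - 2N - 2)(μ - 2N - 3/2) = 0`; so `μ` is real and everything is real.
Case `μ = 2N+2`: for `n < N` both factors `μ-2n-2 = 2(N-n)`, `μ-2n-3/2` are `> 0`; for `n ≤ N` `μ-2n-1`, `μ-2n-1/2` are `> 0`. So the sign of `b n` is `(-1)^n` for `n ≤ N` and the sign of `a n` is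
`(-1)^(n+1)` for `n ≤ N + 1` (`a (n+1) = b n / 2 - (+) a n`, both terms of sign `(-1)^n`). For `n > N`: `b n = 0` and `a (n+1) = -(μ-2n-1)(μ-2n-1/2) a n`, where the factors `2(N-n)+1`, `2(N-n)+3/2` are not zero. So `a (k+1) ≠ 0`.
Case `μ = 2N+3/2`: the same with `2(N-n)-1/2 > 0`, `2(N-n) > 0` for `n < N`; `2(N-n)+1/2`, `2(N-n)+1`, positive for `n ≤ N` and never zero.
-/

namespace Pool.Agent.Helper44.FT

namespace RB

/-- real sequences: signs -/
theorem real_aux (m : ℝ) (N : ℕ) (a b : ℕ → ℝ) (h0 : a 0 = -1) (hb0 : b 0 = 1)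
    (ha : ∀ n, a (n + 1) = b n / 2 - (m - 2 * n - 1) * (m - 2 * n - 1 / 2) * a n)
    (hb : ∀ n, b (n + 1) = -((m - 2 * n - 2) * (m - 2 * n - 3 / 2)) * b n)
    (hm : m = 2 * N + 2 ∨ m = 2 * N + 3 / 2) (n : ℕ) : a n ≠ 0 := by
  have key : ∀ n, n ≤ N → 0 < (-1 : ℝ) ^ n * b n ∧ 0 < (-1 : ℝ) ^ (n + 1) * a n := by
    intro n
    induction n with
    | zero => intro _; rw [h0, hb0]; norm_num
    | succ n ih =>
      intro hn
      obtain ⟨h1, h2⟩ := ih (by omega)
      have hnN : (n : ℝ) + 1 ≤ N := by exact_mod_cast hn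
      have f1 : 0 < (m - 2 * n - 2) * (m - 2 * n - 3 / 2) := by
        rcases hm with h | h
        · exact mul_pos (by linarith) (by linarith)
        · exact mul_pos (by linarith) (by linarith)
      have f2 : 0 < (m - 2 * n - 1) * (m - 2 * n - 1 / 2) := by
        rcases hm with h | h
        · exact mul_pos (by linarith) (by linarith)
        · exact mul_pos (by linarith) (by linarith)
      constructor
      · rw [hb, pow_succ]
        have := mul_pos f1 h1
        nlinarith
      · rw [ha, pow_succ, pow_succ]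
        rw [pow_succ] at h2
        have := mul_pos f2 h2
        nlinarith
  have hbz : ∀ j, b (N + 1 + j) = 0 := by
    intro j
    induction j with
    | zero =>
      rw [add_zero, hb]
      rcases hm with h | h
      · rw [h]; ring
      · rw [h]; ring
    | succ j ih => rw [← add_assoc, hb, ih, mul_zero]
  have hN1 : a (N + 1) ≠ 0 := by
    obtain ⟨h1, h2⟩ := key N le_rfl
    have f2 : 0 < (m - 2 * N - 1) * (m - 2 * N - 1 / 2) := by
      rcases hm with h | h
      · exact mul_pos (by linarith) (by linarith)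
      · exact mul_pos (by linarith) (by linarith)
    intro h
    rw [ha] at h
    rw [pow_succ] at h2
    have := mul_pos f2 h2
    have h3 : (-1 : ℝ) ^ N * (b N / 2 - (m - 2 * N - 1) * (m - 2 * N - 1 / 2) * a N) = 0 := by
      rw [h, mul_zero]
    nlinarith
  have hlast : ∀ j, a (N + 1 + j) ≠ 0 := by
    intro j
    induction j with
    | zero => exact hN1
    | succ j ih =>
      rw [← add_assoc, ha, hbz j]
      have f1 : (m - 2 * ((N + 1 + j : ℕ) : ℝ) - 1) ≠ 0 := by
        push_cast
        rcases hm with h | h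
        · rw [h]
          intro h5
          have h6 : (2 * j + 1 : ℝ) = 0 := by linarith
          have : (0 : ℝ) ≤ j := Nat.cast_nonneg j
          linarith
        · rw [h]
          intro h5
          have h6 : (4 * j + 3 : ℝ) = 0 := by linarith
          have : (0 : ℝ) ≤ j := Nat.cast_nonneg j
          linarith
      have f2 : (m - 2 * ((N + 1 + j : ℕ) : ℝ) - 1 / 2) ≠ 0 := by
        push_cast
        rcases hm with h | h
        · rw [h]
          intro h5
          have h6 : (4 * j + 1 : ℝ) = 0 := by linarith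
          have : (0 : ℝ) ≤ j := Nat.cast_nonneg j
          linarith
        · rw [h]
          intro h5
          have h6 : (2 * j + 1 : ℝ) = 0 := by linarith
          have : (0 : ℝ) ≤ j := Nat.cast_nonneg j
          linarith
      rw [zero_div, zero_sub]
      exact neg_ne_zero.mpr (mul_ne_zero (mul_ne_zero f1 f2) ih)
  rcases le_or_gt n N with h | h
  · intro h5
    have := (key n h).2
    rw [h5, mul_zero] at this
    exact lt_irrefl _ this
  · obtain ⟨j, rfl⟩ := Nat.exists_eq_add_of_lt h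
    have := hlast j
    rwa [show N + j + 1 = N + 1 + j by ring]

end RB

theorem recB (μ : ℂ) (k : ℕ) (a b : ℕ → ℂ) (h0 : a 0 = -b 0)
    (ha : ∀ n ≤ k, a (n + 1) = b n / 2 - (μ - 2 * n - 1) * (μ - 2 * n - 1 / 2) * a n)
    (hb : ∀ n ≤ k, b (n + 1) = -((μ - 2 * n - 2) * (μ - 2 * n - 3 / 2)) * b n)
    (ea : a (k + 1) = 0) (eb : b (k + 1) = 0) : b 0 = 0 := by
  by_contra hne
  -- some factor vanishes
  have hex : ∃ N ≤ k, (μ - 2 * N - 2) * (μ - 2 * N - 3 / 2) = 0 := by
    by_contra hcon
    push Not at hcon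
    have : ∀ n ≤ k + 1, b n ≠ 0 := by
      intro n
      induction n with
      | zero => intro _; exact hne
      | succ n ih =>
        intro hn
        rw [hb n (by omega)]
        exact mul_ne_zero (neg_ne_zero.mpr (hcon n (by omega))) (ih (by omega))
    exact this (k + 1) le_rfl eb
  obtain ⟨N, hN, hfac⟩ := hex
  -- real parameter
  obtain ⟨m, hm, hmu⟩ : ∃ m : ℝ, (m = 2 * N + 2 ∨ m = 2 * N + 3 / 2) ∧ μ = (m : ℂ) := by
    rcases mul_eq_zero.mp hfac with h | h
    · refine ⟨2 * N + 2, Or.inl rfl, ?_⟩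
      push_cast
      linear_combination h
    · refine ⟨2 * N + 3 / 2, Or.inr rfl, ?_⟩
      push_cast
      linear_combination h
  -- the real model sequences
  let S : ℕ → ℝ × ℝ := fun n => Nat.rec ((-1 : ℝ), (1 : ℝ)) (fun n x =>
    (x.2 / 2 - (m - 2 * n - 1) * (m - 2 * n - 1 / 2) * x.1,
      -((m - 2 * n - 2) * (m - 2 * n - 3 / 2)) * x.2)) n
  have hS0 : S 0 = (-1, 1) := rfl
  have hS1 : ∀ n, S (n + 1) = ((S n).2 / 2 - (m - 2 * n - 1) * (m - 2 * n - 1 / 2) * (S n).1,
      -((m - 2 * n - 2) * (m - 2 * n - 3 / 2)) * (S n).2) := fun n => rfl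
  have hreal := RB.real_aux m N (fun n => (S n).1) (fun n => (S n).2) (by rw [hS0]) (by rw [hS0])
    (fun n => by rw [hS1]) (fun n => by rw [hS1]) hm (k + 1)
  have heq : ∀ n ≤ k + 1, a n = b 0 * ((S n).1 : ℂ) ∧ b n = b 0 * ((S n).2 : ℂ) := by
    intro n
    induction n with
    | zero => intro _; rw [hS0, h0]; push_cast; constructor <;> ring
    | succ n ih =>
      intro hn
      obtain ⟨h1, h2⟩ := ih (by omega)
      rw [ha n (by omega), hb n (by omega), h1, h2, hS1, hmu]
      push_cast
      constructor <;> ring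
  have h5 := (heq (k + 1) le_rfl).1
  rw [ea] at h5
  rcases mul_eq_zero.mp h5.symm with h6 | h6
  · exact hne h6
  · exact hreal (by exact_mod_cast h6)

end Pool.Agent.Helper44.FT
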