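import Pool.Agent.Helper44.FT.LinAdd
import Pool.Agent.Helper44.FT.NLiou
import Pool.Agent.Helper44.FT.RecB

/-!
# Block FT-LZ: points of `W` with `d = 0`, `c = 0` and `z = 0` (or `e = 0`), not both `z`, `e` zero

Proof of `lin_z` (algebraic version): scale (`W_sc`) so that `p e = 1`. For a vector `v` (coordinates of type `a, al, b, be`) let `pt v` be the
point with `e = 1`, `c = d = z = 0` and the other coordinates those of `v`. Let `F j` be the iterated derivatives of `G0`.
(1) `F j` lies in the module `Ms` generated by `r X i` (`i` of type `a, al, b, be`, `r` a polynomial in `c, z, e`) and by the multiples of `X d`; so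
the derivative of `F j` at `pt v` in the direction `w` is `F j (pt w)` (`key`). In particular `N = {v | pt v ∈ W}` is a linear space.
(2) Euler: `Eu = ∑ wt i X i ∂ i`, `[Eu, dv] = dv`, so `Eu (F j) = (j + 1) F j`.
(3) The linear map `T v i = vf i (pt v) + wt i v i` maps `N` into `N`: `F j (pt (T v))` is the derivative of `F j` at `pt v` in the direction
`T v`, which is `(dv F j + Eu F j) (pt v) = 0`.
If `N ≠ 0` then `T|N` has an eigenvector `v ≠ 0` (`Module.End.exists_eigenvalue`), `T v = μ v`: `al_n = (μ - 2n - 1/2) a_n`,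
`a_(n+1) = b_n/2 - (μ - 2n - 1) al_n`, `be_n = (μ - 2n - 3/2) b_n`, `b_(n+1) = -(μ - 2n - 2) be_n`, `a_0 = - b_0` (`W_ab`), `a_(k+1) = b_(k+1) = 0`. `recB` gives `b_0 = 0 = a_0` and then all vanish, a contradiction. So `N = 0`.
`lin_e` by `W_sw`.
-/

namespace Pool.Agent.Helper44.FT

open MvPolynomial

namespace LZ

variable {k : ℕ}

/-- fibre variables -/
def fib : Va k → Prop
  | .a _ => True
  | .al _ => True
  | .b _ => True
  | .be _ => True
  | _ => False

/-- base variables (without `d`) -/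
def bas : Va k → Prop
  | .c _ => True
  | .z => True
  | .e => True
  | _ => False

noncomputable def Bs (k : ℕ) : Subalgebra ℂ (MvPolynomial (Va k) ℂ) :=
  MvPolynomial.supported ℂ {i : Va k | bas i}

noncomputable def Ms (k : ℕ) : Submodule ℂ (MvPolynomial (Va k) ℂ) :=
  Submodule.span ℂ ({F | ∃ r ∈ Bs k, ∃ i, fib i ∧ F = r * X i} ∪ {F | ∃ H, F = X .d * H})

theorem mem1 {r : MvPolynomial (Va k) ℂ} (hr : r ∈ Bs k) {i : Va k} (hi : fib i) :
    r * X i ∈ Ms k := Submodule.subset_span (Or.inl ⟨r, hr, i, hi, rfl⟩)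

theorem mem2 (H : MvPolynomial (Va k) ℂ) : X .d * H ∈ Ms k :=
  Submodule.subset_span (Or.inr ⟨H, rfl⟩)

theorem mem3 {i : Va k} (hi : fib i) : (X i : MvPolynomial (Va k) ℂ) ∈ Ms k := by
  have := mem1 (Subalgebra.one_mem (Bs k)) hi
  rwa [one_mul] at this

theorem Xbs {i : Va k} (hi : bas i) : (X i : MvPolynomial (Va k) ℂ) ∈ Bs k :=
  MvPolynomial.X_mem_supported.mpr hi

theorem Xz : (X .z : MvPolynomial (Va k) ℂ) ∈ Bs k := Xbs (i := .z) trivial

theorem Xe : (X .e : MvPolynomial (Va k) ℂ) ∈ Bs k := Xbs (i := .e) trivial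

theorem Xc (j : Fin (k + 1)) : (X (.c j) : MvPolynomial (Va k) ℂ) ∈ Bs k :=
  Xbs (i := .c j) trivial

theorem Cbs (a : ℂ) : (C a : MvPolynomial (Va k) ℂ) ∈ Bs k :=
  Subalgebra.algebraMap_mem (Bs k) a

theorem mul_mem {r F : MvPolynomial (Va k) ℂ} (hr : r ∈ Bs k) (hF : F ∈ Ms k) : r * F ∈ Ms k := by
  unfold Ms at hF
  induction hF using Submodule.span_induction with
  | mem x hx =>
    rcases hx with ⟨s, hs, i, hi, rfl⟩ | ⟨H, rfl⟩
    · rw [← mul_assoc]
      exact mem1 (Subalgebra.mul_mem _ hr hs) hi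
    · rw [show r * (X .d * H) = X .d * (r * H) by ring]
      exact mem2 _
  | zero => rw [mul_zero]; exact Submodule.zero_mem _
  | add x y _ _ h1 h2 => rw [mul_add]; exact Submodule.add_mem _ h1 h2
  | smul a x _ h1 => rw [mul_smul_comm]; exact Submodule.smul_mem _ _ h1

theorem Bmul {r s : MvPolynomial (Va k) ℂ} (hr : r ∈ Bs k) (hs : s ∈ Bs k) : r * s ∈ Bs k :=
  Subalgebra.mul_mem _ hr hs

theorem Badd {r s : MvPolynomial (Va k) ℂ} (hr : r ∈ Bs k) (hs : s ∈ Bs k) : r + s ∈ Bs k :=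
  Subalgebra.add_mem _ hr hs

theorem Bneg {r : MvPolynomial (Va k) ℂ} (hr : r ∈ Bs k) : -r ∈ Bs k :=
  Subalgebra.neg_mem _ hr

theorem Bsub {r s : MvPolynomial (Va k) ℂ} (hr : r ∈ Bs k) (hs : s ∈ Bs k) : r - s ∈ Bs k :=
  Subalgebra.sub_mem _ hr hs

theorem Bzero : (0 : MvPolynomial (Va k) ℂ) ∈ Bs k := Subalgebra.zero_mem _

/-- dv of a base polynomial -/
def Rp (k : ℕ) (r : MvPolynomial (Va k) ℂ) : Prop :=
  ∃ r' ∈ Bs k, ∃ H, dv (vf k) r = r' + X .d * H

theorem Rp_X {i : Va k} (hi : bas i) : Rp k (X i) := by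
  unfold Rp
  rw [dv_X]
  cases i with
  | c j => exact ⟨0, Bzero, 0, by simp [vf]⟩
  | d => exact absurd hi (by simp [bas])
  | z =>
    refine ⟨_, Bneg (Bmul Xz Xz), -(X (.a 0) * X .z), ?_⟩
    rw [vf]
    ring
  | e =>
    refine ⟨_, Bneg (Bmul Xe Xe), -(X (.b 0) * X .e), ?_⟩
    rw [vf]
    ring
  | a n => exact absurd hi (by simp [bas])
  | al n => exact absurd hi (by simp [bas])
  | b n => exact absurd hi (by simp [bas])
  | be n => exact absurd hi (by simp [bas])

theorem Rp_C (a : ℂ) : Rp k (C a) := ⟨0, Bzero, 0, by rw [dv_C]; simp⟩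

theorem Rp_add {x y : MvPolynomial (Va k) ℂ} (h1 : Rp k x) (h2 : Rp k y) : Rp k (x + y) := by
  obtain ⟨r1, m1, H1, e1⟩ := h1
  obtain ⟨r2, m2, H2, e2⟩ := h2
  exact ⟨r1 + r2, Badd m1 m2, H1 + H2, by rw [map_add, e1, e2]; ring⟩

theorem Rp_mul {x y : MvPolynomial (Va k) ℂ} (hx : x ∈ Bs k) (hy : y ∈ Bs k) (h1 : Rp k x)
    (h2 : Rp k y) : Rp k (x * y) := by
  obtain ⟨r1, m1, H1, e1⟩ := h1
  obtain ⟨r2, m2, H2, e2⟩ := h2
  exact ⟨r1 * y + x * r2, Badd (Bmul m1 hy) (Bmul hx m2), H1 * y + x * H2, by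
    rw [dv_mul, e1, e2]; ring⟩

theorem Bs_ind {p : MvPolynomial (Va k) ℂ → Prop} (hX : ∀ i, bas i → p (X i)) (hC : ∀ a, p (C a))
    (hadd : ∀ x y, p x → p y → p (x + y))
    (hmul : ∀ x y, x ∈ Bs k → y ∈ Bs k → p x → p y → p (x * y))
    {r : MvPolynomial (Va k) ℂ} (hr : r ∈ Bs k) : p r := by
  have hr' : r ∈ Algebra.adjoin ℂ (X '' {i : Va k | bas i}) := hr
  refine Algebra.adjoin_induction (p := fun r _ => p r) ?_ ?_ ?_ ?_ hr'
  · rintro x ⟨i, hi, rfl⟩
    exact hX i hi
  · intro a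
    exact hC a
  · intro x y _ _ h1 h2
    exact hadd x y h1 h2
  · intro x y hx hy h1 h2
    exact hmul x y hx hy h1 h2

theorem dv_Bs {r : MvPolynomial (Va k) ℂ} (hr : r ∈ Bs k) : Rp k r :=
  Bs_ind (fun _ hi => Rp_X hi) Rp_C (fun _ _ => Rp_add) (fun _ _ => Rp_mul) hr

theorem KK_mem {i : Va k} (hi : fib i) : KK k * X i ∈ Ms k := by
  have h1 : KK k * X i = (-(C (1 / 2) * (X .z - X .e))) * X i + X .d * (-(X (.a 0) * X i)) := by
    rw [KK]; ring
  rw [h1]
  refine Submodule.add_mem _ (mem1 (Subalgebra.neg_mem _ (Subalgebra.mul_mem _ (Cbs _)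
    (Subalgebra.sub_mem _ Xz Xe))) hi) (mem2 _)

theorem LL_mem {i : Va k} (hi : fib i) : LL k * X i ∈ Ms k := by
  have h1 : LL k * X i = (-(C (1 / 2) * (X .e - X .z))) * X i + X .d * (-(X (.b 0) * X i)) := by
    rw [LL]; ring
  rw [h1]
  refine Submodule.add_mem _ (mem1 (Subalgebra.neg_mem _ (Subalgebra.mul_mem _ (Cbs _)
    (Subalgebra.sub_mem _ Xe Xz))) hi) (mem2 _)

theorem mm_mem {i : Va k} (hi : fib i) : mm k * X i ∈ Ms k :=
  mem1 (Subalgebra.mul_mem _ (Cbs _) (Subalgebra.add_mem _ Xz Xe)) hi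

theorem nx_mem {x : Fin (k + 1) → MvPolynomial (Va k) ℂ} {y : MvPolynomial (Va k) ℂ}
    (hx : ∀ n, x n ∈ Ms k) (hy : y ∈ Ms k) (n : Fin (k + 1)) : nx x y n ∈ Ms k := by
  unfold nx
  split_ifs
  · exact hx _
  · exact hy

theorem q_mem {i : Va k} (hi : fib i) {u v : MvPolynomial (Va k) ℂ} (hu : u ∈ Bs k)
    (hv : v ∈ Bs k) : C (1 / 2) * (u * v * X i) ∈ Ms k := by
  rw [← mul_assoc]
  exact mem1 (Subalgebra.mul_mem _ (Cbs _) (Subalgebra.mul_mem _ hu hv)) hi

theorem vf_Ms {i : Va k} (hi : fib i) : vf k i ∈ Ms k := by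
  cases i with
  | c j => exact absurd hi (by simp [fib])
  | d => exact absurd hi (by simp [fib])
  | z => exact absurd hi (by simp [fib])
  | e => exact absurd hi (by simp [fib])
  | a n => exact Submodule.sub_mem _ (mem3 (i := .al n) trivial) (KK_mem (i := .a n) trivial)
  | b n => exact Submodule.sub_mem _ (mem3 (i := .be n) trivial) (LL_mem (i := .b n) trivial)
  | al n =>
    refine Submodule.add_mem _ (Submodule.add_mem _ (Submodule.sub_mem _ (Submodule.neg_mem _ ?_)
      (nx_mem (fun n => mem3 (i := .a n) trivial)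
        (Submodule.sum_mem _ fun j _ => mem1 (i := .a j) (Xc j) trivial) n))
      (q_mem (i := .a n) trivial Xz Xe)) (q_mem (i := .b n) trivial Xe Xe)
    rw [add_mul]
    exact Submodule.add_mem _ (KK_mem (i := .al n) trivial) (mm_mem (i := .al n) trivial)
  | be n =>
    refine Submodule.add_mem _ (Submodule.add_mem _ (Submodule.sub_mem _ (Submodule.neg_mem _ ?_)
      (nx_mem (fun n => mem3 (i := .b n) trivial)
        (Submodule.sum_mem _ fun j _ => mem1 (i := .b j) (Xc j) trivial) n))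
      (q_mem (i := .b n) trivial Xz Xe)) (q_mem (i := .a n) trivial Xz Xz)
    rw [add_mul]
    exact Submodule.add_mem _ (LL_mem (i := .be n) trivial) (mm_mem (i := .be n) trivial)

theorem dv_Ms {F : MvPolynomial (Va k) ℂ} (hF : F ∈ Ms k) : dv (vf k) F ∈ Ms k := by
  unfold Ms at hF
  induction hF using Submodule.span_induction with
  | mem x hx =>
    rcases hx with ⟨s, hs, i, hi, rfl⟩ | ⟨H, rfl⟩
    · obtain ⟨r', hr', H, hH⟩ := dv_Bs hs
      rw [dv_mul, hH, dv_X, add_mul]
      refine Submodule.add_mem _ (Submodule.add_mem _ (mem1 hr' hi) ?_) (mul_mem hs (vf_Ms hi))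
      rw [mul_assoc]
      exact mem2 _
    · rw [dv_mul, dv_X]
      simp only [vf, zero_mul, zero_add]
      exact mem2 _
  | zero => rw [map_zero]; exact Submodule.zero_mem _
  | add x y _ _ h1 h2 => rw [map_add]; exact Submodule.add_mem _ h1 h2
  | smul a x _ h1 => rw [Derivation.map_smul]; exact Submodule.smul_mem _ _ h1

theorem F_mem (j : ℕ) : (dv (vf k))^[j] (G0 k) ∈ Ms k := by
  induction j with
  | zero => exact Submodule.add_mem _ (mem3 (i := .a 0) trivial) (mem3 (i := .b 0) trivial)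
  | succ j ih => rw [Function.iterate_succ_apply']; exact dv_Ms ih

/-- point of the slice -/
def pt (v : Va k → ℂ) : Va k → ℂ
  | .c _ => 0
  | .d => 0
  | .z => 0
  | .e => 1
  | .a n => v (.a n)
  | .al n => v (.al n)
  | .b n => v (.b n)
  | .be n => v (.be n)

def FibV (v : Va k → ℂ) : Prop := ∀ i, ¬ fib i → v i = 0

/-- directional derivative -/
noncomputable def dd (w : Va k → ℂ) : Derivation ℂ (MvPolynomial (Va k) ℂ) (MvPolynomial (Va k) ℂ) :=
  MvPolynomial.mkDerivation ℂ (fun i => C (w i))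

theorem dd_X (w : Va k → ℂ) (i : Va k) : dd w (X i) = C (w i) := by
  unfold dd; exact MvPolynomial.mkDerivation_X ℂ _ i

theorem dd_mul (w : Va k → ℂ) (F G : MvPolynomial (Va k) ℂ) :
    dd w (F * G) = dd w F * G + F * dd w G := by
  rw [Derivation.leibniz]
  simp only [smul_eq_mul]
  ring

theorem eval_bs {r : MvPolynomial (Va k) ℂ} (hr : r ∈ Bs k) (v w : Va k → ℂ) :
    eval (pt v) r = eval (pt w) r := by
  refine Bs_ind (p := fun r => eval (pt v) r = eval (pt w) r) ?_ ?_ ?_ ?_ hr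
  · intro i hi
    rw [eval_X, eval_X]
    cases i with
    | c j => rfl
    | d => rfl
    | z => rfl
    | e => rfl
    | a n => exact absurd hi (by simp [bas])
    | al n => exact absurd hi (by simp [bas])
    | b n => exact absurd hi (by simp [bas])
    | be n => exact absurd hi (by simp [bas])
  · intro a; rw [eval_C, eval_C]
  · intro x y h1 h2; rw [map_add, map_add, h1, h2]
  · intro x y _ _ h1 h2; rw [map_mul, map_mul, h1, h2]

theorem key {F : MvPolynomial (Va k) ℂ} (hF : F ∈ Ms k) (v : Va k → ℂ) {w : Va k → ℂ}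
    (hw : FibV w) : eval (pt v) (dd w F) = eval (pt w) F := by
  unfold Ms at hF
  induction hF using Submodule.span_induction with
  | mem x hx =>
    rcases hx with ⟨s, hs, i, hi, rfl⟩ | ⟨H, rfl⟩
    · have h1 : dd w s = 0 := by
        have := MvPolynomial.derivation_eqOn_supported (D₁ := dd w) (D₂ := 0)
          (s := {i : Va k | bas i}) (by
            intro i hi'
            show dd w (X i) = 0
            rw [dd_X, hw i (by
              cases i with
              | c j => simp [fib]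
              | d => simp [fib]
              | z => simp [fib]
              | e => simp [fib]
              | a n => exact absurd hi' (by simp [bas])
              | al n => exact absurd hi' (by simp [bas])
              | b n => exact absurd hi' (by simp [bas])
              | be n => exact absurd hi' (by simp [bas]))]
            exact C_0) hs
        simpa using this
      rw [dd_mul, h1, zero_mul, zero_add, dd_X, map_mul, map_mul, eval_C, eval_X,
        eval_bs hs v w]
      congr 1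
      cases i with
      | c j => exact absurd hi (by simp [fib])
      | d => exact absurd hi (by simp [fib])
      | z => exact absurd hi (by simp [fib])
      | e => exact absurd hi (by simp [fib])
      | a n => rfl
      | al n => rfl
      | b n => rfl
      | be n => rfl
    · rw [dd_mul, dd_X, hw .d (by simp [fib]), map_add, map_mul, map_mul, map_mul, eval_C, eval_X,
        eval_X]
      simp [pt]
  | zero => simp
  | add x y _ _ h1 h2 => rw [map_add, map_add, map_add, h1, h2]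
  | smul a x _ h1 => rw [Derivation.map_smul, smul_eval, smul_eval, h1]

/-- Euler derivation -/
noncomputable def Eu (k : ℕ) : Derivation ℂ (MvPolynomial (Va k) ℂ) (MvPolynomial (Va k) ℂ) :=
  MvPolynomial.mkDerivation ℂ (fun i => C (wt i : ℂ) * X i)

theorem Eu_X (i : Va k) : Eu k (X i) = C (wt i : ℂ) * X i := by
  unfold Eu; exact MvPolynomial.mkDerivation_X ℂ _ i

theorem Eu_C (a : ℂ) : Eu k (C a) = 0 := MvPolynomial.derivation_C _ a

theorem Eu_mul (F G : MvPolynomial (Va k) ℂ) : Eu k (F * G) = Eu k F * G + F * Eu k G := by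
  rw [Derivation.leibniz]
  simp only [smul_eq_mul]
  ring

theorem Eu_KK : Eu k (KK k) = KK k := by
  rw [KK]
  simp only [map_sub, map_neg, Eu_mul, Eu_X, Eu_C]
  simp only [wt, Fin.val_zero]
  push_cast
  simp only [C_0, map_one, mul_zero, zero_add, C_1]
  ring

theorem Eu_LL : Eu k (LL k) = LL k := by
  rw [LL]
  simp only [map_sub, map_neg, Eu_mul, Eu_X, Eu_C]
  simp only [wt, Fin.val_zero]
  push_cast
  simp only [C_0, map_one, mul_zero, zero_add, C_1]
  ring

theorem Eu_mm : Eu k (mm k) = mm k := by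
  rw [mm]
  simp only [map_add, Eu_mul, Eu_X, Eu_C]
  simp only [wt]
  push_cast
  simp only [map_one]
  ring

theorem Eu_nx (x : Fin (k + 1) → MvPolynomial (Va k) ℂ) (y : MvPolynomial (Va k) ℂ)
    (hx : ∀ n : Fin (k + 1), Eu k (x n) = C (2 * (n.1 : ℂ) + 1) * x n)
    (hy : Eu k y = C (2 * (k : ℂ) + 3) * y) (n : Fin (k + 1)) :
    Eu k (nx x y n) = C (2 * (n.1 : ℂ) + 3) * nx x y n := by
  unfold nx
  split_ifs with h
  · rw [hx]; congr 2; push_cast; ring
  · rw [hy]; congr 2
    have : n.1 = k := by have := n.2; omega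
    rw [this]

theorem Eu_sum (x : Fin (k + 1) → Va k) (hx : ∀ n, wt (x n) = 2 * n.1 + 1) :
    Eu k (∑ j, X (.c j) * X (x j)) = C (2 * (k : ℂ) + 3) * ∑ j, X (.c j) * X (x j) := by
  rw [map_sum, Finset.mul_sum]
  apply Finset.sum_congr rfl
  intro j _
  rw [Eu_mul, Eu_X, Eu_X, hx]
  have h1 : (C (wt (.c j : Va k) : ℂ) : MvPolynomial (Va k) ℂ) + C ((2 * j.1 + 1 : ℕ) : ℂ) =
      C (2 * (k : ℂ) + 3) := by
    rw [← C_add]
    congr 1
    simp only [wt]
    have : 2 * (k + 1 - j.1) + (2 * j.1 + 1) = 2 * k + 3 := by have := j.2; omega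
    have h2 : ((2 * (k + 1 - j.1) + (2 * j.1 + 1) : ℕ) : ℂ) = ((2 * k + 3 : ℕ) : ℂ) := by rw [this]
    rw [← Nat.cast_add, h2]
    push_cast; ring
  linear_combination (X (.c j) * X (x j)) * h1

theorem Eu_vf (i : Va k) : Eu k (vf k i) = C ((wt i : ℂ) + 1) * vf k i := by
  cases i with
  | c j => simp [vf]
  | d => simp [vf]
  | z =>
    simp only [vf, map_sub, map_neg, Eu_mul, Eu_X]
    simp only [wt, Fin.val_zero]
    push_cast
    simp only [C_0, map_one, mul_zero, zero_add, C_add]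
    ring
  | e =>
    simp only [vf, map_sub, map_neg, Eu_mul, Eu_X]
    simp only [wt, Fin.val_zero]
    push_cast
    simp only [C_0, map_one, mul_zero, zero_add, C_add]
    ring
  | a n =>
    simp only [vf, map_sub, Eu_mul, Eu_X, Eu_KK]
    simp only [wt]
    push_cast
    simp only [map_one, map_add, map_mul, C_add, C_mul]
    have : (C 2 : MvPolynomial (Va k) ℂ) = C 1 + C 1 := by rw [← C_add]; norm_num
    rw [this, C_1]
    ring
  | b n =>
    simp only [vf, map_sub, Eu_mul, Eu_X, Eu_LL]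
    simp only [wt]
    push_cast
    simp only [map_one, map_add, map_mul, C_add, C_mul]
    have : (C 2 : MvPolynomial (Va k) ℂ) = C 1 + C 1 := by rw [← C_add]; norm_num
    rw [this, C_1]
    ring
  | al n =>
    simp only [vf, map_sub, map_add, map_neg, Eu_mul, Eu_X, Eu_KK, Eu_mm, Eu_C]
    rw [Eu_nx _ _ (fun n => by rw [Eu_X]; simp only [wt]; push_cast; rfl)
      (Eu_sum (fun j => .a j) fun n => rfl)]
    simp only [wt]
    push_cast
    simp only [map_one, map_add, map_mul, C_add, C_mul]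
    have : (C 2 : MvPolynomial (Va k) ℂ) = C 1 + C 1 := by rw [← C_add]; norm_num
    have h3 : (C 3 : MvPolynomial (Va k) ℂ) = C 1 + C 1 + C 1 := by
      rw [← C_add, ← C_add]; norm_num
    rw [this, h3, C_1]
    ring
  | be n =>
    simp only [vf, map_sub, map_add, map_neg, Eu_mul, Eu_X, Eu_LL, Eu_mm, Eu_C]
    rw [Eu_nx _ _ (fun n => by rw [Eu_X]; simp only [wt]; push_cast; rfl)
      (Eu_sum (fun j => .b j) fun n => rfl)]
    simp only [wt]
    push_cast
    simp only [map_one, map_add, map_mul, C_add, C_mul]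
    have : (C 2 : MvPolynomial (Va k) ℂ) = C 1 + C 1 := by rw [← C_add]; norm_num
    have h3 : (C 3 : MvPolynomial (Va k) ℂ) = C 1 + C 1 + C 1 := by
      rw [← C_add, ← C_add]; norm_num
    rw [this, h3, C_1]
    ring

theorem Eu_dv (F : MvPolynomial (Va k) ℂ) :
    Eu k (dv (vf k) F) = dv (vf k) (Eu k F) + dv (vf k) F := by
  have h : ⁅Eu k, dv (vf k)⁆ = dv (vf k) := by
    apply MvPolynomial.derivation_ext
    intro i
    rw [Derivation.commutator_apply, dv_X, Eu_vf, Eu_X, dv_mul, dv_C, dv_X, C_add, C_1]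
    ring
  have h2 := congrArg (fun D : Derivation ℂ (MvPolynomial (Va k) ℂ) (MvPolynomial (Va k) ℂ) => D F) h
  simp only [Derivation.commutator_apply] at h2
  linear_combination h2

theorem Eu_F (j : ℕ) : Eu k ((dv (vf k))^[j] (G0 k)) =
    C ((j : ℂ) + 1) * (dv (vf k))^[j] (G0 k) := by
  induction j with
  | zero =>
    simp only [Function.iterate_zero, id_eq, G0, map_add, Eu_X]
    simp only [wt, Fin.val_zero]
    push_cast
    simp
  | succ j ih =>
    rw [Function.iterate_succ_apply', Eu_dv, ih, dv_mul, dv_C]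
    push_cast
    simp only [C_add, map_one]
    ring

/-- the linear map -/
noncomputable def T (k : ℕ) : (Va k → ℂ) →ₗ[ℂ] (Va k → ℂ) where
  toFun v := fun i => match i with
    | .c _ => 0
    | .d => 0
    | .z => 0
    | .e => 0
    | .a n => v (.al n) + (2 * n.1 + 1 / 2) * v (.a n)
    | .al n => (2 * n.1 + 1) * v (.al n) - nx (fun n => v (.a n)) 0 n + v (.b n) / 2
    | .b n => v (.be n) + (2 * n.1 + 3 / 2) * v (.b n)
    | .be n => (2 * n.1 + 2) * v (.be n) - nx (fun n => v (.b n)) 0 n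
  map_add' v w := by
    funext i
    cases i with
    | al n =>
      simp only [Pi.add_apply, nx]
      split_ifs <;> ring
    | be n =>
      simp only [Pi.add_apply, nx]
      split_ifs <;> ring
    | _ => simp only [Pi.add_apply]; ring
  map_smul' r v := by
    funext i
    cases i with
    | al n =>
      simp only [Pi.smul_apply, nx, smul_eq_mul, RingHom.id_apply]
      split_ifs <;> ring
    | be n =>
      simp only [Pi.smul_apply, nx, smul_eq_mul, RingHom.id_apply]
      split_ifs <;> ring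
    | _ => simp only [Pi.smul_apply, smul_eq_mul, RingHom.id_apply]; ring

theorem T_eq (v : Va k → ℂ) (i : Va k) :
    T k v i = eval (pt v) (vf k i) + (wt i : ℂ) * pt v i := by
  cases i with
  | c j => rw [ev_c]; simp [T, pt]
  | d => rw [ev_d]; simp [T, pt]
  | z => rw [ev_z]; simp [T, pt]
  | e => rw [ev_e]; simp [T, pt, wt]
  | a n =>
    rw [ev_a, ev_KK]
    simp only [T, pt, wt, LinearMap.coe_mk, AddHom.coe_mk]
    push_cast
    ring
  | b n =>
    rw [ev_b, ev_LL]
    simp only [T, pt, wt, LinearMap.coe_mk, AddHom.coe_mk]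
    push_cast
    ring
  | al n =>
    rw [ev_al, ev_KK, ev_mm]
    simp only [T, pt, wt, LinearMap.coe_mk, AddHom.coe_mk, zero_mul, Finset.sum_const_zero]
    push_cast
    ring
  | be n =>
    rw [ev_be, ev_LL, ev_mm]
    simp only [T, pt, wt, LinearMap.coe_mk, AddHom.coe_mk, zero_mul, Finset.sum_const_zero]
    push_cast
    ring

theorem T_fib (v : Va k → ℂ) : FibV (T k v) := by
  intro i hi
  cases i with
  | c j => rfl
  | d => rfl
  | z => rfl
  | e => rfl
  | a n => exact absurd trivial hi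
  | al n => exact absurd trivial hi
  | b n => exact absurd trivial hi
  | be n => exact absurd trivial hi

theorem dd_T (v : Va k → ℂ) (F : MvPolynomial (Va k) ℂ) :
    eval (pt v) (dd (T k v) F) = eval (pt v) (dv (vf k) F) + eval (pt v) (Eu k F) := by
  induction F using MvPolynomial.induction_on with
  | C a =>
    rw [dv_C, Eu_C, dd, MvPolynomial.derivation_C]
    simp
  | add p q h1 h2 => rw [map_add, map_add, map_add, map_add, map_add, map_add, h1, h2]; ring
  | mul_X p i h1 =>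
    rw [dd_mul, dv_mul, Eu_mul, dd_X, dv_X, Eu_X]
    simp only [map_add, map_mul, eval_C, eval_X, h1, T_eq]
    ring

/-- the space of the points of `W` -/
noncomputable def NN (k : ℕ) : Submodule ℂ (Va k → ℂ) where
  carrier := {v | FibV v ∧ ∀ j, eval (pt 0) (dd v ((dv (vf k))^[j] (G0 k))) = 0}
  zero_mem' := by
    refine ⟨fun i _ => rfl, fun j => ?_⟩
    have h1 : dd (0 : Va k → ℂ) = 0 := by
      apply MvPolynomial.derivation_ext
      intro i; rw [dd_X]; simp
    rw [h1]
    simp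
  add_mem' := by
    rintro v w ⟨h1, h2⟩ ⟨h3, h4⟩
    refine ⟨fun i hi => by rw [Pi.add_apply, h1 i hi, h3 i hi, add_zero], fun j => ?_⟩
    have h5 : dd (v + w) = dd v + dd w := by
      apply MvPolynomial.derivation_ext
      intro i; rw [Derivation.add_apply, dd_X, dd_X, dd_X, Pi.add_apply, C_add]
    rw [h5, Derivation.add_apply, map_add, h2, h4, add_zero]
  smul_mem' := by
    rintro r v ⟨h1, h2⟩
    refine ⟨fun i hi => by rw [Pi.smul_apply, h1 i hi, smul_zero], fun j => ?_⟩
    have h5 : dd (r • v) = r • dd v := by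
      apply MvPolynomial.derivation_ext
      intro i
      rw [Derivation.smul_apply, dd_X, dd_X, Pi.smul_apply, smul_eq_mul, C_mul, smul_eq_C_mul]
    rw [h5, Derivation.smul_apply, smul_eval, h2, mul_zero]

theorem mem_NN {v : Va k → ℂ} (hv : FibV v) : v ∈ NN k ↔ pt v ∈ W k := by
  constructor
  · rintro ⟨-, h⟩ j
    have := h j
    rw [key (F_mem j) 0 hv] at this
    exact this
  · intro h
    refine ⟨hv, fun j => ?_⟩
    rw [key (F_mem j) 0 hv]
    exact h j

theorem T_mem {v : Va k → ℂ} (hv : v ∈ NN k) : T k v ∈ NN k := by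
  have hW : pt v ∈ W k := (mem_NN hv.1).mp hv
  rw [mem_NN (T_fib v)]
  intro j
  have h1 := key (F_mem (k := k) j) v (T_fib v)
  rw [dd_T, Eu_F] at h1
  show eval (pt (T k v)) ((dv (vf k))^[j] (G0 k)) = 0
  rw [← h1, map_mul]
  have h2 : eval (pt v) ((dv (vf k))^[j] (G0 k)) = 0 := hW j
  have h3 : eval (pt v) ((dv (vf k))^[j + 1] (G0 k)) = 0 := hW (j + 1)
  rw [Function.iterate_succ_apply'] at h3
  rw [h2, h3]
  simp

theorem NN_bot : NN k = ⊥ := by
  by_contra hne
  have : Nontrivial (NN k) := (Submodule.nontrivial_iff_ne_bot).mpr hne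
  let TN : Module.End ℂ (NN k) := (T k).restrict fun v hv => T_mem hv
  obtain ⟨μ, hμ⟩ := Module.End.exists_eigenvalue TN
  obtain ⟨v, hv⟩ := hμ.exists_hasEigenvector
  have hv0 : v ≠ 0 := hv.2
  have hTv : ∀ i, T k v.1 i = μ * v.1 i := by
    intro i
    have h1 := hv.apply_eq_smul
    have h2 := congrArg (fun u : NN k => u.1 i) h1
    exact h2
  have hW : pt v.1 ∈ W k := (mem_NN v.2.1).mp v.2
  have hab := W_ab hW
  set a : ℕ → ℂ := fun n => if h : n < k + 1 then v.1 (.a ⟨n, h⟩) else 0 with ha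
  set b : ℕ → ℂ := fun n => if h : n < k + 1 then v.1 (.b ⟨n, h⟩) else 0 with hb
  have ea : ∀ n (h : n < k + 1), a n = v.1 (.a ⟨n, h⟩) := fun n h => by rw [ha]; exact dif_pos h
  have eb : ∀ n (h : n < k + 1), b n = v.1 (.b ⟨n, h⟩) := fun n h => by rw [hb]; exact dif_pos h
  have nxa : ∀ n (h : n < k + 1), nx (fun n => v.1 (.a n)) 0 ⟨n, h⟩ = a (n + 1) := fun n h => rfl
  have nxb : ∀ n (h : n < k + 1), nx (fun n => v.1 (.b n)) 0 ⟨n, h⟩ = b (n + 1) := fun n h => rfl
  have r1 : ∀ n (h : n < k + 1), v.1 (.al ⟨n, h⟩) = (μ - 2 * n - 1 / 2) * a n := by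
    intro n h
    have h1 : v.1 (.al ⟨n, h⟩) + (2 * (n : ℂ) + 1 / 2) * v.1 (.a ⟨n, h⟩) = μ * v.1 (.a ⟨n, h⟩) :=
      hTv (.a ⟨n, h⟩)
    rw [ea n h]; linear_combination h1
  have r2 : ∀ n (h : n < k + 1), v.1 (.be ⟨n, h⟩) = (μ - 2 * n - 3 / 2) * b n := by
    intro n h
    have h1 : v.1 (.be ⟨n, h⟩) + (2 * (n : ℂ) + 3 / 2) * v.1 (.b ⟨n, h⟩) = μ * v.1 (.b ⟨n, h⟩) :=
      hTv (.b ⟨n, h⟩)
    rw [eb n h]; linear_combination h1
  have r3 : ∀ n ≤ k, a (n + 1) = b n / 2 - (μ - 2 * n - 1) * (μ - 2 * n - 1 / 2) * a n := by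
    intro n hn
    have h : n < k + 1 := by omega
    have h1 : (2 * (n : ℂ) + 1) * v.1 (.al ⟨n, h⟩) - nx (fun n => v.1 (.a n)) 0 ⟨n, h⟩ +
      v.1 (.b ⟨n, h⟩) / 2 = μ * v.1 (.al ⟨n, h⟩) := hTv (.al ⟨n, h⟩)
    rw [nxa n h, ← eb n h, r1 n h] at h1
    linear_combination -h1
  have r4 : ∀ n ≤ k, b (n + 1) = -((μ - 2 * n - 2) * (μ - 2 * n - 3 / 2)) * b n := by
    intro n hn
    have h : n < k + 1 := by omega
    have h1 : (2 * (n : ℂ) + 2) * v.1 (.be ⟨n, h⟩) - nx (fun n => v.1 (.b n)) 0 ⟨n, h⟩ =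
      μ * v.1 (.be ⟨n, h⟩) := hTv (.be ⟨n, h⟩)
    rw [nxb n h, r2 n h] at h1
    linear_combination -h1
  have h0 : a 0 = -b 0 := by
    rw [ea 0 (by omega), eb 0 (by omega)]
    have : v.1 (.b 0) = -v.1 (.a 0) := hab
    have h2 : (⟨0, by omega⟩ : Fin (k + 1)) = 0 := rfl
    rw [h2, this, neg_neg]
  have b0 := recB μ k a b h0 r3 r4 (by rw [ha]; exact dif_neg (by omega))
    (by rw [hb]; exact dif_neg (by omega))
  have a0 : a 0 = 0 := by rw [h0, b0, neg_zero]
  have allb : ∀ n ≤ k, b n = 0 := by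
    intro n
    induction n with
    | zero => intro _; exact b0
    | succ n ih => intro hn; rw [r4 n (by omega), ih (by omega), mul_zero]
  have alla : ∀ n ≤ k, a n = 0 := by
    intro n
    induction n with
    | zero => intro _; exact a0
    | succ n ih =>
      intro hn
      rw [r3 n (by omega), ih (by omega), allb n (by omega), mul_zero, zero_div, sub_zero]
  apply hv0
  apply Subtype.ext
  funext i
  show v.1 i = 0
  cases i with
  | c j => exact v.2.1 _ (by simp [fib])
  | d => exact v.2.1 _ (by simp [fib])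
  | z => exact v.2.1 _ (by simp [fib])
  | e => exact v.2.1 _ (by simp [fib])
  | a n => rw [← ea n.1 n.2]; exact alla n.1 (by have := n.2; omega)
  | b n => rw [← eb n.1 n.2]; exact allb n.1 (by have := n.2; omega)
  | al n =>
    have := r1 n.1 n.2
    rw [alla n.1 (by have := n.2; omega), mul_zero] at this
    exact this
  | be n =>
    have := r2 n.1 n.2
    rw [allb n.1 (by have := n.2; omega), mul_zero] at this
    exact this

end LZ

open LZ

theorem lin_z {k : ℕ} {p : Va k → ℂ} (hp : p ∈ W k) (hl : Lin p) (hz : p .z = 0) (he : p .e ≠ 0) :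
    Z0 p := by
  set l : ℂ := (p .e)⁻¹ with hl'
  have hl0 : l ≠ 0 := inv_ne_zero he
  have h1 := W_sc hp l
  set v : Va k → ℂ := fun i => match i with
    | .c _ => 0
    | .d => 0
    | .z => 0
    | .e => 0
    | .a n => sc l p (.a n)
    | .al n => sc l p (.al n)
    | .b n => sc l p (.b n)
    | .be n => sc l p (.be n) with hv
  have h2 : pt v = sc l p := by
    funext i
    cases i with
    | c j => simp only [pt, sc, hl.2 j, mul_zero]
    | d => simp only [pt, sc, hl.1, mul_zero]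
    | z => simp only [pt, sc, hz, mul_zero]
    | e => simp only [pt, sc, wt, pow_one]; rw [hl']; exact (inv_mul_cancel₀ he).symm
    | a n => rfl
    | al n => rfl
    | b n => rfl
    | be n => rfl
  have hf : FibV v := by
    intro i hi
    cases i with
    | c j => rfl
    | d => rfl
    | z => rfl
    | e => rfl
    | a n => exact absurd trivial hi
    | al n => exact absurd trivial hi
    | b n => exact absurd trivial hi
    | be n => exact absurd trivial hi
  have h3 : v ∈ NN k := by rw [mem_NN hf, h2]; exact h1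
  rw [NN_bot] at h3
  have h4 : v = 0 := (Submodule.mem_bot ℂ).mp h3
  have h5 : ∀ i, v i = 0 := fun i => by rw [h4]; rfl
  have h6 : ∀ i, l ^ wt i * p i = 0 → p i = 0 := by
    intro i hi
    rcases mul_eq_zero.mp hi with h | h
    · exact absurd h (pow_ne_zero _ hl0)
    · exact h
  intro n
  exact ⟨h6 _ (h5 (.a n)), h6 _ (h5 (.al n)), h6 _ (h5 (.b n)), h6 _ (h5 (.be n))⟩

theorem lin_e {k : ℕ} {p : Va k → ℂ} (hp : p ∈ W k) (hl : Lin p) (he : p .e = 0) (hz : p .z ≠ 0) :
    Z0 p := by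
  have h1 := lin_z (W_sw hp) ⟨hl.1, hl.2⟩ (by exact he) (by exact hz)
  intro n
  obtain ⟨q1, q2, q3, q4⟩ := h1 n
  exact ⟨q3, q4, q1, q2⟩

end Pool.Agent.Helper44.FT
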