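import Mathlib

/-!
# Block FT-RA: first recursion

Claim: if `a`, `b` satisfy the recursion and `a (k+1) = b (k+1) = 0` then `γ = 1`.
Proof. Let `γ ≠ 1`, so `b 0 ≠ 0`; as `b (k+1) = 0`, there is a least `N ≤ k` with `((2N+3)γ - 1)(1/2 - (2N+2)γ) = 0`; `b n ≠ 0` for `n ≤ N`, `b n = 0` for `N < n ≤ k+1`.
So `γ` is real and all `a n`, `b n` are real (`a n = (a' n : ℂ)`), `a 0 > 0 > b 0`. Put `A n = (2n+1)γ(2nγ + 1/2) > 0`; `a (n+1) = - A n * a n + b n / 2`.
Case 1, `γ = 1/(4N+4)`: for `n < N` the factor of `b` is `< 0` (`(2n+3)γ - 1 < 0`, `1/2 - (2n+2)γ = (N-n)/(2N+2) > 0`), so for `n ≤ N` the sign of `b n` is `(-1)^(n+1)`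
and the sign of `a n` is `(-1)^n` also for `n = N + 1`; for `n > N` `a (n+1) = - A n * a n ≠ 0`. So `a (k+1) ≠ 0`.
Case 2, `γ = 1/(2N+3)`: `(2n+3)γ - 1 = -2(N-n)/(2N+3)`, `1/2 - (2n+2)γ = (2N-4n-1)/(2(2N+3))`. Let `n1 ≤ N` be the least `n` with `4n+1 > 2N`
(so `4 n1 + 1 - 2N` is `1` or `3`; for `N ≥ 2` `n1 < N`). For `n ≤ n1` signs as in case 1, so `|a (n1+1)| = A |a n1| + |b n1|/2 ≥ |b n1|/2 > 0`. If `n1 < N`:
`|b (n1+1)| = B |b n1|`, `B n = (N-n)|2N-4n-1|/(2N+3)^2`, `B n1 ≤ 3N/(2N+3)^2 ≤ 1/4`, so `|a n| ≥ 2 |b n|` for `n = n1 + 1`. For `n1 < n < N`: `|a (n+1)| ≥ A n |a n| - |b n|/2`,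
`|b (n+1)| = B n |b n|`, and `A n - B n = (16n² - 8nN + 12n + 4N² + 3)/(2(2N+3)²) > 1/4` because with `4n = 2N + x`, `x ≥ 4`, twice the numerator minus `(2N+3)²` is
`4N² + 4Nx + 2x² + 6x - 3 > 0`; so `|a n| ≥ 2 |b n|` for all `n1 < n ≤ N`, and (same estimate for `n = N`, `B N = 0`) `a (N+1) ≠ 0`. If `n1 = N` then `a (N+1) = a (n1+1) ≠ 0` directly.
For `n > N`: `a (n+1) = - A n * a n ≠ 0`.
-/

namespace Pool.Agent.Helper44.FT

/-- The recursion for the absolute values, both cases. -/
theorem recA_pos40 {N k : ℕ} (hN : N ≤ k) (g : ℝ)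
    (hg : g = 1 / (2 * N + 3) ∨ g = 1 / (4 * N + 4)) (u w : ℕ → ℝ) (h0 : u 0 = 1 - g)
    (h1 : w 0 = 1 - g)
    (hu : ∀ n ≤ k, u (n + 1) = ((2 * n + 1) * g * (2 * n * g + 1 / 2)) * u n + w n / 2)
    (hw : ∀ n ≤ k, w (n + 1) = (1 - (2 * n + 3) * g) * (1 / 2 - (2 * n + 2) * g) * w n) :
    0 < u (k + 1) := by
  have hNR : (0 : ℝ) ≤ N := Nat.cast_nonneg N
  have hg0 : 0 < g := by
    rcases hg with h | h <;> rw [h] <;> positivity
  have hg1 : g < 1 := by
    rcases hg with h | h
    · rw [h, div_lt_one (by positivity)]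
      linarith
    · rw [h, div_lt_one (by positivity)]
      linarith
  have hA : ∀ n : ℕ, 0 < (2 * (n : ℝ) + 1) * g * (2 * n * g + 1 / 2) := by
    intro n
    positivity
  rcases hg with hg | hg
  · -- case 2
    have hD : (0 : ℝ) < 2 * N + 3 := by positivity
    have hG : ∀ n : ℕ, (1 - (2 * (n : ℝ) + 3) * g) * (1 / 2 - (2 * n + 2) * g) =
        ((N : ℝ) - n) * (2 * N - 4 * n - 1) / (2 * N + 3) ^ 2 := by
      intro n
      rw [hg]
      field_simp
      ring
    have hAe : ∀ n : ℕ, (2 * (n : ℝ) + 1) * g * (2 * n * g + 1 / 2) =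
        (2 * n + 1) * (4 * n + 2 * N + 3) / (2 * (2 * N + 3) ^ 2) := by
      intro n
      rw [hg]
      field_simp
      ring
    have key : ∀ n : ℕ, n ≤ k + 1 → 0 < u n ∧ (n ≤ (N + 1) / 2 → 0 < w n) ∧
        ((N + 1) / 2 < n → 2 * |w n| ≤ u n) ∧ (N < n → w n = 0) := by
      intro n
      induction n with
      | zero =>
        intro _
        refine ⟨by rw [h0]; linarith, fun _ => by rw [h1]; linarith, fun h => ?_, fun h => ?_⟩
        · omega
        · omega
      | succ n ih =>
        intro hn
        obtain ⟨i1, i2, i3, i4⟩ := ih (by omega)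
        have hn' : n ≤ k := by omega
        have eu := hu n hn'
        have ew := hw n hn'
        have hAn := hA n
        rw [hG n] at ew
        rcases lt_trichotomy n ((N + 1) / 2) with h | h | h
        · -- n < n1
          have hc : (4 : ℝ) * n + 2 ≤ 2 * N := by
            have : 4 * n + 2 ≤ 2 * N := by omega
            exact_mod_cast this
          have hn0 : (0 : ℝ) ≤ n := Nat.cast_nonneg n
          have hwn := i2 h.le
          have hGn : 0 < ((N : ℝ) - n) * (2 * N - 4 * n - 1) / (2 * N + 3) ^ 2 := by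
            apply div_pos _ (by positivity)
            apply mul_pos <;> linarith
          have hu1 : 0 < u (n + 1) := by
            rw [eu]
            have := mul_pos hAn i1
            linarith
          refine ⟨hu1, fun _ => ?_, fun h' => ?_, fun h' => ?_⟩
          · rw [ew]
            exact mul_pos hGn hwn
          · omega
          · omega
        · -- n = n1
          have hwn := i2 h.le
          have hu2 : w n / 2 ≤ u (n + 1) := by
            rw [eu]
            have := mul_pos hAn i1
            linarith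
          have hu1 : 0 < u (n + 1) := by linarith
          have hn0 : (0 : ℝ) ≤ n := Nat.cast_nonneg n
          have hnN : (n : ℝ) ≤ N := by
            have : n ≤ N := by omega
            exact_mod_cast this
          have hc1 : (2 : ℝ) * N + 1 ≤ 4 * n + 1 := by
            have : 2 * N + 1 ≤ 4 * n + 1 := by omega
            exact_mod_cast this
          have hc2 : (4 : ℝ) * n + 1 ≤ 2 * N + 3 := by
            have : 4 * n + 1 ≤ 2 * N + 3 := by omega
            exact_mod_cast this
          have hGa : |((N : ℝ) - n) * (2 * N - 4 * n - 1) / (2 * N + 3) ^ 2| ≤ 1 / 4 := by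
            rw [abs_div, abs_mul, abs_of_nonneg (by linarith : (0 : ℝ) ≤ N - n),
              abs_of_nonpos (by linarith : (2 : ℝ) * N - 4 * n - 1 ≤ 0),
              abs_of_pos (by positivity : (0 : ℝ) < (2 * N + 3) ^ 2), div_le_iff₀ (by positivity)]
            nlinarith
          refine ⟨hu1, fun h' => ?_, fun _ => ?_, fun h' => ?_⟩
          · omega
          · rw [ew, abs_mul, abs_of_pos hwn]
            have := mul_le_mul_of_nonneg_right hGa hwn.le
            linarith
          · have : n = N := by omega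
            rw [ew, this, sub_self, zero_mul, zero_div, zero_mul]
        · -- n1 < n
          have hwn := i3 h
          have hn0 : (0 : ℝ) ≤ n := Nat.cast_nonneg n
          by_cases hnN : n ≤ N
          · have hnN' : (n : ℝ) ≤ N := by exact_mod_cast hnN
            have hc1 : (2 : ℝ) * N + 3 ≤ 4 * n := by
              have : 2 * N + 3 ≤ 4 * n := by omega
              exact_mod_cast this
            have hAB : |((N : ℝ) - n) * (2 * N - 4 * n - 1) / (2 * N + 3) ^ 2| + 1 / 4 <
                (2 * (n : ℝ) + 1) * g * (2 * n * g + 1 / 2) := by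
              rw [hAe, abs_div, abs_mul, abs_of_nonneg (by linarith : (0 : ℝ) ≤ N - n),
                abs_of_nonpos (by linarith : (2 : ℝ) * N - 4 * n - 1 ≤ 0),
                abs_of_pos (by positivity : (0 : ℝ) < (2 * N + 3) ^ 2), div_add' _ _ _ (by positivity),
                div_lt_div_iff₀ (by positivity) (by positivity)]
              have hx : 2 * (((N : ℝ) - n) * -(2 * N - 4 * n - 1) +
                  1 / 4 * (2 * N + 3) ^ 2) < (2 * n + 1) * (4 * n + 2 * N + 3) := by
                nlinarith
              have hD2 : (0 : ℝ) < (2 * N + 3) ^ 2 := by positivity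
              have := mul_lt_mul_of_pos_right hx hD2
              linarith
            have habs := neg_abs_le (w n)
            have hu2 : (|((N : ℝ) - n) * (2 * N - 4 * n - 1) / (2 * N + 3) ^ 2|) * u n ≤
                u (n + 1) := by
              rw [eu]
              have h5 := mul_le_mul_of_nonneg_right hAB.le i1.le
              have h6 : (|((N : ℝ) - n) * (2 * N - 4 * n - 1) / (2 * N + 3) ^ 2| + 1 / 4) * u n =
                  |((N : ℝ) - n) * (2 * N - 4 * n - 1) / (2 * N + 3) ^ 2| * u n + u n / 4 := by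
                ring
              rw [h6] at h5
              linarith
            have hu1 : 0 < u (n + 1) := by
              rw [eu]
              have h5 := mul_lt_mul_of_pos_right hAB i1
              have h6 : (|((N : ℝ) - n) * (2 * N - 4 * n - 1) / (2 * N + 3) ^ 2| + 1 / 4) * u n =
                  |((N : ℝ) - n) * (2 * N - 4 * n - 1) / (2 * N + 3) ^ 2| * u n + u n / 4 := by
                ring
              rw [h6] at h5
              have h7 : 0 ≤ |((N : ℝ) - n) * (2 * N - 4 * n - 1) / (2 * N + 3) ^ 2| * u n :=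
                mul_nonneg (abs_nonneg _) i1.le
              linarith
            refine ⟨hu1, fun h' => ?_, fun _ => ?_, fun h' => ?_⟩
            · omega
            · rw [ew, abs_mul]
              have := mul_le_mul_of_nonneg_left hwn
                (abs_nonneg (((N : ℝ) - n) * (2 * N - 4 * n - 1) / (2 * N + 3) ^ 2))
              linarith
            · have : n = N := by omega
              rw [ew, this, sub_self, zero_mul, zero_div, zero_mul]
          · have hw0 := i4 (by omega)
            have hu1 : 0 < u (n + 1) := by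
              rw [eu, hw0]
              have := mul_pos hAn i1
              linarith
            have hw1 : w (n + 1) = 0 := by rw [ew, hw0, mul_zero]
            refine ⟨hu1, fun h' => ?_, fun _ => ?_, fun _ => hw1⟩
            · omega
            · rw [hw1, abs_zero, mul_zero]
              exact hu1.le
    exact (key (k + 1) le_rfl).1
  · -- case 1
    have hG : ∀ n : ℕ, (1 - (2 * (n : ℝ) + 3) * g) * (1 / 2 - (2 * n + 2) * g) =
        (4 * N + 1 - 2 * n) * ((N : ℝ) - n) / (2 * (N + 1) * (4 * (N + 1))) := by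
      intro n
      rw [hg]
      field_simp
      ring
    have key : ∀ n : ℕ, n ≤ k + 1 → 0 < u n ∧ 0 ≤ w n ∧ (N < n → w n = 0) := by
      intro n
      induction n with
      | zero =>
        intro _
        refine ⟨by rw [h0]; linarith, by rw [h1]; linarith, fun h => ?_⟩
        omega
      | succ n ih =>
        intro hn
        obtain ⟨i1, i2, i4⟩ := ih (by omega)
        have hn' : n ≤ k := by omega
        have eu := hu n hn'
        have ew := hw n hn'
        have hAn := hA n
        rw [hG n] at ew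
        have hu1 : 0 < u (n + 1) := by
          rw [eu]
          have := mul_pos hAn i1
          linarith
        refine ⟨hu1, ?_, fun h' => ?_⟩
        · by_cases hnN : n ≤ N
          · have hnN' : (n : ℝ) ≤ N := by exact_mod_cast hnN
            rw [ew]
            refine mul_nonneg (div_nonneg (mul_nonneg ?_ ?_) (by positivity)) i2 <;> linarith
          · rw [ew, i4 (by omega), mul_zero]
        · by_cases hnN : n = N
          · rw [ew, hnN, sub_self, mul_zero, zero_div, zero_mul]
          · rw [ew, i4 (by omega), mul_zero]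
    exact (key (k + 1) le_rfl).1

theorem recA (γ : ℂ) (k : ℕ) (a b : ℕ → ℂ) (h0 : a 0 = 1 - γ) (h1 : b 0 = -(1 - γ))
    (ha : ∀ n ≤ k, a (n + 1) = -((2 * n + 1) * γ * (2 * n * γ + 1 / 2)) * a n + b n / 2)
    (hb : ∀ n ≤ k, b (n + 1) = ((2 * n + 3) * γ - 1) * (1 / 2 - (2 * n + 2) * γ) * b n)
    (ea : a (k + 1) = 0) (eb : b (k + 1) = 0) : γ = 1 := by
  by_contra hγ
  have hγ1 : 1 - γ ≠ 0 := sub_ne_zero.2 (Ne.symm hγ)
  -- a factor vanishes
  have hN : ∃ N ≤ k, ((2 * (N : ℂ) + 3) * γ - 1) * (1 / 2 - (2 * N + 2) * γ) = 0 := by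
    by_contra hcon
    push Not at hcon
    have : ∀ n : ℕ, n ≤ k + 1 → b n ≠ 0 := by
      intro n
      induction n with
      | zero =>
        intro _
        rw [h1]
        exact neg_ne_zero.2 hγ1
      | succ n ih =>
        intro hn
        rw [hb n (by omega)]
        exact mul_ne_zero (hcon n (by omega)) (ih (by omega))
    exact this (k + 1) le_rfl eb
  obtain ⟨N, hNk, hN⟩ := hN
  have hreal : ∃ g : ℝ, γ = (g : ℂ) ∧ (g = 1 / (2 * N + 3) ∨ g = 1 / (4 * N + 4)) := by
    rcases mul_eq_zero.1 hN with h | h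
    · refine ⟨1 / (2 * N + 3), ?_, Or.inl rfl⟩
      have hD : (2 * (N : ℂ) + 3) ≠ 0 := by
        have : ((2 * N + 3 : ℕ) : ℂ) ≠ 0 := Nat.cast_ne_zero.2 (by omega)
        push_cast at this
        exact this
      push_cast
      rw [eq_div_iff hD]
      linear_combination h
    · refine ⟨1 / (4 * N + 4), ?_, Or.inr rfl⟩
      have hD : (4 * (N : ℂ) + 4) ≠ 0 := by
        have : ((4 * N + 4 : ℕ) : ℂ) ≠ 0 := Nat.cast_ne_zero.2 (by omega)
        push_cast at this
        exact this
      push_cast
      rw [eq_div_iff hD]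
      linear_combination (-2) * h
  obtain ⟨g, rfl, hg⟩ := hreal
  have hua : ∀ n ≤ k, (a (n + 1)).re =
      -((2 * n + 1) * g * (2 * n * g + 1 / 2)) * (a n).re + (b n).re / 2 := by
    intro n hn
    rw [ha n hn]
    have h2 : -((2 * (n : ℂ) + 1) * g * (2 * n * g + 1 / 2)) * a n + b n / 2 =
        ((-((2 * (n : ℝ) + 1) * g * (2 * n * g + 1 / 2)) : ℝ) : ℂ) * a n +
          (((1 / 2 : ℝ) : ℝ) : ℂ) * b n := by
      push_cast
      ring
    rw [h2, Complex.add_re, Complex.re_ofReal_mul, Complex.re_ofReal_mul]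
    ring
  have hub : ∀ n ≤ k, (b (n + 1)).re =
      ((2 * n + 3) * g - 1) * (1 / 2 - (2 * n + 2) * g) * (b n).re := by
    intro n hn
    rw [hb n hn]
    have h2 : ((2 * (n : ℂ) + 3) * g - 1) * (1 / 2 - (2 * n + 2) * g) * b n =
        ((((2 * (n : ℝ) + 3) * g - 1) * (1 / 2 - (2 * n + 2) * g) : ℝ) : ℂ) * b n := by
      push_cast
      ring
    rw [h2, Complex.re_ofReal_mul]
  have h3 := recA_pos40 hNk g hg (fun n => (-1) ^ n * (a n).re) (fun n => -((-1) ^ n * (b n).re))
    (by simp [h0]) (by simp [h1]) (by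
      intro n hn
      rw [hua n hn, pow_succ]
      ring) (by
      intro n hn
      rw [hub n hn, pow_succ]
      ring)
  simp only [ea, Complex.zero_re, mul_zero, lt_self_iff_false] at h3

end Pool.Agent.Helper44.FT
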