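import Pool.Agent.Helper44.FT.BdA
import Pool.Agent.Helper44.FT.NLiou
import Pool.Agent.Helper44.FT.RecA

/-!
# Block FT-B1: points of `W` with `d = 1`, `c = 0` and `z = 0` (or `e = 0`)

Proof of `null_z`. If `p e = 0` this is `planar`. Otherwise apply `sc (p e)⁻¹` (`W_sc`; `Z0` is invariant under it), so let `p e = 1`. Let
`S = {p ∈ W | Nul p, p z = 0, p e = 1}`. It is bounded by `bdA` with `L = 1` and mapped into itself by `nf t` for small `t` (`fl_W`, `fl_c`, `fl_d`, `fl_z0`, `W_sc`, `fl t p e ≠ 0`).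
`norm_liou` gives, with `γ = 1 + b_0` (`vf e = -γ`), `a_0 = - b_0 = 1 - γ` (`W_ab`), `K = - a_0 + 1/2 = γ - 1/2`, `L = 1/2 - γ`, `m = 1/2` (`ev_a`, `ev_al`, ...):
`al_n = (K - (2n+1)γ) a_n`, `a_(n+1) = (-(K+m) + (2n+2)γ) al_n + b_n / 2 = (2n+1)γ (γ - 1/2 - (2n+1)γ) a_n + b_n/2 = -(2n+1)γ(2nγ + 1/2) a_n + b_n/2`,
`be_n = (L - (2n+1)γ) b_n = (1/2 - (2n+2)γ) b_n`, `b_(n+1) = (-(L+m) + (2n+2)γ) be_n = ((2n+3)γ - 1) be_n`, where `a_(k+1) = b_(k+1) = 0` as `c = 0` (`nx`).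
`recA` gives `γ = 1`, so `a_0 = b_0 = 0` and by the recursion all `a_n, al_n, b_n, be_n` vanish. `null_e` follows by `W_sw`.
-/

namespace Pool.Agent.Helper44.FT

/-- The set of normalised points. -/
def SNZ (k : ℕ) : Set (Va k → ℂ) := {p | p ∈ W k ∧ Nul p ∧ p .z = 0 ∧ p .e = 1}

theorem wt_leNZ {k : ℕ} (i : Va k) : wt i ≤ 2 * k + 2 := by
  cases i with
  | c j => simp only [wt]; omega
  | d => simp only [wt]; omega
  | z => simp only [wt]; omega
  | e => simp only [wt]; omega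
  | a n => have := n.2; simp only [wt]; omega
  | al n => have := n.2; simp only [wt]; omega
  | b n => have := n.2; simp only [wt]; omega
  | be n => have := n.2; simp only [wt]; omega

theorem SNZ_bdd (k : ℕ) : ∃ M : ℝ, ∀ p ∈ SNZ k, ‖p‖ ≤ M := by
  obtain ⟨C, hC, h⟩ := bdA k
  refine ⟨C ^ (2 * k + 2), ?_⟩
  rintro p ⟨hW, ⟨hd, hc⟩, hz, he⟩
  rw [pi_norm_le_iff_of_nonneg (by positivity)]
  intro i
  have h1 := h p hW hd 1 one_pos (fun j => by rw [hc j]; simp) (by rw [hz]; simp)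
    (by rw [he]; simp) i
  rw [mul_one] at h1
  exact h1.trans (pow_le_pow_right₀ hC (wt_leNZ i))

theorem SNZ_inv (k : ℕ) : ∃ r : ℝ, 0 < r ∧ ∀ p ∈ SNZ k, ∀ t : ℂ, ‖t‖ < r → nf t p ∈ SNZ k := by
  obtain ⟨M, hM⟩ := SNZ_bdd k
  obtain ⟨r0, C0, -, hF⟩ := exists_flowOn (vf k) M
  obtain ⟨r1, hr1, h1⟩ := fl_e_ne k M
  refine ⟨min r0 r1, lt_min hF.pos hr1, ?_⟩
  intro p hp t ht
  have hR := hM p hp
  have ht0 : ‖t‖ < r0 := lt_of_lt_of_le ht (min_le_left _ _)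
  have ht1 : ‖t‖ < r1 := lt_of_lt_of_le ht (min_le_right _ _)
  obtain ⟨hW, ⟨hd, hc⟩, hz, he⟩ := hp
  have hne : fl (vf k) t p .e ≠ 0 := h1 p hR t ht1 (by rw [he]; exact one_ne_zero)
  refine ⟨W_sc (fl_W hF hW hR ht0) _, ⟨?_, ?_⟩, ?_, ?_⟩
  · simp only [nf, sc, wt, pow_zero, one_mul]
    rw [fl_d hF hR ht0, hd]
  · intro j
    simp only [nf, sc]
    rw [fl_c hF hR ht0, hc j, mul_zero]
  · simp only [nf, sc]
    rw [fl_z0 hF hR ht0 hz, mul_zero]
  · simp only [nf, sc, wt, pow_one]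
    exact inv_mul_cancel₀ hne

/-- Extension of a finite sequence by zero. -/
noncomputable def exNZ {k : ℕ} (x : Fin (k + 1) → ℂ) (n : ℕ) : ℂ := if h : n < k + 1 then x ⟨n, h⟩ else 0

theorem exNZ_fin {k : ℕ} (x : Fin (k + 1) → ℂ) (n : Fin (k + 1)) : exNZ x n = x n := by
  unfold exNZ
  rw [dif_pos n.2]

theorem exNZ_nx {k : ℕ} (x : Fin (k + 1) → ℂ) (n : Fin (k + 1)) : nx x 0 n = exNZ x (n.1 + 1) := rfl

theorem null_z_aux {k : ℕ} {q : Va k → ℂ} (hq : q ∈ SNZ k) : Z0 q := by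
  obtain ⟨M, hM⟩ := SNZ_bdd k
  have H := norm_liou (SNZ k) M hM (fun p hp => hp.2.2.2) (SNZ_inv k) q hq
  obtain ⟨hW, ⟨hd, hc⟩, hz, he⟩ := hq
  have hab := W_ab hW
  obtain ⟨γ, hγ⟩ : ∃ γ : ℂ, γ = 1 - q (.a 0) := ⟨_, rfl⟩
  have ha0 : q (.a 0) = 1 - γ := by rw [hγ]; ring
  have hb0 : q (.b 0) = -(1 - γ) := by rw [hab, ha0]
  have hE : MvPolynomial.eval q (vf k .e) = -γ := by
    rw [ev_e, he, hd, hb0]; ring
  have hK : MvPolynomial.eval q (KK k) = γ - 1 / 2 := by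
    rw [ev_KK, hd, ha0, hz, he]; ring
  have hL : MvPolynomial.eval q (LL k) = 1 / 2 - γ := by
    rw [ev_LL, hd, hb0, hz, he]; ring
  have hm : MvPolynomial.eval q (mm k) = 1 / 2 := by
    rw [ev_mm, hz, he]; ring
  have hal : ∀ n : Fin (k + 1), q (.al n) = (γ - 1 / 2 - (2 * (n.1 : ℂ) + 1) * γ) * q (.a n) := by
    intro n
    have h := H (.a n)
    rw [ev_a, hE, hK] at h
    simp only [wt] at h
    push_cast at h
    linear_combination h
  have hbe : ∀ n : Fin (k + 1), q (.be n) = (1 / 2 - (2 * (n.1 : ℂ) + 2) * γ) * q (.b n) := by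
    intro n
    have h := H (.b n)
    rw [ev_b, hE, hL] at h
    simp only [wt] at h
    push_cast at h
    linear_combination h
  have hsa : ∑ j, q (.c j) * q (.a j) = 0 := by
    apply Finset.sum_eq_zero
    intro j _
    rw [hc j, zero_mul]
  have hsb : ∑ j, q (.c j) * q (.b j) = 0 := by
    apply Finset.sum_eq_zero
    intro j _
    rw [hc j, zero_mul]
  have hA : ∀ n : Fin (k + 1), exNZ (fun n => q (.a n)) (n.1 + 1) =
      -((2 * (n.1 : ℂ) + 1) * γ * (2 * (n.1 : ℂ) * γ + 1 / 2)) * q (.a n) + q (.b n) / 2 := by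
    intro n
    have h := H (.al n)
    rw [ev_al, hE, hK, hm, hsa, exNZ_nx, hz, he, hal n] at h
    simp only [wt] at h
    push_cast at h
    linear_combination -h
  have hB : ∀ n : Fin (k + 1), exNZ (fun n => q (.b n)) (n.1 + 1) =
      ((2 * (n.1 : ℂ) + 3) * γ - 1) * (1 / 2 - (2 * (n.1 : ℂ) + 2) * γ) * q (.b n) := by
    intro n
    have h := H (.be n)
    rw [ev_be, hE, hL, hm, hsb, exNZ_nx, hz, he, hbe n] at h
    simp only [wt] at h
    push_cast at h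
    linear_combination -h
  have ha' : ∀ n ≤ k, exNZ (fun n => q (.a n)) (n + 1) =
      -((2 * (n : ℂ) + 1) * γ * (2 * (n : ℂ) * γ + 1 / 2)) * exNZ (fun n => q (.a n)) n +
        exNZ (fun n => q (.b n)) n / 2 := by
    intro n hn
    have h := hA ⟨n, by omega⟩
    have e1 := exNZ_fin (fun n => q (.a n)) ⟨n, by omega⟩
    have e2 := exNZ_fin (fun n => q (.b n)) ⟨n, by omega⟩
    simp only at e1 e2 h
    rw [e1, e2]
    exact h
  have hb' : ∀ n ≤ k, exNZ (fun n => q (.b n)) (n + 1) =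
      ((2 * (n : ℂ) + 3) * γ - 1) * (1 / 2 - (2 * (n : ℂ) + 2) * γ) *
        exNZ (fun n => q (.b n)) n := by
    intro n hn
    have h := hB ⟨n, by omega⟩
    have e2 := exNZ_fin (fun n => q (.b n)) ⟨n, by omega⟩
    simp only at e2 h
    rw [e2]
    exact h
  have h00 : exNZ (fun n => q (.a n)) 0 = 1 - γ := by
    rw [← ha0]; exact exNZ_fin (fun n => q (.a n)) 0
  have h01 : exNZ (fun n => q (.b n)) 0 = -(1 - γ) := by
    rw [← hb0]; exact exNZ_fin (fun n => q (.b n)) 0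
  have hea : exNZ (fun n => q (.a n)) (k + 1) = 0 := by
    unfold exNZ; rw [dif_neg (lt_irrefl _)]
  have heb : exNZ (fun n => q (.b n)) (k + 1) = 0 := by
    unfold exNZ; rw [dif_neg (lt_irrefl _)]
  have h1 : γ = 1 := recA γ k _ _ h00 h01 ha' hb' hea heb
  have hzero : ∀ n ≤ k, exNZ (fun n => q (.a n)) n = 0 ∧ exNZ (fun n => q (.b n)) n = 0 := by
    intro n
    induction n with
    | zero => intro _; rw [h00, h01, h1]; constructor <;> ring
    | succ n ih =>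
      intro hn
      obtain ⟨i1, i2⟩ := ih (by omega)
      rw [ha' n (by omega), hb' n (by omega), i1, i2]
      constructor <;> ring
  intro n
  have hn : n.1 ≤ k := by have := n.2; omega
  obtain ⟨z1, z2⟩ := hzero n.1 hn
  rw [exNZ_fin] at z1 z2
  refine ⟨z1, ?_, z2, ?_⟩
  · rw [hal n, z1, mul_zero]
  · rw [hbe n, z2, mul_zero]

theorem null_z {k : ℕ} {p : Va k → ℂ} (hp : p ∈ W k) (hn : Nul p) (hz : p .z = 0) : Z0 p := by
  by_cases he : p .e = 0
  · exact planar hp hn hz he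
  · have hl : (p .e)⁻¹ ≠ 0 := inv_ne_zero he
    have hq : sc (p .e)⁻¹ p ∈ SNZ k := by
      refine ⟨W_sc hp _, ⟨?_, ?_⟩, ?_, ?_⟩
      · simp only [sc, wt, pow_zero, one_mul]
        exact hn.1
      · intro j
        simp only [sc]
        rw [hn.2 j, mul_zero]
      · simp only [sc]
        rw [hz, mul_zero]
      · simp only [sc, wt, pow_one]
        exact inv_mul_cancel₀ he
    have h := null_z_aux hq
    have key : ∀ i : Va k, sc (p .e)⁻¹ p i = 0 → p i = 0 := by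
      intro i hi
      simp only [sc] at hi
      exact (mul_eq_zero.1 hi).resolve_left (pow_ne_zero _ hl)
    intro n
    obtain ⟨h1, h2, h3, h4⟩ := h n
    exact ⟨key _ h1, key _ h2, key _ h3, key _ h4⟩

theorem null_e {k : ℕ} {p : Va k → ℂ} (hp : p ∈ W k) (hn : Nul p) (he : p .e = 0) : Z0 p := by
  have h := null_z (W_sw hp) (show Nul (sw p) from ⟨hn.1, hn.2⟩) (show sw p .z = 0 from he)
  intro n
  obtain ⟨h1, h2, h3, h4⟩ := h n
  exact ⟨h3, h4, h1, h2⟩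

end Pool.Agent.Helper44.FT
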