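import Pool.Agent.Helper44.FT.BdA
import Pool.Agent.Helper44.FT.LinZ
import Pool.Agent.Helper44.FT.NullZ

/-!
# Block FT-CL: limits of points of `W`

(a) `clos`. The sequence is bounded by `bdA` (bounds `L` for all `j`, since `z`, `e`, `c` converge). Pass to a subsequence which converges to `q ∈ W` (`W_closed`), `Nul q`. If not `Z0 q`, take `q`. Otherwise let
`m_j > 0` be the maximum of `‖p_j i‖` over the variables of type `a, al, b, be`; it tends to `0` along the subsequence. `ms (1/m_j) p_j ∈ W` has `d = m_j → 0`, the same `c, z, e`, and the maximum of the absolute values of the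
variables of type `a, al, b, be` is `1`; a further subsequence converges to a point `q' ∈ W`, `Lin q'`, not `Z0`.
(b) `ratio0`: by `sw` one of the two inequalities suffices. If it fails there are `p_j ∈ W`, `Nul`, not `Z0`, `j ‖p_j z‖ < ‖p_j e‖`; apply `sc (p_j e)⁻¹`: `e = 1`, `z → 0`; `clos` gives `q` with `q z = 0`, `q e = 1`, contradicting `null_z` or `lin_z`.
-/

namespace Pool.Agent.Helper44.FT

open Filter Topology

variable {k : ℕ}

namespace Clos10

/-- Size of the part `a, al, b, be`. -/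
noncomputable def sz (p : Va k → ℂ) : ℝ :=
  ∑ n, (‖p (.a n)‖ + ‖p (.al n)‖ + ‖p (.b n)‖ + ‖p (.be n)‖)

theorem sz_nonneg (p : Va k → ℂ) : 0 ≤ sz p := by
  unfold sz
  positivity

theorem sz_eq_zero {p : Va k → ℂ} : sz p = 0 ↔ Z0 p := by
  unfold sz Z0
  rw [Finset.sum_eq_zero_iff_of_nonneg (fun i _ => by positivity)]
  constructor
  · intro h n
    have h1 := h n (Finset.mem_univ n)
    have ha := norm_nonneg (p (.a n))
    have hal := norm_nonneg (p (.al n))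
    have hb := norm_nonneg (p (.b n))
    have hbe := norm_nonneg (p (.be n))
    refine ⟨?_, ?_, ?_, ?_⟩ <;> rw [← norm_eq_zero] <;> linarith
  · intro h n _
    obtain ⟨h1, h2, h3, h4⟩ := h n
    simp [h1, h2, h3, h4]

theorem sz_pos {p : Va k → ℂ} (h : ¬ Z0 p) : 0 < sz p :=
  lt_of_le_of_ne (sz_nonneg p) fun h0 => h (sz_eq_zero.mp h0.symm)

theorem le_sz (p : Va k → ℂ) (n : Fin (k + 1)) :
    ‖p (.a n)‖ ≤ sz p ∧ ‖p (.al n)‖ ≤ sz p ∧ ‖p (.b n)‖ ≤ sz p ∧ ‖p (.be n)‖ ≤ sz p := by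
  have h1 : ‖p (.a n)‖ + ‖p (.al n)‖ + ‖p (.b n)‖ + ‖p (.be n)‖ ≤ sz p := by
    unfold sz
    exact Finset.single_le_sum
      (f := fun n => ‖p (.a n)‖ + ‖p (.al n)‖ + ‖p (.b n)‖ + ‖p (.be n)‖)
      (fun i _ => by positivity) (Finset.mem_univ n)
  have ha := norm_nonneg (p (.a n))
  have hal := norm_nonneg (p (.al n))
  have hb := norm_nonneg (p (.b n))
  have hbe := norm_nonneg (p (.be n))
  refine ⟨?_, ?_, ?_, ?_⟩ <;> linarith

theorem tendsto_sz {q : ℕ → Va k → ℂ} {x : Va k → ℂ} (h : ∀ i, Tendsto (fun j => q j i) atTop (𝓝 (x i))) :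
    Tendsto (fun j => sz (q j)) atTop (𝓝 (sz x)) := by
  unfold sz
  apply tendsto_finsetSum
  intro n _
  exact ((((h (.a n)).norm).add ((h (.al n)).norm)).add ((h (.b n)).norm)).add ((h (.be n)).norm)

theorem sz_ms (p : Va k → ℂ) (m : ℝ) (hm : 0 < m) : sz (ms (m : ℂ) p) = m * sz p := by
  unfold sz
  rw [Finset.mul_sum]
  apply Finset.sum_congr rfl
  intro n _
  simp only [ms, norm_mul, Complex.norm_real, Real.norm_of_nonneg hm.le]
  ring

/-- Subsequences of coordinatewise bounded sequences. -/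
theorem subseq {q : ℕ → Va k → ℂ} {B : ℝ} (hB : 0 ≤ B) (h : ∀ j i, ‖q j i‖ ≤ B) :
    ∃ x : Va k → ℂ, ∃ φ : ℕ → ℕ, StrictMono φ ∧ Tendsto (fun j => q (φ j)) atTop (𝓝 x) ∧
      ∀ i, Tendsto (fun j => q (φ j) i) atTop (𝓝 (x i)) := by
  obtain ⟨x, -, φ, hφ, hx⟩ := tendsto_subseq_of_bounded
    (Metric.isBounded_closedBall (x := (0 : Va k → ℂ)) (r := B))
    (x := q) (fun n => by
      rw [mem_closedBall_zero_iff, pi_norm_le_iff_of_nonneg hB]
      exact h n)
  exact ⟨x, φ, hφ, hx, fun i => (tendsto_pi_nhds.mp hx) i⟩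

end Clos10

open Clos10 in
theorem clos (p : ℕ → Va k → ℂ) (hW : ∀ j, p j ∈ W k) (hd : ∀ j, p j .d = 1)
    (hc : ∀ i, Tendsto (fun j => p j (.c i)) atTop (𝓝 0)) (hZ : ∀ j, ¬ Z0 (p j)) {z0 e0 : ℂ}
    (hz : Tendsto (fun j => p j .z) atTop (𝓝 z0)) (he : Tendsto (fun j => p j .e) atTop (𝓝 e0)) :
    ∃ q ∈ W k, ¬ Z0 q ∧ q .z = z0 ∧ q .e = e0 ∧ (Nul q ∨ Lin q) := by
  -- a common bound
  obtain ⟨Bz, hBz⟩ := hz.norm.bddAbove_range
  obtain ⟨Be, hBe⟩ := he.norm.bddAbove_range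
  have hBc : ∀ i, ∃ B, ∀ j, ‖p j (.c i)‖ ≤ B := by
    intro i
    obtain ⟨B, hB⟩ := (hc i).norm.bddAbove_range
    exact ⟨B, fun j => hB ⟨j, rfl⟩⟩
  choose Bc hBc using hBc
  set L : ℝ := 1 + |Bz| + |Be| + ∑ i, |Bc i| with hL
  have hsum0 : 0 ≤ ∑ i, |Bc i| := Finset.sum_nonneg fun i _ => abs_nonneg _
  have hL1 : 1 ≤ L := by
    have h1 := abs_nonneg Bz
    have h2 := abs_nonneg Be
    linarith
  have hLz : ∀ j, ‖p j .z‖ ≤ L := by
    intro j
    have h1 : ‖p j .z‖ ≤ Bz := hBz ⟨j, rfl⟩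
    have h2 := le_abs_self Bz
    have h3 := abs_nonneg Be
    linarith
  have hLe : ∀ j, ‖p j .e‖ ≤ L := by
    intro j
    have h1 : ‖p j .e‖ ≤ Be := hBe ⟨j, rfl⟩
    have h2 := le_abs_self Be
    have h3 := abs_nonneg Bz
    linarith
  have hLc : ∀ j i, ‖p j (.c i)‖ ≤ L ^ wt (Va.c i) := by
    intro j i
    have h1 : ‖p j (.c i)‖ ≤ Bc i := hBc i j
    have h2 := le_abs_self (Bc i)
    have h3 : |Bc i| ≤ ∑ i, |Bc i| :=
      Finset.single_le_sum (f := fun i => |Bc i|) (fun i _ => abs_nonneg _) (Finset.mem_univ i)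
    have h4 := abs_nonneg Be
    have h5 := abs_nonneg Bz
    have h6 : L ≤ L ^ wt (Va.c i) := by
      apply le_self_pow₀ hL1
      simp only [wt]
      omega
    linarith
  obtain ⟨C, hC, hbd⟩ := bdA k
  have hCL : 0 ≤ C * L := by positivity
  set B : ℝ := ∑ i : Va k, (C * L) ^ wt i with hB
  have hB0 : 0 ≤ B := Finset.sum_nonneg fun i _ => by positivity
  have hpB : ∀ j i, ‖p j i‖ ≤ B := by
    intro j i
    have h1 := hbd (p j) (hW j) (hd j) L (by linarith) (hLc j) (hLz j) (hLe j) i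
    have h2 : (C * L) ^ wt i ≤ B :=
      Finset.single_le_sum (f := fun i : Va k => (C * L) ^ wt i) (fun i _ => by positivity)
        (Finset.mem_univ i)
    linarith
  obtain ⟨x, φ, hφ, hx, hxi⟩ := subseq hB0 hpB
  have hxW : x ∈ W k := (W_closed k).mem_of_tendsto hx (Eventually.of_forall fun n => hW (φ n))
  have hxd : x .d = 1 := by
    apply tendsto_nhds_unique (hxi .d)
    simp only [hd]
    exact tendsto_const_nhds
  have hxc : ∀ i, x (.c i) = 0 := fun i =>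
    tendsto_nhds_unique (hxi (.c i)) ((hc i).comp hφ.tendsto_atTop)
  have hxz : x .z = z0 := tendsto_nhds_unique (hxi .z) (hz.comp hφ.tendsto_atTop)
  have hxe : x .e = e0 := tendsto_nhds_unique (hxi .e) (he.comp hφ.tendsto_atTop)
  by_cases hx0 : Z0 x
  swap
  · exact ⟨x, hxW, hx0, hxz, hxe, Or.inl ⟨hxd, hxc⟩⟩
  have hM : Tendsto (fun j => sz (p (φ j))) atTop (𝓝 0) := by
    have := tendsto_sz hxi
    rwa [sz_eq_zero.mpr hx0] at this
  have hMpos : ∀ j, 0 < sz (p (φ j)) := fun j => sz_pos (hZ _)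
  set r : ℕ → Va k → ℂ := fun j => ms (((sz (p (φ j)))⁻¹ : ℝ) : ℂ) (p (φ j)) with hr
  have hrW : ∀ j, r j ∈ W k := by
    intro j
    apply W_ms (hW _)
    rw [Ne, Complex.ofReal_eq_zero]
    exact inv_ne_zero (hMpos j).ne'
  have hrsz : ∀ j, sz (r j) = 1 := by
    intro j
    rw [hr]
    simp only
    rw [sz_ms _ _ (inv_pos.mpr (hMpos j))]
    exact inv_mul_cancel₀ (hMpos j).ne'
  have hrd : ∀ j, r j .d = ((sz (p (φ j)) : ℝ) : ℂ) := by
    intro j
    simp only [hr, ms, hd]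
    push_cast
    rw [one_div, inv_inv]
  have hszB : ∀ j, sz (p (φ j)) ≤ ∑ _n : Fin (k + 1), (B + B + B + B) := by
    intro j
    unfold sz
    apply Finset.sum_le_sum
    intro n _
    have h1 := hpB (φ j) (.a n)
    have h2 := hpB (φ j) (.al n)
    have h3 := hpB (φ j) (.b n)
    have h4 := hpB (φ j) (.be n)
    linarith
  set B' : ℝ := B + 1 + ∑ _n : Fin (k + 1), (B + B + B + B) with hB'
  have hs0 : 0 ≤ ∑ _n : Fin (k + 1), (B + B + B + B) := Finset.sum_nonneg fun i _ => by positivity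
  have hrB : ∀ j i, ‖r j i‖ ≤ B' := by
    intro j i
    have hle := le_sz (r j)
    rw [hrsz] at hle
    cases i with
    | d =>
      rw [hrd, Complex.norm_real, Real.norm_of_nonneg (hMpos j).le]
      have := hszB j
      linarith
    | c i =>
      have h1 : r j (.c i) = p (φ j) (.c i) := rfl
      rw [h1]
      have := hpB (φ j) (.c i)
      linarith
    | z =>
      have h1 : r j .z = p (φ j) .z := rfl
      rw [h1]
      have := hpB (φ j) .z
      linarith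
    | e =>
      have h1 : r j .e = p (φ j) .e := rfl
      rw [h1]
      have := hpB (φ j) .e
      linarith
    | a n => have := (hle n).1; linarith
    | al n => have := (hle n).2.1; linarith
    | b n => have := (hle n).2.2.1; linarith
    | be n => have := (hle n).2.2.2; linarith
  obtain ⟨y, ψ, hψ, hy, hyi⟩ := subseq (by positivity : 0 ≤ B') hrB
  have hyW : y ∈ W k := (W_closed k).mem_of_tendsto hy (Eventually.of_forall fun n => hrW (ψ n))
  refine ⟨y, hyW, ?_, ?_, ?_, Or.inr ⟨?_, ?_⟩⟩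
  · intro h0
    have h1 := tendsto_sz hyi
    simp only [hrsz] at h1
    have h2 := tendsto_nhds_unique h1 tendsto_const_nhds
    rw [sz_eq_zero.mpr h0] at h2
    exact zero_ne_one h2
  · exact tendsto_nhds_unique (hyi .z) ((hz.comp hφ.tendsto_atTop).comp hψ.tendsto_atTop)
  · exact tendsto_nhds_unique (hyi .e) ((he.comp hφ.tendsto_atTop).comp hψ.tendsto_atTop)
  · have h1 := hyi .d
    simp only [hrd] at h1
    have h2 : Tendsto (fun j => ((sz (p (φ (ψ j))) : ℝ) : ℂ)) atTop (𝓝 ((0 : ℝ) : ℂ)) :=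
      (Complex.continuous_ofReal.tendsto _).comp (hM.comp hψ.tendsto_atTop)
    rw [Complex.ofReal_zero] at h2
    exact tendsto_nhds_unique h1 h2
  · intro i
    exact tendsto_nhds_unique (hyi (.c i)) (((hc i).comp hφ.tendsto_atTop).comp hψ.tendsto_atTop)

/-- One half of `ratio0`. -/
theorem ratio0_half (k : ℕ) : ∃ ε : ℝ, 0 < ε ∧ ∀ p ∈ W k, Nul p → ¬ Z0 p →
    ε * ‖p .e‖ ≤ ‖p .z‖ := by
  by_contra h
  push Not at h
  have h' : ∀ n : ℕ, ∃ q ∈ W k, Nul q ∧ ¬ Z0 q ∧ q .e = 1 ∧ ‖q .z‖ ≤ 1 / ((n : ℝ) + 1) := by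
    intro n
    obtain ⟨p, hp, hn, h0, hlt⟩ := h (1 / ((n : ℝ) + 1)) (by positivity)
    have he : p .e ≠ 0 := by
      intro he
      rw [he, norm_zero, mul_zero] at hlt
      exact absurd (norm_nonneg _) (not_le.mpr hlt)
    refine ⟨sc (p .e)⁻¹ p, W_sc hp _, ?_, ?_, ?_, ?_⟩
    · exact ⟨by simp [sc, wt, hn.1], fun j => by simp [sc, hn.2 j]⟩
    · intro hz
      apply h0
      intro m
      obtain ⟨h1, h2, h3, h4⟩ := hz m
      have hne : ∀ i : Va k, ((p .e)⁻¹) ^ wt i ≠ 0 := fun i => pow_ne_zero _ (inv_ne_zero he)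
      exact ⟨(mul_eq_zero.mp h1).resolve_left (hne _), (mul_eq_zero.mp h2).resolve_left (hne _),
        (mul_eq_zero.mp h3).resolve_left (hne _), (mul_eq_zero.mp h4).resolve_left (hne _)⟩
    · simp [sc, wt, he]
    · have hz : ‖sc (p .e)⁻¹ p .z‖ = ‖p .z‖ / ‖p .e‖ := by
        simp only [sc, wt, pow_one, norm_mul, norm_inv]
        field_simp
      rw [hz, div_le_iff₀ (norm_pos_iff.mpr he)]
      exact hlt.le
  choose q hW hN hZ he hz using h'
  have hzt : Tendsto (fun j => q j .z) atTop (𝓝 0) :=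
    squeeze_zero_norm hz (tendsto_one_div_add_atTop_nhds_zero_nat (𝕜 := ℝ))
  have het : Tendsto (fun j => q j .e) atTop (𝓝 1) := by
    simp only [he]
    exact tendsto_const_nhds
  obtain ⟨x, hx, hx0, hxz, hxe, hx1⟩ := clos q hW (fun j => (hN j).1)
    (fun i => by
      simp only [(hN _).2 i]
      exact tendsto_const_nhds) hZ hzt het
  rcases hx1 with h1 | h1
  · exact hx0 (null_z hx h1 hxz)
  · exact hx0 (lin_z hx h1 hxz (by rw [hxe]; exact one_ne_zero))

theorem ratio0 (k : ℕ) : ∃ ε : ℝ, 0 < ε ∧ ∀ p ∈ W k, Nul p → ¬ Z0 p →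
    ε * ‖p .e‖ ≤ ‖p .z‖ ∧ ε * ‖p .z‖ ≤ ‖p .e‖ := by
  obtain ⟨ε, hε, h⟩ := ratio0_half k
  refine ⟨ε, hε, fun p hp hn h0 => ⟨h p hp hn h0, ?_⟩⟩
  have h1 := h (sw p) (W_sw hp) ⟨hn.1, hn.2⟩ (fun hz => h0 fun n => by
    obtain ⟨h1, h2, h3, h4⟩ := hz n
    exact ⟨h3, h4, h1, h2⟩)
  exact h1

end Pool.Agent.Helper44.FT
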