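import Pool.Agent.Helper44.FT.Lap

/-!
# Block FT-R2b: the Laplace operator of a surface of revolution, computation

`U = I ×ˢ J` is open; on `U` `E = 1`, `F = 0`, `G = r²`, `Real.sqrt (E G - F²) = r`, so `L φ = -(1/r) (∂_s (r φ_s) + ∂_θ (φ_θ / r))` on `U`. Derivatives of `EuclideanSpace`-valued functions: coordinatewise (`hasFDerivAt_euclidean`, `PiLp`),
or write `!₂[a, b, c]` as `a • e0 + b • e1 + c • e2` with constant vectors `ei` (`EuclideanSpace.single`). All functions agree with the explicit ones near every point of `U` (`Filter.EventuallyEq.fderiv_eq`); the equality of the inner function (of `q`) with an explicit smooth function holds on `U` only, which suffices.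
-/

namespace Pool.Agent.Helper44.FT

namespace LapR10

open Filter Topology

/-- Directional derivatives of `R s * u θ`. -/
theorem sc_fd {R u : ℝ → ℝ} {p : ℝ × ℝ} (hR : DifferentiableAt ℝ R p.1)
    (hu : DifferentiableAt ℝ u p.2) :
    DifferentiableAt ℝ (fun q : ℝ × ℝ => R q.1 * u q.2) p ∧
      fderiv ℝ (fun q : ℝ × ℝ => R q.1 * u q.2) p ((1 : ℝ), (0 : ℝ)) = deriv R p.1 * u p.2 ∧
      fderiv ℝ (fun q : ℝ × ℝ => R q.1 * u q.2) p ((0 : ℝ), (1 : ℝ)) = R p.1 * deriv u p.2 := by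
  have h1 : HasFDerivAt (fun q : ℝ × ℝ => R q.1)
      ((ContinuousLinearMap.toSpanSingleton ℝ (deriv R p.1)).comp (ContinuousLinearMap.fst ℝ ℝ ℝ)) p :=
    hR.hasDerivAt.hasFDerivAt.comp p hasFDerivAt_fst
  have h2 : HasFDerivAt (fun q : ℝ × ℝ => u q.2)
      ((ContinuousLinearMap.toSpanSingleton ℝ (deriv u p.2)).comp (ContinuousLinearMap.snd ℝ ℝ ℝ)) p :=
    hu.hasDerivAt.hasFDerivAt.comp p hasFDerivAt_snd
  have h3 := h1.mul h2
  refine ⟨h3.differentiableAt, ?_, ?_⟩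
  · have h4 : fderiv ℝ (fun q : ℝ × ℝ => R q.1 * u q.2) p = _ := h3.fderiv
    rw [h4]
    simp
    ring
  · have h4 : fderiv ℝ (fun q : ℝ × ℝ => R q.1 * u q.2) p = _ := h3.fderiv
    rw [h4]
    simp

/-- Directional derivatives of a vector valued function. -/
theorem vec_fd {g : ℝ × ℝ → EuclideanSpace ℝ (Fin 3)} {p : ℝ × ℝ} {a b c : ℝ × ℝ → ℝ}
    (hg : g =ᶠ[𝓝 p] fun q => !₂[a q, b q, c q]) (ha : DifferentiableAt ℝ a p)
    (hb : DifferentiableAt ℝ b p) (hc : DifferentiableAt ℝ c p) (v : ℝ × ℝ) :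
    fderiv ℝ g p v = !₂[fderiv ℝ a p v, fderiv ℝ b p v, fderiv ℝ c p v] := by
  rw [hg.fderiv_eq]
  have hd : DifferentiableAt ℝ (fun q => (!₂[a q, b q, c q] : EuclideanSpace ℝ (Fin 3))) p := by
    rw [differentiableAt_euclidean]
    intro i
    fin_cases i
    · exact ha
    · exact hb
    · exact hc
  have h := hasFDerivWithinAt_euclidean.mp (hasFDerivWithinAt_univ.mpr hd.hasFDerivAt)
  ext i
  have hi := (hasFDerivWithinAt_univ.mp (h i)).fderiv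
  have hv : fderiv ℝ (fun x => (!₂[a x, b x, c x] : EuclideanSpace ℝ (Fin 3)) i) p v =
      (fderiv ℝ (fun q => (!₂[a q, b q, c q] : EuclideanSpace ℝ (Fin 3))) p v) i := by
    rw [hi]
    rfl
  rw [← hv]
  fin_cases i <;> rfl

end LapR10

open Filter Topology LapR10 in
theorem lap_rot {I J : Set ℝ} (hI : IsOpen I) (hJ : IsOpen J) {r z : ℝ → ℝ}
    (hr : ContDiffOn ℝ ((⊤ : ℕ∞) : WithTop ℕ∞) r I) (hz : ContDiffOn ℝ ((⊤ : ℕ∞) : WithTop ℕ∞) z I)
    (hpos : ∀ s ∈ I, 0 < r s) (hun : ∀ s ∈ I, deriv r s ^ 2 + deriv z s ^ 2 = 1)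
    {f : ℝ × ℝ → EuclideanSpace ℝ (Fin 3)} {E F G : ℝ × ℝ → ℝ}
    {L : (ℝ × ℝ → EuclideanSpace ℝ (Fin 3)) → ℝ × ℝ → EuclideanSpace ℝ (Fin 3)}
    (S : Sf (I ×ˢ J) f E F G L)
    (hf : ∀ p ∈ I ×ˢ J, f p = !₂[r p.1 * Real.cos p.2, r p.1 * Real.sin p.2, z p.1])
    {P Q : ℝ → ℝ} (hP : ContDiffOn ℝ ((⊤ : ℕ∞) : WithTop ℕ∞) P I)
    (hQ : ContDiffOn ℝ ((⊤ : ℕ∞) : WithTop ℕ∞) Q I)
    {φ : ℝ × ℝ → EuclideanSpace ℝ (Fin 3)}
    (hφ : ∀ p ∈ I ×ˢ J, φ p = !₂[P p.1 * Real.cos p.2, P p.1 * Real.sin p.2, Q p.1]) :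
    ∀ p ∈ I ×ˢ J, L φ p =
      !₂[(-deriv (deriv P) p.1 - deriv r p.1 / r p.1 * deriv P p.1 + P p.1 / r p.1 ^ 2) * Real.cos p.2,
        (-deriv (deriv P) p.1 - deriv r p.1 / r p.1 * deriv P p.1 + P p.1 / r p.1 ^ 2) * Real.sin p.2,
        -deriv (deriv Q) p.1 - deriv r p.1 / r p.1 * deriv Q p.1] := by
  have hU : IsOpen (I ×ˢ J) := hI.prod hJ
  -- differentiability on `I`
  have dOn : ∀ {h : ℝ → ℝ}, ContDiffOn ℝ ((⊤ : ℕ∞) : WithTop ℕ∞) h I → ∀ s ∈ I, DifferentiableAt ℝ h s := by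
    intro h hh s hs
    exact (hh.contDiffAt (hI.mem_nhds hs)).differentiableAt (by simp)
  have dDer : ∀ {h : ℝ → ℝ}, ContDiffOn ℝ ((⊤ : ℕ∞) : WithTop ℕ∞) h I →
      ContDiffOn ℝ ((⊤ : ℕ∞) : WithTop ℕ∞) (deriv h) I := by
    intro h hh
    exact hh.deriv_of_isOpen hI (by simp)
  -- first derivatives of functions of the given form
  have key : ∀ {R Z : ℝ → ℝ} {g : ℝ × ℝ → EuclideanSpace ℝ (Fin 3)},
      ContDiffOn ℝ ((⊤ : ℕ∞) : WithTop ℕ∞) R I → ContDiffOn ℝ ((⊤ : ℕ∞) : WithTop ℕ∞) Z I →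
      (∀ p ∈ I ×ˢ J, g p = !₂[R p.1 * Real.cos p.2, R p.1 * Real.sin p.2, Z p.1]) →
      ∀ p ∈ I ×ˢ J,
        fderiv ℝ g p ((1 : ℝ), (0 : ℝ)) =
          !₂[deriv R p.1 * Real.cos p.2, deriv R p.1 * Real.sin p.2, deriv Z p.1] ∧
        fderiv ℝ g p ((0 : ℝ), (1 : ℝ)) =
          !₂[-(R p.1 * Real.sin p.2), R p.1 * Real.cos p.2, 0] := by
    intro R Z g hR hZ hg p hp
    have hR1 := dOn hR p.1 hp.1
    have hZ1 := dOn hZ p.1 hp.1
    have e1 := sc_fd (u := Real.cos) hR1 (Real.differentiable_cos.differentiableAt (x := p.2))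
    have e2 := sc_fd (u := Real.sin) hR1 (Real.differentiable_sin.differentiableAt (x := p.2))
    have e3 := sc_fd (u := fun _ => (1 : ℝ)) hZ1 (differentiableAt_const (1 : ℝ) (x := p.2))
    have hgp : g =ᶠ[𝓝 p] fun q => !₂[R q.1 * Real.cos q.2, R q.1 * Real.sin q.2, Z q.1 * 1] := by
      filter_upwards [hU.mem_nhds hp] with q hq
      rw [hg q hq, mul_one]
    have h1 := vec_fd hgp e1.1 e2.1 e3.1 ((1 : ℝ), (0 : ℝ))
    have h2 := vec_fd hgp e1.1 e2.1 e3.1 ((0 : ℝ), (1 : ℝ))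
    rw [e1.2.1, e2.2.1, e3.2.1] at h1
    rw [e1.2.2, e2.2.2, e3.2.2] at h2
    constructor
    · rw [h1, mul_one]
    · rw [h2, Real.deriv_cos, Real.deriv_sin]
      simp
  -- the metric
  have hE : ∀ p ∈ I ×ˢ J, E p = 1 := by
    intro p hp
    rw [S.hE p, (key hr hz hf p hp).1, PiLp.inner_apply, Fin.sum_univ_three]
    simp only [RCLike.inner_apply, conj_trivial]
    have h1 := hun p.1 hp.1
    have h2 := Real.sin_sq_add_cos_sq p.2
    simp
    linear_combination h1 + deriv r p.1 ^ 2 * h2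
  have hF : ∀ p ∈ I ×ˢ J, F p = 0 := by
    intro p hp
    rw [S.hF p, (key hr hz hf p hp).1, (key hr hz hf p hp).2, PiLp.inner_apply, Fin.sum_univ_three]
    simp only [RCLike.inner_apply, conj_trivial]
    simp
    ring
  have hG : ∀ p ∈ I ×ˢ J, G p = r p.1 ^ 2 := by
    intro p hp
    rw [S.hG p, (key hr hz hf p hp).2, PiLp.inner_apply, Fin.sum_univ_three]
    simp only [RCLike.inner_apply, conj_trivial]
    have h2 := Real.sin_sq_add_cos_sq p.2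
    simp
    linear_combination r p.1 ^ 2 * h2
  have hsq : ∀ p ∈ I ×ˢ J, Real.sqrt (E p * G p - F p ^ 2) = r p.1 := by
    intro p hp
    rw [hE p hp, hF p hp, hG p hp]
    rw [show (1 : ℝ) * r p.1 ^ 2 - 0 ^ 2 = r p.1 ^ 2 by ring]
    exact Real.sqrt_sq (hpos p.1 hp.1).le
  intro p hp
  have hp0 := hpos p.1 hp.1
  rw [S.hL φ p, hsq p hp]
  -- the first inner function
  have hA : ∀ q ∈ I ×ˢ J, (Real.sqrt (E q * G q - F q ^ 2))⁻¹ •
      (G q • fderiv ℝ φ q ((1 : ℝ), (0 : ℝ)) - F q • fderiv ℝ φ q ((0 : ℝ), (1 : ℝ))) =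
      !₂[(r q.1 * deriv P q.1) * Real.cos q.2, (r q.1 * deriv P q.1) * Real.sin q.2,
        r q.1 * deriv Q q.1] := by
    intro q hq
    have hq0 := (hpos q.1 hq.1).ne'
    rw [hsq q hq, hF q hq, hG q hq, (key hP hQ hφ q hq).1, zero_smul, sub_zero, smul_smul]
    rw [show (r q.1)⁻¹ * r q.1 ^ 2 = r q.1 by field_simp]
    ext i
    fin_cases i
    · simp; ring
    · simp; ring
    · simp
  have hB : ∀ q ∈ I ×ˢ J, (Real.sqrt (E q * G q - F q ^ 2))⁻¹ •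
      (E q • fderiv ℝ φ q ((0 : ℝ), (1 : ℝ)) - F q • fderiv ℝ φ q ((1 : ℝ), (0 : ℝ))) =
      !₂[((r q.1)⁻¹ * P q.1) * -Real.sin q.2, ((r q.1)⁻¹ * P q.1) * Real.cos q.2, 0] := by
    intro q hq
    rw [hsq q hq, hE q hq, hF q hq, (key hP hQ hφ q hq).2, zero_smul, sub_zero, one_smul]
    ext i
    fin_cases i
    · simp; ring
    · simp; ring
    · simp
  have dr := dOn hr p.1 hp.1
  have hrP : ContDiffOn ℝ ((⊤ : ℕ∞) : WithTop ℕ∞) (fun s => r s * deriv P s) I := hr.mul (dDer hP)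
  have hrQ : ContDiffOn ℝ ((⊤ : ℕ∞) : WithTop ℕ∞) (fun s => r s * deriv Q s) I := hr.mul (dDer hQ)
  have eA := (key (R := fun s => r s * deriv P s) (Z := fun s => r s * deriv Q s) hrP hrQ
    (g := fun q => (Real.sqrt (E q * G q - F q ^ 2))⁻¹ •
      (G q • fderiv ℝ φ q ((1 : ℝ), (0 : ℝ)) - F q • fderiv ℝ φ q ((0 : ℝ), (1 : ℝ)))) hA p hp).1
  rw [eA]
  -- the second inner function
  have hri : DifferentiableAt ℝ (fun s => (r s)⁻¹ * P s) p.1 :=
    (dr.inv hp0.ne').mul (dOn hP p.1 hp.1)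
  have f1 := sc_fd (u := fun t => -Real.sin t) hri
    ((Real.differentiable_sin.differentiableAt (x := p.2)).neg)
  have f2 := sc_fd (u := Real.cos) hri (Real.differentiable_cos.differentiableAt (x := p.2))
  have hBp : (fun q => (Real.sqrt (E q * G q - F q ^ 2))⁻¹ •
      (E q • fderiv ℝ φ q ((0 : ℝ), (1 : ℝ)) - F q • fderiv ℝ φ q ((1 : ℝ), (0 : ℝ)))) =ᶠ[𝓝 p]
      fun q => !₂[((r q.1)⁻¹ * P q.1) * -Real.sin q.2, ((r q.1)⁻¹ * P q.1) * Real.cos q.2,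
        (fun _ => (0 : ℝ)) q] := by
    filter_upwards [hU.mem_nhds hp] with q hq
    exact hB q hq
  have eB := vec_fd hBp f1.1 f2.1 (differentiableAt_const (0 : ℝ)) ((0 : ℝ), (1 : ℝ))
  rw [f1.2.2, f2.2.2] at eB
  rw [eB]
  have d1 : deriv (fun s => r s * deriv P s) p.1 = deriv r p.1 * deriv P p.1 + r p.1 * deriv (deriv P) p.1 :=
    deriv_fun_mul dr (dOn (dDer hP) p.1 hp.1)
  have d2 : deriv (fun s => r s * deriv Q s) p.1 = deriv r p.1 * deriv Q p.1 + r p.1 * deriv (deriv Q) p.1 :=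
    deriv_fun_mul dr (dOn (dDer hQ) p.1 hp.1)
  have d3 : deriv (fun t => -Real.sin t) p.2 = -Real.cos p.2 := by
    rw [deriv.fun_neg, Real.deriv_sin]
  have d4 : deriv Real.cos p.2 = -Real.sin p.2 := Real.deriv_cos
  rw [d1, d2, d3, d4]
  have hp1 := hp0.ne'
  ext i
  fin_cases i
  · simp
    field_simp
    ring
  · simp
    field_simp
    ring
  · simp
    field_simp
    ring

end Pool.Agent.Helper44.FT
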