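import Pool.Agent.Helper44.FT.RealW
import Pool.Agent.Helper44.FT.Classify

/-!
# Block FT-R3: the classification for real surfaces of revolution

Proof. Let `st s` be the point of `real_W`. `st s d = 1`, `z, e ≠ 0` (`f1² + g1² = 1`). `st s (a 0) = i h s` (`p0`, `q0`, `unit`). By `real_deriv` for `F = X (a 0)` and `mean_const` `h` has derivative `0` on `I`, so `h` is constant on `I` (`I` is an open preconnected set of reals: `IsOpen.is_const_of_deriv_eq_zero` or convexity).
If the constant is `0`: first alternative. Otherwise `¬ Z0 (st s)` for all `s`, so by `classify` for every `s ∈ I` (A) `z - e + i h = 0`, that is `g1/f = -h/2`, or (B) `z = - i h`, `e = i h`, that is `f1 = 0`, `g1/f = -h`. Both sets are closed in `I`, disjoint and cover `I`; so one of them is all of `I`.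
(B): `f1 = 0` on `I`, `f` is constant. (A): `κ = -h - g1/f = -h/2 =: ρ ≠ 0`, `g1 = ρ f`; `g + f1/ρ` has derivative `g1 - κ g1 / ρ = 0`, so it is a constant `c`, and `f² + (g - c)² = (g1² + f1²)/ρ² = 1/ρ²`.
-/

namespace Pool.Agent.Helper44.FT

open MvPolynomial ComplexConjugate

section

variable {k : ℕ} {c0 : Fin (k + 1) → ℝ} {I : Set ℝ} {f g f1 g1 κ h : ℝ → ℝ}
  {p q p1 q1 : ℕ → ℝ → ℝ}

/-- The point of `W` of the parameter value `s`. -/
private noncomputable def stR (c0 : Fin (k + 1) → ℝ) (f f1 g1 : ℝ → ℝ) (p q p1 q1 : ℕ → ℝ → ℝ) (s : ℝ) :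
    Va k → ℂ :=
  stt c0 (f s) (f1 s) (g1 s) (fun n => p n s) (fun n => q n s) (fun n => p1 n s) (fun n => q1 n s)

private theorem stR_a (D : Data k c0 I f g f1 g1 κ h p q p1 q1) {s : ℝ} (hs : s ∈ I) :
    stR c0 f f1 g1 p q p1 q1 s (.a 0) = ⟨0, h s⟩ := by
  have hp := D.p0 s hs
  have hq := D.q0 s hs
  have hu := D.unit s hs
  change (⟨p ((0 : Fin (k + 1)) : ℕ) s, q ((0 : Fin (k + 1)) : ℕ) s⟩ : ℂ) * conj (⟨f1 s, g1 s⟩ : ℂ) = _
  rw [Fin.val_zero, hp, hq]
  apply Complex.ext
  · simp only [Complex.mul_re, Complex.conj_re, Complex.conj_im]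
    ring
  · simp only [Complex.mul_im, Complex.conj_re, Complex.conj_im]
    linear_combination (h s) * hu

private theorem stR_z (s : ℝ) : stR c0 f f1 g1 p q p1 q1 s .z = ⟨f1 s / f s, g1 s / f s⟩ := by
  change (⟨f1 s, g1 s⟩ : ℂ) / (f s : ℂ) = _
  apply Complex.ext
  · rw [Complex.div_ofReal_re]
  · rw [Complex.div_ofReal_im]

private theorem stR_e (s : ℝ) : stR c0 f f1 g1 p q p1 q1 s .e = ⟨f1 s / f s, -(g1 s / f s)⟩ := by
  change conj (⟨f1 s, g1 s⟩ : ℂ) / (f s : ℂ) = _
  apply Complex.ext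
  · rw [Complex.div_ofReal_re, Complex.conj_re]
  · rw [Complex.div_ofReal_im, Complex.conj_im, neg_div]

private theorem h_deriv (D : Data k c0 I f g f1 g1 κ h p q p1 q1) {s : ℝ} (hs : s ∈ I) :
    HasDerivAt h 0 s := by
  have h1 := real_deriv D (X (.a 0)) hs
  rw [dv_X, mean_const (real_W D hs) rfl] at h1
  simp only [eval_X] at h1
  have h2 : HasDerivAt (fun s => Complex.imCLM (stR c0 f f1 g1 p q p1 q1 s (.a 0))) (Complex.imCLM 0) s :=
    Complex.imCLM.hasFDerivAt.comp_hasDerivAt s h1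
  rw [map_zero] at h2
  refine h2.congr_of_eventuallyEq ?_
  filter_upwards [D.opn.mem_nhds hs] with t ht
  rw [stR_a D ht]
  rfl

/-- A function with derivative zero on `I` is constant on `I`. -/
private theorem const_on (hI : IsOpen I) (hc : IsPreconnected I) {F : ℝ → ℝ}
    (hF : ∀ s ∈ I, HasDerivAt F 0 s) {s t : ℝ} (hs : s ∈ I) (ht : t ∈ I) : F s = F t :=
  hI.is_const_of_deriv_eq_zero hc (fun x hx => (hF x hx).differentiableAt.differentiableWithinAt)
    (fun x hx => (hF x hx).deriv) hs ht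

end

theorem real_class {k : ℕ} {c0 : Fin (k + 1) → ℝ} {I : Set ℝ} {f g f1 g1 κ h : ℝ → ℝ}
    {p q p1 q1 : ℕ → ℝ → ℝ} (D : Data k c0 I f g f1 g1 κ h p q p1 q1) :
    (∀ s ∈ I, h s = 0) ∨ (∃ c r : ℝ, 0 < r ∧ ∀ s ∈ I, f s ^ 2 + (g s - c) ^ 2 = r ^ 2) ∨
      (∃ r : ℝ, 0 < r ∧ ∀ s ∈ I, f s = r) := by
  rcases I.eq_empty_or_nonempty with hI | ⟨s0, hs0⟩
  · left
    intro s hs
    rw [hI] at hs
    exact absurd hs (Set.notMem_empty s)
  have hh : ∀ s ∈ I, h s = h s0 := fun s hs =>
    const_on D.opn D.con (fun s hs => h_deriv D hs) hs hs0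
  by_cases H0 : h s0 = 0
  · left
    intro s hs
    rw [hh s hs, H0]
  right
  -- the dichotomy at every point
  have key : ∀ s ∈ I, g1 s / f s = -(h s0) / 2 ∨ (f1 s = 0 ∧ g1 s / f s = -(h s0)) := by
    intro s hs
    have hf := D.pos s hs
    have hu := D.unit s hs
    have hW : stR c0 f f1 g1 p q p1 q1 s ∈ W k := real_W D hs
    have ha := stR_a D hs
    have hz := stR_z (c0 := c0) (f := f) (f1 := f1) (g1 := g1) (p := p) (q := q) (p1 := p1) (q1 := q1) s
    have he := stR_e (c0 := c0) (f := f) (f1 := f1) (g1 := g1) (p := p) (q := q) (p1 := p1) (q1 := q1) s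
    rw [hh s hs] at ha
    have hne : ∀ y : ℝ, y ^ 2 = (g1 s / f s) ^ 2 → (⟨f1 s / f s, y⟩ : ℂ) ≠ 0 := by
      intro y hy h0
      have h1 : f1 s / f s = 0 := congrArg Complex.re h0
      have h2 : y = 0 := congrArg Complex.im h0
      rw [h2] at hy
      have h3 : g1 s / f s = 0 := by
        have : (g1 s / f s) ^ 2 = 0 := by rw [← hy]; ring
        exact pow_eq_zero_iff (two_ne_zero) |>.mp this
      have h4 : f1 s = 0 := (div_eq_zero_iff.mp h1).resolve_right hf.ne'
      have h5 : g1 s = 0 := (div_eq_zero_iff.mp h3).resolve_right hf.ne'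
      rw [h4, h5] at hu
      norm_num at hu
    rcases classify hW rfl (by rw [hz]; exact hne _ rfl) (by rw [he]; exact hne _ (by ring)) with
      hZ | hA | ⟨hB1, hB2⟩
    · exfalso
      have h1 := (hZ 0).1
      rw [ha] at h1
      exact H0 (congrArg Complex.im h1)
    · left
      rw [hz, he, ha] at hA
      have h1 := congrArg Complex.im hA
      simp only [Complex.add_im, Complex.sub_im, Complex.zero_im] at h1
      linarith
    · right
      rw [hz, ha] at hB1
      have h1 := congrArg Complex.re hB1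
      have h2 := congrArg Complex.im hB1
      simp only [Complex.neg_re, Complex.neg_im, neg_zero] at h1 h2
      exact ⟨(div_eq_zero_iff.mp h1).resolve_right hf.ne', h2⟩
  -- `g1 / f` is constant
  have hcont : ContinuousOn (fun s => g1 s / f s) I := fun s hs =>
    ((D.dg1 s hs).continuousAt.div (D.df s hs).continuousAt (D.pos s hs).ne').continuousWithinAt
  have hmap : Set.MapsTo (fun s => g1 s / f s) I ({-(h s0) / 2, -(h s0)} : Set ℝ) := by
    intro s hs
    rcases key s hs with h1 | h1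
    · exact Or.inl h1
    · exact Or.inr h1.2
  obtain ⟨y, hy, hyI⟩ := D.con.eqOn_const_of_mapsTo (Set.toFinite _).isDiscrete hcont hmap ⟨_, Or.inl rfl⟩
  have hyI' : ∀ s ∈ I, g1 s / f s = y := fun s hs => hyI hs
  rcases hy with rfl | hy
  · -- sphere
    left
    have hρ : -(h s0) / 2 ≠ 0 := by
      intro h0
      apply H0
      linarith
    set ρ : ℝ := -(h s0) / 2 with hρd
    have hg1 : ∀ s ∈ I, g1 s = ρ * f s := by
      intro s hs
      have h1 := hyI' s hs
      rw [div_eq_iff (D.pos s hs).ne'] at h1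
      exact h1
    have hκ : ∀ s ∈ I, κ s = ρ := by
      intro s hs
      have h1 := D.hh s hs
      rw [hh s hs, hyI' s hs] at h1
      rw [hρd]
      rw [hρd] at h1
      linarith
    have hc : ∀ s ∈ I, HasDerivAt (fun s => g s + f1 s / ρ) 0 s := by
      intro s hs
      have h1 := (D.dg s hs).add ((D.df1 s hs).div_const ρ)
      have h2 : g1 s + -(κ s * g1 s) / ρ = 0 := by
        rw [hκ s hs]
        field_simp
        ring
      rw [h2] at h1
      exact h1
    refine ⟨g s0 + f1 s0 / ρ, |1 / ρ|, abs_pos.mpr (one_div_ne_zero hρ), fun s hs => ?_⟩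
    have h1 := const_on D.opn D.con hc hs hs0
    rw [← h1, sq_abs]
    have h2 := D.unit s hs
    have h3 := hg1 s hs
    have h4 : f s = g1 s / ρ := by
      rw [h3]
      field_simp
    rw [h4]
    field_simp
    linear_combination h2
  · -- cylinder
    right
    rw [Set.mem_singleton_iff] at hy
    subst hy
    have hf1 : ∀ s ∈ I, f1 s = 0 := by
      intro s hs
      rcases key s hs with h1 | h1
      · exfalso
        rw [hyI' s hs] at h1
        apply H0
        linarith
      · exact h1.1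
    refine ⟨f s0, D.pos s0 hs0, fun s hs => ?_⟩
    refine const_on D.opn D.con (fun t ht => ?_) hs hs0
    have h1 := D.df t ht
    rw [hf1 t ht] at h1
    exact h1

end Pool.Agent.Helper44.FT
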