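import Pool.Agent.Helper44.FT.FinRec
import Pool.Agent.Helper44.FT.LapR
import Pool.Agent.Helper44.FT.RealC

/-!
# Block FT-R5: the theorem for surfaces of revolution

Proof. Let `S : Sf (I ×ˢ J) f E F G L`. Define `P 0 = r`, `Q 0 = z`, `P (n+1) = - (P n)'' - (r'/r) (P n)' + P n / r²`, `Q (n+1) = - (Q n)'' - (r'/r) (Q n)'` (`deriv`; smooth on `I` by induction) and `Y n p = !₂[P n p.1 * cos p.2, P n p.1 * sin p.2, Q n p.1]`. By `lap_rot` `L (Y n) = Y (n+1)` on `U`.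
`fin_rec` gives the first alternative or `k`, `c0` with `Y (k+2) = ∑ c0 j • Y (j+1)` on `U`; comparing coordinates at a point of `J` (`cos² + sin² = 1`): `P (k+2) = ∑ c0 j P (j+1)`, `Q (k+2) = ∑ c0 j Q (j+1)` on `I`. Let `f1 = r'`, `g1 = z'`, `κ = r' z'' - z' r''`, `h = -(κ + z'/r)`, `p n = P (n+1)`, `q n = Q (n+1)`,
`p1 n = (p n)'`, `q1 n = (q n)'`. From `r'² + z'² = 1`: `r' r'' + z' z'' = 0`, so `r'' = -κ z'`, `z'' = κ r'`; `P 1 = - r'' - r'²/r + 1/r = κ z' + z'²/r = - h z'`, `Q 1 = - z'' - r' z'/r = h r'`. So `Data k c0 I r z r' z' κ h p q p1 q1` holds and `real_class` applies: `h = 0` on `I`: `P 1 = Q 1 = 0`, so `L f = L (Y 0) = Y 1 = 0` on `U`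
(`lap_congr`); sphere with centre `!₂[0, 0, c]`; circular cylinder with axis `!₂[0, 0, 1]` through `0`.
-/

namespace Pool.Agent.Helper44.FT

noncomputable def h2P (r : ℝ → ℝ) : ℕ → ℝ → ℝ
  | 0 => r
  | n + 1 => fun s => -deriv (deriv (h2P r n)) s - deriv r s / r s * deriv (h2P r n) s +
      h2P r n s / r s ^ 2

noncomputable def h2Q (r z : ℝ → ℝ) : ℕ → ℝ → ℝ
  | 0 => z
  | n + 1 => fun s => -deriv (deriv (h2Q r z n)) s - deriv r s / r s * deriv (h2Q r z n) s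

theorem h2_deriv_smooth {I : Set ℝ} (hI : IsOpen I) {u : ℝ → ℝ}
    (hu : ContDiffOn ℝ ((⊤ : ℕ∞) : WithTop ℕ∞) u I) :
    ContDiffOn ℝ ((⊤ : ℕ∞) : WithTop ℕ∞) (deriv u) I :=
  hu.deriv_of_isOpen hI (by simp)

theorem h2_hasDeriv {I : Set ℝ} (hI : IsOpen I) {u : ℝ → ℝ}
    (hu : ContDiffOn ℝ ((⊤ : ℕ∞) : WithTop ℕ∞) u I) {s : ℝ} (hs : s ∈ I) :
    HasDerivAt u (deriv u s) s := by
  have h1 : DifferentiableOn ℝ u I := hu.differentiableOn (by simp)
  exact ((h1 s hs).differentiableAt (hI.mem_nhds hs)).hasDerivAt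

theorem h2P_smooth {I : Set ℝ} (hI : IsOpen I) {r : ℝ → ℝ}
    (hr : ContDiffOn ℝ ((⊤ : ℕ∞) : WithTop ℕ∞) r I) (hpos : ∀ s ∈ I, 0 < r s) (n : ℕ) :
    ContDiffOn ℝ ((⊤ : ℕ∞) : WithTop ℕ∞) (h2P r n) I := by
  induction n with
  | zero => exact hr
  | succ n ih =>
    have h1 := h2_deriv_smooth hI ih
    have h2 := h2_deriv_smooth hI h1
    have h3 := h2_deriv_smooth hI hr
    have h4 : ContDiffOn ℝ ((⊤ : ℕ∞) : WithTop ℕ∞) (fun s => deriv r s / r s) I :=
      h3.div hr fun s hs => (hpos s hs).ne'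
    have h5 : ContDiffOn ℝ ((⊤ : ℕ∞) : WithTop ℕ∞) (fun s => h2P r n s / r s ^ 2) I :=
      ih.div (hr.pow 2) fun s hs => (pow_pos (hpos s hs) 2).ne'
    exact ((h2.neg.sub (h4.mul h1)).add h5)

theorem h2Q_smooth {I : Set ℝ} (hI : IsOpen I) {r z : ℝ → ℝ}
    (hr : ContDiffOn ℝ ((⊤ : ℕ∞) : WithTop ℕ∞) r I)
    (hz : ContDiffOn ℝ ((⊤ : ℕ∞) : WithTop ℕ∞) z I) (hpos : ∀ s ∈ I, 0 < r s) (n : ℕ) :
    ContDiffOn ℝ ((⊤ : ℕ∞) : WithTop ℕ∞) (h2Q r z n) I := by
  induction n with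
  | zero => exact hz
  | succ n ih =>
    have h1 := h2_deriv_smooth hI ih
    have h2 := h2_deriv_smooth hI h1
    have h3 := h2_deriv_smooth hI hr
    have h4 : ContDiffOn ℝ ((⊤ : ℕ∞) : WithTop ℕ∞) (fun s => deriv r s / r s) I :=
      h3.div hr fun s hs => (hpos s hs).ne'
    exact (h2.neg.sub (h4.mul h1))

theorem revolution (I J : Set ℝ) (r z : ℝ → ℝ) (f : ℝ × ℝ → EuclideanSpace ℝ (Fin 3))
    (E F G : ℝ × ℝ → ℝ)
    (L : (ℝ × ℝ → EuclideanSpace ℝ (Fin 3)) → ℝ × ℝ → EuclideanSpace ℝ (Fin 3))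
    (hI : IsOpen I) (hIc : IsConnected I) (hJ : IsOpen J) (hJc : J.Nonempty)
    (hr : ContDiffOn ℝ ((⊤ : ℕ∞) : WithTop ℕ∞) r I) (hz : ContDiffOn ℝ ((⊤ : ℕ∞) : WithTop ℕ∞) z I)
    (hpos : ∀ s ∈ I, 0 < r s) (hun : ∀ s ∈ I, deriv r s ^ 2 + deriv z s ^ 2 = 1)
    (hf : ∀ p ∈ I ×ˢ J, f p = !₂[r p.1 * Real.cos p.2, r p.1 * Real.sin p.2, z p.1])
    (S : Sf (I ×ˢ J) f E F G L)
    (hft : ∃ (k : ℕ) (x : Fin k → ℝ × ℝ → EuclideanSpace ℝ (Fin 3)) (lam : Fin k → ℝ),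
      (∀ i, ContDiffOn ℝ ((⊤ : ℕ∞) : WithTop ℕ∞) (x i) (I ×ˢ J)) ∧
      (∀ p ∈ I ×ˢ J, f p = ∑ i, x i p) ∧
      (∀ i, ∀ p ∈ I ×ˢ J, L (x i) p = lam i • x i p)) :
    (∀ p ∈ I ×ˢ J, L f p = 0) ∨
    (∃ (c : EuclideanSpace ℝ (Fin 3)) (ρ : ℝ), 0 < ρ ∧ ∀ p ∈ I ×ˢ J, ‖f p - c‖ = ρ) ∨
    (∃ (c a : EuclideanSpace ℝ (Fin 3)) (ρ : ℝ), ‖a‖ = 1 ∧ 0 < ρ ∧
      ∀ p ∈ I ×ˢ J, ‖(f p - c) - inner ℝ (f p - c) a • a‖ = ρ) := by
  -- the chain
  set Y : ℕ → ℝ × ℝ → EuclideanSpace ℝ (Fin 3) := fun n p =>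
    !₂[h2P r n p.1 * Real.cos p.2, h2P r n p.1 * Real.sin p.2, h2Q r z n p.1] with hY
  have hY0 : ∀ p ∈ I ×ˢ J, Y 0 p = f p := fun p hp => (hf p hp).symm
  have hYn : ∀ n, ∀ p ∈ I ×ˢ J, L (Y n) p = Y (n + 1) p := by
    intro n p hp
    rw [lap_rot hI hJ hr hz hpos hun S hf (h2P_smooth hI hr hpos n) (h2Q_smooth hI hr hz hpos n)
      (φ := Y n) (fun p _ => rfl) p hp]
    rfl
  rcases fin_rec S hft with h | ⟨k, c0, hrec⟩
  · exact Or.inl h
  have hrel := hrec Y hY0 hYn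
  obtain ⟨t0, ht0⟩ := hJc
  have hlastP : ∀ s ∈ I, h2P r (k + 2) s = ∑ j : Fin (k + 1), c0 j * h2P r (j.1 + 1) s := by
    intro s hs
    have h := hrel (s, t0) ⟨hs, ht0⟩
    have h0 := congrArg (fun v : EuclideanSpace ℝ (Fin 3) => v 0) h
    have h1 := congrArg (fun v : EuclideanSpace ℝ (Fin 3) => v 1) h
    simp only [hY, WithLp.ofLp_sum, Finset.sum_apply, PiLp.smul_apply, smul_eq_mul] at h0 h1
    simp at h0 h1
    have e0 : ∑ x : Fin (k + 1), c0 x * (h2P r (x.1 + 1) s * Real.cos t0) =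
        (∑ x : Fin (k + 1), c0 x * h2P r (x.1 + 1) s) * Real.cos t0 := by
      rw [Finset.sum_mul]
      exact Finset.sum_congr rfl fun x _ => by ring
    have e1 : ∑ x : Fin (k + 1), c0 x * (h2P r (x.1 + 1) s * Real.sin t0) =
        (∑ x : Fin (k + 1), c0 x * h2P r (x.1 + 1) s) * Real.sin t0 := by
      rw [Finset.sum_mul]
      exact Finset.sum_congr rfl fun x _ => by ring
    rw [e0] at h0
    rw [e1] at h1
    have hcs := Real.sin_sq_add_cos_sq t0
    linear_combination Real.cos t0 * h0 + Real.sin t0 * h1 -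
      (h2P r (k + 2) s - ∑ x : Fin (k + 1), c0 x * h2P r (x.1 + 1) s) * hcs
  have hlastQ : ∀ s ∈ I, h2Q r z (k + 2) s = ∑ j : Fin (k + 1), c0 j * h2Q r z (j.1 + 1) s := by
    intro s hs
    have h := hrel (s, t0) ⟨hs, ht0⟩
    have h2 := congrArg (fun v : EuclideanSpace ℝ (Fin 3) => v 2) h
    simp only [hY, WithLp.ofLp_sum, Finset.sum_apply, PiLp.smul_apply, smul_eq_mul] at h2
    simpa using h2
  -- first and second derivatives of the profile
  have hr1 := h2_deriv_smooth hI hr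
  have hz1 := h2_deriv_smooth hI hz
  have hrel2 : ∀ s ∈ I, deriv r s * deriv (deriv r) s + deriv z s * deriv (deriv z) s = 0 := by
    intro s hs
    have h1 : HasDerivAt (fun s => deriv r s ^ 2 + deriv z s ^ 2)
        (2 * deriv r s ^ 1 * deriv (deriv r) s + 2 * deriv z s ^ 1 * deriv (deriv z) s) s := by
      have ha := (h2_hasDeriv hI hr1 hs).pow 2
      have hb := (h2_hasDeriv hI hz1 hs).pow 2
      exact ha.add hb
    have h2 : HasDerivAt (fun s => deriv r s ^ 2 + deriv z s ^ 2) 0 s := by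
      have : (fun s => deriv r s ^ 2 + deriv z s ^ 2) =ᶠ[nhds s] fun _ => (1 : ℝ) := by
        filter_upwards [hI.mem_nhds hs] with x hx using hun x hx
      exact (hasDerivAt_const s (1 : ℝ)).congr_of_eventuallyEq this
    have h3 := h1.unique h2
    simp only [pow_one] at h3
    linarith
  let κ : ℝ → ℝ := fun s => deriv r s * deriv (deriv z) s - deriv z s * deriv (deriv r) s
  let h : ℝ → ℝ := fun s => -(κ s + deriv z s / r s)
  have hrr : ∀ s ∈ I, deriv (deriv r) s = -(κ s * deriv z s) := by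
    intro s hs
    have h1 := hrel2 s hs
    have h2 := hun s hs
    simp only [κ]
    linear_combination (-deriv (deriv r) s) * h2 + deriv r s * h1
  have hzz : ∀ s ∈ I, deriv (deriv z) s = κ s * deriv r s := by
    intro s hs
    have h1 := hrel2 s hs
    have h2 := hun s hs
    simp only [κ]
    linear_combination (-deriv (deriv z) s) * h2 + deriv z s * h1
  have hP1 : ∀ s ∈ I, h2P r 1 s = -(h s * deriv z s) := by
    intro s hs
    have h0 := (hpos s hs).ne'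
    have h2 := hun s hs
    have e : h2P r 1 s = -deriv (deriv r) s - deriv r s / r s * deriv r s + r s / r s ^ 2 := rfl
    rw [e, hrr s hs]
    simp only [h]
    field_simp
    linear_combination -h2
  have hQ1 : ∀ s ∈ I, h2Q r z 1 s = h s * deriv r s := by
    intro s hs
    have h0 := (hpos s hs).ne'
    have e : h2Q r z 1 s = -deriv (deriv z) s - deriv r s / r s * deriv z s := rfl
    rw [e, hzz s hs]
    simp only [h]
    field_simp
    ring
  have D : Data k c0 I r z (deriv r) (deriv z) κ h (fun n => h2P r (n + 1)) (fun n => h2Q r z (n + 1))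
      (fun n => deriv (h2P r (n + 1))) (fun n => deriv (h2Q r z (n + 1))) :=
    { opn := hI
      con := hIc.isPreconnected
      pos := hpos
      df := fun s hs => h2_hasDeriv hI hr hs
      dg := fun s hs => h2_hasDeriv hI hz hs
      unit := hun
      df1 := fun s hs => by
        rw [← hrr s hs]
        exact h2_hasDeriv hI hr1 hs
      dg1 := fun s hs => by
        rw [← hzz s hs]
        exact h2_hasDeriv hI hz1 hs
      hh := fun s hs => rfl
      p0 := hP1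
      q0 := hQ1
      dp := fun n _ s hs => h2_hasDeriv hI (h2P_smooth hI hr hpos (n + 1)) hs
      dq := fun n _ s hs => h2_hasDeriv hI (h2Q_smooth hI hr hz hpos (n + 1)) hs
      dp1 := fun n _ s hs => by
        have h1 := h2_hasDeriv hI (h2_deriv_smooth hI (h2P_smooth hI hr hpos (n + 1))) hs
        have e : deriv (deriv (h2P r (n + 1))) s =
            -h2P r (n + 1 + 1) s - deriv r s / r s * deriv (h2P r (n + 1)) s +
              h2P r (n + 1) s / r s ^ 2 := by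
          have e1 : h2P r (n + 1 + 1) s = -deriv (deriv (h2P r (n + 1))) s -
            deriv r s / r s * deriv (h2P r (n + 1)) s + h2P r (n + 1) s / r s ^ 2 := rfl
          rw [e1]; ring
        rw [← e]
        exact h1
      dq1 := fun n _ s hs => by
        have h1 := h2_hasDeriv hI (h2_deriv_smooth hI (h2Q_smooth hI hr hz hpos (n + 1))) hs
        have e : deriv (deriv (h2Q r z (n + 1))) s =
            -h2Q r z (n + 1 + 1) s - deriv r s / r s * deriv (h2Q r z (n + 1)) s := by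
          have e1 : h2Q r z (n + 1 + 1) s = -deriv (deriv (h2Q r z (n + 1))) s -
            deriv r s / r s * deriv (h2Q r z (n + 1)) s := rfl
          rw [e1]; ring
        rw [← e]
        exact h1
      lastp := hlastP
      lastq := hlastQ }
  rcases real_class D with h1 | ⟨c, ρ, hρ, h1⟩ | ⟨ρ, hρ, h1⟩
  · left
    intro p hp
    rw [lap_congr S (fun q hq => (hY0 q hq).symm) p hp, hYn 0 p hp]
    have e1 : h2P r 1 p.1 = 0 := by rw [hP1 p.1 hp.1, h1 p.1 hp.1]; simp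
    have e2 : h2Q r z 1 p.1 = 0 := by rw [hQ1 p.1 hp.1, h1 p.1 hp.1]; simp
    ext i
    fin_cases i <;> simp [hY, e1, e2]
  · right; left
    refine ⟨!₂[0, 0, c], ρ, hρ, ?_⟩
    intro p hp
    rw [hf p hp, EuclideanSpace.norm_eq, Fin.sum_univ_three]
    have e : ‖(!₂[r p.1 * Real.cos p.2, r p.1 * Real.sin p.2, z p.1] - !₂[0, 0, c] :
          EuclideanSpace ℝ (Fin 3)) 0‖ ^ 2 +
        ‖(!₂[r p.1 * Real.cos p.2, r p.1 * Real.sin p.2, z p.1] - !₂[0, 0, c] :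
          EuclideanSpace ℝ (Fin 3)) 1‖ ^ 2 +
        ‖(!₂[r p.1 * Real.cos p.2, r p.1 * Real.sin p.2, z p.1] - !₂[0, 0, c] :
          EuclideanSpace ℝ (Fin 3)) 2‖ ^ 2 = ρ ^ 2 := by
      simp only [Real.norm_eq_abs, sq_abs, PiLp.sub_apply]
      simp
      have h2 := h1 p.1 hp.1
      have h3 := Real.sin_sq_add_cos_sq p.2
      linear_combination h2 + r p.1 ^ 2 * h3
    rw [e, Real.sqrt_sq hρ.le]
  · right; right
    refine ⟨0, !₂[0, 0, 1], ρ, ?_, hρ, ?_⟩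
    · rw [EuclideanSpace.norm_eq, Fin.sum_univ_three]
      simp
    · intro p hp
      have hin : inner ℝ (f p - 0) (!₂[0, 0, 1] : EuclideanSpace ℝ (Fin 3)) = z p.1 := by
        rw [sub_zero, hf p hp, PiLp.inner_apply, Fin.sum_univ_three]
        simp
      rw [hin, sub_zero, hf p hp, EuclideanSpace.norm_eq, Fin.sum_univ_three]
      have e : ‖(!₂[r p.1 * Real.cos p.2, r p.1 * Real.sin p.2, z p.1] -
            z p.1 • !₂[0, 0, 1] : EuclideanSpace ℝ (Fin 3)) 0‖ ^ 2 +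
          ‖(!₂[r p.1 * Real.cos p.2, r p.1 * Real.sin p.2, z p.1] -
            z p.1 • !₂[0, 0, 1] : EuclideanSpace ℝ (Fin 3)) 1‖ ^ 2 +
          ‖(!₂[r p.1 * Real.cos p.2, r p.1 * Real.sin p.2, z p.1] -
            z p.1 • !₂[0, 0, 1] : EuclideanSpace ℝ (Fin 3)) 2‖ ^ 2 = ρ ^ 2 := by
        simp only [Real.norm_eq_abs, sq_abs, PiLp.sub_apply, PiLp.smul_apply]
        simp
        have h2 := h1 p.1 hp.1
        have h3 := Real.sin_sq_add_cos_sq p.2
        rw [h2]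
        linear_combination ρ ^ 2 * h3
      rw [e, Real.sqrt_sq hρ.le]

end Pool.Agent.Helper44.FT
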