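import Pool.Agent.Helper44.FT.LieBound
import Pool.Agent.Helper44.FT.LieHom

/-!
# Block FT-L3: the local flow given by the Lie series

Everything for `‖p‖ ≤ R` and `‖t‖ < r`, with `A` from `lie_bound` for `R` (`r = 1 / (4 A)` is a good choice). (a) `hasSum`: for `F = X i` the sum
converges absolutely by `lie_bound`. Both sides are multiplicative and additive in `F` (`tay_mul`,
`tsum_mul_tsum_eq_tsum_sum_antidiagonal_of_summable_norm`), so the formula holds for all `F`
(`MvPolynomial.induction_on`; for each `F` the series converges absolutely by `lie_bound`). (b) `deriv`: by (a) `eval (fl P t p) F` is a convergent power series in `t`; differentiate termwise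
(`hasDerivAt_tsum_of_isPreconnected` on the ball, or `HasFPowerSeriesOnBall`); the derived series is the one of
`dv P F` (`it_succ`). (c) `lip`, `second`: `|∑ j ≥ 1| ≤ C |t|`, `|∑ j ≥ 2| ≤ C |t|²` by `lie_bound`.
(d) `holo`: a locally uniformly convergent series of holomorphic functions
(`differentiableOn_tsum_of_summable_norm`; the terms are polynomials in `q τ` and `s τ`; differentiability into `ι → ℂ`
is coordinatewise, `differentiableOn_pi`).
-/

namespace Pool.Agent.Helper44.FT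

open MvPolynomial

/-- Properties of the local flow up to time `r` on the ball of radius `R`. -/
structure FlowOn {ι : Type*} [Fintype ι] (P : ι → MvPolynomial ι ℂ) (R r C : ℝ) : Prop where
  pos : 0 < r
  hasSum : ∀ p : ι → ℂ, ‖p‖ ≤ R → ∀ t : ℂ, ‖t‖ < r → ∀ F : MvPolynomial ι ℂ,
    HasSum (fun j : ℕ => it P F p j * t ^ j / (j.factorial : ℂ)) (eval (fl P t p) F)
  deriv : ∀ p : ι → ℂ, ‖p‖ ≤ R → ∀ t : ℂ, ‖t‖ < r → ∀ F : MvPolynomial ι ℂ,
    HasDerivAt (fun t => eval (fl P t p) F) (eval (fl P t p) (dv P F)) t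
  lip : ∀ p : ι → ℂ, ‖p‖ ≤ R → ∀ t : ℂ, ‖t‖ < r → ‖fl P t p - p‖ ≤ C * ‖t‖
  second : ∀ p : ι → ℂ, ‖p‖ ≤ R → ∀ t : ℂ, ‖t‖ < r →
    ‖fl P t p - p - t • (fun i => eval p (P i))‖ ≤ C * ‖t‖ ^ 2
  holo : ∀ (U : Set ℂ), IsOpen U → ∀ (s : ℂ → ℂ) (q : ℂ → ι → ℂ), DifferentiableOn ℂ s U →
    DifferentiableOn ℂ q U → (∀ τ ∈ U, ‖q τ‖ ≤ R ∧ ‖s τ‖ < r) →
    DifferentiableOn ℂ (fun τ => fl P (s τ) (q τ)) U

namespace FlowAux

/-- Bound of the tail of a series dominated by a geometric series. -/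
theorem tail_le {g : ℕ → ℂ} {B x : ℝ} (hx0 : 0 ≤ x) (hx : x ≤ 1 / 2) (hg : ∀ j, ‖g j‖ ≤ B * x ^ j)
    (k : ℕ) : ‖(∑' j, g j) - ∑ j ∈ Finset.range k, g j‖ ≤ 2 * B * x ^ k := by
  have hx1 : x < 1 := by linarith
  have hsum : Summable (fun j => B * x ^ j) := (summable_geometric_of_lt_one hx0 hx1).mul_left B
  have hgs : Summable g := Summable.of_norm_bounded hsum hg
  have hB : 0 ≤ B := by
    have := (norm_nonneg _).trans (hg 0)
    simpa using this
  rw [← hgs.sum_add_tsum_nat_add k, add_sub_cancel_left]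
  have h1 : ∀ j, ‖g (j + k)‖ ≤ B * x ^ k * x ^ j := by
    intro j
    refine (hg (j + k)).trans (le_of_eq ?_)
    rw [pow_add]
    ring
  have h2 : HasSum (fun j : ℕ => B * x ^ k * x ^ j) (B * x ^ k * (1 - x)⁻¹) :=
    (hasSum_geometric_of_lt_one hx0 hx1).mul_left _
  refine (tsum_of_norm_bounded h2 h1).trans ?_
  have h3 : (1 - x)⁻¹ ≤ 2 := by
    rw [inv_le_comm₀ (by linarith) (by norm_num)]
    linarith
  calc B * x ^ k * (1 - x)⁻¹ ≤ B * x ^ k * 2 :=
        mul_le_mul_of_nonneg_left h3 (mul_nonneg hB (pow_nonneg hx0 k))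
    _ = 2 * B * x ^ k := by ring

/-- The term bound. -/
theorem term_le {ι : Type*} {P : ι → MvPolynomial ι ℂ} {F : MvPolynomial ι ℂ} {p : ι → ℂ} {A B : ℝ}
    (h : ∀ j : ℕ, ‖it P F p j‖ ≤ B * A ^ j * (j.factorial : ℝ)) (t : ℂ) (j : ℕ) :
    ‖it P F p j * t ^ j / (j.factorial : ℂ)‖ ≤ B * (A * ‖t‖) ^ j := by
  have hf : (0 : ℝ) < (j.factorial : ℝ) := by exact_mod_cast j.factorial_pos
  rw [norm_div, norm_mul, norm_pow, Complex.norm_natCast, div_le_iff₀ hf]
  calc ‖it P F p j‖ * ‖t‖ ^ j ≤ B * A ^ j * (j.factorial : ℝ) * ‖t‖ ^ j :=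
        mul_le_mul_of_nonneg_right (h j) (pow_nonneg (norm_nonneg t) j)
    _ = B * (A * ‖t‖) ^ j * (j.factorial : ℝ) := by rw [mul_pow]; ring

theorem coeff_tay {ι : Type*} (P : ι → MvPolynomial ι ℂ) (p : ι → ℂ) (F : MvPolynomial ι ℂ) (j : ℕ) :
    PowerSeries.coeff j (tay P p F) = it P F p j / (j.factorial : ℂ) := by
  unfold tay
  rw [PowerSeries.coeff_mk]

/-- A term of the Lie series by means of the Taylor series. -/
theorem term_eq {ι : Type*} (P : ι → MvPolynomial ι ℂ) (p : ι → ℂ) (F : MvPolynomial ι ℂ) (t : ℂ)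
    (j : ℕ) : it P F p j * t ^ j / (j.factorial : ℂ) = PowerSeries.coeff j (tay P p F) * t ^ j := by
  rw [coeff_tay]
  ring

theorem hasSum_eval {ι : Type*} [Fintype ι] (P : ι → MvPolynomial ι ℂ) {A : ℝ} {p : ι → ℂ}
    (hA0 : 0 ≤ A)
    (hA : ∀ F : MvPolynomial ι ℂ, ∃ B : ℝ, 0 ≤ B ∧
      ∀ j : ℕ, ‖it P F p j‖ ≤ B * A ^ j * (j.factorial : ℝ)) {t : ℂ} (ht : A * ‖t‖ < 1)
    (F : MvPolynomial ι ℂ) :
    HasSum (fun j : ℕ => it P F p j * t ^ j / (j.factorial : ℂ)) (eval (fl P t p) F) := by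
  have hx0 : 0 ≤ A * ‖t‖ := mul_nonneg hA0 (norm_nonneg t)
  have hsn : ∀ F : MvPolynomial ι ℂ,
      Summable (fun j : ℕ => ‖it P F p j * t ^ j / (j.factorial : ℂ)‖) := by
    intro F
    obtain ⟨B, hB0, hB⟩ := hA F
    refine Summable.of_nonneg_of_le (fun j => norm_nonneg _) (fun j => term_le hB t j) ?_
    exact (summable_geometric_of_lt_one hx0 ht).mul_left B
  induction F using MvPolynomial.induction_on with
  | C a =>
    have h1 : (fun j : ℕ => it P (C a) p j * t ^ j / (j.factorial : ℂ)) =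
        fun j => if j = 0 then a else 0 := by
      funext j
      rw [term_eq, tay_C, PowerSeries.coeff_C]
      by_cases hj : j = 0
      · simp [hj]
      · simp [hj]
    rw [h1, eval_C]
    exact hasSum_ite_eq 0 a
  | add F G hF hG =>
    have h1 : (fun j : ℕ => it P (F + G) p j * t ^ j / (j.factorial : ℂ)) =
        fun j => it P F p j * t ^ j / (j.factorial : ℂ) + it P G p j * t ^ j / (j.factorial : ℂ) := by
      funext j
      rw [it_add]
      ring
    rw [h1, eval_add]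
    exact hF.add hG
  | mul_X F i hF =>
    have hX : HasSum (fun j : ℕ => it P (X i) p j * t ^ j / (j.factorial : ℂ)) (fl P t p i) :=
      ((hsn (X i)).of_norm).hasSum
    have hprod := tsum_mul_tsum_eq_tsum_sum_antidiagonal_of_summable_norm (hsn F) (hsn (X i))
    have h1 : (fun j : ℕ => it P (F * X i) p j * t ^ j / (j.factorial : ℂ)) =
        fun j => ∑ kl ∈ Finset.HasAntidiagonal.antidiagonal j, (it P F p kl.1 * t ^ kl.1 / (kl.1.factorial : ℂ)) *
          (it P (X i) p kl.2 * t ^ kl.2 / (kl.2.factorial : ℂ)) := by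
      funext j
      rw [term_eq, tay_mul, PowerSeries.coeff_mul, Finset.sum_mul]
      refine Finset.sum_congr rfl (fun kl hkl => ?_)
      rw [coeff_tay, coeff_tay]
      have : t ^ j = t ^ kl.1 * t ^ kl.2 := by
        rw [← pow_add, Finset.HasAntidiagonal.mem_antidiagonal.1 hkl]
      rw [this]
      ring
    have h2 : Summable (fun j : ℕ => it P (F * X i) p j * t ^ j / (j.factorial : ℂ)) :=
      (hsn (F * X i)).of_norm
    rw [eval_mul, eval_X, ← hF.tsum_eq, ← hX.tsum_eq, hprod]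
    have h3 := h2.hasSum
    rw [h1] at h3 ⊢
    exact h3

theorem differentiableOn_eval {ι : Type*} [Fintype ι] (G : MvPolynomial ι ℂ) {U : Set ℂ}
    {q : ℂ → ι → ℂ} (hq : DifferentiableOn ℂ q U) :
    DifferentiableOn ℂ (fun τ => eval (q τ) G) U := by
  induction G using MvPolynomial.induction_on with
  | C a =>
    simp only [eval_C]
    exact differentiableOn_const a
  | add F G hF hG =>
    simp only [eval_add]
    exact hF.add hG
  | mul_X F i hF =>
    simp only [eval_mul, eval_X]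
    exact hF.mul ((differentiableOn_pi.1 hq) i)

theorem hasDerivAt_eval {ι : Type*} [Fintype ι] (P : ι → MvPolynomial ι ℂ) {A r : ℝ} {p : ι → ℂ}
    (hA0 : 0 < A)
    (hA : ∀ F : MvPolynomial ι ℂ, ∃ B : ℝ, 0 ≤ B ∧
      ∀ j : ℕ, ‖it P F p j‖ ≤ B * A ^ j * (j.factorial : ℝ)) (hr0 : 0 < r) (hr : A * r = 1 / 4)
    {t : ℂ} (ht : ‖t‖ < r) (F : MvPolynomial ι ℂ) :
    HasDerivAt (fun t => eval (fl P t p) F) (eval (fl P t p) (dv P F)) t := by
  obtain ⟨B, hB0, hB⟩ := hA F
  have hlt : ∀ y : ℂ, ‖y‖ < r → A * ‖y‖ < 1 := by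
    intro y hy
    have := mul_lt_mul_of_pos_left hy hA0
    linarith
  have hsum : ∀ y : ℂ, ‖y‖ < r → ∀ F : MvPolynomial ι ℂ,
      HasSum (fun j : ℕ => it P F p j * y ^ j / (j.factorial : ℂ)) (eval (fl P y p) F) :=
    fun y hy F => hasSum_eval P hA0.le hA (hlt y hy) F
  let g : ℕ → ℂ → ℂ := fun n z => it P F p n * z ^ n / (n.factorial : ℂ)
  let g' : ℕ → ℂ → ℂ := fun n z => it P F p n * ((n : ℂ) * z ^ (n - 1)) / (n.factorial : ℂ)
  let u : ℕ → ℝ := fun n => 4 * A * B * (1 / 2) ^ n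
  have hu : Summable u := (summable_geometric_of_lt_one (by norm_num) (by norm_num)).mul_left _
  have hg : ∀ n y, y ∈ Metric.ball (0 : ℂ) r → HasDerivAt (g n) (g' n y) y := by
    intro n y _
    exact ((hasDerivAt_pow n y).const_mul (it P F p n)).div_const _
  have hg' : ∀ n y, y ∈ Metric.ball (0 : ℂ) r → ‖g' n y‖ ≤ u n := by
    intro n y hy
    have hy' : ‖y‖ < r := by simpa using hy
    rcases Nat.eq_zero_or_pos n with hn | hn
    · subst hn
      have : g' 0 y = 0 := by simp [g']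
      rw [this, norm_zero]
      positivity
    · obtain ⟨m, rfl⟩ : ∃ m, n = m + 1 := ⟨n - 1, by omega⟩
      have hf : (0 : ℝ) < ((m + 1).factorial : ℝ) := by exact_mod_cast (m + 1).factorial_pos
      have h1 : ‖g' (m + 1) y‖ = ‖it P F p (m + 1)‖ * (((m + 1 : ℕ) : ℝ) * ‖y‖ ^ m) /
          ((m + 1).factorial : ℝ) := by
        simp only [g']
        rw [norm_div, norm_mul, norm_mul, norm_pow, Complex.norm_natCast, Complex.norm_natCast,
          Nat.add_sub_cancel]
      rw [h1, div_le_iff₀ hf]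
      have h2 : (((m + 1 : ℕ) : ℝ)) ≤ 2 ^ (m + 1) := by
        exact_mod_cast (Nat.lt_two_pow_self (n := m + 1)).le
      have h3 : ‖y‖ ^ m ≤ r ^ m := pow_le_pow_left₀ (norm_nonneg y) hy'.le m
      have h4 : ((m + 1 : ℕ) : ℝ) * ‖y‖ ^ m ≤ 2 ^ (m + 1) * r ^ m :=
        mul_le_mul h2 h3 (pow_nonneg (norm_nonneg y) m) (by positivity)
      have h5 : ‖it P F p (m + 1)‖ * (((m + 1 : ℕ) : ℝ) * ‖y‖ ^ m) ≤
          (B * A ^ (m + 1) * ((m + 1).factorial : ℝ)) * (2 ^ (m + 1) * r ^ m) :=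
        mul_le_mul (hB (m + 1)) h4 (by positivity) (by positivity)
      refine h5.trans (le_of_eq ?_)
      have h6 : A ^ (m + 1) * r ^ m = A * (1 / 4) ^ m := by
        rw [pow_succ, mul_comm (A ^ m) A, mul_assoc, ← mul_pow, hr]
      have h7 : (2 : ℝ) ^ (m + 1) * (1 / 4) ^ m = 2 * (1 / 2) ^ m := by
        rw [pow_succ, mul_comm ((2 : ℝ) ^ m) 2, mul_assoc, ← mul_pow]
        norm_num
      simp only [u]
      calc B * A ^ (m + 1) * ((m + 1).factorial : ℝ) * (2 ^ (m + 1) * r ^ m)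
          = B * ((m + 1).factorial : ℝ) * 2 ^ (m + 1) * (A ^ (m + 1) * r ^ m) := by ring
        _ = B * ((m + 1).factorial : ℝ) * A * ((2 : ℝ) ^ (m + 1) * (1 / 4) ^ m) := by
            rw [h6]; ring
        _ = 4 * A * B * (1 / 2) ^ (m + 1) * ((m + 1).factorial : ℝ) := by
            rw [h7, pow_succ]; ring
  have h0 : (0 : ℂ) ∈ Metric.ball (0 : ℂ) r := by simpa using hr0
  have ht' : t ∈ Metric.ball (0 : ℂ) r := by simpa using ht
  have hs0 : Summable (g · 0) := (hsum 0 (by simpa using hr0) F).summable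
  have key := hasDerivAt_tsum_of_isPreconnected hu Metric.isOpen_ball
    (convex_ball (0 : ℂ) r).isPreconnected hg hg' h0 hs0 ht'
  have hval : (∑' n, g' n t) = eval (fl P t p) (dv P F) := by
    have hsg' : Summable (fun n => g' n t) :=
      Summable.of_norm_bounded hu (fun n => hg' n t ht')
    rw [hsg'.tsum_eq_zero_add]
    have hz : g' 0 t = 0 := by simp [g']
    rw [hz, zero_add, ← (hsum t ht (dv P F)).tsum_eq]
    refine tsum_congr (fun n => ?_)
    simp only [g']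
    rw [it_succ, Nat.add_sub_cancel, Nat.factorial_succ, Nat.cast_mul]
    have hn : ((n + 1 : ℕ) : ℂ) ≠ 0 := by exact_mod_cast n.succ_ne_zero
    have hf : (n.factorial : ℂ) ≠ 0 := by exact_mod_cast n.factorial_ne_zero
    field_simp
  rw [hval] at key
  refine key.congr_of_eventuallyEq ?_
  filter_upwards [Metric.isOpen_ball.mem_nhds ht'] with y hy
  exact ((hsum y (by simpa using hy) F).tsum_eq).symm

end FlowAux

theorem exists_flowOn {ι : Type*} [Fintype ι] (P : ι → MvPolynomial ι ℂ) (R : ℝ) :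
    ∃ r C : ℝ, 0 ≤ C ∧ FlowOn P R r C := by
  obtain ⟨A, hA1, hA⟩ := lie_bound P R
  have hA0 : 0 < A := by linarith
  choose B hB0 hB using fun i : ι => hA (X i)
  have hAp : ∀ p : ι → ℂ, ‖p‖ ≤ R → ∀ F : MvPolynomial ι ℂ, ∃ B : ℝ, 0 ≤ B ∧
      ∀ j : ℕ, ‖it P F p j‖ ≤ B * A ^ j * (j.factorial : ℝ) := by
    intro p hp F
    obtain ⟨B, hB0, hB⟩ := hA F
    exact ⟨B, hB0, hB p hp⟩
  set r : ℝ := 1 / (4 * A) with hr_def
  have hr0 : 0 < r := by positivity
  have hr : A * r = 1 / 4 := by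
    rw [hr_def]
    field_simp
  have hx : ∀ t : ℂ, ‖t‖ < r → A * ‖t‖ ≤ 1 / 4 := by
    intro t ht
    have := mul_lt_mul_of_pos_left ht hA0
    linarith
  have hx0 : ∀ t : ℂ, 0 ≤ A * ‖t‖ := fun t => mul_nonneg hA0.le (norm_nonneg t)
  set S : ℝ := ∑ i, B i with hS
  have hS0 : 0 ≤ S := Finset.sum_nonneg (fun i _ => hB0 i)
  have hBS : ∀ i, B i ≤ S := fun i => Finset.single_le_sum (fun i _ => hB0 i) (Finset.mem_univ i)
  refine ⟨r, 2 * S * A ^ 2, by positivity, ?_⟩
  have hAA : A ≤ A ^ 2 := by nlinarith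
  refine ⟨hr0, ?_, ?_, ?_, ?_, ?_⟩
  · intro p hp t ht F
    exact FlowAux.hasSum_eval P hA0.le (hAp p hp) (by linarith [hx t ht]) F
  · intro p hp t ht F
    exact FlowAux.hasDerivAt_eval P hA0 (hAp p hp) hr0 hr ht F
  · intro p hp t ht
    rw [pi_norm_le_iff_of_nonneg (by positivity)]
    intro i
    have h1 := FlowAux.tail_le (g := fun j : ℕ => it P (X i) p j * t ^ j / (j.factorial : ℂ))
      (hx0 t) (by linarith [hx t ht]) (FlowAux.term_le (hB i p hp) t) 1
    have h2 : (fl P t p - p) i = (∑' j : ℕ, it P (X i) p j * t ^ j / (j.factorial : ℂ)) -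
        ∑ j ∈ Finset.range 1, it P (X i) p j * t ^ j / (j.factorial : ℂ) := by
      simp [fl]
    rw [h2]
    refine h1.trans ?_
    rw [pow_one]
    calc 2 * B i * (A * ‖t‖) = 2 * (B i * A) * ‖t‖ := by ring
      _ ≤ 2 * (S * A ^ 2) * ‖t‖ := by
          have : B i * A ≤ S * A ^ 2 := mul_le_mul (hBS i) hAA hA0.le hS0
          have h3 := norm_nonneg t
          nlinarith
      _ = 2 * S * A ^ 2 * ‖t‖ := by ring
  · intro p hp t ht
    rw [pi_norm_le_iff_of_nonneg (by positivity)]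
    intro i
    have h1 := FlowAux.tail_le (g := fun j : ℕ => it P (X i) p j * t ^ j / (j.factorial : ℂ))
      (hx0 t) (by linarith [hx t ht]) (FlowAux.term_le (hB i p hp) t) 2
    have h2 : (fl P t p - p - t • (fun i => eval p (P i))) i =
        (∑' j : ℕ, it P (X i) p j * t ^ j / (j.factorial : ℂ)) -
        ∑ j ∈ Finset.range 2, it P (X i) p j * t ^ j / (j.factorial : ℂ) := by
      rw [Finset.sum_range_succ, Finset.sum_range_one, it_zero, it_succ, dv_X, it_zero]
      simp [fl]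
      ring
    rw [h2]
    refine h1.trans ?_
    calc 2 * B i * (A * ‖t‖) ^ 2 = 2 * (B i) * (A ^ 2 * ‖t‖ ^ 2) := by ring
      _ ≤ 2 * S * (A ^ 2 * ‖t‖ ^ 2) := by
          have h3 : 0 ≤ A ^ 2 * ‖t‖ ^ 2 := by positivity
          have := hBS i
          nlinarith
      _ = 2 * S * A ^ 2 * ‖t‖ ^ 2 := by ring
  · intro U hU s q hs hq hb
    rw [differentiableOn_pi]
    intro i
    have h1 : DifferentiableOn ℂ
        (fun τ => ∑' j : ℕ, it P (X i) (q τ) j * (s τ) ^ j / (j.factorial : ℂ)) U := by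
      refine Complex.differentiableOn_tsum_of_summable_norm (u := fun j => B i * (1 / 4) ^ j)
        ((summable_geometric_of_lt_one (by norm_num) (by norm_num)).mul_left _) ?_ hU ?_
      · intro j
        refine DifferentiableOn.div_const (DifferentiableOn.mul ?_ (hs.pow j)) _
        exact FlowAux.differentiableOn_eval _ hq
      · intro j τ hτ
        refine (FlowAux.term_le (hB i (q τ) (hb τ hτ).1) (s τ) j).trans ?_
        exact mul_le_mul_of_nonneg_left (pow_le_pow_left₀ (hx0 _) (hx _ (hb τ hτ).2) j) (hB0 i)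
    exact h1

end Pool.Agent.Helper44.FT
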