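import Pool.Agent.Helper44.FT.Liou
import Pool.Agent.Helper44.FT.FlowB

/-!
# Block FT-LF: Liouville lemma for the flow of a polynomial vector field

`liouville` with `Ψ = fl P`, `V p i = eval p (P i)`, `FlowOn` for a radius `R > M` (`exists_flowOn`), and `r` the minimum of the two times: `fl_zero`, `FlowOn.holo`, `fl_der`.
-/

namespace Pool.Agent.Helper44.FT

open MvPolynomial

theorem liou_flow {ι : Type*} [Fintype ι] (P : ι → MvPolynomial ι ℂ) (S : Set (ι → ℂ)) (M : ℝ)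
    (hM : ∀ p ∈ S, ‖p‖ ≤ M)
    (hS : ∃ r : ℝ, 0 < r ∧ ∀ p ∈ S, ∀ t : ℂ, ‖t‖ < r → fl P t p ∈ S) :
    ∀ p ∈ S, ∀ i, eval p (P i) = 0 := by
  obtain ⟨r, hr, hS⟩ := hS
  obtain ⟨r1, C, -, hF⟩ := exists_flowOn P M
  intro p hp i
  have h := liouville S M (min r r1) (lt_min hr hF.pos) hM (fl P) (fun p i => eval p (P i))
    (fun p _ => fl_zero P p)
    (fun p hp t ht => hS p hp t (lt_of_lt_of_le ht (min_le_left _ _)))
    (fun U hU s q hs hq h => hF.holo U hU s q hs hq fun τ hτ =>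
      ⟨hM _ (h τ hτ).1, lt_of_lt_of_le (h τ hτ).2 (min_le_right _ _)⟩)
    (fun q q' a hq hq' => fl_der hF hq' (hq.mono fun τ hτ => hM _ hτ) a)
    p hp
  exact congrFun h i

end Pool.Agent.Helper44.FT
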