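import Pool.Agent.Helper44.FT.Axis

/-!
# Block FT-F1: Landau inequality along the circles `|f| = r`

Notation for `x = (p, f) ∈ Nr c0 r0`: `u_n = f * UU_n`, `v_n = f² * PP_n`, `C = f * mm = (E + 1/E)/2`, `‖C - 1‖ ≤ 1/8`, so `‖1/C‖ ≤ 8/7`, `‖1/C - 1‖ ≤ 1/7`; `c = max 1 (∑ ‖c0 j‖)`.
Along the curve `g` of `StepD.step` with radius `f e^w`, `u_n(w) = f e^w UU_n (g w)`, `v_n(w) = (f e^w)² PP_n (g w)`: by `dv_UU`, `dv_PP`  `u_n' = v_n / C`, `v_n' = - (f e^w)² u_(n+1) / C`, where `u_(k+1) = ∑ c0 j u_j`.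
Let `‖f‖ = r`, `B` as in the hypothesis. For `w = i t`, `t` real, `‖f e^w‖ = r`, so `‖u_(n+1)‖ ≤ c B`, `‖v_n'‖ ≤ (8/7) r² c B ≤ 2 r² c B`. Put `ε = w0 / 2`. By induction on `N`: for every `x ∈ Nr`, `‖x.2‖ = r`, there is `y ∈ Nr`, `‖y.2‖ = r`, with `‖v_n(y) - v_n(x)‖ ≤ 2 r² c B N ε`,
`‖u_n(y) - u_n(x) - i N ε v_n(x)‖ ≤ N ε ‖v_n(x)‖ / 7 + 3 r² c B (N ε)²` (one step: the curve `t ↦ g (i t)` on `[0, ε]` from `y_N`; mean value inequality `Convex.norm_image_sub_le_of_norm_hasDerivWithin_le` or `norm_image_sub_le_of_norm_deriv_le_segment'` for `u_n(it) - i t v_n(x)`, whose derivative is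
`i (v_n/C - v_n(x)) = i ((v_n - v_n(x))/C + v_n(x) (1/C - 1))`, of absolute value `≤ (8/7) 2 r² c B (N+1) ε + ‖v_n(x)‖/7`; and `(16/7) ∑_{j<N} (j+1) ≤ (16/7) N² ≤ 3 N²`). As `‖u_n‖ ≤ B` at `x` and `y`: `(6/7) N ε ‖v_n(x)‖ ≤ 2 B + 3 r² c B (N ε)²`. Take `N ε ∈ [1/r, 2/r]` (`r, ε ≤ 1`): `‖v_n(x)‖ ≤ (7/6) (2 + 6 c) r B`. So `C1 = 10 c` works.
-/

namespace Pool.Agent.Helper44.FT

open MvPolynomial

variable {k : ℕ}

namespace Lan

/-- `u_n` -/
noncomputable def uu (n : Fin (k + 1)) (x : (Va k → ℂ) × ℂ) : ℂ := x.2 * eval x.1 (UU n)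

/-- `v_n` -/
noncomputable def vv (n : Fin (k + 1)) (x : (Va k → ℂ) × ℂ) : ℂ := x.2 ^ 2 * eval x.1 (PP n)

/-- `C` -/
noncomputable def cc (x : (Va k → ℂ) × ℂ) : ℂ := x.2 * eval x.1 (mm k)

theorem cc_near {c0 : Fin (k + 1) → ℂ} {r0 : ℝ} {x : (Va k → ℂ) × ℂ} (hx : x ∈ Nr c0 r0) :
    ‖cc x - 1‖ ≤ 1 / 8 := by
  obtain ⟨-, -, -, -, -, h1, h2⟩ := hx
  have : cc x - 1 = ((x.2 * x.1 .z - 1) + (x.2 * x.1 .e - 1)) / 2 := by
    unfold cc
    rw [ev_mm]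
    ring
  rw [this, norm_div]
  have h3 := norm_add_le (x.2 * x.1 .z - 1) (x.2 * x.1 .e - 1)
  have h4 : ‖(2 : ℂ)‖ = 2 := by simp
  rw [h4]
  linarith

theorem cc_ge {c0 : Fin (k + 1) → ℂ} {r0 : ℝ} {x : (Va k → ℂ) × ℂ} (hx : x ∈ Nr c0 r0) :
    7 / 8 ≤ ‖cc x‖ := by
  have h := cc_near hx
  have h1 : ‖(1 : ℂ)‖ ≤ ‖cc x‖ + ‖cc x - 1‖ := by
    have : (1 : ℂ) = cc x - (cc x - 1) := by ring
    calc ‖(1 : ℂ)‖ = ‖cc x - (cc x - 1)‖ := by rw [← this]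
      _ ≤ _ := norm_sub_le _ _
  rw [norm_one] at h1
  linarith

theorem cc_ne {c0 : Fin (k + 1) → ℂ} {r0 : ℝ} {x : (Va k → ℂ) × ℂ} (hx : x ∈ Nr c0 r0) :
    cc x ≠ 0 := by
  intro h
  have := cc_ge hx
  rw [h, norm_zero] at this
  linarith

theorem cc_inv_le {c0 : Fin (k + 1) → ℂ} {r0 : ℝ} {x : (Va k → ℂ) × ℂ} (hx : x ∈ Nr c0 r0) (z : ℂ) :
    ‖z / cc x‖ ≤ 8 / 7 * ‖z‖ := by
  have h := cc_ge hx
  rw [norm_div, div_le_iff₀ (by linarith)]
  nlinarith [norm_nonneg z]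

theorem cc_inv_sub {c0 : Fin (k + 1) → ℂ} {r0 : ℝ} {x : (Va k → ℂ) × ℂ} (hx : x ∈ Nr c0 r0) (z : ℂ) :
    ‖z / cc x - z‖ ≤ ‖z‖ / 7 := by
  have h := cc_ge hx
  have h0 := cc_ne hx
  have h1 := cc_near hx
  have : z / cc x - z = -(z * (cc x - 1)) / cc x := by
    field_simp
    ring
  rw [this, norm_div, norm_neg, norm_mul, div_le_iff₀ (by linarith)]
  nlinarith [norm_nonneg z, mul_le_mul_of_nonneg_left h1 (norm_nonneg z),
    mul_le_mul_of_nonneg_left h (norm_nonneg z)]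

/-- the successor of `u_n` -/
noncomputable def us (n : Fin (k + 1)) (x : (Va k → ℂ) × ℂ) : ℂ :=
  x.2 * eval x.1 (nx (fun n => UU n) (∑ j, X (.c j) * UU j) n)

theorem us_le {c0 : Fin (k + 1) → ℂ} {r0 : ℝ} {x : (Va k → ℂ) × ℂ} (hx : x ∈ Nr c0 r0) {B c : ℝ}
    (hB : ∀ n, ‖uu n x‖ ≤ B) (hc1 : 1 ≤ c) (hc : ∑ j, ‖c0 j‖ ≤ c) (n : Fin (k + 1)) :
    ‖us n x‖ ≤ c * B := by
  have hB0 : 0 ≤ B := (norm_nonneg _).trans (hB n)
  obtain ⟨-, ⟨-, hp⟩, -⟩ := hx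
  unfold us
  rw [ev_nx]
  unfold nx
  split_ifs with h
  · exact (hB _).trans (by nlinarith)
  · simp only [map_sum, map_mul, eval_X]
    rw [Finset.mul_sum]
    calc ‖∑ j, x.2 * (x.1 (.c j) * eval x.1 (UU j))‖ ≤ ∑ j, ‖x.2 * (x.1 (.c j) * eval x.1 (UU j))‖ :=
          norm_sum_le _ _
      _ ≤ ∑ j, ‖c0 j‖ * B := by
          refine Finset.sum_le_sum fun j _ => ?_
          have : x.2 * (x.1 (.c j) * eval x.1 (UU j)) = c0 j * uu j x := by
            rw [hp j]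
            unfold uu
            ring
          rw [this, norm_mul]
          exact mul_le_mul_of_nonneg_left (hB j) (norm_nonneg _)
      _ = (∑ j, ‖c0 j‖) * B := by rw [Finset.sum_mul]
      _ ≤ c * B := mul_le_mul_of_nonneg_right hc hB0

/-- The curve along the circle. -/
theorem curve {c0 : Fin (k + 1) → ℂ} {r0 w0 : ℝ} (h : StepD c0 r0 w0) {x : (Va k → ℂ) × ℂ}
    (hx : x ∈ Nr c0 r0) :
    ∃ y : ℝ → (Va k → ℂ) × ℂ, y 0 = x ∧ ∀ t : ℝ, 0 ≤ t → t ≤ w0 / 2 →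
      y t ∈ Nr c0 r0 ∧ ‖(y t).2‖ = ‖x.2‖ ∧ ∀ n,
        HasDerivAt (fun t => uu n (y t)) (Complex.I * (vv n (y t) / cc (y t))) t ∧
        HasDerivAt (fun t => vv n (y t)) (-Complex.I * ((y t).2 ^ 2 * (us n (y t) / cc (y t)))) t := by
  obtain ⟨g, hg0, hg⟩ := h.step x hx
  refine ⟨fun t => (g (Complex.I * t), x.2 * Complex.exp (Complex.I * t)), ?_, ?_⟩
  · simp [hg0]
  intro t ht0 ht1
  have hw : ‖(Complex.I * t : ℂ)‖ < w0 := by
    rw [norm_mul, Complex.norm_I, one_mul, Complex.norm_real, Real.norm_eq_abs, abs_of_nonneg ht0]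
    have := h.w_pos
    linarith
  obtain ⟨hF, hN⟩ := hg _ hw
  have hn : ‖x.2 * Complex.exp (Complex.I * t)‖ = ‖x.2‖ := by
    rw [norm_mul, mul_comm Complex.I, Complex.norm_exp_ofReal_mul_I, mul_one]
  have hx2 : ‖x.2‖ ≤ r0 := hx.2.2.2.2.1
  have hmem := hN (by rw [hn]; exact hx2)
  refine ⟨hmem, hn, fun n => ?_⟩
  have hl : HasDerivAt (fun t : ℝ => (Complex.I * t : ℂ)) (Complex.I * 1) t :=
    (HasDerivAt.ofReal_comp (hasDerivAt_id t)).const_mul _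
  have he : HasDerivAt (fun w : ℂ => x.2 * Complex.exp w) (x.2 * Complex.exp (Complex.I * t))
      (Complex.I * t) := (Complex.hasDerivAt_exp _).const_mul _
  have hC0 : x.2 * Complex.exp (Complex.I * t) * eval (g (Complex.I * t)) (mm k) ≠ 0 := cc_ne hmem
  have hm0 : eval (g (Complex.I * t)) (mm k) ≠ 0 := right_ne_zero_of_mul hC0
  have hx0 : x.2 * Complex.exp (Complex.I * t) ≠ 0 := left_ne_zero_of_mul hC0
  constructor
  · have h1 := he.mul (hF (UU n))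
    have h2 := HasDerivAt.scomp t h1 hl
    refine h2.congr_deriv ?_
    simp only [smul_eq_mul, vv, cc]
    rw [dv_UU, map_sub, map_mul]
    field_simp
    ring
  · have h1 := (he.pow 2).mul (hF (PP n))
    have h2 := HasDerivAt.scomp t h1 hl
    refine h2.congr_deriv ?_
    simp only [smul_eq_mul, us, cc, Pi.pow_apply]
    rw [dv_PP, map_sub, map_neg, map_mul, map_mul]
    have h3 : eval (g (Complex.I * t)) (2 : MvPolynomial (Va k) ℂ) = 2 := map_ofNat _ 2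
    rw [h3]
    generalize eval (g (Complex.I * t)) (nx (fun n => UU n) (∑ j, X (.c j) * UU j) n) = N
    push_cast
    field_simp
    ring

/-- Several steps along the circle. -/
theorem steps {c0 : Fin (k + 1) → ℂ} {r0 w0 : ℝ} (h : StepD c0 r0 w0) {r B c : ℝ} (hr : 0 < r)
    (hc1 : 1 ≤ c) (hc : ∑ j, ‖c0 j‖ ≤ c) (hB : ∀ x ∈ Nr c0 r0, ‖x.2‖ = r → ∀ n, ‖uu n x‖ ≤ B)
    {x : (Va k → ℂ) × ℂ} (hx : x ∈ Nr c0 r0) (hxr : ‖x.2‖ = r) (n : Fin (k + 1)) (N : ℕ) :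
    ∃ y ∈ Nr c0 r0, ‖y.2‖ = r ∧ ‖vv n y - vv n x‖ ≤ 2 * r ^ 2 * (c * B) * (N * (w0 / 2)) ∧
      ‖uu n y - uu n x - Complex.I * (N * (w0 / 2)) * vv n x‖ ≤
        N * (w0 / 2) * (‖vv n x‖ / 7) + 3 * r ^ 2 * (c * B) * (N * (w0 / 2)) ^ 2 := by
  have hB0 : 0 ≤ B := (norm_nonneg _).trans (hB x hx hxr n)
  have hcB : 0 ≤ c * B := by positivity
  have hw := h.w_pos
  induction N with
  | zero => exact ⟨x, hx, hxr, by simp, by simp⟩
  | succ N ih =>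
    obtain ⟨y, hy, hyr, h1, h2⟩ := ih
    obtain ⟨q, hq0, hq⟩ := curve h hy
    have hε : 0 ≤ w0 / 2 := by linarith
    have hv : ∀ t ∈ Set.Icc (0 : ℝ) (w0 / 2), ‖vv n (q t) - vv n (q 0)‖ ≤ 2 * r ^ 2 * (c * B) * (t - 0) := by
      refine norm_image_sub_le_of_norm_deriv_le_segment' (f := fun t => vv n (q t))
        (f' := fun t => -Complex.I * ((q t).2 ^ 2 * (us n (q t) / cc (q t)))) ?_ ?_
      · intro t ht
        exact ((hq t ht.1 ht.2).2.2 n).2.hasDerivWithinAt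
      · intro t ht
        obtain ⟨a1, a2, a3⟩ := hq t ht.1 ht.2.le
        rw [hyr] at a2
        rw [norm_mul, norm_neg, Complex.norm_I, one_mul, norm_mul, norm_pow, a2]
        have b1 := cc_inv_le a1 (us n (q t))
        have b2 := us_le a1 (hB _ a1 a2) hc1 hc n
        have b3 : ‖us n (q t) / cc (q t)‖ ≤ 2 * (c * B) := by linarith
        calc r ^ 2 * ‖us n (q t) / cc (q t)‖ ≤ r ^ 2 * (2 * (c * B)) :=
              mul_le_mul_of_nonneg_left b3 (by positivity)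
          _ = _ := by ring
    have hu : ∀ t ∈ Set.Icc (0 : ℝ) (w0 / 2),
        ‖(uu n (q t) - Complex.I * t * vv n x) - (uu n (q 0) - Complex.I * (0 : ℝ) * vv n x)‖ ≤
          (16 / 7 * r ^ 2 * (c * B) * ((N + 1) * (w0 / 2)) + ‖vv n x‖ / 7) * (t - 0) := by
      refine norm_image_sub_le_of_norm_deriv_le_segment' (f := fun t => uu n (q t) - Complex.I * t * vv n x)
        (f' := fun t => Complex.I * (vv n (q t) / cc (q t)) - Complex.I * 1 * vv n x) ?_ ?_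
      · intro t ht
        have hl : HasDerivAt (fun t : ℝ => (Complex.I * t : ℂ)) (Complex.I * 1) t :=
          (HasDerivAt.ofReal_comp (hasDerivAt_id t)).const_mul _
        exact (((hq t ht.1 ht.2).2.2 n).1.sub (hl.mul_const (vv n x))).hasDerivWithinAt
      · intro t ht
        obtain ⟨a1, a2, a3⟩ := hq t ht.1 ht.2.le
        have b1 := hv t ⟨ht.1, ht.2.le⟩
        rw [hq0] at b1
        have b2 : ‖vv n (q t) - vv n x‖ ≤ 2 * r ^ 2 * (c * B) * ((N + 1) * (w0 / 2)) := by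
          have e1 : vv n (q t) - vv n x = (vv n (q t) - vv n y) + (vv n y - vv n x) := by ring
          rw [e1]
          refine (norm_add_le _ _).trans ?_
          have e2 : 2 * r ^ 2 * (c * B) * (t - 0) ≤ 2 * r ^ 2 * (c * B) * (w0 / 2) :=
            mul_le_mul_of_nonneg_left (by linarith [ht.2]) (by positivity)
          linarith
        have b3 : Complex.I * (vv n (q t) / cc (q t)) - Complex.I * 1 * vv n x =
            Complex.I * ((vv n (q t) - vv n x) / cc (q t) + (vv n x / cc (q t) - vv n x)) := by ring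
        rw [b3, norm_mul, Complex.norm_I, one_mul]
        refine (norm_add_le _ _).trans ?_
        have b4 := cc_inv_le a1 (vv n (q t) - vv n x)
        have b5 := cc_inv_sub a1 (vv n x)
        linarith
    obtain ⟨a1, a2, -⟩ := hq (w0 / 2) hε le_rfl
    have hv1 := hv (w0 / 2) ⟨hε, le_rfl⟩
    have hu1 := hu (w0 / 2) ⟨hε, le_rfl⟩
    rw [hq0] at hv1 hu1
    refine ⟨q (w0 / 2), a1, a2.trans hyr, ?_, ?_⟩
    · have e1 : vv n (q (w0 / 2)) - vv n x = (vv n (q (w0 / 2)) - vv n y) + (vv n y - vv n x) := by ring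
      rw [e1]
      refine (norm_add_le _ _).trans ?_
      push_cast
      linarith
    · have e1 : uu n (q (w0 / 2)) - uu n x - Complex.I * (((N + 1 : ℕ) : ℂ) * (w0 / 2)) * vv n x =
          ((uu n (q (w0 / 2)) - Complex.I * ((w0 / 2 : ℝ) : ℂ) * vv n x) -
            (uu n y - Complex.I * ((0 : ℝ) : ℂ) * vv n x)) +
          (uu n y - uu n x - Complex.I * (N * (w0 / 2)) * vv n x) := by
        push_cast
        ring
      rw [e1]
      refine (norm_add_le _ _).trans ((add_le_add hu1 h2).trans ?_)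
      push_cast
      have e3 : 0 ≤ r ^ 2 * (c * B) * (w0 / 2) ^ 2 := by positivity
      have e4 : 0 ≤ r ^ 2 * (c * B) * (w0 / 2) ^ 2 * N := by positivity
      nlinarith [e3, e4]

end Lan

theorem landau {c0 : Fin (k + 1) → ℂ} {r0 w0 : ℝ} (h : StepD c0 r0 w0) :
    ∃ C1 : ℝ, 1 ≤ C1 ∧ ∀ r : ℝ, 0 < r → r ≤ r0 → ∀ B : ℝ,
      (∀ x ∈ Nr c0 r0, ‖x.2‖ = r → ∀ n, ‖x.2 * eval x.1 (UU n)‖ ≤ B) →
      ∀ x ∈ Nr c0 r0, ‖x.2‖ = r → ∀ n, ‖x.2 ^ 2 * eval x.1 (PP n)‖ ≤ C1 * r * B := by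
  set c : ℝ := max 1 (∑ j, ‖c0 j‖) with hcdef
  have hc1 : 1 ≤ c := le_max_left _ _
  have hc : ∑ j, ‖c0 j‖ ≤ c := le_max_right _ _
  refine ⟨10 * c, by linarith, fun r hr hr0 B hB x hx hxr n => ?_⟩
  have hB0 : 0 ≤ B := (norm_nonneg _).trans (hB x hx hxr n)
  have hw := h.w_pos
  have hw1 := h.w_le
  have hr1 : r ≤ 1 := hr0.trans h.r_le
  set ε := w0 / 2 with hε
  have hε0 : 0 < ε := by positivity
  have hε1 : ε ≤ 1 := by rw [hε]; linarith
  set N : ℕ := ⌈1 / (r * ε)⌉₊ with hN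
  have hN1 : 1 / (r * ε) ≤ N := Nat.le_ceil _
  have hN2 : (N : ℝ) < 1 / (r * ε) + 1 := Nat.ceil_lt_add_one (by positivity)
  obtain ⟨y, hy, hyr, -, h2⟩ := Lan.steps h hr hc1 hc hB hx hxr n N
  rw [← hε] at h2
  set s : ℝ := N * ε with hs
  have hs1 : 1 ≤ s * r := by
    have : 1 / (r * ε) * (r * ε) ≤ N * (r * ε) := mul_le_mul_of_nonneg_right hN1 (by positivity)
    rw [div_mul_cancel₀ _ (by positivity)] at this
    rw [hs]
    linarith
  have hs2 : s * r ≤ 2 := by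
    have : (N : ℝ) * (r * ε) ≤ (1 / (r * ε) + 1) * (r * ε) :=
      mul_le_mul_of_nonneg_right hN2.le (by positivity)
    rw [add_mul, div_mul_cancel₀ _ (by positivity)] at this
    have h5 : r * ε ≤ 1 := by nlinarith
    rw [hs]
    linarith
  have hs0 : 0 < s := by
    by_contra h6
    push Not at h6
    nlinarith
  have hx1 := hB x hx hxr n
  have hy1 := hB y hy hyr n
  change ‖Lan.uu n x‖ ≤ B at hx1
  change ‖Lan.uu n y‖ ≤ B at hy1
  change ‖Lan.vv n x‖ ≤ 10 * c * r * B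
  have h7 : (Complex.I * (N * (w0 / 2)) * Lan.vv n x : ℂ) = (Lan.uu n y - Lan.uu n x) -
      (Lan.uu n y - Lan.uu n x - Complex.I * (N * (w0 / 2)) * Lan.vv n x) := by ring
  have h8 : ‖(Complex.I * (N * (w0 / 2)) * Lan.vv n x : ℂ)‖ = s * ‖Lan.vv n x‖ := by
    have : (Complex.I * (N * (w0 / 2)) * Lan.vv n x : ℂ) = Complex.I * (s : ℂ) * Lan.vv n x := by
      rw [hs, hε]
      push_cast
      ring
    rw [this, norm_mul, norm_mul, Complex.norm_I, one_mul, Complex.norm_real, Real.norm_eq_abs,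
      abs_of_pos hs0]
  have h9 : s * ‖Lan.vv n x‖ ≤ B + B + (s * (‖Lan.vv n x‖ / 7) + 3 * r ^ 2 * (c * B) * s ^ 2) := by
    rw [← h8, h7]
    refine (norm_sub_le _ _).trans (add_le_add ?_ h2)
    exact (norm_sub_le _ _).trans (add_le_add hy1 hx1)
  set V := ‖Lan.vv n x‖ with hV
  have hV0 : 0 ≤ V := norm_nonneg _
  -- multiply by `r`
  have h10 : 6 / 7 * (s * V) ≤ 2 * B + 3 * r ^ 2 * (c * B) * s ^ 2 := by linarith
  have h11 : 3 * r ^ 2 * (c * B) * s ^ 2 ≤ 6 * (c * B) * (s * r) := by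
    have : 3 * r ^ 2 * (c * B) * s ^ 2 = 3 * (c * B) * (s * r) * (s * r) := by ring
    rw [this]
    have h12 : 0 ≤ 3 * (c * B) * (s * r) := by positivity
    nlinarith
  have h13 : 2 * B ≤ 2 * (c * B) * (s * r) := by
    have h14 : B ≤ c * B := by nlinarith
    have h15 : 0 ≤ c * B := by positivity
    nlinarith
  have h16 : 6 / 7 * (s * V) ≤ s * (8 * (c * B) * r) := by
    have : s * (8 * (c * B) * r) = 2 * (c * B) * (s * r) + 6 * (c * B) * (s * r) := by ring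
    linarith
  have h17 : 6 / 7 * V ≤ 8 * (c * B) * r := by
    have : s * (6 / 7 * V) ≤ s * (8 * (c * B) * r) := by linarith
    exact le_of_mul_le_mul_left this hs0
  have h18 : 0 ≤ (c * B) * r := by positivity
  linarith

end Pool.Agent.Helper44.FT
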