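import Mathlib

/-!
# Lie series of a polynomial vector field (definitions)

`P` is a polynomial vector field on `ι → ℂ`, `dv P` the derivation, `it P F p j` the value at `p` of the `j`-th
iterated derivative of `F`, and `fl P t p` the point reached from `p` at the (complex, small) time `t`.
-/

namespace Pool.Agent.Helper44.FT

open MvPolynomial

section

variable {ι : Type*}

/-- The derivation of polynomials given by the vector field `P`. -/
noncomputable def dv (P : ι → MvPolynomial ι ℂ) :
    Derivation ℂ (MvPolynomial ι ℂ) (MvPolynomial ι ℂ) :=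
  MvPolynomial.mkDerivation ℂ P

/-- The value at `p` of the `j`-th iterated derivative of `F`. -/
noncomputable def it (P : ι → MvPolynomial ι ℂ) (F : MvPolynomial ι ℂ) (p : ι → ℂ) (j : ℕ) : ℂ :=
  eval p ((dv P)^[j] F)

/-- The time `t` map of the vector field, as a Lie series. -/
noncomputable def fl (P : ι → MvPolynomial ι ℂ) (t : ℂ) (p : ι → ℂ) : ι → ℂ :=
  fun i => ∑' j : ℕ, it P (X i) p j * t ^ j / (j.factorial : ℂ)

@[simp] theorem dv_X (P : ι → MvPolynomial ι ℂ) (i : ι) : dv P (X i) = P i := by
  unfold dv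
  exact MvPolynomial.mkDerivation_X ℂ P i

@[simp] theorem dv_C (P : ι → MvPolynomial ι ℂ) (a : ℂ) : dv P (C a) = 0 := by
  exact MvPolynomial.derivation_C (dv P) a

theorem dv_mul (P : ι → MvPolynomial ι ℂ) (F G : MvPolynomial ι ℂ) :
    dv P (F * G) = dv P F * G + F * dv P G := by
  rw [Derivation.leibniz]
  simp only [smul_eq_mul]
  ring

@[simp] theorem it_zero (P : ι → MvPolynomial ι ℂ) (F : MvPolynomial ι ℂ) (p : ι → ℂ) :
    it P F p 0 = eval p F := rfl

theorem it_succ (P : ι → MvPolynomial ι ℂ) (F : MvPolynomial ι ℂ) (p : ι → ℂ) (j : ℕ) :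
    it P F p (j + 1) = it P (dv P F) p j := by
  unfold it
  rw [Function.iterate_succ_apply]

theorem it_add (P : ι → MvPolynomial ι ℂ) (F G : MvPolynomial ι ℂ) (p : ι → ℂ) (j : ℕ) :
    it P (F + G) p j = it P F p j + it P G p j := by
  induction j generalizing F G with
  | zero => simp [it]
  | succ j ih => rw [it_succ, it_succ, it_succ, map_add, ih]

theorem it_iter (P : ι → MvPolynomial ι ℂ) (F : MvPolynomial ι ℂ) (p : ι → ℂ) (i j : ℕ) :
    it P ((dv P)^[i] F) p j = it P F p (i + j) := by
  unfold it
  rw [← Function.iterate_add_apply, add_comm]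

end

end Pool.Agent.Helper44.FT
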