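import Pool.Agent.Helper44.FT.Lie

/-!
# Block FT-L1: growth of iterated derivatives

Proof. For a polynomial `F` let `N F = ∑ |coefficients|` (`∑ m ∈ F.support, ‖F.coeff m‖`) and `d` a bound `≥ 1` for
the total degrees of all `P i`, `S = ∑ i, N (P i)`. Then `N (F + G) ≤ N F + N G`, `N (F * G) ≤ N F * N G`,
`N (pderiv i F) ≤ (totalDegree F) * N F`; `dv P F = ∑ i, pderiv i F * P i` (`MvPolynomial.mkDerivation_apply` or
both sides are derivations which agree on `X i`), so `N (dv P F) ≤ (deg F) * S * N F` and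
`deg (dv P F) ≤ deg F + d`. By induction `N (D^j F) ≤ S^j * (∏ l < j, (deg F + l * d)) * N F`,
`∏ l < j, (deg F + l d) ≤ d^j ∏ l < j (deg F + l) ≤ d^j * j! * 2^(deg F + j)` (`d ≥ 1`; `ascFactorial`,
`Nat.choose_le_two_pow`), `deg (D^j F) ≤ deg F + j d`, and `‖eval p F‖ ≤ N F * R^(deg F)` for `‖p‖ ≤ R`, `R ≥ 1`.
So `A = 2 d (S + 1) R^d` (with `R` replaced by `max R 1`) and `B = 2^(deg F) N F R^(deg F)` work.
-/

namespace Pool.Agent.Helper44.FT

open MvPolynomial

namespace LBd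

variable {ι : Type*}

/-- The coefficient norm. -/
noncomputable def nm (F : MvPolynomial ι ℂ) : ℝ := ∑ m ∈ F.support, ‖F.coeff m‖

theorem nm_nonneg (F : MvPolynomial ι ℂ) : 0 ≤ nm F :=
  Finset.sum_nonneg fun _ _ => norm_nonneg _

theorem nm_eq (F : MvPolynomial ι ℂ) (s : Finset (ι →₀ ℕ)) (h : F.support ⊆ s) :
    nm F = ∑ m ∈ s, ‖F.coeff m‖ := by
  unfold nm
  apply Finset.sum_subset h
  intro m _ hm
  rw [MvPolynomial.notMem_support_iff] at hm
  simp [hm]

theorem nm_zero : nm (0 : MvPolynomial ι ℂ) = 0 := by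
  simp [nm]

theorem nm_add (F G : MvPolynomial ι ℂ) : nm (F + G) ≤ nm F + nm G := by
  classical
  have h1 := nm_eq F (F.support ∪ G.support) Finset.subset_union_left
  have h2 := nm_eq G (F.support ∪ G.support) Finset.subset_union_right
  have h3 := nm_eq (F + G) (F.support ∪ G.support) MvPolynomial.support_add
  rw [h1, h2, h3, ← Finset.sum_add_distrib]
  apply Finset.sum_le_sum
  intro m _
  rw [MvPolynomial.coeff_add]
  exact norm_add_le _ _

theorem nm_sum {κ : Type*} (s : Finset κ) (f : κ → MvPolynomial ι ℂ) :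
    nm (∑ k ∈ s, f k) ≤ ∑ k ∈ s, nm (f k) := by
  classical
  induction s using Finset.induction_on with
  | empty => simp [nm_zero]
  | insert a s ha ih =>
    rw [Finset.sum_insert ha, Finset.sum_insert ha]
    exact (nm_add _ _).trans (by linarith)

theorem nm_monomial_mul (m : ι →₀ ℕ) (a : ℂ) (G : MvPolynomial ι ℂ) :
    nm (monomial m a * G) ≤ ‖a‖ * nm G := by
  classical
  have hs : (monomial m a * G).support ⊆ G.support.image (fun k => m + k) := by
    intro k hk
    rw [MvPolynomial.mem_support_iff, MvPolynomial.coeff_monomial_mul'] at hk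
    rw [Finset.mem_image]
    by_cases h : m ≤ k
    · rw [if_pos h] at hk
      refine ⟨k - m, ?_, ?_⟩
      · rw [MvPolynomial.mem_support_iff]
        intro h0
        exact hk (by rw [h0, mul_zero])
      · exact add_tsub_cancel_of_le h
    · rw [if_neg h] at hk
      exact absurd rfl hk
  rw [nm_eq _ _ hs, Finset.sum_image]
  · unfold nm
    rw [Finset.mul_sum]
    apply Finset.sum_le_sum
    intro k _
    rw [MvPolynomial.coeff_monomial_mul, norm_mul]
  · intro x _ y _ hxy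
    exact add_left_cancel hxy

theorem nm_dv_monomial [Fintype ι] (P : ι → MvPolynomial ι ℂ) (m : ι →₀ ℕ) (a : ℂ) :
    nm (dv P (monomial m a)) ≤ ‖a‖ * ((m.degree : ℝ) * ∑ i, nm (P i)) := by
  classical
  unfold dv
  rw [MvPolynomial.mkDerivation_monomial, Finsupp.sum, Finset.smul_sum]
  refine (nm_sum _ _).trans ?_
  have : (m.degree : ℝ) = ∑ i ∈ m.support, (m i : ℝ) := by
    rw [Finsupp.degree_apply]
    push_cast
    rfl
  rw [this, Finset.sum_mul, Finset.mul_sum]
  apply Finset.sum_le_sum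
  intro i _
  have h1 : a • (monomial (m - Finsupp.single i 1) (m i : ℂ) • P i) =
      monomial (m - Finsupp.single i 1) (a * (m i : ℂ)) * P i := by
    rw [smul_eq_mul, ← smul_mul_assoc, MvPolynomial.smul_monomial, smul_eq_mul]
  rw [h1]
  refine (nm_monomial_mul _ _ _).trans ?_
  rw [norm_mul]
  have h2 : ‖(m i : ℂ)‖ = (m i : ℝ) := by simp
  rw [h2, mul_assoc]
  apply mul_le_mul_of_nonneg_left _ (norm_nonneg _)
  apply mul_le_mul_of_nonneg_left _ (Nat.cast_nonneg _)
  exact Finset.single_le_sum (f := fun i => nm (P i)) (fun i _ => nm_nonneg _) (Finset.mem_univ i)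

theorem nm_dv [Fintype ι] (P : ι → MvPolynomial ι ℂ) (F : MvPolynomial ι ℂ) (n : ℕ)
    (hn : F.totalDegree ≤ n) :
    nm (dv P F) ≤ (n : ℝ) * (∑ i, nm (P i)) * nm F := by
  classical
  conv_lhs => rw [F.as_sum, map_sum]
  refine (nm_sum _ _).trans ?_
  unfold nm
  rw [Finset.mul_sum]
  apply Finset.sum_le_sum
  intro m hm
  refine (nm_dv_monomial P m _).trans ?_
  have h1 : (m.degree : ℝ) ≤ n := by
    have h2 : m.degree ≤ n := by
      refine le_trans ?_ hn
      have := MvPolynomial.le_totalDegree hm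
      rw [Finsupp.degree_apply]
      exact this
    exact_mod_cast h2
  have h3 : 0 ≤ ∑ i, nm (P i) := Finset.sum_nonneg fun i _ => nm_nonneg _
  have h4 : (m.degree : ℝ) * ∑ i, nm (P i) ≤ n * ∑ i, nm (P i) :=
    mul_le_mul_of_nonneg_right h1 h3
  calc ‖coeff m F‖ * ((m.degree : ℝ) * ∑ i, nm (P i)) ≤ ‖coeff m F‖ * (n * ∑ i, nm (P i)) :=
        mul_le_mul_of_nonneg_left h4 (norm_nonneg _)
    _ = _ := by
        unfold nm
        ring

theorem deg_dv [Fintype ι] (P : ι → MvPolynomial ι ℂ) (F : MvPolynomial ι ℂ) (n d : ℕ)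
    (hn : F.totalDegree ≤ n) (hd : ∀ i, (P i).totalDegree ≤ d) :
    (dv P F).totalDegree ≤ n + d := by
  classical
  rw [F.as_sum, map_sum]
  refine MvPolynomial.totalDegree_finsetSum_le ?_
  intro m hm
  unfold dv
  rw [MvPolynomial.mkDerivation_monomial, Finsupp.sum, Finset.smul_sum]
  refine MvPolynomial.totalDegree_finsetSum_le ?_
  intro i _
  refine (MvPolynomial.totalDegree_smul_le _ _).trans ?_
  rw [smul_eq_mul]
  refine (MvPolynomial.totalDegree_mul _ _).trans ?_
  refine add_le_add ?_ (hd i)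
  refine (MvPolynomial.totalDegree_monomial_le _ _).trans ?_
  have h2 : m.degree ≤ n := by
    refine le_trans ?_ hn
    have := MvPolynomial.le_totalDegree hm
    rw [Finsupp.degree_apply]
    exact this
  refine le_trans ?_ h2
  have h3 : (m - Finsupp.single i 1) ≤ m := tsub_le_self
  have h4 : (m - Finsupp.single i 1).degree ≤ m.degree := Finsupp.degree_mono h3
  rw [Finsupp.degree_apply, Finsupp.degree_apply] at h4
  rw [Finsupp.degree_apply]
  exact h4

theorem eval_le (F : MvPolynomial ι ℂ) (n : ℕ) (hn : F.totalDegree ≤ n) (R : ℝ) (hR : 1 ≤ R)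
    (p : ι → ℂ) (hp : ∀ i, ‖p i‖ ≤ R) : ‖eval p F‖ ≤ nm F * R ^ n := by
  classical
  rw [MvPolynomial.eval_eq]
  refine (norm_sum_le _ _).trans ?_
  unfold nm
  rw [Finset.sum_mul]
  apply Finset.sum_le_sum
  intro m hm
  rw [norm_mul]
  apply mul_le_mul_of_nonneg_left _ (norm_nonneg _)
  rw [norm_prod]
  calc ∏ i ∈ m.support, ‖p i ^ m i‖ ≤ ∏ i ∈ m.support, R ^ m i := by
        apply Finset.prod_le_prod
        · intro i _
          exact norm_nonneg _
        · intro i _
          rw [norm_pow]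
          exact pow_le_pow_left₀ (norm_nonneg _) (hp i) _
    _ = R ^ (∑ i ∈ m.support, m i) := by
        rw [Finset.prod_pow_eq_pow_sum]
    _ ≤ R ^ n := by
        apply pow_le_pow_right₀ hR
        refine le_trans ?_ hn
        have := MvPolynomial.le_totalDegree hm
        simpa [Finsupp.sum] using this

theorem iter_bound [Fintype ι] (P : ι → MvPolynomial ι ℂ) (F : MvPolynomial ι ℂ) (n d : ℕ)
    (hn : F.totalDegree ≤ n) (hd : ∀ i, (P i).totalDegree ≤ d) (hd1 : 1 ≤ d) (j : ℕ) :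
    ((dv P)^[j] F).totalDegree ≤ n + j * d ∧
      nm ((dv P)^[j] F) ≤ (∑ i, nm (P i)) ^ j * (((d ^ j * (n + 1).ascFactorial j : ℕ)) : ℝ) * nm F := by
  induction j with
  | zero =>
    refine ⟨by simpa using hn, ?_⟩
    simp
  | succ j ih =>
    rw [Function.iterate_succ_apply']
    refine ⟨?_, ?_⟩
    · refine (deg_dv P _ _ _ ih.1 hd).trans (le_of_eq ?_)
      ring
    · refine (nm_dv P _ _ ih.1).trans ?_
      have hS : 0 ≤ ∑ i, nm (P i) := Finset.sum_nonneg fun i _ => nm_nonneg _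
      have h1 : ((n + j * d : ℕ) : ℝ) ≤ (d * (n + 1 + j) : ℕ) := by
        have : n + j * d ≤ d * (n + 1 + j) := by nlinarith
        exact_mod_cast this
      calc ((n + j * d : ℕ) : ℝ) * (∑ i, nm (P i)) * nm ((dv P)^[j] F)
          ≤ ((n + j * d : ℕ) : ℝ) * (∑ i, nm (P i)) *
              ((∑ i, nm (P i)) ^ j * (((d ^ j * (n + 1).ascFactorial j : ℕ)) : ℝ) * nm F) :=
            mul_le_mul_of_nonneg_left ih.2 (mul_nonneg (Nat.cast_nonneg _) hS)
        _ ≤ ((d * (n + 1 + j) : ℕ) : ℝ) * (∑ i, nm (P i)) *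
              ((∑ i, nm (P i)) ^ j * (((d ^ j * (n + 1).ascFactorial j : ℕ)) : ℝ) * nm F) := by
            apply mul_le_mul_of_nonneg_right
            · exact mul_le_mul_of_nonneg_right h1 hS
            · exact mul_nonneg (mul_nonneg (pow_nonneg hS _) (Nat.cast_nonneg _)) (nm_nonneg _)
        _ = _ := by
            rw [Nat.ascFactorial_succ]
            push_cast
            ring

end LBd

open LBd in
theorem lie_bound {ι : Type*} [Fintype ι] (P : ι → MvPolynomial ι ℂ) (R : ℝ) :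
    ∃ A : ℝ, 1 ≤ A ∧ ∀ F : MvPolynomial ι ℂ, ∃ B : ℝ, 0 ≤ B ∧
      ∀ p : ι → ℂ, ‖p‖ ≤ R → ∀ j : ℕ, ‖it P F p j‖ ≤ B * A ^ j * (j.factorial : ℝ) := by
  classical
  obtain ⟨d, hd1, hd⟩ : ∃ d : ℕ, 1 ≤ d ∧ ∀ i, (P i).totalDegree ≤ d :=
    ⟨1 + ∑ i, (P i).totalDegree, by omega, fun i =>
      (Finset.single_le_sum (f := fun i => (P i).totalDegree) (fun _ _ => Nat.zero_le _)
        (Finset.mem_univ i)).trans (by omega)⟩
  set S : ℝ := ∑ i, nm (P i) with hS
  have hS0 : 0 ≤ S := Finset.sum_nonneg fun i _ => nm_nonneg _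
  set R' : ℝ := max R 1 with hR'
  have hR1 : 1 ≤ R' := le_max_right _ _
  have hd1' : (1 : ℝ) ≤ d := by exact_mod_cast hd1
  refine ⟨2 * d * (S + 1) * R' ^ d, ?_, ?_⟩
  · have h1 : (1 : ℝ) ≤ R' ^ d := one_le_pow₀ hR1
    have h2 : (1 : ℝ) ≤ 2 * d * (S + 1) := by nlinarith
    nlinarith
  intro F
  set n := F.totalDegree with hn
  refine ⟨2 ^ n * nm F * R' ^ n, by
    have := nm_nonneg F
    positivity, ?_⟩
  intro p hp j
  obtain ⟨h1, h2⟩ := iter_bound P F n d le_rfl hd hd1 j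
  have h3 := eval_le _ _ h1 R' hR1 p (fun i => (norm_le_pi_norm p i).trans (hp.trans (le_max_left _ _)))
  have h4 : (((d ^ j * (n + 1).ascFactorial j : ℕ)) : ℝ) ≤ (d : ℝ) ^ j * (j.factorial : ℝ) * 2 ^ (n + j) := by
    have h5 : (n + 1).ascFactorial j ≤ j.factorial * 2 ^ (n + j) := by
      rw [Nat.ascFactorial_eq_factorial_mul_choose]
      exact Nat.mul_le_mul_left _ (Nat.choose_le_two_pow _ _)
    have h6 : d ^ j * (n + 1).ascFactorial j ≤ d ^ j * (j.factorial * 2 ^ (n + j)) :=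
      Nat.mul_le_mul_left _ h5
    calc (((d ^ j * (n + 1).ascFactorial j : ℕ)) : ℝ) ≤ ((d ^ j * (j.factorial * 2 ^ (n + j)) : ℕ) : ℝ) := by
          exact_mod_cast h6
      _ = _ := by
          push_cast
          ring
  have hF := nm_nonneg F
  have hSj : S ^ j ≤ (S + 1) ^ j := pow_le_pow_left₀ hS0 (by linarith) _
  calc ‖it P F p j‖ ≤ nm ((dv P)^[j] F) * R' ^ (n + j * d) := h3
    _ ≤ (S ^ j * (((d ^ j * (n + 1).ascFactorial j : ℕ)) : ℝ) * nm F) * R' ^ (n + j * d) :=
        mul_le_mul_of_nonneg_right h2 (by positivity)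
    _ ≤ ((S + 1) ^ j * ((d : ℝ) ^ j * (j.factorial : ℝ) * 2 ^ (n + j)) * nm F) * R' ^ (n + j * d) := by
        apply mul_le_mul_of_nonneg_right _ (by positivity)
        apply mul_le_mul_of_nonneg_right _ hF
        exact mul_le_mul hSj h4 (Nat.cast_nonneg _) (by positivity)
    _ = 2 ^ n * nm F * R' ^ n * (2 * d * (S + 1) * R' ^ d) ^ j * (j.factorial : ℝ) := by
        rw [mul_pow, mul_pow, mul_pow, ← pow_mul, pow_add, pow_add, mul_comm d j]
        ring

end Pool.Agent.Helper44.FT
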