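import Pool.Agent.Helper44.FT.SymA

/-!
# Block FT-LS: for `d = 0` the condition `p ∈ W` is linear in the variables `a, al, b, be`

Proof. Let `B` be the subalgebra of polynomials in the variables `c j, z, e` only (`MvPolynomial.supported` or `Algebra.adjoin`), and let `M` be the set of the polynomials
`∑ r_i X_i + X d * H`, `i` of type `a, al, b, be`, `r_i ∈ B`, `H` arbitrary (additive submonoid / `Submodule`). `dv` maps `M` into itself: for `r ∈ B` `dv r ∈ B + X d * (anything)` (induction on `r`, `vf z = -z² + d * ..`),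
`dv (X_i) ∈ M` for `i` of type `a, al, b, be` (`KK = -(z-e)/2 + d * ..`), `dv (X d * H) = X d * dv H`. `G0 ∈ M`. So all `dv^[j] G0 ∈ M`, and for `F ∈ M` the value `eval p F` at points with `p d = 0` is
a linear function of `(p i)`, `i` of type `a, al, b, be`, with coefficients which depend on `p (c j), p z, p e` only. All four statements follow.
-/

namespace Pool.Agent.Helper44.FT

open MvPolynomial

variable {k : ℕ}

/-- Sum of the parts of type `a, al, b, be`. -/
def az (l : ℂ) (p q : Va k → ℂ) : Va k → ℂ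
  | .c j => p (.c j)
  | .d => p .d
  | .z => p .z
  | .e => p .e
  | .a n => p (.a n) + l * q (.a n)
  | .al n => p (.al n) + l * q (.al n)
  | .b n => p (.b n) + l * q (.b n)
  | .be n => p (.be n) + l * q (.be n)

/-- The linear variables. -/
def lv46 : Va k → Prop
  | .c _ => False
  | .d => False
  | .z => False
  | .e => False
  | .a _ => True
  | .al _ => True
  | .b _ => True
  | .be _ => True

/-- The algebra of the base variables. -/
noncomputable def Bs46 (k : ℕ) : Subalgebra ℂ (MvPolynomial (Va k) ℂ) :=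
  Algebra.adjoin ℂ {F | (∃ j, F = X (.c j)) ∨ F = X .z ∨ F = X .e}

theorem c_mem46 (j : Fin (k + 1)) : (X (.c j) : MvPolynomial (Va k) ℂ) ∈ Bs46 k :=
  Algebra.subset_adjoin (Or.inl ⟨j, rfl⟩)

theorem z_mem46 : (X .z : MvPolynomial (Va k) ℂ) ∈ Bs46 k :=
  Algebra.subset_adjoin (Or.inr (Or.inl rfl))

theorem e_mem46 : (X .e : MvPolynomial (Va k) ℂ) ∈ Bs46 k :=
  Algebra.subset_adjoin (Or.inr (Or.inr rfl))

theorem C_mem46 (x : ℂ) : (C x : MvPolynomial (Va k) ℂ) ∈ Bs46 k :=
  (Bs46 k).algebraMap_mem x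

theorem eval_base46 {p q : Va k → ℂ} (hc : ∀ j, p (.c j) = q (.c j)) (hz : p .z = q .z)
    (he : p .e = q .e) {r : MvPolynomial (Va k) ℂ} (hr : r ∈ Bs46 k) : eval p r = eval q r := by
  unfold Bs46 at hr
  induction hr using Algebra.adjoin_induction with
  | mem x hx =>
    rcases hx with ⟨j, rfl⟩ | rfl | rfl
    · simpa using hc j
    · simpa using hz
    · simpa using he
  | algebraMap x => simp [MvPolynomial.algebraMap_eq]
  | add x y _ _ hx hy => rw [map_add, map_add, hx, hy]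
  | mul x y _ _ hx hy => rw [map_mul, map_mul, hx, hy]

theorem dv_z46 : ∃ r' ∈ Bs46 k, ∃ H, dv (vf k) (X .z) = r' + X .d * H := by
  have h : vf k .z = -(X .z * X .z) - X .d * X (.a 0) * X .z := rfl
  refine ⟨-(X .z * X .z), ?_, -(X (.a 0) * X .z), ?_⟩
  · apply neg_mem
    exact mul_mem z_mem46 z_mem46
  · rw [dv_X, h, mul_neg, ← sub_eq_add_neg, mul_assoc]

theorem dv_e46 : ∃ r' ∈ Bs46 k, ∃ H, dv (vf k) (X .e) = r' + X .d * H := by
  have h : vf k .e = -(X .e * X .e) - X .d * X (.b 0) * X .e := rfl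
  refine ⟨-(X .e * X .e), ?_, -(X (.b 0) * X .e), ?_⟩
  · apply neg_mem
    exact mul_mem e_mem46 e_mem46
  · rw [dv_X, h, mul_neg, ← sub_eq_add_neg, mul_assoc]

theorem dv_c46 (j : Fin (k + 1)) :
    ∃ r' ∈ Bs46 k, ∃ H, dv (vf k) (X (.c j)) = r' + X .d * H := by
  refine ⟨0, zero_mem _, 0, ?_⟩
  have h : vf k (.c j) = 0 := rfl
  rw [dv_X, h, mul_zero, add_zero]

theorem dv_C46 (x : ℂ) : ∃ r' ∈ Bs46 k, ∃ H, dv (vf k) (C x) = r' + X .d * H := by
  refine ⟨0, zero_mem _, 0, ?_⟩
  rw [dv_C, mul_zero, add_zero]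

theorem dv_base46 {r : MvPolynomial (Va k) ℂ} (hr : r ∈ Bs46 k) :
    ∃ r' ∈ Bs46 k, ∃ H, dv (vf k) r = r' + X .d * H := by
  refine Algebra.adjoin_induction
    (p := fun r _ => ∃ r' ∈ Bs46 k, ∃ H, dv (vf k) r = r' + X .d * H) ?_ ?_ ?_ ?_ hr
  · intro x hx
    rcases hx with ⟨j, rfl⟩ | rfl | rfl
    · exact dv_c46 j
    · exact dv_z46
    · exact dv_e46
  · intro x
    exact dv_C46 x
  · intro x y _ _ hx hy
    obtain ⟨r1, h1, H1, e1⟩ := hx
    obtain ⟨r2, h2, H2, e2⟩ := hy
    refine ⟨r1 + r2, add_mem h1 h2, H1 + H2, ?_⟩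
    rw [map_add, e1, e2, mul_add]
    exact add_add_add_comm _ _ _ _
  · intro x y hx' hy' hx hy
    have hx'' : x ∈ Bs46 k := hx'
    have hy'' : y ∈ Bs46 k := hy'
    obtain ⟨r1, h1, H1, e1⟩ := hx
    obtain ⟨r2, h2, H2, e2⟩ := hy
    refine ⟨r1 * y + x * r2, add_mem (mul_mem h1 hy'') (mul_mem hx'' h2), H1 * y + x * H2, ?_⟩
    rw [dv_mul, e1, e2, add_mul, mul_add, mul_add, mul_assoc, mul_left_comm x]
    exact add_add_add_comm _ _ _ _

/-- The polynomials which are linear in the linear variables modulo `d`. -/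
inductive Ml46 : MvPolynomial (Va k) ℂ → Prop
  | lin (r : MvPolynomial (Va k) ℂ) (hr : r ∈ Bs46 k) (i : Va k) (hi : lv46 i) : Ml46 (r * X i)
  | dd (H : MvPolynomial (Va k) ℂ) : Ml46 (X .d * H)
  | add (F G : MvPolynomial (Va k) ℂ) (hF : Ml46 F) (hG : Ml46 G) : Ml46 (F + G)

theorem Ml46.zero : Ml46 (0 : MvPolynomial (Va k) ℂ) := by
  have h := Ml46.dd (k := k) 0
  rwa [mul_zero] at h

theorem Ml46.sum {α : Type*} (s : Finset α) (f : α → MvPolynomial (Va k) ℂ)
    (h : ∀ x ∈ s, Ml46 (f x)) : Ml46 (∑ x ∈ s, f x) := by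
  classical
  induction s using Finset.induction_on with
  | empty => simpa using Ml46.zero
  | insert a s ha ih =>
    rw [Finset.sum_insert ha]
    exact Ml46.add _ _ (h a (Finset.mem_insert_self a s))
      (ih fun x hx => h x (Finset.mem_insert_of_mem hx))

theorem Ml46.bmul {r F : MvPolynomial (Va k) ℂ} (hr : r ∈ Bs46 k) (hF : Ml46 F) :
    Ml46 (r * F) := by
  induction hF with
  | lin s hs i hi =>
    rw [← mul_assoc]
    exact Ml46.lin _ (mul_mem hr hs) i hi
  | dd H =>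
    rw [mul_left_comm]
    exact Ml46.dd _
  | add F G _ _ hF hG =>
    rw [mul_add]
    exact Ml46.add _ _ hF hG

theorem Ml46.X {i : Va k} (hi : lv46 i) : Ml46 (X i) := by
  have h := Ml46.lin 1 (one_mem _) i hi
  rwa [one_mul] at h

theorem Ml46.neg {F : MvPolynomial (Va k) ℂ} (hF : Ml46 F) : Ml46 (-F) := by
  have h := Ml46.bmul (C_mem46 (-1)) hF
  have h2 : (C (-1) : MvPolynomial (Va k) ℂ) * F = -F := by
    rw [C_neg, C_1, neg_one_mul]
  rwa [h2] at h

theorem Ml46.sub {F G : MvPolynomial (Va k) ℂ} (hF : Ml46 F) (hG : Ml46 G) : Ml46 (F - G) := by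
  rw [sub_eq_add_neg]
  exact Ml46.add _ _ hF hG.neg

theorem Ml46.KKmul {F : MvPolynomial (Va k) ℂ} (hF : Ml46 F) : Ml46 (KK k * F) := by
  have h : KK k * F = MvPolynomial.X .d * (-(MvPolynomial.X (.a 0)) * F)
      + (-(C (1 / 2) * (MvPolynomial.X .z - MvPolynomial.X .e))) * F := by
    unfold KK; ring
  rw [h]
  exact Ml46.add _ _ (Ml46.dd _)
    (Ml46.bmul (neg_mem (mul_mem (C_mem46 _) (sub_mem z_mem46 e_mem46))) hF)

theorem Ml46.LLmul {F : MvPolynomial (Va k) ℂ} (hF : Ml46 F) : Ml46 (LL k * F) := by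
  have h : LL k * F = MvPolynomial.X .d * (-(MvPolynomial.X (.b 0)) * F)
      + (-(C (1 / 2) * (MvPolynomial.X .e - MvPolynomial.X .z))) * F := by
    unfold LL; ring
  rw [h]
  exact Ml46.add _ _ (Ml46.dd _)
    (Ml46.bmul (neg_mem (mul_mem (C_mem46 _) (sub_mem e_mem46 z_mem46))) hF)

theorem mm_mem46 : mm k ∈ Bs46 k := mul_mem (C_mem46 _) (add_mem z_mem46 e_mem46)

theorem Ml46.nx {x : Fin (k + 1) → MvPolynomial (Va k) ℂ} {y : MvPolynomial (Va k) ℂ}
    (hx : ∀ n, Ml46 (x n)) (hy : Ml46 y) (n : Fin (k + 1)) : Ml46 (nx x y n) := by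
  unfold FT.nx
  split_ifs
  · exact hx _
  · exact hy

theorem Ml46.vf {i : Va k} (hi : lv46 i) : Ml46 (vf k i) := by
  cases i with
  | c j => exact hi.elim
  | d => exact hi.elim
  | z => exact hi.elim
  | e => exact hi.elim
  | a n =>
    simp only [FT.vf]
    exact (Ml46.X (i := .al n) trivial).sub (Ml46.X (i := .a n) trivial).KKmul
  | al n =>
    simp only [FT.vf]
    refine Ml46.add _ _ (Ml46.add _ _ (Ml46.sub (Ml46.neg ?_) (Ml46.nx ?_ ?_ n)) ?_) ?_
    · rw [add_mul]
      exact Ml46.add _ _ (Ml46.X (i := .al n) trivial).KKmul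
        (Ml46.bmul mm_mem46 (Ml46.X (i := .al n) trivial))
    · intro n; exact Ml46.X (i := .a n) trivial
    · exact Ml46.sum _ _ fun j _ => Ml46.lin _ (c_mem46 j) (.a j) trivial
    · exact Ml46.bmul (C_mem46 _) (Ml46.lin _ (mul_mem z_mem46 e_mem46) (.a n) trivial)
    · exact Ml46.bmul (C_mem46 _) (Ml46.lin _ (mul_mem e_mem46 e_mem46) (.b n) trivial)
  | b n =>
    simp only [FT.vf]
    exact (Ml46.X (i := .be n) trivial).sub (Ml46.X (i := .b n) trivial).LLmul
  | be n =>
    simp only [FT.vf]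
    refine Ml46.add _ _ (Ml46.add _ _ (Ml46.sub (Ml46.neg ?_) (Ml46.nx ?_ ?_ n)) ?_) ?_
    · rw [add_mul]
      exact Ml46.add _ _ (Ml46.X (i := .be n) trivial).LLmul
        (Ml46.bmul mm_mem46 (Ml46.X (i := .be n) trivial))
    · intro n; exact Ml46.X (i := .b n) trivial
    · exact Ml46.sum _ _ fun j _ => Ml46.lin _ (c_mem46 j) (.b j) trivial
    · exact Ml46.bmul (C_mem46 _) (Ml46.lin _ (mul_mem z_mem46 e_mem46) (.b n) trivial)
    · exact Ml46.bmul (C_mem46 _) (Ml46.lin _ (mul_mem z_mem46 z_mem46) (.a n) trivial)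

theorem Ml46.dv {F : MvPolynomial (Va k) ℂ} (hF : Ml46 F) : Ml46 (dv (FT.vf k) F) := by
  induction hF with
  | lin r hr i hi =>
    obtain ⟨r', h', H, e⟩ := dv_base46 hr
    rw [dv_mul, e, dv_X, add_mul]
    refine Ml46.add _ _ (Ml46.add _ _ (Ml46.lin r' h' i hi) ?_) (Ml46.bmul hr (Ml46.vf hi))
    rw [mul_assoc]
    exact Ml46.dd _
  | dd H =>
    rw [dv_mul, dv_X]
    have h : FT.vf k .d = 0 := rfl
    rw [h, zero_mul, zero_add]
    exact Ml46.dd _
  | add F G _ _ hF hG =>
    rw [map_add]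
    exact Ml46.add _ _ hF hG

theorem Ml46.iter (j : ℕ) : Ml46 ((FT.dv (FT.vf k))^[j] (G0 k)) := by
  induction j with
  | zero =>
    exact Ml46.add _ _ (Ml46.X (i := .a 0) trivial) (Ml46.X (i := .b 0) trivial)
  | succ j ih =>
    rw [Function.iterate_succ_apply']
    exact ih.dv

theorem Ml46.eval_az {p q : Va k → ℂ} (hd : p .d = 0) (hd' : q .d = 0)
    (hc : ∀ j, p (.c j) = q (.c j)) (hz : p .z = q .z) (he : p .e = q .e) (l : ℂ)
    {F : MvPolynomial (Va k) ℂ} (hF : Ml46 F) :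
    eval (az l p q) F = eval p F + l * eval q F := by
  induction hF with
  | lin r hr i hi =>
    have h1 : eval (az l p q) r = eval p r :=
      eval_base46 (p := az l p q) (q := p) (fun j => rfl) rfl rfl hr
    have h2 : eval q r = eval p r := (eval_base46 hc hz he hr).symm
    rw [map_mul, map_mul, map_mul, h1, h2, eval_X, eval_X, eval_X]
    cases i with
    | c j => exact hi.elim
    | d => exact hi.elim
    | z => exact hi.elim
    | e => exact hi.elim
    | a n => simp only [az]; ring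
    | al n => simp only [az]; ring
    | b n => simp only [az]; ring
    | be n => simp only [az]; ring
  | dd H =>
    have h3 : az l p q .d = 0 := hd
    rw [map_mul, map_mul, map_mul, eval_X, eval_X, eval_X, hd, hd', h3]
    ring
  | add F G _ _ hF hG =>
    rw [map_add, map_add, map_add, hF, hG]
    ring

theorem W_az {p q : Va k → ℂ} (hp : p ∈ W k) (hq : q ∈ W k) (hd : p .d = 0) (hd' : q .d = 0)
    (hc : ∀ j, p (.c j) = q (.c j)) (hz : p .z = q .z) (he : p .e = q .e) (l : ℂ) :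
    az l p q ∈ W k := by
  intro j
  have h1 : eval p ((dv (vf k))^[j] (G0 k)) = 0 := hp j
  have h2 : eval q ((dv (vf k))^[j] (G0 k)) = 0 := hq j
  unfold it
  rw [Ml46.eval_az hd hd' hc hz he l (Ml46.iter j), h1, h2]
  ring

/-- The ideal of the linear variables. -/
noncomputable def Il46 (k : ℕ) : Ideal (MvPolynomial (Va k) ℂ) :=
  Ideal.span {F | ∃ i : Va k, lv46 i ∧ F = X i}

theorem Il46_X {i : Va k} (hi : lv46 i) : (X i : MvPolynomial (Va k) ℂ) ∈ Il46 k :=
  Ideal.subset_span ⟨i, hi, rfl⟩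

theorem Il46_nx {x : Fin (k + 1) → MvPolynomial (Va k) ℂ} {y : MvPolynomial (Va k) ℂ}
    (hx : ∀ n, x n ∈ Il46 k) (hy : y ∈ Il46 k) (n : Fin (k + 1)) : nx x y n ∈ Il46 k := by
  unfold FT.nx
  split_ifs
  · exact hx _
  · exact hy

theorem Il46_vf {i : Va k} (hi : lv46 i) : vf k i ∈ Il46 k := by
  cases i with
  | c j => exact hi.elim
  | d => exact hi.elim
  | z => exact hi.elim
  | e => exact hi.elim
  | a n =>
    simp only [vf]
    exact sub_mem (Il46_X trivial) (Ideal.mul_mem_left _ _ (Il46_X trivial))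
  | al n =>
    simp only [vf]
    refine add_mem (add_mem (sub_mem (neg_mem (Ideal.mul_mem_left _ _ (Il46_X trivial)))
      (Il46_nx (fun n => Il46_X (i := .a n) trivial) (Ideal.sum_mem _ fun j _ =>
        Ideal.mul_mem_left _ _ (Il46_X (i := .a j) trivial)) n)) ?_) ?_
    · exact Ideal.mul_mem_left _ _ (Ideal.mul_mem_left _ _ (Il46_X trivial))
    · exact Ideal.mul_mem_left _ _ (Ideal.mul_mem_left _ _ (Il46_X trivial))
  | b n =>
    simp only [vf]
    exact sub_mem (Il46_X trivial) (Ideal.mul_mem_left _ _ (Il46_X trivial))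
  | be n =>
    simp only [vf]
    refine add_mem (add_mem (sub_mem (neg_mem (Ideal.mul_mem_left _ _ (Il46_X trivial)))
      (Il46_nx (fun n => Il46_X (i := .b n) trivial) (Ideal.sum_mem _ fun j _ =>
        Ideal.mul_mem_left _ _ (Il46_X (i := .b j) trivial)) n)) ?_) ?_
    · exact Ideal.mul_mem_left _ _ (Ideal.mul_mem_left _ _ (Il46_X trivial))
    · exact Ideal.mul_mem_left _ _ (Ideal.mul_mem_left _ _ (Il46_X trivial))

theorem Il46_dv {F : MvPolynomial (Va k) ℂ} (hF : F ∈ Il46 k) : dv (vf k) F ∈ Il46 k := by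
  unfold Il46 at hF
  induction hF using Submodule.span_induction with
  | mem x hx =>
    obtain ⟨i, hi, rfl⟩ := hx
    rw [dv_X]
    exact Il46_vf hi
  | zero => rw [map_zero]; exact zero_mem _
  | add x y _ _ hx hy => rw [map_add]; exact add_mem hx hy
  | smul a x hx' hx =>
    rw [smul_eq_mul, dv_mul]
    exact add_mem (Ideal.mul_mem_left _ _ hx') (Ideal.mul_mem_left _ _ hx)

theorem Il46_eval {p : Va k → ℂ} (h : Z0 p) {F : MvPolynomial (Va k) ℂ} (hF : F ∈ Il46 k) :
    eval p F = 0 := by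
  unfold Il46 at hF
  induction hF using Submodule.span_induction with
  | mem x hx =>
    obtain ⟨i, hi, rfl⟩ := hx
    rw [eval_X]
    cases i with
    | c j => exact hi.elim
    | d => exact hi.elim
    | z => exact hi.elim
    | e => exact hi.elim
    | a n => exact (h n).1
    | al n => exact (h n).2.1
    | b n => exact (h n).2.2.1
    | be n => exact (h n).2.2.2
  | zero => simp
  | add x y _ _ hx hy => rw [map_add, hx, hy, add_zero]
  | smul a x hx' hx => rw [smul_eq_mul, map_mul, hx, mul_zero]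

theorem W_of_Z0 {p : Va k → ℂ} (h : Z0 p) : p ∈ W k := by
  intro j
  unfold it
  apply Il46_eval h
  induction j with
  | zero => exact add_mem (Il46_X trivial) (Il46_X trivial)
  | succ j ih =>
    rw [Function.iterate_succ_apply']
    exact Il46_dv ih

end Pool.Agent.Helper44.FT
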