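import Mathlib

/-!
# Block FT-LV: Liouville lemma for bounded invariant sets

`S` bounded, `Ψ τ : S → S` for `‖τ‖ < r`, holomorphic in `τ` (also after composition with holomorphic curves),
`Ψ 0 = id`, derivative in `τ` at `0` is `V`. Then `V = 0` on `S`.

Proof. Let `p ∈ S`, `m ≥ 1`; on `U = ball 0 (m r)` put `q 0 = p`, `q (j+1) τ = Ψ (τ / m) (q j τ)`. By induction `q j` maps `U` into
`S`, is holomorphic on `U` (`hol`), `q j 0 = p` (`zero`) and has derivative `(j / m) • V p` at `0` (`der` with `a = 1 / m`).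
So `q m` is bounded by `M` on `U` and its derivative at `0` is `V p`. Cauchy
(`Complex.norm_deriv_le_of_forall_mem_sphere_norm_le` on the circle of radius `m r / 2`): `‖V p‖ ≤ 2 M / (m r)` for all `m`.
-/

namespace Pool.Agent.Helper44.FT

open scoped Topology

/-- The iterated curve: `q 0 = p`, `q (j + 1) τ = Ψ (τ / m) (q j τ)`. -/
noncomputable def liouQ {ι : Type*} (Ψ : ℂ → (ι → ℂ) → ι → ℂ) (p : ι → ℂ) (m : ℕ) : ℕ → ℂ → ι → ℂ
  | 0 => fun _ => p
  | j + 1 => fun τ => Ψ ((1 / (m : ℂ)) * τ) (liouQ Ψ p m j τ)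

theorem liouville {ι : Type*} [Fintype ι] (S : Set (ι → ℂ)) (M r : ℝ) (hr : 0 < r)
    (hM : ∀ p ∈ S, ‖p‖ ≤ M) (Ψ : ℂ → (ι → ℂ) → ι → ℂ) (V : (ι → ℂ) → ι → ℂ)
    (zero : ∀ p ∈ S, Ψ 0 p = p)
    (maps : ∀ p ∈ S, ∀ t : ℂ, ‖t‖ < r → Ψ t p ∈ S)
    (hol : ∀ (U : Set ℂ), IsOpen U → ∀ (s : ℂ → ℂ) (q : ℂ → ι → ℂ), DifferentiableOn ℂ s U →
      DifferentiableOn ℂ q U → (∀ τ ∈ U, q τ ∈ S ∧ ‖s τ‖ < r) →
      DifferentiableOn ℂ (fun τ => Ψ (s τ) (q τ)) U)
    (der : ∀ (q : ℂ → ι → ℂ) (q' : ι → ℂ) (a : ℂ), (∀ᶠ τ in 𝓝 (0 : ℂ), q τ ∈ S) →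
      HasDerivAt q q' 0 → HasDerivAt (fun τ => Ψ (a * τ) (q τ)) (a • V (q 0) + q') 0) :
    ∀ p ∈ S, V p = 0 := by
  intro p hp
  have key : ∀ m : ℕ, 0 < m → ‖V p‖ ≤ M / ((m : ℝ) * r / 2) := by
    intro m hm
    have hm0 : (0 : ℝ) < m := by exact_mod_cast hm
    have hmc : (m : ℂ) ≠ 0 := by exact_mod_cast hm.ne'
    have hR : 0 < (m : ℝ) * r := by positivity
    have hU : IsOpen (Metric.ball (0 : ℂ) ((m : ℝ) * r)) := Metric.isOpen_ball
    have hsm : ∀ τ ∈ Metric.ball (0 : ℂ) ((m : ℝ) * r), ‖(1 / (m : ℂ)) * τ‖ < r := by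
      intro τ hτ
      rw [mem_ball_zero_iff] at hτ
      rw [norm_mul, norm_div, norm_one, Complex.norm_natCast, one_div, inv_mul_lt_iff₀ hm0]
      exact hτ
    have ind : ∀ j : ℕ, (∀ τ ∈ Metric.ball (0 : ℂ) ((m : ℝ) * r), liouQ Ψ p m j τ ∈ S) ∧
        DifferentiableOn ℂ (liouQ Ψ p m j) (Metric.ball (0 : ℂ) ((m : ℝ) * r)) ∧
        liouQ Ψ p m j 0 = p ∧
        HasDerivAt (liouQ Ψ p m j) (((j : ℂ) / (m : ℂ)) • V p) 0 := by
      intro j
      induction j with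
      | zero =>
        refine ⟨fun τ _ => hp, differentiableOn_const _, rfl, ?_⟩
        have h := hasDerivAt_const (0 : ℂ) p
        simpa [liouQ] using h
      | succ j ih =>
        obtain ⟨h1, h2, h3, h4⟩ := ih
        refine ⟨fun τ hτ => maps _ (h1 τ hτ) _ (hsm τ hτ), ?_, ?_, ?_⟩
        · exact hol _ hU (fun τ => (1 / (m : ℂ)) * τ) (liouQ Ψ p m j)
            ((differentiable_id.const_mul _).differentiableOn) h2
            (fun τ hτ => ⟨h1 τ hτ, hsm τ hτ⟩)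
        · change Ψ ((1 / (m : ℂ)) * 0) (liouQ Ψ p m j 0) = p
          rw [mul_zero, h3]
          exact zero p hp
        · have hev : ∀ᶠ τ in 𝓝 (0 : ℂ), liouQ Ψ p m j τ ∈ S := by
            filter_upwards [Metric.ball_mem_nhds (0 : ℂ) hR] with τ hτ using h1 τ hτ
          have hd := der (liouQ Ψ p m j) _ (1 / (m : ℂ)) hev h4
          rw [h3] at hd
          have he : (1 / (m : ℂ)) • V p + ((j : ℂ) / (m : ℂ)) • V p
              = (((j + 1 : ℕ) : ℂ) / (m : ℂ)) • V p := by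
            rw [← add_smul]
            congr 1
            push_cast
            ring
          rw [he] at hd
          exact hd
    obtain ⟨h1, h2, -, h4⟩ := ind m
    have hd : deriv (liouQ Ψ p m m) 0 = V p := by
      rw [h4.deriv, div_self hmc, one_smul]
    have hsub : Metric.closedBall (0 : ℂ) ((m : ℝ) * r / 2) ⊆ Metric.ball (0 : ℂ) ((m : ℝ) * r) :=
      Metric.closedBall_subset_ball (by linarith)
    have hdc : DiffContOnCl ℂ (liouQ Ψ p m m) (Metric.ball (0 : ℂ) ((m : ℝ) * r / 2)) := by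
      apply DifferentiableOn.diffContOnCl
      refine h2.mono ?_
      exact (Metric.closure_ball_subset_closedBall).trans hsub
    have hC : ∀ z ∈ Metric.sphere (0 : ℂ) ((m : ℝ) * r / 2), ‖liouQ Ψ p m m z‖ ≤ M :=
      fun z hz => hM _ (h1 z (hsub (Metric.sphere_subset_closedBall hz)))
    have := Complex.norm_deriv_le_of_forall_mem_sphere_norm_le (by positivity) hdc hC
    rw [hd] at this
    exact this
  have hlim : Filter.Tendsto (fun m : ℕ => M / ((m : ℝ) * r / 2)) Filter.atTop (𝓝 0) := by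
    apply Filter.Tendsto.const_div_atTop
    apply Filter.Tendsto.atTop_div_const (by norm_num)
    exact Filter.Tendsto.atTop_mul_const hr tendsto_natCast_atTop_atTop
  have hle : ‖V p‖ ≤ 0 := by
    apply ge_of_tendsto hlim
    filter_upwards [Filter.eventually_gt_atTop 0] with m hm using key m hm
  exact norm_le_zero_iff.1 hle

end Pool.Agent.Helper44.FT
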