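import Pool.Agent.Helper44.FT.AxisB
import Pool.Agent.Helper44.FT.LFlow

/-!
# Block FT-G: the mean curvature is constant

Let `g p = eval p (vf k (.a 0))` (`= D a_0`). If `Z0 p` then `g p = 0` (`ev_a`). Let `c0 j = p (c j)` and `X = {p ∈ W | Par c0 p, ¬ Z0 p}`. Suppose `g` is not zero on `X`; let `S = sup_X ‖g‖ > 0`. It is finite and attained: by `at_inf`, `axis_bound` there is `R` such that `‖g p‖ < S'` (`S' > 0` any value `≤ S/2` or a value `‖g p0‖/2`)
for the points of `X` with `‖z‖` or `‖e‖ ≥ R` (`‖z‖ → ∞` there as `‖z - e‖ ≤ ‖e‖/2`), and the other points of `X` lie in a bounded set (`bdA`); the closure of the latter is compact, contained in `W` with `Par c0`, and `g ≠ 0` implies `¬ Z0`. So there is `p0 ∈ X` with `‖g p0‖ = S ≥ ‖g p‖` for all `p ∈ X`.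
Let `K = {p ∈ X | ‖g p‖ = S}`: bounded (by the choice of `R`), and mapped into itself by the flow for small times: for `p ∈ K` `fl t p ∈ X` (`fl_W`, `fl_c`, `fl_d`, `fl_not_Z0`), and `t ↦ g (fl t p)` is holomorphic for `‖t‖ < r` with maximal absolute value at `t = 0`, so its absolute value is constant
(`Complex.norm_eqOn_of_isPreconnected_of_isMaxOn` or `Complex.eqOn_of_isPreconnected_of_isMaxOn_norm`). `liou_flow` gives `eval p (vf k i) = 0` for all `i`, in particular `g p = 0`, a contradiction.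
-/

namespace Pool.Agent.Helper44.FT

open MvPolynomial

theorem g_of_Z0 {k : ℕ} {q : Va k → ℂ} (h : Z0 q) : eval q (vf k (.a 0)) = 0 := by
  rw [ev_a, (h 0).1, (h 0).2.1]
  simp

/-- The part of `W` with given parameters and bounded `z`, `e` is bounded. -/
theorem bounded_part {k : ℕ} (c0 : Fin (k + 1) → ℂ) (R : ℝ) :
    ∃ M : ℝ, ∀ q ∈ W k, Par c0 q → ‖q .z‖ ≤ R → ‖q .e‖ ≤ R → ‖q‖ ≤ M := by
  obtain ⟨C, hC1, hC⟩ := bdA k
  set L : ℝ := max 1 (max R (∑ j, ‖c0 j‖)) with hL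
  have hL1 : 1 ≤ L := le_max_left _ _
  have hLR : R ≤ L := (le_max_left _ _).trans (le_max_right _ _)
  have hLc : ∑ j, ‖c0 j‖ ≤ L := (le_max_right _ _).trans (le_max_right _ _)
  refine ⟨∑ i : Va k, (C * L) ^ wt i, fun q hq hP hz he => ?_⟩
  have hb := hC q hq hP.1 L (by linarith) (fun j => ?_) (hz.trans hLR) (he.trans hLR)
  · have hCL : 0 ≤ C * L := by positivity
    rw [pi_norm_le_iff_of_nonneg (Finset.sum_nonneg fun i _ => pow_nonneg hCL _)]
    intro i
    refine (hb i).trans ?_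
    exact Finset.single_le_sum (f := fun i : Va k => (C * L) ^ wt i)
      (fun i _ => pow_nonneg hCL _) (Finset.mem_univ i)
  · rw [hP.2 j]
    have h1 : ‖c0 j‖ ≤ ∑ j, ‖c0 j‖ :=
      Finset.single_le_sum (f := fun j => ‖c0 j‖) (fun i _ => norm_nonneg _) (Finset.mem_univ j)
    have h2 : L ≤ L ^ wt (Va.c j) := by
      refine le_self_pow₀ hL1 ?_
      simp only [wt]
      have := j.2
      omega
    linarith

theorem mean_const {k : ℕ} {p : Va k → ℂ} (hp : p ∈ W k) (hd : p .d = 1) :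
    eval p (vf k (.a 0)) = 0 := by
  by_contra hne
  set g : (Va k → ℂ) → ℂ := fun q => eval q (vf k (.a 0)) with hg
  have hgp : 0 < ‖g p‖ := norm_pos_iff.2 hne
  set c0 : Fin (k + 1) → ℂ := fun j => p (.c j) with hc0
  have hPar : Par c0 p := ⟨hd, fun j => rfl⟩
  have hgc : Continuous g := MvPolynomial.continuous_eval _
  obtain ⟨C1, R1, h1⟩ := axis_bound c0
  obtain ⟨R2, h2⟩ := at_inf c0 (1 / 2) (by norm_num)
  set R : ℝ := max (max R1 R2) (2 * |C1| / ‖g p‖ + 1) with hR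
  have hR0 : 0 < R := by
    refine lt_of_lt_of_le ?_ (le_max_right _ _)
    positivity
  have hRC : 2 * |C1| < R * ‖g p‖ := by
    have h3 : 2 * |C1| / ‖g p‖ + 1 ≤ R := le_max_right _ _
    have h4 : (2 * |C1| / ‖g p‖ + 1) * ‖g p‖ ≤ R * ‖g p‖ :=
      mul_le_mul_of_nonneg_right h3 hgp.le
    have h5 : (2 * |C1| / ‖g p‖ + 1) * ‖g p‖ = 2 * |C1| + ‖g p‖ := by
      field_simp
    linarith
  -- far points have small `g`
  have hfar : ∀ q ∈ W k, Par c0 q → ¬ Z0 q → (R ≤ ‖q .z‖ ∨ R ≤ ‖q .e‖) → ‖g q‖ < ‖g p‖ := by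
    intro q hq hP hZ hRq
    have ha := h1 q hq hP hZ (hRq.imp (fun h => ((le_max_left _ _).trans (le_max_left _ _)).trans h)
      (fun h => ((le_max_left _ _).trans (le_max_left _ _)).trans h))
    have hb := h2 q hq hP hZ (hRq.imp (fun h => ((le_max_right _ _).trans (le_max_left _ _)).trans h)
      (fun h => ((le_max_right _ _).trans (le_max_left _ _)).trans h))
    have hz : R / 2 ≤ ‖q .z‖ := by
      rcases hRq with h | h
      · linarith
      · have h3 : ‖q .e‖ ≤ ‖q .z‖ + ‖q .z - q .e‖ := by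
          have : q .e = q .z - (q .z - q .e) := by ring
          calc ‖q .e‖ = ‖q .z - (q .z - q .e)‖ := by rw [← this]
            _ ≤ ‖q .z‖ + ‖q .z - q .e‖ := norm_sub_le _ _
        linarith
    by_contra hcon
    push Not at hcon
    have h6 : ‖g p‖ * (R / 2) ≤ ‖g q‖ * ‖q .z‖ :=
      mul_le_mul hcon hz (by positivity) (norm_nonneg _)
    have h7 : ‖g q‖ * ‖q .z‖ ≤ C1 := ha
    have h8 : C1 ≤ |C1| := le_abs_self _
    nlinarith
  -- the compact part
  obtain ⟨M, hM⟩ := bounded_part c0 R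
  set X0 : Set (Va k → ℂ) := {q | q ∈ W k ∧ Par c0 q ∧ ‖q .z‖ ≤ R ∧ ‖q .e‖ ≤ R} with hX0
  have hX0c : IsCompact X0 := by
    refine Metric.isCompact_of_isClosed_isBounded ?_ ?_
    · have e1 : IsClosed {q : Va k → ℂ | q ∈ W k} := W_closed k
      have e2 : IsClosed {q : Va k → ℂ | Par c0 q} := by
        have : {q : Va k → ℂ | Par c0 q} = {q | q .d = 1} ∩ ⋂ j, {q | q (.c j) = c0 j} := by
          ext q
          simp [Par]
        rw [this]
        exact (isClosed_eq (continuous_apply _) continuous_const).inter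
          (isClosed_iInter fun j => isClosed_eq (continuous_apply _) continuous_const)
      have e3 : IsClosed {q : Va k → ℂ | ‖q .z‖ ≤ R} :=
        isClosed_le (continuous_apply _).norm continuous_const
      have e4 : IsClosed {q : Va k → ℂ | ‖q .e‖ ≤ R} :=
        isClosed_le (continuous_apply _).norm continuous_const
      have : X0 = {q | q ∈ W k} ∩ ({q | Par c0 q} ∩ ({q | ‖q .z‖ ≤ R} ∩ {q | ‖q .e‖ ≤ R})) := by
        ext q
        simp only [hX0, Set.mem_ofPred_eq, Set.mem_inter_iff]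
      rw [this]
      exact e1.inter (e2.inter (e3.inter e4))
    · rw [isBounded_iff_forall_norm_le]
      exact ⟨M, fun q hq => hM q hq.1 hq.2.1 hq.2.2.1 hq.2.2.2⟩
  have hnear : ∀ q ∈ W k, Par c0 q → ¬ Z0 q → ‖g p‖ ≤ ‖g q‖ → q ∈ X0 := by
    intro q hq hP hZ hgq
    have h3 : ¬ (R ≤ ‖q .z‖ ∨ R ≤ ‖q .e‖) := fun h => not_lt.2 hgq (hfar q hq hP hZ h)
    rw [not_or, not_le, not_le] at h3
    exact ⟨hq, hP, h3.1.le, h3.2.le⟩
  have hpZ : ¬ Z0 p := fun h => hne (g_of_Z0 h)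
  have hpX : p ∈ X0 := hnear p hp hPar hpZ le_rfl
  obtain ⟨p0, hp0, hmax⟩ := hX0c.exists_isMaxOn ⟨p, hpX⟩ hgc.norm.continuousOn
  have hgp0 : ‖g p‖ ≤ ‖g p0‖ := hmax hpX
  have hp0Z : ¬ Z0 p0 := fun h => by
    have h3 : g p0 = 0 := g_of_Z0 h
    rw [h3, norm_zero] at hgp0
    linarith
  have hall : ∀ q ∈ W k, Par c0 q → ¬ Z0 q → ‖g q‖ ≤ ‖g p0‖ := by
    intro q hq hP hZ
    by_cases h : ‖g p‖ ≤ ‖g q‖
    · exact hmax (hnear q hq hP hZ h)
    · push Not at h
      exact h.le.trans hgp0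
  set K : Set (Va k → ℂ) := {q | q ∈ W k ∧ Par c0 q ∧ ¬ Z0 q ∧ ‖g q‖ = ‖g p0‖} with hK
  have hKX : ∀ q ∈ K, q ∈ X0 := fun q hq =>
    hnear q hq.1 hq.2.1 hq.2.2.1 (by rw [hq.2.2.2]; exact hgp0)
  have hKM : ∀ q ∈ K, ‖q‖ ≤ M := fun q hq => by
    obtain ⟨a1, a2, a3, a4⟩ := hKX q hq
    exact hM q a1 a2 a3 a4
  obtain ⟨r1, C, hC0, hF⟩ := exists_flowOn (vf k) M
  obtain ⟨r2, hr2, hnZ⟩ := fl_not_Z0 k M
  have hinv : ∃ r : ℝ, 0 < r ∧ ∀ q ∈ K, ∀ t : ℂ, ‖t‖ < r → fl (vf k) t q ∈ K := by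
    refine ⟨min r1 r2, lt_min hF.pos hr2, fun q hq t ht => ?_⟩
    have hqM := hKM q hq
    have hmem : ∀ s : ℂ, ‖s‖ < min r1 r2 → fl (vf k) s q ∈ W k ∧ Par c0 (fl (vf k) s q) ∧
        ¬ Z0 (fl (vf k) s q) := by
      intro s hs
      have hs1 := lt_of_lt_of_le hs (min_le_left _ _)
      have hs2 := lt_of_lt_of_le hs (min_le_right _ _)
      refine ⟨fl_W hF hq.1 hqM hs1, ⟨?_, fun j => ?_⟩, hnZ q hqM s hs2 hq.2.2.1⟩
      · rw [fl_d hF hqM hs1]
        exact hq.2.1.1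
      · rw [fl_c hF hqM hs1]
        exact hq.2.1.2 j
    obtain ⟨b1, b2, b3⟩ := hmem t ht
    refine ⟨b1, b2, b3, ?_⟩
    have hball : IsPreconnected (Metric.ball (0 : ℂ) (min r1 r2)) :=
      (convex_ball _ _).isPreconnected
    have h0 : (0 : ℂ) ∈ Metric.ball (0 : ℂ) (min r1 r2) :=
      Metric.mem_ball_self (lt_min hF.pos hr2)
    have hdiff : DifferentiableOn ℂ (fun t => g (fl (vf k) t q)) (Metric.ball 0 (min r1 r2)) := by
      intro s hs
      rw [mem_ball_zero_iff] at hs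
      exact (hF.deriv q hqM s (lt_of_lt_of_le hs (min_le_left _ _))
        (vf k (.a 0))).differentiableAt.differentiableWithinAt
    have hmx : IsMaxOn (norm ∘ fun t => g (fl (vf k) t q)) (Metric.ball 0 (min r1 r2)) 0 := by
      intro s hs
      rw [mem_ball_zero_iff] at hs
      obtain ⟨d1, d2, d3⟩ := hmem s hs
      show ‖g (fl (vf k) s q)‖ ≤ ‖g (fl (vf k) 0 q)‖
      rw [fl_zero, hq.2.2.2]
      exact hall _ d1 d2 d3
    have hconst := Complex.norm_eqOn_of_isPreconnected_of_isMaxOn hball Metric.isOpen_ball hdiff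
      h0 hmx
    have h9 := hconst (mem_ball_zero_iff.2 ht)
    simp only [Function.comp_apply, Function.const_apply] at h9
    rw [h9, fl_zero, hq.2.2.2]
  have hp0K : p0 ∈ K := ⟨hp0.1, hp0.2.1, hp0Z, rfl⟩
  have hfin := liou_flow (vf k) K M hKM hinv p0 hp0K (.a 0)
  have h10 : g p0 = 0 := hfin
  rw [h10, norm_zero] at hgp0
  linarith

end Pool.Agent.Helper44.FT
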