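import Pool.Agent.Helper44.FT.Clos

/-!
# Block FT-B2: points of `W` with `d = 1`, `c = 0`: everything vanishes

Suppose `p ∈ W`, `Nul p`, not `Z0 p`. By `ratio0` and `planar` `p z, p e ≠ 0`; after `sc (p e)⁻¹` `p e = 1`. `S = {p ∈ W | Nul p, ¬ Z0 p, p e = 1}` is bounded (`ratio0`: `‖p z‖ ≤ 1/ε`, and `bdA`)
and mapped into itself by `nf t`, `‖t‖` small (`fl_W`, `fl_c`, `fl_d`, `fl_not_Z0`, `W_sc`; homotheties by nonzero numbers preserve `¬ Z0`). `norm_liou`: put `θ = p z`, `a = a_0 = - b_0` (`W_ab`), `vf e = -1 + a`. The equation for `z` gives `-θ - a = -1 + a`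
(`θ ≠ 0`), so `2 a = 1 - θ`, `K = L = 0`, `m = (1+θ)/2 =: γ`, `vf e = -γ`. So `al_n = -(2n+1)γ a_n`, `be_n = -(2n+1)γ b_n`, `a_(n+1) = -(2n+1)²γ² a_n + θ a_n/2 + b_n/2`, `b_(n+1) = -(2n+1)²γ² b_n + θ b_n / 2 + θ² a_n / 2`, `a_(k+1) = b_(k+1) = 0`.
`u_n = θ a_n - b_n` satisfies `u_(n+1) = -(2n+1)²γ² u_n`, `u_0 = (θ+1) a = 2γa`. If `a = 0` then `θ = 1` and all vanish (`Z0 p`), contradiction. If `a ≠ 0`, `γ ≠ 0`: `u_n ≠ 0` for all `n ≤ k+1`, contradiction. If `γ = 0`: `θ = -1`, `a_0 = 1`, `b_0 = -1`, and `a_n = (-1)^n`, `b_n = -(-1)^n`, contradiction.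
-/

namespace Pool.Agent.Helper44.FT

open MvPolynomial

namespace NullAll

variable {k : ℕ}

/-- The normalised points. -/
def SS (k : ℕ) : Set (Va k → ℂ) := {p | p ∈ W k ∧ Nul p ∧ ¬ Z0 p ∧ p .e = 1}

theorem sc_Z0 {l : ℂ} (hl : l ≠ 0) {p : Va k → ℂ} (h : Z0 (sc l p)) : Z0 p := by
  intro n
  obtain ⟨h1, h2, h3, h4⟩ := h n
  have hp : ∀ m : ℕ, l ^ m ≠ 0 := fun m => pow_ne_zero _ hl
  exact ⟨(mul_eq_zero.1 h1).resolve_left (hp _), (mul_eq_zero.1 h2).resolve_left (hp _),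
    (mul_eq_zero.1 h3).resolve_left (hp _), (mul_eq_zero.1 h4).resolve_left (hp _)⟩

theorem sc_Nul {l : ℂ} {p : Va k → ℂ} (h : Nul p) : Nul (sc l p) := by
  refine ⟨?_, fun j => ?_⟩
  · change l ^ 0 * p .d = 1
    rw [h.1, pow_zero, one_mul]
  · change l ^ _ * p (.c j) = 0
    rw [h.2 j, mul_zero]

theorem sc_mem {p : Va k → ℂ} (hp : p ∈ W k) (hn : Nul p) (hz : ¬ Z0 p) (he : p .e ≠ 0) :
    sc (p .e)⁻¹ p ∈ SS k := by
  refine ⟨W_sc hp _, sc_Nul hn, fun h => hz (sc_Z0 (inv_ne_zero he) h), ?_⟩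
  change (p .e)⁻¹ ^ 1 * p .e = 1
  rw [pow_one, inv_mul_cancel₀ he]

theorem wt_le (i : Va k) : wt i ≤ 2 * k + 2 := by
  cases i with
  | c j => simp only [wt]; omega
  | d => simp only [wt]; omega
  | z => simp only [wt]; omega
  | e => simp only [wt]; omega
  | a n => have := n.2; simp only [wt]; omega
  | al n => have := n.2; simp only [wt]; omega
  | b n => have := n.2; simp only [wt]; omega
  | be n => have := n.2; simp only [wt]; omega

theorem bounded (k : ℕ) : ∃ M : ℝ, ∀ p ∈ SS k, ‖p‖ ≤ M := by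
  obtain ⟨ε, hε, hr⟩ := ratio0 k
  obtain ⟨C, hC, hb⟩ := bdA k
  have hL : 1 ≤ max 1 (1 / ε) := le_max_left _ _
  have hCL : 1 ≤ C * max 1 (1 / ε) := by nlinarith
  refine ⟨(C * max 1 (1 / ε)) ^ (2 * k + 2), fun p hp => ?_⟩
  obtain ⟨hW, hN, hZ, he⟩ := hp
  have h0 : (0 : ℝ) ≤ (C * max 1 (1 / ε)) ^ (2 * k + 2) := by positivity
  rw [pi_norm_le_iff_of_nonneg h0]
  intro i
  have hz : ‖p .z‖ ≤ max 1 (1 / ε) := by
    have h1 := (hr p hW hN hZ).2
    rw [he, norm_one] at h1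
    refine le_trans ?_ (le_max_right _ _)
    rw [le_div_iff₀ hε]
    linarith
  have he' : ‖p .e‖ ≤ max 1 (1 / ε) := by
    rw [he, norm_one]
    exact hL
  have h2 := hb p hW hN.1 (max 1 (1 / ε)) (by positivity)
    (fun j => by rw [hN.2 j, norm_zero]; positivity) hz he' i
  exact h2.trans (pow_le_pow_right₀ hCL (wt_le i))

theorem invariant (k : ℕ) (M : ℝ) (hM : ∀ p ∈ SS k, ‖p‖ ≤ M) :
    ∃ r : ℝ, 0 < r ∧ ∀ p ∈ SS k, ∀ t : ℂ, ‖t‖ < r → nf t p ∈ SS k := by
  obtain ⟨r1, C1, -, hF⟩ := exists_flowOn (vf k) M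
  obtain ⟨r2, hr2, h2⟩ := fl_not_Z0 k M
  obtain ⟨r3, hr3, h3⟩ := fl_e_ne k M
  refine ⟨min r1 (min r2 r3), lt_min hF.pos (lt_min hr2 hr3), fun p hp t ht => ?_⟩
  have ht1 : ‖t‖ < r1 := ht.trans_le (min_le_left _ _)
  have ht2 : ‖t‖ < r2 := ht.trans_le ((min_le_right _ _).trans (min_le_left _ _))
  have ht3 : ‖t‖ < r3 := ht.trans_le ((min_le_right _ _).trans (min_le_right _ _))
  have hR := hM p hp
  obtain ⟨hW, hN, hZ, he⟩ := hp
  have hW' := fl_W hF hW hR ht1
  have hN' : Nul (fl (vf k) t p) :=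
    ⟨by rw [fl_d hF hR ht1, hN.1], fun j => by rw [fl_c hF hR ht1 j, hN.2 j]⟩
  exact sc_mem hW' hN' (h2 p hR t ht2 hZ) (h3 p hR t ht3 (by rw [he]; exact one_ne_zero))

theorem eqs {p : Va k → ℂ} (hp : p ∈ SS k) (i : Va k) :
    eval p (vf k i) = wt i * p i * eval p (vf k .e) := by
  obtain ⟨M, hM⟩ := bounded k
  exact norm_liou (SS k) M hM (fun p hp => hp.2.2.2) (invariant k M hM) p hp i

/-- The recursion has no solution. -/
theorem rec_no (θ a0 : ℂ) (K : ℕ) (A B : ℕ → ℂ) (ha0 : 2 * a0 = 1 - θ) (hA0 : A 0 = a0)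
    (hB0 : B 0 = -a0)
    (hA : ∀ n < K, A (n + 1) = -((2 * n + 1) ^ 2 * ((1 + θ) / 2) ^ 2) * A n + θ * A n / 2 + B n / 2)
    (hB : ∀ n < K, B (n + 1) =
      -((2 * n + 1) ^ 2 * ((1 + θ) / 2) ^ 2) * B n + θ * B n / 2 + θ ^ 2 * A n / 2)
    (eA : A K = 0) (eB : B K = 0) : ∀ n ≤ K, A n = 0 ∧ B n = 0 := by
  by_cases h0 : a0 = 0
  · intro n
    induction n with
    | zero => intro _; rw [hA0, hB0, h0, neg_zero]; exact ⟨rfl, rfl⟩
    | succ n ih =>
      intro hn
      obtain ⟨h1, h2⟩ := ih (by omega)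
      rw [hA n (by omega), hB n (by omega), h1, h2]
      constructor <;> ring
  · exfalso
    by_cases hγ : (1 + θ) / 2 = 0
    · have hθ : θ = -1 := by linear_combination 2 * hγ
      have ha1 : a0 = 1 := by linear_combination ha0 / 2 - hθ / 2
      have key : ∀ n ≤ K, A n = (-1) ^ n ∧ B n = -(-1) ^ n := by
        intro n
        induction n with
        | zero => intro _; rw [hA0, hB0, ha1, pow_zero]; exact ⟨rfl, rfl⟩
        | succ n ih =>
          intro hn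
          obtain ⟨h1, h2⟩ := ih (by omega)
          rw [hA n (by omega), hB n (by omega), h1, h2, hθ, pow_succ]
          constructor <;> ring
      have h3 := (key K le_rfl).1
      rw [eA] at h3
      exact pow_ne_zero K (neg_ne_zero.2 one_ne_zero) h3.symm
    · have key : ∀ n ≤ K, θ * A n - B n ≠ 0 := by
        intro n
        induction n with
        | zero =>
          intro _
          rw [hA0, hB0]
          have h4 : θ * a0 - -a0 = 2 * ((1 + θ) / 2) * a0 := by ring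
          rw [h4]
          exact mul_ne_zero (mul_ne_zero two_ne_zero hγ) h0
        | succ n ih =>
          intro hn
          rw [hA n (by omega), hB n (by omega)]
          have h4 : θ * (-((2 * (n : ℂ) + 1) ^ 2 * ((1 + θ) / 2) ^ 2) * A n + θ * A n / 2 + B n / 2) -
              (-((2 * (n : ℂ) + 1) ^ 2 * ((1 + θ) / 2) ^ 2) * B n + θ * B n / 2 +
                θ ^ 2 * A n / 2) =
              -((2 * (n : ℂ) + 1) ^ 2 * ((1 + θ) / 2) ^ 2) * (θ * A n - B n) := by ring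
          rw [h4]
          have h5 : (2 * (n : ℂ) + 1) ≠ 0 := by
            have h6 : ((2 * n + 1 : ℕ) : ℂ) ≠ 0 := Nat.cast_ne_zero.2 (by omega)
            push_cast at h6
            exact h6
          exact mul_ne_zero (neg_ne_zero.2 (mul_ne_zero (pow_ne_zero _ h5) (pow_ne_zero _ hγ)))
            (ih (by omega))
      have h3 := key K le_rfl
      rw [eA, eB] at h3
      exact h3 (by ring)

/-- Extension of a finite sequence by zero. -/
noncomputable def ext (x : Fin (k + 1) → ℂ) (n : ℕ) : ℂ := if h : n < k + 1 then x ⟨n, h⟩ else 0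

theorem ext_fin (x : Fin (k + 1) → ℂ) (n : Fin (k + 1)) : ext x n.1 = x n := by
  unfold ext
  rw [dif_pos n.2]

theorem ext_nx (x : Fin (k + 1) → ℂ) (n : Fin (k + 1)) : nx x 0 n = ext x (n.1 + 1) := rfl

theorem no_point {p : Va k → ℂ} (hp : p ∈ SS k) : False := by
  have heq := eqs hp
  obtain ⟨hW, hN, hZ, he⟩ := hp
  have hz : p .z ≠ 0 := fun h => hZ (null_z hW hN h)
  have hd := hN.1
  have hb0 := W_ab hW
  have hsum : ∀ x : Fin (k + 1) → ℂ, ∑ j, p (.c j) * x j = 0 := fun x =>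
    Finset.sum_eq_zero fun j _ => by rw [hN.2 j, zero_mul]
  have hve : eval p (vf k .e) = -1 + p (.a 0) := by
    rw [ev_e, he, hd, hb0]
    ring
  have hzz := heq .z
  rw [ev_z, hve, hd] at hzz
  simp only [wt, Nat.cast_one, one_mul] at hzz
  have ha : 2 * p (.a 0) = 1 - p .z := by
    have h1 : p .z * (2 * p (.a 0)) = p .z * (1 - p .z) := by linear_combination -hzz
    exact mul_left_cancel₀ hz h1
  have hK : eval p (KK k) = 0 := by
    rw [ev_KK, hd, he]
    linear_combination -ha / 2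
  have hL : eval p (LL k) = 0 := by
    rw [ev_LL, hd, he, hb0]
    linear_combination ha / 2
  have hm : eval p (mm k) = (1 + p .z) / 2 := by
    rw [ev_mm, he]
    ring
  have hve2 : eval p (vf k .e) = -((1 + p .z) / 2) := by
    rw [hve]
    linear_combination ha / 2
  have hal : ∀ n : Fin (k + 1), p (.al n) = -((2 * (n.1 : ℂ) + 1) * ((1 + p .z) / 2)) * p (.a n) := by
    intro n
    have h1 := heq (.a n)
    rw [ev_a, hK, hve2] at h1
    simp only [wt, Nat.cast_add, Nat.cast_mul, Nat.cast_ofNat, Nat.cast_one] at h1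
    linear_combination h1
  have hbe : ∀ n : Fin (k + 1), p (.be n) = -((2 * (n.1 : ℂ) + 1) * ((1 + p .z) / 2)) * p (.b n) := by
    intro n
    have h1 := heq (.b n)
    rw [ev_b, hL, hve2] at h1
    simp only [wt, Nat.cast_add, Nat.cast_mul, Nat.cast_ofNat, Nat.cast_one] at h1
    linear_combination h1
  have hA : ∀ n : Fin (k + 1), nx (fun n => p (.a n)) 0 n =
      -((2 * (n.1 : ℂ) + 1) ^ 2 * ((1 + p .z) / 2) ^ 2) * p (.a n) + p .z * p (.a n) / 2 +
        p (.b n) / 2 := by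
    intro n
    have h1 := heq (.al n)
    rw [ev_al, hK, hve2, hm, hsum, hal n, he] at h1
    simp only [wt, Nat.cast_add, Nat.cast_mul, Nat.cast_ofNat] at h1
    linear_combination -h1
  have hB : ∀ n : Fin (k + 1), nx (fun n => p (.b n)) 0 n =
      -((2 * (n.1 : ℂ) + 1) ^ 2 * ((1 + p .z) / 2) ^ 2) * p (.b n) + p .z * p (.b n) / 2 +
        p .z ^ 2 * p (.a n) / 2 := by
    intro n
    have h1 := heq (.be n)
    rw [ev_be, hL, hve2, hm, hsum, hbe n, he] at h1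
    simp only [wt, Nat.cast_add, Nat.cast_mul, Nat.cast_ofNat] at h1
    linear_combination -h1
  have hrec := rec_no (p .z) (p (.a 0)) (k + 1) (ext fun n => p (.a n)) (ext fun n => p (.b n)) ha
    (ext_fin (fun n => p (.a n)) 0) ((ext_fin (fun n => p (.b n)) 0).trans hb0)
    (fun n hn => by
      have h1 := hA ⟨n, hn⟩
      rw [ext_nx] at h1
      have h2 := ext_fin (fun n => p (.a n)) ⟨n, hn⟩
      have h3 := ext_fin (fun n => p (.b n)) ⟨n, hn⟩
      simp only at h1 h2 h3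
      rw [h1, h2, h3])
    (fun n hn => by
      have h1 := hB ⟨n, hn⟩
      rw [ext_nx] at h1
      have h2 := ext_fin (fun n => p (.a n)) ⟨n, hn⟩
      have h3 := ext_fin (fun n => p (.b n)) ⟨n, hn⟩
      simp only at h1 h2 h3
      rw [h1, h2, h3])
    (by unfold ext; rw [dif_neg (lt_irrefl _)]) (by unfold ext; rw [dif_neg (lt_irrefl _)])
  apply hZ
  intro n
  obtain ⟨h1, h2⟩ := hrec n.1 n.2.le
  rw [ext_fin] at h1 h2
  refine ⟨h1, ?_, h2, ?_⟩
  · rw [hal n, h1, mul_zero]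
  · rw [hbe n, h2, mul_zero]

end NullAll

theorem null_all {k : ℕ} {p : Va k → ℂ} (hp : p ∈ W k) (hn : Nul p) : Z0 p := by
  by_contra hZ
  have he : p .e ≠ 0 := fun h => hZ (null_e hp hn h)
  exact NullAll.no_point (NullAll.sc_mem hp hn hZ he)

end Pool.Agent.Helper44.FT
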