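import Pool.Agent.Helper44.FT.Vf

/-!
# Block FT-R1: a real surface of revolution of finite type gives points of `W`

Profile `(f, g)` with unit tangent `(f1, g1)`, curvature `κ`, `Y_n = (p n, q n)` (radial and vertical part of `Δ^(n+1) x`).
Proof of `real_W`. Put `E s = ⟨f1 s, g1 s⟩ : ℂ`, `E' = i κ E`. (1) For every variable `i` the function `s ↦ st s i` has the derivative `eval (st s) (vf k i)` at every `s ∈ I`: with `K = i κ`, `L = - i κ` (`ev_KK`, `ev_LL`: `a 0 = i h`, `b 0 = - i h`, `h = -(κ + g1/f)`, `z - e = 2 i g1 / f`, `f1² + g1² = 1`),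
`m = f1 / f`, `z e = 1 / f²`; `e² conj-part`: `Z E̅` has derivative `Z' E̅ - i κ Z E̅`; `(p - component) / f²`: `p n = (Z + Z̅)/2`. (2) By `MvPolynomial.induction_on` (`dv_mul`) for every polynomial `F` `s ↦ eval (st s) F` has the derivative `eval (st s) (dv (vf k) F)`. (3) `eval (st s) (G0 k) = 0` on `I`; by induction on `j`
all `eval (st s) (dv^[j] G0) = 0` on the open set `I`.
-/

namespace Pool.Agent.Helper44.FT

open MvPolynomial ComplexConjugate

variable {k : ℕ}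

/-- The point given by the data at one parameter value. -/
noncomputable def stt (c0 : Fin (k + 1) → ℝ) (f f1 g1 : ℝ) (p q p1 q1 : ℕ → ℝ) : Va k → ℂ
  | .c j => (c0 j : ℂ)
  | .d => 1
  | .z => (⟨f1, g1⟩ : ℂ) / (f : ℂ)
  | .e => conj (⟨f1, g1⟩ : ℂ) / (f : ℂ)
  | .a n => (⟨p n, q n⟩ : ℂ) * conj (⟨f1, g1⟩ : ℂ)
  | .al n => (⟨p1 n, q1 n⟩ : ℂ) * conj (⟨f1, g1⟩ : ℂ)
  | .b n => conj (⟨p n, q n⟩ : ℂ) * (⟨f1, g1⟩ : ℂ)
  | .be n => conj (⟨p1 n, q1 n⟩ : ℂ) * (⟨f1, g1⟩ : ℂ)

/-- The data of a surface of revolution of finite type, with `k + 1` coefficients. -/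
structure Data (k : ℕ) (c0 : Fin (k + 1) → ℝ) (I : Set ℝ) (f g f1 g1 κ h : ℝ → ℝ)
    (p q p1 q1 : ℕ → ℝ → ℝ) : Prop where
  opn : IsOpen I
  con : IsPreconnected I
  pos : ∀ s ∈ I, 0 < f s
  df : ∀ s ∈ I, HasDerivAt f (f1 s) s
  dg : ∀ s ∈ I, HasDerivAt g (g1 s) s
  unit : ∀ s ∈ I, f1 s ^ 2 + g1 s ^ 2 = 1
  df1 : ∀ s ∈ I, HasDerivAt f1 (-(κ s * g1 s)) s
  dg1 : ∀ s ∈ I, HasDerivAt g1 (κ s * f1 s) s
  hh : ∀ s ∈ I, h s = -(κ s + g1 s / f s)
  p0 : ∀ s ∈ I, p 0 s = -(h s * g1 s)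
  q0 : ∀ s ∈ I, q 0 s = h s * f1 s
  dp : ∀ n ≤ k, ∀ s ∈ I, HasDerivAt (p n) (p1 n s) s
  dq : ∀ n ≤ k, ∀ s ∈ I, HasDerivAt (q n) (q1 n s) s
  dp1 : ∀ n ≤ k, ∀ s ∈ I,
    HasDerivAt (p1 n) (-p (n + 1) s - f1 s / f s * p1 n s + p n s / f s ^ 2) s
  dq1 : ∀ n ≤ k, ∀ s ∈ I, HasDerivAt (q1 n) (-q (n + 1) s - f1 s / f s * q1 n s) s
  lastp : ∀ s ∈ I, p (k + 1) s = ∑ j, c0 j * p j s
  lastq : ∀ s ∈ I, q (k + 1) s = ∑ j, c0 j * q j s

namespace RealW40

theorem mk_eq (x y : ℝ) : (⟨x, y⟩ : ℂ) = x + y * Complex.I := Complex.mk_eq_add_mul_I x y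

theorem conj_mk_eq (x y : ℝ) : conj (⟨x, y⟩ : ℂ) = x - y * Complex.I := by
  rw [mk_eq, map_add, map_mul, Complex.conj_ofReal, Complex.conj_ofReal, Complex.conj_I]
  ring

section

variable {c0 : Fin (k + 1) → ℝ} {I : Set ℝ} {f g f1 g1 κ h : ℝ → ℝ} {p q p1 q1 : ℕ → ℝ → ℝ}

/-- The point at the parameter `s`. -/
noncomputable def S (c0 : Fin (k + 1) → ℝ) (f f1 g1 : ℝ → ℝ) (p q p1 q1 : ℕ → ℝ → ℝ) (s : ℝ) :
    Va k → ℂ :=
  stt c0 (f s) (f1 s) (g1 s) (fun n => p n s) (fun n => q n s) (fun n => p1 n s) (fun n => q1 n s)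

/-- a complex valued function and its derivative -/
theorem dc {u v : ℝ → ℝ} {u' v' s : ℝ} (hu : HasDerivAt u u' s) (hv : HasDerivAt v v' s) :
    HasDerivAt (fun s => (⟨u s, v s⟩ : ℂ)) ((u' : ℂ) + v' * Complex.I) s := by
  have h1 := (hu.ofReal_comp).add ((hv.ofReal_comp).mul_const Complex.I)
  refine h1.congr_of_eventuallyEq (Filter.Eventually.of_forall fun x => ?_)
  exact mk_eq _ _

theorem dcc {u v : ℝ → ℝ} {u' v' s : ℝ} (hu : HasDerivAt u u' s) (hv : HasDerivAt v v' s) :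
    HasDerivAt (fun s => conj (⟨u s, v s⟩ : ℂ)) ((u' : ℂ) - v' * Complex.I) s := by
  have h1 := (hu.ofReal_comp).sub ((hv.ofReal_comp).mul_const Complex.I)
  refine h1.congr_of_eventuallyEq (Filter.Eventually.of_forall fun x => ?_)
  exact conj_mk_eq _ _

variable (D : Data k c0 I f g f1 g1 κ h p q p1 q1) {s : ℝ} (hs : s ∈ I)

include D hs

theorem un : (f1 s : ℂ) ^ 2 + (g1 s : ℂ) ^ 2 = 1 := by
  have := D.unit s hs
  exact_mod_cast congrArg (fun x : ℝ => (x : ℂ)) this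

theorem fne : (f s : ℂ) ≠ 0 := by
  have := D.pos s hs
  exact_mod_cast this.ne'

theorem hh' : (h s : ℂ) * f s = -(κ s * f s + g1 s) := by
  have h1 := congrArg (fun x : ℝ => (x : ℂ)) (D.hh s hs)
  push_cast at h1
  rw [h1]
  have := fne D hs
  field_simp

theorem a0 : S c0 f f1 g1 p q p1 q1 s (.a 0) = Complex.I * h s := by
  simp only [S, stt, mk_eq, map_add, map_mul, Complex.conj_ofReal, Complex.conj_I]
  have h1 := D.p0 s hs
  have h2 := D.q0 s hs
  have h3 := un D hs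
  have e1 : ((p ((0 : Fin (k + 1)) : ℕ) s : ℝ) : ℂ) = -(h s * g1 s) := by
    rw [show (((0 : Fin (k + 1)) : ℕ)) = 0 from rfl, h1]
    push_cast
    ring
  have e2 : ((q ((0 : Fin (k + 1)) : ℕ) s : ℝ) : ℂ) = h s * f1 s := by
    rw [show (((0 : Fin (k + 1)) : ℕ)) = 0 from rfl, h2]
    push_cast
    ring
  rw [e1, e2]
  linear_combination (Complex.I * h s) * h3 - (h s * f1 s * g1 s : ℂ) * Complex.I_sq

theorem b0 : S c0 f f1 g1 p q p1 q1 s (.b 0) = -(Complex.I * h s) := by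
  simp only [S, stt, mk_eq, map_add, map_mul, Complex.conj_ofReal, Complex.conj_I]
  have h1 := D.p0 s hs
  have h2 := D.q0 s hs
  have h3 := un D hs
  have e1 : ((p ((0 : Fin (k + 1)) : ℕ) s : ℝ) : ℂ) = -(h s * g1 s) := by
    rw [show (((0 : Fin (k + 1)) : ℕ)) = 0 from rfl, h1]
    push_cast
    ring
  have e2 : ((q ((0 : Fin (k + 1)) : ℕ) s : ℝ) : ℂ) = h s * f1 s := by
    rw [show (((0 : Fin (k + 1)) : ℕ)) = 0 from rfl, h2]
    push_cast
    ring
  rw [e1, e2]
  linear_combination -(Complex.I * h s) * h3 - (h s * f1 s * g1 s : ℂ) * Complex.I_sq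

theorem KK_eq : eval (S c0 f f1 g1 p q p1 q1 s) (KK k) = Complex.I * κ s := by
  rw [ev_KK, a0 D hs]
  simp only [S, stt, mk_eq, map_add, map_mul, Complex.conj_ofReal, Complex.conj_I]
  have h1 := hh' D hs
  have h2 := fne D hs
  field_simp
  linear_combination (-2 * Complex.I) * h1

theorem LL_eq : eval (S c0 f f1 g1 p q p1 q1 s) (LL k) = -(Complex.I * κ s) := by
  rw [ev_LL, b0 D hs]
  simp only [S, stt, mk_eq, map_add, map_mul, Complex.conj_ofReal, Complex.conj_I]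
  have h1 := hh' D hs
  have h2 := fne D hs
  field_simp
  linear_combination (2 * Complex.I) * h1

theorem mm_eq : eval (S c0 f f1 g1 p q p1 q1 s) (mm k) = f1 s / f s := by
  rw [ev_mm]
  simp only [S, stt, mk_eq, map_add, map_mul, Complex.conj_ofReal, Complex.conj_I]
  have h2 := fne D hs
  field_simp
  ring

theorem nxa (n : Fin (k + 1)) :
    nx (fun n => S c0 f f1 g1 p q p1 q1 s (.a n))
      (∑ j, S c0 f f1 g1 p q p1 q1 s (.c j) * S c0 f f1 g1 p q p1 q1 s (.a j)) n =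
      ((p (n + 1) s : ℂ) + q (n + 1) s * Complex.I) * (f1 s - g1 s * Complex.I) := by
  unfold nx
  split_ifs with hn
  · simp only [S, stt, mk_eq, map_add, map_mul, Complex.conj_ofReal, Complex.conj_I]
    ring
  · have hk : (n : ℕ) = k := by omega
    rw [hk]
    have h1 := congrArg (fun x : ℝ => (x : ℂ)) (D.lastp s hs)
    have h2 := congrArg (fun x : ℝ => (x : ℂ)) (D.lastq s hs)
    push_cast at h1 h2
    rw [h1, h2]
    simp only [S, stt, mk_eq, map_add, map_mul, Complex.conj_ofReal, Complex.conj_I]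
    rw [Finset.sum_mul, ← Finset.sum_add_distrib, Finset.sum_mul]
    exact Finset.sum_congr rfl fun j _ => by ring

theorem nxb (n : Fin (k + 1)) :
    nx (fun n => S c0 f f1 g1 p q p1 q1 s (.b n))
      (∑ j, S c0 f f1 g1 p q p1 q1 s (.c j) * S c0 f f1 g1 p q p1 q1 s (.b j)) n =
      ((p (n + 1) s : ℂ) - q (n + 1) s * Complex.I) * (f1 s + g1 s * Complex.I) := by
  unfold nx
  split_ifs with hn
  · simp only [S, stt, mk_eq, map_add, map_mul, Complex.conj_ofReal, Complex.conj_I]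
    ring
  · have hk : (n : ℕ) = k := by omega
    rw [hk]
    have h1 := congrArg (fun x : ℝ => (x : ℂ)) (D.lastp s hs)
    have h2 := congrArg (fun x : ℝ => (x : ℂ)) (D.lastq s hs)
    push_cast at h1 h2
    rw [h1, h2]
    simp only [S, stt, mk_eq, map_add, map_mul, Complex.conj_ofReal, Complex.conj_I]
    rw [Finset.sum_mul, ← Finset.sum_sub_distrib, Finset.sum_mul]
    exact Finset.sum_congr rfl fun j _ => by ring

theorem dE : HasDerivAt (fun s => (⟨f1 s, g1 s⟩ : ℂ))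
    (Complex.I * κ s * (f1 s + g1 s * Complex.I)) s := by
  refine (dc (D.df1 s hs) (D.dg1 s hs)).congr_deriv ?_
  push_cast
  linear_combination -(κ s * g1 s : ℂ) * Complex.I_sq

theorem dEc : HasDerivAt (fun s => conj (⟨f1 s, g1 s⟩ : ℂ))
    (-(Complex.I * κ s) * (f1 s - g1 s * Complex.I)) s := by
  refine (dcc (D.df1 s hs) (D.dg1 s hs)).congr_deriv ?_
  push_cast
  linear_combination -(κ s * g1 s : ℂ) * Complex.I_sq

theorem dvar (i : Va k) : HasDerivAt (fun s => S c0 f f1 g1 p q p1 q1 s i)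
    (eval (S c0 f f1 g1 p q p1 q1 s) (vf k i)) s := by
  have h3 := un D hs
  have h1 := hh' D hs
  have h2 := fne D hs
  cases i with
  | c j =>
    rw [ev_c]
    simp only [S, stt]
    exact hasDerivAt_const _ _
  | d =>
    rw [ev_d]
    simp only [S, stt]
    exact hasDerivAt_const _ _
  | z =>
    rw [ev_z, a0 D hs]
    have h4 := (dE D hs).div (D.df s hs).ofReal_comp h2
    refine h4.congr_deriv ?_
    simp only [S, stt, mk_eq, map_add, map_mul, Complex.conj_ofReal, Complex.conj_I]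
    field_simp
    linear_combination (Complex.I * (f1 s + g1 s * Complex.I)) * h1
  | e =>
    rw [ev_e, b0 D hs]
    have h4 := (dEc D hs).div (D.df s hs).ofReal_comp h2
    refine h4.congr_deriv ?_
    simp only [S, stt, mk_eq, map_add, map_mul, Complex.conj_ofReal, Complex.conj_I]
    field_simp
    linear_combination -(Complex.I * (f1 s - g1 s * Complex.I)) * h1
  | a n =>
    rw [ev_a, KK_eq D hs]
    have h4 := (dc (D.dp n (by omega) s hs) (D.dq n (by omega) s hs)).mul (dEc D hs)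
    refine h4.congr_deriv ?_
    simp only [S, stt, mk_eq, map_add, map_mul, Complex.conj_ofReal, Complex.conj_I]
    ring
  | b n =>
    rw [ev_b, LL_eq D hs]
    have h4 := (dcc (D.dp n (by omega) s hs) (D.dq n (by omega) s hs)).mul (dE D hs)
    refine h4.congr_deriv ?_
    simp only [S, stt, mk_eq, map_add, map_mul, Complex.conj_ofReal, Complex.conj_I]
    ring
  | al n =>
    rw [ev_al, KK_eq D hs, mm_eq D hs, nxa D hs]
    have h4 := (dc (D.dp1 n (by omega) s hs) (D.dq1 n (by omega) s hs)).mul (dEc D hs)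
    refine h4.congr_deriv ?_
    simp only [S, stt, mk_eq, map_add, map_mul, Complex.conj_ofReal, Complex.conj_I]
    push_cast
    field_simp
    linear_combination (-2 * (p n s : ℂ) * (f1 s - g1 s * Complex.I)) * h3 +
      (2 * (p n s : ℂ) * (f1 s - g1 s * Complex.I) * (g1 s : ℂ) ^ 2) * Complex.I_sq
  | be n =>
    rw [ev_be, LL_eq D hs, mm_eq D hs, nxb D hs]
    have h4 := (dcc (D.dp1 n (by omega) s hs) (D.dq1 n (by omega) s hs)).mul (dE D hs)
    refine h4.congr_deriv ?_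
    simp only [S, stt, mk_eq, map_add, map_mul, Complex.conj_ofReal, Complex.conj_I]
    push_cast
    field_simp
    linear_combination (-2 * (p n s : ℂ) * (f1 s + g1 s * Complex.I)) * h3 +
      (2 * (p n s : ℂ) * (f1 s + g1 s * Complex.I) * (g1 s : ℂ) ^ 2) * Complex.I_sq

theorem dpol (F : MvPolynomial (Va k) ℂ) : HasDerivAt (fun s => eval (S c0 f f1 g1 p q p1 q1 s) F)
    (eval (S c0 f f1 g1 p q p1 q1 s) (dv (vf k) F)) s := by
  induction F using MvPolynomial.induction_on with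
  | C a =>
    rw [dv_C, map_zero]
    simp only [eval_C]
    exact hasDerivAt_const _ _
  | add F G hF hG =>
    rw [map_add, map_add]
    refine (hF.add hG).congr_of_eventuallyEq (Filter.Eventually.of_forall fun x => ?_)
    exact map_add _ _ _
  | mul_X F i hF =>
    rw [dv_mul, dv_X, map_add, map_mul, map_mul, eval_X]
    refine (hF.mul (dvar D hs i)).congr_of_eventuallyEq (Filter.Eventually.of_forall fun x => ?_)
    change eval _ (F * X i) = eval _ F * S c0 f f1 g1 p q p1 q1 x i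
    rw [map_mul, eval_X]

omit hs in
theorem itz (j : ℕ) : ∀ s ∈ I, eval (S c0 f f1 g1 p q p1 q1 s) ((dv (vf k))^[j] (G0 k)) = 0 := by
  induction j with
  | zero =>
    intro s hs
    simp only [Function.iterate_zero, id_eq, G0, map_add, eval_X]
    rw [a0 D hs, b0 D hs]
    ring
  | succ j ih =>
    intro s hs
    rw [Function.iterate_succ_apply']
    have h1 := dpol D hs ((dv (vf k))^[j] (G0 k))
    have h2 : HasDerivAt (fun s => eval (S c0 f f1 g1 p q p1 q1 s) ((dv (vf k))^[j] (G0 k))) 0 s := by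
      refine (hasDerivAt_const s (0 : ℂ)).congr_of_eventuallyEq ?_
      filter_upwards [D.opn.mem_nhds hs] with x hx
      exact ih x hx
    exact h1.unique h2

end

end RealW40

theorem real_deriv {c0 : Fin (k + 1) → ℝ} {I : Set ℝ} {f g f1 g1 κ h : ℝ → ℝ} {p q p1 q1 : ℕ → ℝ → ℝ}
    (D : Data k c0 I f g f1 g1 κ h p q p1 q1) (F : MvPolynomial (Va k) ℂ) {s : ℝ} (hs : s ∈ I) :
    HasDerivAt (fun s => eval (stt c0 (f s) (f1 s) (g1 s) (fun n => p n s) (fun n => q n s)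
        (fun n => p1 n s) (fun n => q1 n s)) F)
      (eval (stt c0 (f s) (f1 s) (g1 s) (fun n => p n s) (fun n => q n s)
        (fun n => p1 n s) (fun n => q1 n s)) (dv (vf k) F)) s :=
  RealW40.dpol D hs F

theorem real_W {c0 : Fin (k + 1) → ℝ} {I : Set ℝ} {f g f1 g1 κ h : ℝ → ℝ} {p q p1 q1 : ℕ → ℝ → ℝ}
    (D : Data k c0 I f g f1 g1 κ h p q p1 q1) {s : ℝ} (hs : s ∈ I) :
    stt c0 (f s) (f1 s) (g1 s) (fun n => p n s) (fun n => q n s) (fun n => p1 n s) (fun n => q1 n s) ∈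
      W k :=
  fun j => RealW40.itz D j s hs

end Pool.Agent.Helper44.FT
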