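import Pool.Agent.Helper44.FT.Lap

/-!
# A surface of revolution satisfies the hypotheses on smoothness and immersion
-/

namespace Pool.Agent.Helper44.FT

namespace SR

theorem smooth {I J : Set ℝ} {r z : ℝ → ℝ}
    (hr : ContDiffOn ℝ ((⊤ : ℕ∞) : WithTop ℕ∞) r I) (hz : ContDiffOn ℝ ((⊤ : ℕ∞) : WithTop ℕ∞) z I)
    {f : ℝ × ℝ → EuclideanSpace ℝ (Fin 3)}
    (hf : ∀ p ∈ I ×ˢ J, f p = !₂[r p.1 * Real.cos p.2, r p.1 * Real.sin p.2, z p.1]) :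
    ContDiffOn ℝ ((⊤ : ℕ∞) : WithTop ℕ∞) f (I ×ˢ J) := by
  have h1 : Set.MapsTo (fun q : ℝ × ℝ => q.1) (I ×ˢ J) I := fun q hq => hq.1
  have hr' : ContDiffOn ℝ ((⊤ : ℕ∞) : WithTop ℕ∞) (fun q : ℝ × ℝ => r q.1) (I ×ˢ J) :=
    hr.comp contDiff_fst.contDiffOn h1
  have hz' : ContDiffOn ℝ ((⊤ : ℕ∞) : WithTop ℕ∞) (fun q : ℝ × ℝ => z q.1) (I ×ˢ J) :=
    hz.comp contDiff_fst.contDiffOn h1
  have hc : ContDiffOn ℝ ((⊤ : ℕ∞) : WithTop ℕ∞) (fun q : ℝ × ℝ => Real.cos q.2) (I ×ˢ J) :=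
    (Real.contDiff_cos.comp contDiff_snd).contDiffOn
  have hs : ContDiffOn ℝ ((⊤ : ℕ∞) : WithTop ℕ∞) (fun q : ℝ × ℝ => Real.sin q.2) (I ×ˢ J) :=
    (Real.contDiff_sin.comp contDiff_snd).contDiffOn
  refine ContDiffOn.congr ?_ hf
  rw [contDiffOn_euclidean]
  intro i
  fin_cases i
  · exact hr'.mul hc
  · exact hr'.mul hs
  · exact hz'

theorem comp_fderiv {f : ℝ × ℝ → EuclideanSpace ℝ (Fin 3)} {p : ℝ × ℝ} (hd : DifferentiableAt ℝ f p)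
    (v : ℝ × ℝ) (i : Fin 3) : (fderiv ℝ f p v) i = fderiv ℝ (fun q => f q i) p v := by
  have h1 : HasFDerivAt (fun q => f q i)
      ((EuclideanSpace.proj (𝕜 := ℝ) i).comp (fderiv ℝ f p)) p :=
    (EuclideanSpace.proj (𝕜 := ℝ) i).hasFDerivAt.comp p hd.hasFDerivAt
  rw [h1.fderiv]
  rfl

theorem fd_rcos {r c : ℝ → ℝ} {p : ℝ × ℝ} {r' c' : ℝ} (hr : HasDerivAt r r' p.1)
    (hc : HasDerivAt c c' p.2) (v : ℝ × ℝ) :
    fderiv ℝ (fun q : ℝ × ℝ => r q.1 * c q.2) p v = r' * v.1 * c p.2 + r p.1 * (c' * v.2) := by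
  have h1 : HasFDerivAt (fun q : ℝ × ℝ => r q.1) (r' • ContinuousLinearMap.fst ℝ ℝ ℝ) p :=
    hr.comp_hasFDerivAt p hasFDerivAt_fst
  have h2 : HasFDerivAt (fun q : ℝ × ℝ => c q.2) (c' • ContinuousLinearMap.snd ℝ ℝ ℝ) p :=
    hc.comp_hasFDerivAt p hasFDerivAt_snd
  have h3 : HasFDerivAt (fun q : ℝ × ℝ => r q.1 * c q.2)
      (r p.1 • (c' • ContinuousLinearMap.snd ℝ ℝ ℝ) + c p.2 • (r' • ContinuousLinearMap.fst ℝ ℝ ℝ)) p :=
    h1.mul h2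
  rw [h3.fderiv]
  simp
  ring

end SR

theorem sf_rot {I J : Set ℝ} (hI : IsOpen I) (hJ : IsOpen J) {r z : ℝ → ℝ}
    (hr : ContDiffOn ℝ ((⊤ : ℕ∞) : WithTop ℕ∞) r I) (hz : ContDiffOn ℝ ((⊤ : ℕ∞) : WithTop ℕ∞) z I)
    (hpos : ∀ s ∈ I, 0 < r s) (hun : ∀ s ∈ I, deriv r s ^ 2 + deriv z s ^ 2 = 1)
    {f : ℝ × ℝ → EuclideanSpace ℝ (Fin 3)}
    (hf : ∀ p ∈ I ×ˢ J, f p = !₂[r p.1 * Real.cos p.2, r p.1 * Real.sin p.2, z p.1]) :
    ContDiffOn ℝ ((⊤ : ℕ∞) : WithTop ℕ∞) f (I ×ˢ J) ∧ ∀ p ∈ I ×ˢ J, LinearIndependent ℝ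
      ![fderiv ℝ f p ((1:ℝ), (0:ℝ)), fderiv ℝ f p ((0:ℝ), (1:ℝ))] := by
  have hU : IsOpen (I ×ˢ J) := hI.prod hJ
  have hsm := SR.smooth hr hz hf
  refine ⟨hsm, fun p hp => ?_⟩
  have hd : DifferentiableAt ℝ f p :=
    (hsm.contDiffAt (hU.mem_nhds hp)).differentiableAt (by simp)
  have hrd : HasDerivAt r (deriv r p.1) p.1 :=
    ((hr.contDiffAt (hI.mem_nhds hp.1)).differentiableAt (by simp)).hasDerivAt
  have hzd : HasDerivAt z (deriv z p.1) p.1 :=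
    ((hz.contDiffAt (hI.mem_nhds hp.1)).differentiableAt (by simp)).hasDerivAt
  have hev : ∀ᶠ q in nhds p, f q = !₂[r q.1 * Real.cos q.2, r q.1 * Real.sin q.2, z q.1] :=
    Filter.eventually_of_mem (hU.mem_nhds hp) hf
  have c0 : ∀ v : ℝ × ℝ, (fderiv ℝ f p v) 0 =
      deriv r p.1 * v.1 * Real.cos p.2 + r p.1 * (-Real.sin p.2 * v.2) := by
    intro v
    rw [SR.comp_fderiv hd, ← SR.fd_rcos hrd (Real.hasDerivAt_cos p.2) v]
    congr 1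
    apply Filter.EventuallyEq.fderiv_eq
    filter_upwards [hev] with q hq
    rw [hq]; rfl
  have c1 : ∀ v : ℝ × ℝ, (fderiv ℝ f p v) 1 =
      deriv r p.1 * v.1 * Real.sin p.2 + r p.1 * (Real.cos p.2 * v.2) := by
    intro v
    rw [SR.comp_fderiv hd, ← SR.fd_rcos hrd (Real.hasDerivAt_sin p.2) v]
    congr 1
    apply Filter.EventuallyEq.fderiv_eq
    filter_upwards [hev] with q hq
    rw [hq]; rfl
  have c2 : ∀ v : ℝ × ℝ, (fderiv ℝ f p v) 2 = deriv z p.1 * v.1 := by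
    intro v
    have h2 := SR.fd_rcos hzd (hasDerivAt_const p.2 (1 : ℝ)) v
    rw [SR.comp_fderiv hd]
    have h3 : fderiv ℝ (fun q => f q 2) p = fderiv ℝ (fun q : ℝ × ℝ => z q.1 * 1) p := by
      apply Filter.EventuallyEq.fderiv_eq
      filter_upwards [hev] with q hq
      rw [hq]; simp
    rw [h3, h2]; ring
  rw [LinearIndependent.pair_iff]
  intro a b hab
  have e0 := congrArg (fun w : EuclideanSpace ℝ (Fin 3) => w 0) hab
  have e1 := congrArg (fun w : EuclideanSpace ℝ (Fin 3) => w 1) hab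
  have e2 := congrArg (fun w : EuclideanSpace ℝ (Fin 3) => w 2) hab
  simp only [PiLp.add_apply, PiLp.smul_apply, smul_eq_mul, PiLp.zero_apply, c0, c1, c2] at e0 e1 e2
  have hcs := Real.cos_sq_add_sin_sq p.2
  have hrp := hpos p.1 hp.1
  have hu := hun p.1 hp.1
  have hb : b = 0 := by
    have h1 : b * r p.1 * (Real.cos p.2 ^ 2 + Real.sin p.2 ^ 2) = 0 := by
      linear_combination Real.cos p.2 * e1 - Real.sin p.2 * e0
    rw [hcs, mul_one] at h1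
    exact (mul_eq_zero.mp h1).resolve_right hrp.ne'
  have ha1 : a * deriv r p.1 = 0 := by
    have h1 : a * deriv r p.1 * (Real.cos p.2 ^ 2 + Real.sin p.2 ^ 2) = 0 := by
      linear_combination Real.cos p.2 * e0 + Real.sin p.2 * e1
    rwa [hcs, mul_one] at h1
  have ha2 : a * deriv z p.1 = 0 := by linear_combination e2
  have ha : a = 0 := by
    have h1 : a * (deriv r p.1 ^ 2 + deriv z p.1 ^ 2) = 0 := by
      linear_combination deriv r p.1 * ha1 + deriv z p.1 * ha2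
    rwa [hu, mul_one] at h1
  exact ⟨ha, hb⟩

end Pool.Agent.Helper44.FT
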