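import Pool.Agent.Helper44.FT.Vf

/-!
# Block FT-SYM: symmetries of `W`

(a) `W_closed`: `p ↦ eval p F` is continuous (`MvPolynomial.continuous_eval`), intersection of closed sets.
(b) `W_sc`: let `S l : MvPolynomial →ₐ MvPolynomial`, `S l (X i) = C (l ^ wt i) * X i` (`aeval`); `eval p (S l F) = eval (sc l p) F`. On the
generators `l • S l ... `: `C l * dv (S l F) = S l (dv F)`, precisely `S l (vf k i) = C (l ^ (wt i + 1)) * vf k i`; by induction on the
polynomial `F` (`MvPolynomial.induction_on`, `dv_mul`) `S l (dv F) = C l * dv (S l F)`, and `S l (G0 k) = C l * G0 k`; so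
`eval (sc l p) (dv^[j] G0) = l^(j+1) * eval p (dv^[j] G0)`.
(c) `W_ms`: same with the automorphism `d ↦ C (1/m) * d`, `a n ↦ C m * a n` ...: it commutes with `dv` and multiplies `G0` by `m`.
(d) `W_sw`: the automorphism which exchanges `z, e`, `a n, b n`, `al n, be n` commutes with `dv` and fixes `G0` (`MvPolynomial.rename`).
It may be convenient to prove one general lemma: if `φ : MvPolynomial ι ℂ →ₐ[ℂ] MvPolynomial ι ℂ` and `l : ℂ` satisfy
`φ (vf i) = C l * dv vf (φ (X i))` for all `i`, then `φ (dv F) = C l * dv (φ F)` for all `F`.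
-/

namespace Pool.Agent.Helper44.FT

open MvPolynomial

variable {k : ℕ}

theorem W_closed (k : ℕ) : IsClosed (W k) := by
  have h : W k = ⋂ j : ℕ, {p : Va k → ℂ | eval p ((dv (vf k))^[j] (G0 k)) = 0} := by
    ext p
    simp only [W, it, Set.mem_ofPred_eq, Set.mem_iInter]
  rw [h]
  refine isClosed_iInter fun j => ?_
  exact isClosed_eq (MvPolynomial.continuous_eval _) continuous_const

/-! ### A general lemma (helper94) -/

theorem h94_comm {ι : Type*} (P : ι → MvPolynomial ι ℂ)
    (φ : MvPolynomial ι ℂ →ₐ[ℂ] MvPolynomial ι ℂ) (l : ℂ)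
    (h : ∀ i, φ (P i) = C l * dv P (φ (X i))) (F : MvPolynomial ι ℂ) :
    φ (dv P F) = C l * dv P (φ F) := by
  have hC : ∀ a : ℂ, φ (C a) = C a := fun a => φ.commutes a
  induction F using MvPolynomial.induction_on with
  | C a => rw [dv_C, hC, dv_C, map_zero, mul_zero]
  | add F G hF hG => rw [map_add, map_add, hF, hG, map_add, map_add, mul_add]
  | mul_X F i hF =>
    rw [dv_mul, dv_X, map_add, map_mul, map_mul, map_mul, hF, h i, dv_mul]
    ring

theorem h94_iter {ι : Type*} (P : ι → MvPolynomial ι ℂ)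
    (φ : MvPolynomial ι ℂ →ₐ[ℂ] MvPolynomial ι ℂ) (l m : ℂ)
    (h : ∀ i, φ (P i) = C l * dv P (φ (X i))) (G : MvPolynomial ι ℂ) (hG : φ G = C m * G)
    (j : ℕ) : φ ((dv P)^[j] G) = C (l ^ j * m) * (dv P)^[j] G := by
  induction j with
  | zero => simpa using hG
  | succ j ih =>
    rw [Function.iterate_succ_apply', h94_comm P φ l h, ih, dv_mul, dv_C, zero_mul, zero_add,
      ← mul_assoc, ← map_mul]
    congr 2
    ring

theorem h94_mem {φ : MvPolynomial (Va k) ℂ →ₐ[ℂ] MvPolynomial (Va k) ℂ} {l m : ℂ}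
    (h : ∀ i, φ (vf k i) = C l * dv (vf k) (φ (X i))) (hG : φ (G0 k) = C m * G0 k)
    {p q : Va k → ℂ} (hq : ∀ i, q i = eval p (φ (X i))) (hp : p ∈ W k) : q ∈ W k := by
  have he : ∀ F, eval q F = eval p (φ F) := by
    intro F
    have hC : ∀ a : ℂ, φ (C a) = C a := fun a => φ.commutes a
    induction F using MvPolynomial.induction_on with
    | C a => rw [hC, eval_C, eval_C]
    | add F G hF hG => rw [map_add, map_add, map_add, hF, hG]
    | mul_X F i hF => rw [map_mul, map_mul, map_mul, hF, eval_X, hq i]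
  intro j
  have hj := hp j
  unfold it at hj ⊢
  rw [he, h94_iter (vf k) φ l m h (G0 k) hG j, map_mul, hj, mul_zero]

theorem h94_map_nx (φ : MvPolynomial (Va k) ℂ →ₐ[ℂ] MvPolynomial (Va k) ℂ)
    (x : Fin (k + 1) → MvPolynomial (Va k) ℂ) (y : MvPolynomial (Va k) ℂ) (n : Fin (k + 1)) :
    φ (nx x y n) = nx (fun n => φ (x n)) (φ y) n := by
  unfold nx
  split_ifs <;> rfl

theorem h94_nx_wt (l : ℂ) (x : Fin (k + 1) → MvPolynomial (Va k) ℂ) (n : Fin (k + 1)) :
    nx (fun n => C (l ^ (2 * n.1 + 1)) * x n)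
      (∑ j : Fin (k + 1), (C (l ^ (2 * (k + 1 - j.1))) * X (.c j)) * (C (l ^ (2 * j.1 + 1)) * x j)) n =
    C (l ^ (2 * n.1 + 3)) * nx x (∑ j, X (.c j) * x j) n := by
  unfold nx
  split_ifs with h
  · rfl
  · have hn : n.1 = k := by have := n.2; omega
    rw [Finset.mul_sum]
    refine Finset.sum_congr rfl fun j _ => ?_
    have h1 : l ^ (2 * (k + 1 - j.1)) * l ^ (2 * j.1 + 1) = l ^ (2 * n.1 + 3) := by
      rw [← pow_add]
      congr 1
      have := j.2
      omega
    rw [← h1, map_mul]
    ring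

theorem h94_nx_ms (m : ℂ) (x : Fin (k + 1) → MvPolynomial (Va k) ℂ) (n : Fin (k + 1)) :
    nx (fun n => C m * x n) (∑ j : Fin (k + 1), X (.c j) * (C m * x j)) n =
    C m * nx x (∑ j, X (.c j) * x j) n := by
  unfold nx
  split_ifs with h
  · rfl
  · rw [Finset.mul_sum]
    refine Finset.sum_congr rfl fun j _ => ?_
    ring

theorem W_sc {p : Va k → ℂ} (hp : p ∈ W k) (l : ℂ) : sc l p ∈ W k := by
  let φ : MvPolynomial (Va k) ℂ →ₐ[ℂ] MvPolynomial (Va k) ℂ :=
    aeval (fun i => C (l ^ wt i) * X i)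
  have hX : ∀ i, φ (X i) = C (l ^ wt i) * X i := fun i => aeval_X _ _
  have hC : ∀ a : ℂ, φ (C a) = C a := fun a => φ.commutes a
  refine h94_mem (φ := φ) (l := l) (m := l) ?_ ?_ ?_ hp
  · intro i
    rw [hX, dv_mul, dv_C, zero_mul, zero_add, dv_X]
    cases i with
    | c j => simp [vf]
    | d => simp [vf]
    | z =>
      simp only [vf, wt, map_sub, map_neg, map_mul, hX, pow_zero, pow_one, C_1]
      simp only [Fin.val_zero, mul_zero, zero_add, pow_one]
      ring
    | e =>
      simp only [vf, wt, map_sub, map_neg, map_mul, hX, pow_zero, pow_one, C_1]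
      simp only [Fin.val_zero, mul_zero, zero_add, pow_one]
      ring
    | a n =>
      simp only [vf, KK, wt, map_sub, map_neg, map_mul, hX, hC, pow_zero, pow_one, C_1]
      simp only [Fin.val_zero, mul_zero, zero_add, pow_one, map_pow, C_pow]
      ring
    | b n =>
      simp only [vf, LL, wt, map_sub, map_neg, map_mul, hX, hC, pow_zero, pow_one, C_1]
      simp only [Fin.val_zero, mul_zero, zero_add, pow_one, map_pow, C_pow]
      ring
    | al n =>
      have h1 := h94_nx_wt l (fun n : Fin (k + 1) => (X (.a n) : MvPolynomial (Va k) ℂ)) n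
      simp only [vf, KK, mm, wt, map_sub, map_neg, map_mul, map_add, hX, hC, pow_zero, pow_one,
        C_1, h94_map_nx, map_sum]
      rw [h1]
      simp only [Fin.val_zero, mul_zero, zero_add, pow_one, map_pow, C_pow]
      ring
    | be n =>
      have h1 := h94_nx_wt l (fun n : Fin (k + 1) => (X (.b n) : MvPolynomial (Va k) ℂ)) n
      simp only [vf, LL, mm, wt, map_sub, map_neg, map_mul, map_add, hX, hC, pow_zero, pow_one,
        C_1, h94_map_nx, map_sum]
      rw [h1]
      simp only [Fin.val_zero, mul_zero, zero_add, pow_one, map_pow, C_pow]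
      ring
  · simp only [G0, map_add, hX, wt]
    simp only [Fin.val_zero, mul_zero, zero_add, pow_one]
    ring
  · intro i
    rw [hX]
    simp [sc]

theorem W_ms {p : Va k → ℂ} (hp : p ∈ W k) {m : ℂ} (hm : m ≠ 0) : ms m p ∈ W k := by
  let g : Va k → MvPolynomial (Va k) ℂ := fun i => match i with
    | .c j => X (.c j)
    | .d => C (1 / m) * X .d
    | .z => X .z
    | .e => X .e
    | .a n => C m * X (.a n)
    | .al n => C m * X (.al n)
    | .b n => C m * X (.b n)
    | .be n => C m * X (.be n)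
  let φ : MvPolynomial (Va k) ℂ →ₐ[ℂ] MvPolynomial (Va k) ℂ := aeval g
  have hX : ∀ i, φ (X i) = g i := fun i => aeval_X _ _
  have hC : ∀ a : ℂ, φ (C a) = C a := fun a => φ.commutes a
  have hmm : (C (1 / m) : MvPolynomial (Va k) ℂ) * C m = 1 := by
    rw [← map_mul, one_div, inv_mul_cancel₀ hm, C_1]
  have hda : ∀ x y : MvPolynomial (Va k) ℂ, C (1 / m) * x * (C m * y) = x * y := by
    intro x y
    calc C (1 / m) * x * (C m * y) = (C (1 / m) * C m) * (x * y) := by ring
      _ = x * y := by rw [hmm, one_mul]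
  refine h94_mem (φ := φ) (l := 1) (m := m) ?_ ?_ ?_ hp
  · intro i
    rw [hX, C_1, one_mul]
    cases i with
    | c j => simp [vf, g]
    | d => simp only [vf, g, dv_mul, dv_C, dv_X, map_zero, zero_mul, mul_zero, add_zero]
    | z =>
      simp only [vf, g, dv_X, map_sub, map_neg, map_mul, hX, hda]
    | e =>
      simp only [vf, g, dv_X, map_sub, map_neg, map_mul, hX, hda]
    | a n =>
      simp only [vf, KK, g, dv_mul, dv_C, dv_X, map_sub, map_neg, map_mul, hX, hC, hda]
      ring
    | b n =>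
      simp only [vf, LL, g, dv_mul, dv_C, dv_X, map_sub, map_neg, map_mul, hX, hC, hda]
      ring
    | al n =>
      have h1 := h94_nx_ms m (fun n : Fin (k + 1) => (X (.a n) : MvPolynomial (Va k) ℂ)) n
      simp only [vf, KK, mm, g, dv_mul, dv_C, dv_X, map_sub, map_neg, map_mul, map_add, hX, hC,
        hda, h94_map_nx, map_sum]
      rw [h1]
      ring
    | be n =>
      have h1 := h94_nx_ms m (fun n : Fin (k + 1) => (X (.b n) : MvPolynomial (Va k) ℂ)) n
      simp only [vf, LL, mm, g, dv_mul, dv_C, dv_X, map_sub, map_neg, map_mul, map_add, hX, hC,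
        hda, h94_map_nx, map_sum]
      rw [h1]
      ring
  · simp only [G0, map_add, hX, g]
    ring
  · intro i
    rw [hX]
    cases i <;> simp [ms, g]
    field_simp

theorem W_sw {p : Va k → ℂ} (hp : p ∈ W k) : sw p ∈ W k := by
  let g : Va k → MvPolynomial (Va k) ℂ := fun i => match i with
    | .c j => X (.c j)
    | .d => X .d
    | .z => X .e
    | .e => X .z
    | .a n => X (.b n)
    | .al n => X (.be n)
    | .b n => X (.a n)
    | .be n => X (.al n)
  let φ : MvPolynomial (Va k) ℂ →ₐ[ℂ] MvPolynomial (Va k) ℂ := aeval g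
  have hX : ∀ i, φ (X i) = g i := fun i => aeval_X _ _
  have hC : ∀ a : ℂ, φ (C a) = C a := fun a => φ.commutes a
  refine h94_mem (φ := φ) (l := 1) (m := 1) ?_ ?_ ?_ hp
  · intro i
    rw [hX, C_1, one_mul]
    cases i with
    | c j => simp [vf, g]
    | d => simp [vf, g]
    | z =>
      simp only [vf, g, dv_X, map_sub, map_neg, map_mul, hX]
    | e =>
      simp only [vf, g, dv_X, map_sub, map_neg, map_mul, hX]
    | a n =>
      simp only [vf, KK, LL, g, dv_X, map_sub, map_neg, map_mul, hX, hC]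
    | b n =>
      simp only [vf, KK, LL, g, dv_X, map_sub, map_neg, map_mul, hX, hC]
    | al n =>
      simp only [vf, KK, LL, mm, g, dv_X, map_sub, map_neg, map_mul, map_add, hX, hC,
        h94_map_nx, map_sum]
      ring
    | be n =>
      simp only [vf, KK, LL, mm, g, dv_X, map_sub, map_neg, map_mul, map_add, hX, hC,
        h94_map_nx, map_sum]
      ring
  · simp only [G0, map_add, hX, g, C_1]
    ring
  · intro i
    rw [hX]
    cases i <;> simp [sw, g]

end Pool.Agent.Helper44.FT
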