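import Pool.Agent.Helper44.FT.Landau
import Pool.Agent.Helper44.FT.BdA

/-!
# Block FT-F2: the vertical components are bounded near the axis

Notation of `Landau.lean`. Choose `r1 ≤ r0` with `(8/7) C1 r1 ≤ 1/2`. For `0 < ρ ≤ r1` let `Q(ρ)` be the supremum of all `‖u_n(x)‖`, `x ∈ Nr c0 r0`, `ρ ≤ ‖x.2‖ ≤ r1`, all `n`. It is finite: `‖z‖, ‖e‖ ≤ (9/8)/ρ`, so all coordinates of `x.1` are bounded by `bdA`. Let `B1` be
the same supremum for `‖x.2‖ = r1` only. Let `x` be a point with `ρ ≤ ‖x.2‖ < r1`. Walk with `N` equal real steps `w = ε = log (r1/‖x.2‖) / N < w0` (`N` large) to `‖x.2‖ = r1`. In the step from radius `s` to `s' = s e^ε` we have `‖v_n‖ ≤ C1 s e^t Q(ρ)` (`landau` at every intermediate radius, `B = Q(ρ)`), so `u_n` changes by at most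
`(8/7) C1 (s' - s) Q(ρ)`. In total `‖u_n(x)‖ ≤ B1 + (8/7) C1 r1 Q(ρ) ≤ B1 + Q(ρ)/2`. So `Q(ρ) ≤ B1 + Q(ρ)/2`, `Q(ρ) ≤ 2 B1` for all `ρ`.
-/

namespace Pool.Agent.Helper44.FT

open MvPolynomial

variable {k : ℕ}

namespace UB

variable {c0 : Fin (k + 1) → ℂ} {r : ℝ}

theorem ne_two {x : (Va k → ℂ) × ℂ} (hx : x ∈ Nr c0 r) : x.2 ≠ 0 := by
  intro h0
  have := hx.2.2.2.1
  rw [h0] at this
  simp at this

theorem norm_mm {x : (Va k → ℂ) × ℂ} (hx : x ∈ Nr c0 r) :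
    7 / 8 ≤ ‖x.2 * eval x.1 (mm k)‖ := by
  have h1 := hx.2.2.2.2.2.1
  have h2 := hx.2.2.2.2.2.2
  have h3 : x.2 * eval x.1 (mm k) = 1 + ((x.2 * x.1 .z - 1) / 2 + (x.2 * x.1 .e - 1) / 2) := by
    rw [ev_mm]; ring
  have h4 : ‖(x.2 * x.1 .z - 1) / 2 + (x.2 * x.1 .e - 1) / 2‖ ≤ 1 / 8 := by
    refine (norm_add_le _ _).trans ?_
    rw [norm_div, norm_div, Complex.norm_two]
    linarith
  have h5 := norm_sub_le_norm_add (1 : ℂ) ((x.2 * x.1 .z - 1) / 2 + (x.2 * x.1 .e - 1) / 2)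
  rw [norm_one] at h5
  rw [h3]
  linarith

theorem mm_ne {x : (Va k → ℂ) × ℂ} (hx : x ∈ Nr c0 r) : eval x.1 (mm k) ≠ 0 := by
  intro h0
  have := norm_mm hx
  rw [h0, mul_zero, norm_zero] at this
  norm_num at this

theorem norm_div_mm {x : (Va k → ℂ) × ℂ} (hx : x ∈ Nr c0 r) (u : ℂ) :
    ‖u / (x.2 * eval x.1 (mm k))‖ ≤ 8 / 7 * ‖u‖ := by
  have h1 := norm_mm hx
  rw [norm_div, div_le_iff₀ (by linarith)]
  have h2 : 0 ≤ ‖u‖ := norm_nonneg u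
  nlinarith

theorem norm_xz {x : (Va k → ℂ) × ℂ} (hx : x ∈ Nr c0 r) : ‖x.2 * x.1 .z‖ ≤ 9 / 8 := by
  have h1 := hx.2.2.2.2.2.1
  have h2 : ‖x.2 * x.1 .z‖ ≤ ‖x.2 * x.1 .z - 1‖ + ‖(1 : ℂ)‖ := by
    simpa using norm_add_le (x.2 * x.1 .z - 1) 1
  rw [norm_one] at h2
  linarith

theorem norm_xe {x : (Va k → ℂ) × ℂ} (hx : x ∈ Nr c0 r) : ‖x.2 * x.1 .e‖ ≤ 9 / 8 := by
  have h1 := hx.2.2.2.2.2.2
  have h2 : ‖x.2 * x.1 .e‖ ≤ ‖x.2 * x.1 .e - 1‖ + ‖(1 : ℂ)‖ := by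
    simpa using norm_add_le (x.2 * x.1 .e - 1) 1
  rw [norm_one] at h2
  linarith

theorem mul_nx (f : ℂ) (x : Fin (k + 1) → ℂ) (y : ℂ) (n : Fin (k + 1)) :
    f * nx x y n = nx (fun n => f * x n) (f * y) n := by
  unfold nx
  split_ifs <;> rfl

theorem norm_nx {x : Fin (k + 1) → ℂ} {y : ℂ} {B c : ℝ} (hc : 1 ≤ c) (hB : 0 ≤ B)
    (hx : ∀ n, ‖x n‖ ≤ B) (hy : ‖y‖ ≤ c * B) (n : Fin (k + 1)) : ‖nx x y n‖ ≤ c * B := by
  unfold nx
  split_ifs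
  · refine (hx _).trans ?_
    nlinarith
  · exact hy

theorem alg_u (F M P U : ℂ) (hF : F ≠ 0) (hM : M ≠ 0) :
    F * U + F * ((P - M * U) / M) = F ^ 2 * P / (F * M) := by
  field_simp
  ring

theorem alg_v (F M P N : ℂ) (hF : F ≠ 0) (hM : M ≠ 0) :
    2 * F ^ (2 - 1) * F * P + F ^ 2 * ((-(2 * M * P) - N) / M) = -(F ^ 2 * (F * N) / (F * M)) := by
  have h : (2 - 1 : ℕ) = 1 := rfl
  rw [h]
  field_simp
  ring

theorem ev_dvU (p : Va k → ℂ) (n : Fin (k + 1)) : eval p (dv (vf k) (UU n)) =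
    eval p (PP n) - eval p (mm k) * eval p (UU n) := by
  rw [dv_UU n, RingHom.map_sub (eval p) (PP n) (mm k * UU n), RingHom.map_mul (eval p) (mm k) (UU n)]

theorem ev_dvP (p : Va k → ℂ) (n : Fin (k + 1)) : eval p (dv (vf k) (PP n)) =
    -(2 * eval p (mm k) * eval p (PP n)) -
      eval p (nx (fun n => UU n) (∑ j, X (.c j) * UU j) n) := by
  rw [dv_PP n, RingHom.map_sub (eval p) (-(2 * mm k * PP n)), RingHom.map_neg (eval p) (2 * mm k * PP n),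
    RingHom.map_mul (eval p) (2 * mm k) (PP n), RingHom.map_mul (eval p) 2 (mm k)]
  have h2 : eval p (2 : MvPolynomial (Va k) ℂ) = 2 := map_ofNat (eval p) 2
  rw [h2]

theorem ev_dvq (p : Va k → ℂ) (hd : p .d = 1) : eval p (dv (vf k) (X .z - X .e)) =
    -(2 * eval p (mm k) * (p .z - p .e)) - eval p (UU 0) := by
  rw [dv_zme, RingHom.map_sub (eval p) (-(2 * mm k * (X Va.z - X Va.e))) (X Va.d * UU 0),
    RingHom.map_neg (eval p) (2 * mm k * (X Va.z - X Va.e)),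
    RingHom.map_mul (eval p) (2 * mm k) (X Va.z - X Va.e), RingHom.map_mul (eval p) 2 (mm k),
    RingHom.map_sub (eval p) (X Va.z) (X Va.e), RingHom.map_mul (eval p) (X Va.d) (UU 0)]
  have h2 : eval p (2 : MvPolynomial (Va k) ℂ) = 2 := map_ofNat (eval p) 2
  rw [h2, eval_X, eval_X, eval_X, hd, one_mul]

theorem ev_nU (p : Va k → ℂ) (hc : ∀ j, p (.c j) = c0 j) (F : ℂ) (n : Fin (k + 1)) :
    nx (fun n => F * eval p (UU n)) (∑ j, c0 j * (F * eval p (UU j))) n =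
      F * eval p (nx (fun n => UU n) (∑ j, X (.c j) * UU j) n) := by
  rw [ev_nx, mul_nx]
  congr 1
  rw [map_sum (eval p) (fun j => X (Va.c j) * UU j), Finset.mul_sum]
  refine Finset.sum_congr rfl fun j _ => ?_
  rw [RingHom.map_mul (eval p) (X (Va.c j)) (UU j), eval_X, hc j]
  ring

/-- derivative of `u_n` -/
theorem du {g : ℂ → Va k → ℂ} {f w : ℂ} (n : Fin (k + 1))
    (hg : ∀ F : MvPolynomial (Va k) ℂ, HasDerivAt (fun w => eval (g w) F)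
      (eval (g w) (dv (vf k) F) / eval (g w) (mm k)) w)
    (hmem : (g w, f * Complex.exp w) ∈ Nr c0 r) :
    HasDerivAt (fun w => f * Complex.exp w * eval (g w) (UU n))
      ((f * Complex.exp w) ^ 2 * eval (g w) (PP n) / (f * Complex.exp w * eval (g w) (mm k))) w := by
  have h1 : HasDerivAt (fun w => f * Complex.exp w * eval (g w) (UU n))
    (f * Complex.exp w * eval (g w) (UU n) +
      f * Complex.exp w * (eval (g w) (dv (vf k) (UU n)) / eval (g w) (mm k))) w :=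
    ((Complex.hasDerivAt_exp w).const_mul f).mul (hg (UU n))
  refine h1.congr_deriv ?_
  rw [ev_dvU]
  have h3 := ne_two hmem
  have h4 := mm_ne hmem
  exact alg_u _ _ _ _ h3 h4

theorem dsq (f w : ℂ) : HasDerivAt (fun w => (f * Complex.exp w) ^ 2)
      (2 * (f * Complex.exp w) ^ (2 - 1) * (f * Complex.exp w)) w := by
  have := ((Complex.hasDerivAt_exp w).const_mul f).fun_pow 2
  exact_mod_cast this

/-- derivative of `v_n` -/
theorem dvn {g : ℂ → Va k → ℂ} {f w : ℂ} (n : Fin (k + 1))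
    (hg : ∀ F : MvPolynomial (Va k) ℂ, HasDerivAt (fun w => eval (g w) F)
      (eval (g w) (dv (vf k) F) / eval (g w) (mm k)) w)
    (hmem : (g w, f * Complex.exp w) ∈ Nr c0 r) :
    HasDerivAt (fun w => (f * Complex.exp w) ^ 2 * eval (g w) (PP n))
      (-((f * Complex.exp w) ^ 2 * nx (fun n => f * Complex.exp w * eval (g w) (UU n))
        (∑ j, c0 j * (f * Complex.exp w * eval (g w) (UU j))) n /
          (f * Complex.exp w * eval (g w) (mm k)))) w := by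
  have h1 : HasDerivAt (fun w => (f * Complex.exp w) ^ 2 * eval (g w) (PP n))
    (2 * (f * Complex.exp w) ^ (2 - 1) * (f * Complex.exp w) * eval (g w) (PP n) +
      (f * Complex.exp w) ^ 2 * (eval (g w) (dv (vf k) (PP n)) / eval (g w) (mm k))) w :=
    (dsq f w).mul (hg (PP n))
  refine h1.congr_deriv ?_
  rw [ev_nU (g w) hmem.2.1.2, ev_dvP]
  have h3 := ne_two hmem
  have h4 := mm_ne hmem
  exact alg_v _ _ _ _ h3 h4

/-- derivative of `f² (z - e)` -/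
theorem dq {g : ℂ → Va k → ℂ} {f w : ℂ}
    (hg : ∀ F : MvPolynomial (Va k) ℂ, HasDerivAt (fun w => eval (g w) F)
      (eval (g w) (dv (vf k) F) / eval (g w) (mm k)) w)
    (hmem : (g w, f * Complex.exp w) ∈ Nr c0 r) :
    HasDerivAt (fun w => (f * Complex.exp w) ^ 2 * (g w .z - g w .e))
      (-((f * Complex.exp w) ^ 2 * (f * Complex.exp w * eval (g w) (UU 0)) /
          (f * Complex.exp w * eval (g w) (mm k)))) w := by
  have hze : (fun w => eval (g w) (X .z - X .e)) = fun w => g w .z - g w .e := by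
    funext w
    rw [RingHom.map_sub (eval (g w)) (X Va.z) (X Va.e), eval_X, eval_X]
  have hg1 := hg (X .z - X .e)
  rw [hze] at hg1
  have h1 : HasDerivAt (fun w => (f * Complex.exp w) ^ 2 * (g w .z - g w .e))
    (2 * (f * Complex.exp w) ^ (2 - 1) * (f * Complex.exp w) * (g w .z - g w .e) +
      (f * Complex.exp w) ^ 2 * (eval (g w) (dv (vf k) (X .z - X .e)) / eval (g w) (mm k))) w :=
    (dsq f w).mul hg1
  refine h1.congr_deriv ?_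
  rw [ev_dvq (g w) hmem.2.1.1]
  have h3 := ne_two hmem
  have h4 := mm_ne hmem
  exact alg_v _ _ _ _ h3 h4

/-- Points with radius bounded below have bounded vertical components. -/
theorem bnd (c0 : Fin (k + 1) → ℂ) (r ρ : ℝ) (hρ : 0 < ρ) : ∃ M : ℝ, 0 ≤ M ∧
    ∀ x ∈ Nr c0 r, ρ ≤ ‖x.2‖ → ∀ n, ‖x.2 * eval x.1 (UU n)‖ ≤ M := by
  obtain ⟨C, hC, hb⟩ := bdA k
  set L : ℝ := 1 + ∑ j, ‖c0 j‖ + 9 / 8 / ρ with hL
  have hS : 0 ≤ ∑ j, ‖c0 j‖ := Finset.sum_nonneg fun _ _ => norm_nonneg _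
  have hR : 0 < 9 / 8 / ρ := by positivity
  have hL1 : 1 ≤ L := by rw [hL]; linarith
  have hCL : 1 ≤ C * L := by nlinarith
  refine ⟨9 / 4 * (C * L) ^ (2 * k + 1), by positivity, ?_⟩
  intro x hx hxρ n
  have hx0 : 0 < ‖x.2‖ := by linarith
  have hz : ‖x.1 .z‖ ≤ L := by
    have h1 := norm_xz hx
    rw [norm_mul] at h1
    have h2 : ‖x.1 .z‖ ≤ 9 / 8 / ρ := by
      rw [le_div_iff₀ hρ]
      have := norm_nonneg (x.1 .z)
      nlinarith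
    rw [hL]; linarith
  have he : ‖x.1 .e‖ ≤ L := by
    have h1 := norm_xe hx
    rw [norm_mul] at h1
    have h2 : ‖x.1 .e‖ ≤ 9 / 8 / ρ := by
      rw [le_div_iff₀ hρ]
      have := norm_nonneg (x.1 .e)
      nlinarith
    rw [hL]; linarith
  have hc : ∀ j, ‖x.1 (.c j)‖ ≤ L ^ wt (Va.c j) := by
    intro j
    rw [hx.2.1.2 j]
    have h1 : ‖c0 j‖ ≤ ∑ j, ‖c0 j‖ :=
      Finset.single_le_sum (f := fun j => ‖c0 j‖) (fun _ _ => norm_nonneg _) (Finset.mem_univ j)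
    have h2 : L ^ 1 ≤ L ^ wt (Va.c j) := by
      apply pow_le_pow_right₀ hL1
      have := j.2
      simp only [wt]
      omega
    rw [pow_one] at h2
    linarith
  have hall := hb x.1 hx.1 hx.2.1.1 L (by linarith) hc hz he
  have ha : ‖x.1 (.a n)‖ ≤ (C * L) ^ (2 * k + 1) := by
    refine (hall (.a n)).trans (pow_le_pow_right₀ hCL ?_)
    have := n.2
    simp only [wt]
    omega
  have hb' : ‖x.1 (.b n)‖ ≤ (C * L) ^ (2 * k + 1) := by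
    refine (hall (.b n)).trans (pow_le_pow_right₀ hCL ?_)
    have := n.2
    simp only [wt]
    omega
  have h1 : x.2 * eval x.1 (UU n) = x.2 * x.1 .z * x.1 (.a n) - x.2 * x.1 .e * x.1 (.b n) := by
    simp only [UU, map_sub, map_mul, eval_X]
    ring
  rw [h1]
  refine (norm_sub_le _ _).trans ?_
  rw [norm_mul _ (x.1 (.a n)), norm_mul _ (x.1 (.b n))]
  have h2 : ‖x.2 * x.1 .z‖ * ‖x.1 (.a n)‖ ≤ 9 / 8 * (C * L) ^ (2 * k + 1) :=
    mul_le_mul (norm_xz hx) ha (norm_nonneg _) (by norm_num)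
  have h3 : ‖x.2 * x.1 .e‖ * ‖x.1 (.b n)‖ ≤ 9 / 8 * (C * L) ^ (2 * k + 1) :=
    mul_le_mul (norm_xe hx) hb' (norm_nonneg _) (by norm_num)
  linarith

theorem norm_rad (f : ℂ) (t : ℝ) : ‖f * Complex.exp (t : ℂ)‖ = ‖f‖ * Real.exp t := by
  rw [norm_mul, Complex.norm_exp, Complex.ofReal_re]

/-- One step outwards. -/
theorem step_out {r0 w0 : ℝ} (h : StepD c0 r0 w0) {ρ r1 K : ℝ} (hr : r1 ≤ r0)
    (hK : ∀ x ∈ Nr c0 r0, ρ ≤ ‖x.2‖ → ‖x.2‖ ≤ r1 → ∀ n, ‖x.2 ^ 2 * eval x.1 (PP n)‖ ≤ K * ‖x.2‖)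
    {x : (Va k → ℂ) × ℂ} (hx : x ∈ Nr c0 r0) (hxρ : ρ ≤ ‖x.2‖) {ε : ℝ} (hε : 0 ≤ ε) (hεw : ε < w0)
    (hx1 : ‖x.2‖ * Real.exp ε ≤ r1) :
    ∃ y ∈ Nr c0 r0, ‖y.2‖ = ‖x.2‖ * Real.exp ε ∧
      ∀ n, ‖y.2 * eval y.1 (UU n) - x.2 * eval x.1 (UU n)‖ ≤ 8 / 7 * K * (‖y.2‖ - ‖x.2‖) := by
  obtain ⟨g, hg0, hg⟩ := h.step x hx
  have hmem : ∀ t : ℝ, 0 ≤ t → t ≤ ε → (g (t : ℂ), x.2 * Complex.exp (t : ℂ)) ∈ Nr c0 r0 := by
    intro t ht0 htε
    refine (hg (t : ℂ) ?_).2 ?_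
    · rw [Complex.norm_real, Real.norm_of_nonneg ht0]; linarith
    · rw [norm_rad]
      refine le_trans ?_ hr
      refine le_trans ?_ hx1
      gcongr
  have hder : ∀ n, ∀ t : ℝ, 0 ≤ t → t ≤ ε → HasDerivAt (fun t : ℝ => x.2 * Complex.exp (t : ℂ) * eval (g (t : ℂ)) (UU n))
      ((x.2 * Complex.exp (t : ℂ)) ^ 2 * eval (g (t : ℂ)) (PP n) / (x.2 * Complex.exp (t : ℂ) * eval (g (t : ℂ)) (mm k))) t := by
    intro n t ht0 htε
    have hw : ‖(t : ℂ)‖ < w0 := by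
      rw [Complex.norm_real, Real.norm_of_nonneg ht0]; linarith
    exact (du n (hg (t : ℂ) hw).1 (hmem t ht0 htε)).comp_ofReal
  refine ⟨(g (ε : ℂ), x.2 * Complex.exp (ε : ℂ)), hmem ε hε le_rfl, norm_rad _ _, ?_⟩
  intro n
  have key := image_norm_le_of_norm_deriv_right_le_deriv_boundary
    (f := fun t : ℝ => x.2 * Complex.exp (t : ℂ) * eval (g (t : ℂ)) (UU n) - x.2 * eval x.1 (UU n))
    (f' := fun t : ℝ => (x.2 * Complex.exp (t : ℂ)) ^ 2 * eval (g (t : ℂ)) (PP n) /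
      (x.2 * Complex.exp (t : ℂ) * eval (g (t : ℂ)) (mm k)))
    (a := 0) (b := ε)
    (B := fun t : ℝ => 8 / 7 * K * (‖x.2‖ * Real.exp t - ‖x.2‖))
    (B' := fun t : ℝ => 8 / 7 * K * (‖x.2‖ * Real.exp t))
    ?_ ?_ ?_ ?_ ?_ (x := ε) ⟨hε, le_rfl⟩
  · rw [norm_rad]
    exact key
  · intro t ht
    exact ((hder n t ht.1 ht.2).sub_const _).continuousAt.continuousWithinAt
  · intro t ht
    exact ((hder n t ht.1 ht.2.le).sub_const _).hasDerivWithinAt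
  · simp [hg0]
  · intro t
    exact ((((Real.hasDerivAt_exp t).const_mul ‖x.2‖).sub_const _).const_mul _)
  · intro t ht
    have hm := hmem t ht.1 ht.2.le
    have h1 := norm_div_mm hm ((x.2 * Complex.exp (t : ℂ)) ^ 2 * eval (g (t : ℂ)) (PP n))
    simp only at h1
    refine h1.trans ?_
    have hl : ρ ≤ ‖x.2 * Complex.exp (t : ℂ)‖ := by
      rw [norm_rad]
      have := Real.one_le_exp ht.1
      have := norm_nonneg x.2
      nlinarith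
    have hu : ‖x.2 * Complex.exp (t : ℂ)‖ ≤ r1 := by
      rw [norm_rad]
      refine le_trans ?_ hx1
      have := ht.2.le
      gcongr
    have h2 := hK _ hm hl hu n
    simp only at h2
    rw [norm_rad] at h2
    linarith

theorem walk_out {r0 w0 : ℝ} (h : StepD c0 r0 w0) {ρ r1 K : ℝ} (hr : r1 ≤ r0)
    (hK : ∀ x ∈ Nr c0 r0, ρ ≤ ‖x.2‖ → ‖x.2‖ ≤ r1 → ∀ n, ‖x.2 ^ 2 * eval x.1 (PP n)‖ ≤ K * ‖x.2‖)
    {ε : ℝ} (hε : 0 ≤ ε) (hεw : ε < w0) (N : ℕ) :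
    ∀ x ∈ Nr c0 r0, ρ ≤ ‖x.2‖ → ‖x.2‖ * Real.exp (N * ε) ≤ r1 →
    ∃ y ∈ Nr c0 r0, ‖y.2‖ = ‖x.2‖ * Real.exp (N * ε) ∧
      ∀ n, ‖y.2 * eval y.1 (UU n) - x.2 * eval x.1 (UU n)‖ ≤ 8 / 7 * K * (‖y.2‖ - ‖x.2‖) := by
  induction N with
  | zero =>
    intro x hx _ _
    refine ⟨x, hx, by simp, fun n => by simp⟩
  | succ N ih =>
    intro x hx hxρ hx1
    have hle : ‖x.2‖ * Real.exp (N * ε) ≤ ‖x.2‖ * Real.exp ((N + 1 : ℕ) * ε) := by
      push_cast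
      gcongr
      linarith
    obtain ⟨y, hy, hy2, hyn⟩ := ih x hx hxρ (hle.trans hx1)
    have hyρ : ρ ≤ ‖y.2‖ := by
      rw [hy2]
      have h1 : 1 ≤ Real.exp (N * ε) := Real.one_le_exp (by positivity)
      have := norm_nonneg x.2
      nlinarith
    have he : ‖y.2‖ * Real.exp ε = ‖x.2‖ * Real.exp ((N + 1 : ℕ) * ε) := by
      rw [hy2, mul_assoc, ← Real.exp_add]
      congr 2
      push_cast
      ring
    obtain ⟨y', hy', hy2', hyn'⟩ := step_out h hr hK hy hyρ hε hεw (by rw [he]; exact hx1)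
    refine ⟨y', hy', by rw [hy2', he], ?_⟩
    intro n
    have h1 := hyn n
    have h2 := hyn' n
    have h3 : y'.2 * eval y'.1 (UU n) - x.2 * eval x.1 (UU n) =
      (y'.2 * eval y'.1 (UU n) - y.2 * eval y.1 (UU n)) + (y.2 * eval y.1 (UU n) - x.2 * eval x.1 (UU n)) := by ring
    rw [h3]
    refine (norm_add_le _ _).trans ?_
    calc _ ≤ 8 / 7 * K * (‖y'.2‖ - ‖y.2‖) + 8 / 7 * K * (‖y.2‖ - ‖x.2‖) := add_le_add h2 h1
      _ = _ := by ring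

end UB

open UB in
theorem ubound {c0 : Fin (k + 1) → ℂ} {r0 w0 : ℝ} (h : StepD c0 r0 w0) :
    ∃ r1 B0 : ℝ, 0 < r1 ∧ r1 ≤ r0 ∧ 0 ≤ B0 ∧ ∀ x ∈ Nr c0 r0, ‖x.2‖ ≤ r1 → ∀ n,
      ‖x.2 * eval x.1 (UU n)‖ ≤ B0 := by
  obtain ⟨C1, hC1, hland⟩ := landau h
  have h0 := h.r_pos
  set r1 : ℝ := min r0 (1 / (4 * C1)) with hr1
  have hr1pos : 0 < r1 := lt_min h0 (by positivity)
  have hr10 : r1 ≤ r0 := min_le_left _ _
  have hr1C : C1 * r1 ≤ 1 / 4 := by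
    have h1 : r1 ≤ 1 / (4 * C1) := min_le_right _ _
    have h2 : C1 * r1 ≤ C1 * (1 / (4 * C1)) := by gcongr
    refine h2.trans (le_of_eq ?_)
    field_simp
  obtain ⟨B1, hB1, hb1⟩ := bnd c0 r0 r1 hr1pos
  refine ⟨r1, 2 * B1, hr1pos, hr10, by linarith, ?_⟩
  intro x hx hxr n
  have hx0 : 0 < ‖x.2‖ := norm_pos_iff.2 (ne_two hx)
  set ρ : ℝ := ‖x.2‖ with hρ
  obtain ⟨M, hM, hbM⟩ := bnd c0 r0 ρ hx0
  set S : Set ℝ := {s | ∃ y ∈ Nr c0 r0, ∃ m, ρ ≤ ‖y.2‖ ∧ ‖y.2‖ ≤ r1 ∧ s = ‖y.2 * eval y.1 (UU m)‖} with hS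
  have hSb : BddAbove S := by
    refine ⟨M, ?_⟩
    rintro s ⟨y, hy, m, h1, h2, rfl⟩
    exact hbM y hy h1 m
  have hSne : S.Nonempty := ⟨_, x, hx, n, le_rfl, hxr, rfl⟩
  set Q := sSup S with hQ
  have hQle : ∀ y ∈ Nr c0 r0, ρ ≤ ‖y.2‖ → ‖y.2‖ ≤ r1 → ∀ m, ‖y.2 * eval y.1 (UU m)‖ ≤ Q :=
    fun y hy h1 h2 m => le_csSup hSb ⟨y, hy, m, h1, h2, rfl⟩
  have hQ0 : 0 ≤ Q := (norm_nonneg _).trans (hQle x hx le_rfl hxr n)
  have hKall : ∀ y ∈ Nr c0 r0, ρ ≤ ‖y.2‖ → ‖y.2‖ ≤ r1 → ∀ m,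
      ‖y.2 ^ 2 * eval y.1 (PP m)‖ ≤ C1 * Q * ‖y.2‖ := by
    intro y hy h1 h2 m
    have h3 := hland ‖y.2‖ (by linarith) (by linarith) Q
      (fun y' hy' he m' => hQle y' hy' (by rw [he]; exact h1) (by rw [he]; exact h2) m') y hy rfl m
    calc _ ≤ C1 * ‖y.2‖ * Q := h3
      _ = _ := by ring
  have hmain : Q ≤ B1 + Q / 2 := by
    refine csSup_le hSne ?_
    rintro s ⟨y, hy, m, h1, h2, rfl⟩
    have hy0 : 0 < ‖y.2‖ := by linarith
    set T : ℝ := Real.log (r1 / ‖y.2‖) with hT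
    have hT0 : 0 ≤ T := Real.log_nonneg (by rw [le_div_iff₀ hy0]; linarith)
    obtain ⟨N, hN⟩ := exists_nat_gt (T / w0)
    have hN0 : 0 < (N : ℝ) := lt_of_le_of_lt (div_nonneg hT0 h.w_pos.le) hN
    have hε : T / N < w0 := by
      rw [div_lt_iff₀ hN0]
      rw [div_lt_iff₀ h.w_pos] at hN
      linarith
    have hNε : (N : ℝ) * (T / N) = T := by field_simp
    have hexp : ‖y.2‖ * Real.exp (N * (T / N)) = r1 := by
      rw [hNε, hT, Real.exp_log (by positivity)]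
      field_simp
    obtain ⟨y', hy', hy2, hyn⟩ := walk_out h hr10 hKall (div_nonneg hT0 hN0.le) hε N y hy h1 hexp.le
    rw [hexp] at hy2
    have h3 := hb1 y' hy' hy2.ge m
    have h4 := hyn m
    have h5 : ‖y.2 * eval y.1 (UU m)‖ ≤ ‖y'.2 * eval y'.1 (UU m)‖ +
        ‖y'.2 * eval y'.1 (UU m) - y.2 * eval y.1 (UU m)‖ := by
      have := norm_sub_le (y'.2 * eval y'.1 (UU m)) (y'.2 * eval y'.1 (UU m) - y.2 * eval y.1 (UU m))
      rwa [sub_sub_cancel] at this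
    have h6 : 8 / 7 * (C1 * Q) * (‖y'.2‖ - ‖y.2‖) ≤ Q / 2 := by
      rw [hy2]
      have h7 : C1 * (r1 - ‖y.2‖) ≤ 1 / 4 := by nlinarith
      have h8 : 8 / 7 * (C1 * Q) * (r1 - ‖y.2‖) = 8 / 7 * Q * (C1 * (r1 - ‖y.2‖)) := by ring
      rw [h8]
      nlinarith
    linarith
  have h1 := hQle x hx le_rfl hxr n
  linarith

end Pool.Agent.Helper44.FT
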