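import Pool.Agent.Helper44.FT.UBound

/-!
# Block FT-F3: the derivatives are small and `z - e` is bounded near the axis

Notation of `Landau.lean`. Let `‖u_n‖ ≤ B0` for all radii `≤ r1` (`ubound`); so by `landau` `‖v_n(x)‖ ≤ C1 ‖x.2‖ B0`. Let `‖x.2‖ = ρ ≤ r1`; walk inwards with steps `w = -ε`, `ε = w0/2`: `‖v_n'‖ ≤ (8/7) s² e^(-2t) c B0`, `c = max 1 (∑ ‖c0 j‖)`, where `s` is the radius at the beginning of the step; so in every step `v_n` changes by at most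
`(4/7) c B0 (s² - s'²)`, and after `N` steps `‖v_n(x)‖ ≤ C1 B0 ρ e^(-Nε) + (4/7) c B0 ρ²`; let `N → ∞`. For the second claim let `q = f² (z - e) = f (E - 1/E)`, `‖q‖ ≤ ‖f‖/4`; along the curves `q' = - f² u_0 / C` (`dv_zme`, `p d = 1`), so in the same way `‖q(x)‖ ≤ (4/7) B0 ρ²`, so `‖z - e‖ ≤ (4/7) B0`.
-/

namespace Pool.Agent.Helper44.FT

open MvPolynomial

variable {k : ℕ}

namespace VB

open UB

variable {c0 : Fin (k + 1) → ℂ} {r : ℝ}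

/-- One step inwards, for a general quantity. -/
theorem step_in {r0 w0 : ℝ} (h : StepD c0 r0 w0) {r1 K : ℝ} (hr : r1 ≤ r0)
    (Φ : (Va k → ℂ) × ℂ → ℂ) (Ψ : (Va k → ℂ) × ℂ → ℂ)
    (hder : ∀ (g : ℂ → Va k → ℂ) (f w : ℂ),
      (∀ F : MvPolynomial (Va k) ℂ, HasDerivAt (fun w => eval (g w) F)
        (eval (g w) (dv (vf k) F) / eval (g w) (mm k)) w) →
      (g w, f * Complex.exp w) ∈ Nr c0 r0 →
      HasDerivAt (fun w => Φ (g w, f * Complex.exp w)) (Ψ (g w, f * Complex.exp w)) w)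
    (hK : ∀ x ∈ Nr c0 r0, ‖x.2‖ ≤ r1 → ‖Ψ x‖ ≤ 2 * K * ‖x.2‖ ^ 2)
    {x : (Va k → ℂ) × ℂ} (hx : x ∈ Nr c0 r0) (hx1 : ‖x.2‖ ≤ r1) {ε : ℝ} (hε : 0 ≤ ε) (hεw : ε < w0) :
    ∃ y ∈ Nr c0 r0, ‖y.2‖ = ‖x.2‖ * Real.exp (-ε) ∧
      ‖Φ y - Φ x‖ ≤ K * (‖x.2‖ ^ 2 - ‖y.2‖ ^ 2) := by
  obtain ⟨g, hg0, hg⟩ := h.step x hx
  have hle : ∀ t : ℝ, 0 ≤ t → ‖x.2‖ * Real.exp (-t) ≤ ‖x.2‖ := by
    intro t ht
    have h1 : Real.exp (-t) ≤ 1 := Real.exp_le_one_iff.2 (by linarith)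
    have := norm_nonneg x.2
    nlinarith
  have hw : ∀ t : ℝ, 0 ≤ t → t ≤ ε → ‖((-t : ℝ) : ℂ)‖ < w0 := by
    intro t ht0 htε
    rw [Complex.norm_real, norm_neg, Real.norm_of_nonneg ht0]; linarith
  have hmem : ∀ t : ℝ, 0 ≤ t → t ≤ ε →
      (g ((-t : ℝ) : ℂ), x.2 * Complex.exp ((-t : ℝ) : ℂ)) ∈ Nr c0 r0 := by
    intro t ht0 htε
    refine (hg _ (hw t ht0 htε)).2 ?_
    rw [norm_rad]
    exact (hle t ht0).trans (hx1.trans hr)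
  have hd : ∀ t : ℝ, 0 ≤ t → t ≤ ε →
      HasDerivAt (fun t : ℝ => Φ (g ((-t : ℝ) : ℂ), x.2 * Complex.exp ((-t : ℝ) : ℂ)))
      (-Ψ (g ((-t : ℝ) : ℂ), x.2 * Complex.exp ((-t : ℝ) : ℂ))) t := by
    intro t ht0 htε
    have h1 := hder g x.2 ((-t : ℝ) : ℂ) (hg _ (hw t ht0 htε)).1 (hmem t ht0 htε)
    have h2 : HasDerivAt (fun s : ℝ => Φ (g (s : ℂ), x.2 * Complex.exp (s : ℂ)))
      (Ψ (g ((-t : ℝ) : ℂ), x.2 * Complex.exp ((-t : ℝ) : ℂ))) (-t) := h1.comp_ofReal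
    have h3 : HasDerivAt (fun t : ℝ => Φ (g ((-t : ℝ) : ℂ), x.2 * Complex.exp ((-t : ℝ) : ℂ)))
      ((-1 : ℝ) • Ψ (g ((-t : ℝ) : ℂ), x.2 * Complex.exp ((-t : ℝ) : ℂ))) t :=
      h2.scomp t (hasDerivAt_neg t)
    refine h3.congr_deriv ?_
    rw [neg_smul, one_smul]
  refine ⟨(g ((-ε : ℝ) : ℂ), x.2 * Complex.exp ((-ε : ℝ) : ℂ)), hmem ε hε le_rfl, norm_rad _ _, ?_⟩
  have key := image_norm_le_of_norm_deriv_right_le_deriv_boundary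
    (f := fun t : ℝ => Φ (g ((-t : ℝ) : ℂ), x.2 * Complex.exp ((-t : ℝ) : ℂ)) - Φ x)
    (f' := fun t : ℝ => -Ψ (g ((-t : ℝ) : ℂ), x.2 * Complex.exp ((-t : ℝ) : ℂ)))
    (a := 0) (b := ε)
    (B := fun t : ℝ => K * (‖x.2‖ ^ 2 - ‖x.2‖ ^ 2 * Real.exp (-2 * t)))
    (B' := fun t : ℝ => K * (2 * ‖x.2‖ ^ 2 * Real.exp (-2 * t)))
    ?_ ?_ ?_ ?_ ?_ (x := ε) ⟨hε, le_rfl⟩
  · rw [norm_rad]
    refine key.trans (le_of_eq ?_)
    have h1 : Real.exp (-2 * ε) = Real.exp (-ε) ^ 2 := by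
      rw [← Real.exp_nat_mul]
      congr 1
      push_cast
      ring
    simp only [h1]
    ring
  · intro t ht
    exact ((hd t ht.1 ht.2).sub_const _).continuousAt.continuousWithinAt
  · intro t ht
    exact ((hd t ht.1 ht.2.le).sub_const _).hasDerivWithinAt
  · simp [hg0]
  · intro t
    have h1 : HasDerivAt (fun t : ℝ => Real.exp (-2 * t)) (Real.exp (-2 * t) * (-2 * 1)) t :=
      ((hasDerivAt_id t).const_mul (-2)).exp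
    have h2 := ((h1.const_mul (‖x.2‖ ^ 2)).const_sub (‖x.2‖ ^ 2)).const_mul K
    refine h2.congr_deriv ?_
    ring
  · intro t ht
    have hm := hmem t ht.1 ht.2.le
    have h1 : ‖x.2 * Complex.exp ((-t : ℝ) : ℂ)‖ ≤ r1 := by
      rw [norm_rad]
      exact (hle t ht.1).trans hx1
    have h2 := hK _ hm h1
    simp only at h2
    rw [norm_rad] at h2
    rw [norm_neg]
    refine h2.trans (le_of_eq ?_)
    have h3 : Real.exp (-2 * t) = Real.exp (-t) ^ 2 := by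
      rw [← Real.exp_nat_mul]
      congr 1
      push_cast
      ring
    rw [h3]
    ring

theorem walk_in {r0 w0 : ℝ} (h : StepD c0 r0 w0) {r1 K : ℝ} (hr : r1 ≤ r0)
    (Φ : (Va k → ℂ) × ℂ → ℂ) (Ψ : (Va k → ℂ) × ℂ → ℂ)
    (hder : ∀ (g : ℂ → Va k → ℂ) (f w : ℂ),
      (∀ F : MvPolynomial (Va k) ℂ, HasDerivAt (fun w => eval (g w) F)
        (eval (g w) (dv (vf k) F) / eval (g w) (mm k)) w) →
      (g w, f * Complex.exp w) ∈ Nr c0 r0 →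
      HasDerivAt (fun w => Φ (g w, f * Complex.exp w)) (Ψ (g w, f * Complex.exp w)) w)
    (hK : ∀ x ∈ Nr c0 r0, ‖x.2‖ ≤ r1 → ‖Ψ x‖ ≤ 2 * K * ‖x.2‖ ^ 2)
    {x : (Va k → ℂ) × ℂ} (hx : x ∈ Nr c0 r0) (hx1 : ‖x.2‖ ≤ r1) {ε : ℝ} (hε : 0 ≤ ε) (hεw : ε < w0)
    (N : ℕ) :
    ∃ y ∈ Nr c0 r0, ‖y.2‖ = ‖x.2‖ * Real.exp (-ε) ^ N ∧
      ‖Φ y - Φ x‖ ≤ K * (‖x.2‖ ^ 2 - ‖y.2‖ ^ 2) := by
  induction N with
  | zero => exact ⟨x, hx, by simp, by simp⟩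
  | succ N ih =>
    obtain ⟨y, hy, hy2, hyn⟩ := ih
    have h1 : Real.exp (-ε) ≤ 1 := Real.exp_le_one_iff.2 (by linarith)
    have h2 : Real.exp (-ε) ^ N ≤ 1 := pow_le_one₀ (Real.exp_pos _).le h1
    have hyr : ‖y.2‖ ≤ r1 := by
      rw [hy2]
      have := norm_nonneg x.2
      nlinarith
    obtain ⟨y', hy', hy2', hyn'⟩ := step_in h hr Φ Ψ hder hK hy hyr hε hεw
    refine ⟨y', hy', by rw [hy2', hy2, pow_succ, mul_assoc], ?_⟩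
    have h3 : Φ y' - Φ x = (Φ y' - Φ y) + (Φ y - Φ x) := by ring
    rw [h3]
    refine (norm_add_le _ _).trans ?_
    linarith

/-- The conclusion of the walk: a quantity which tends to zero with the radius. -/
theorem in_bound {r0 w0 : ℝ} (h : StepD c0 r0 w0) {r1 K D : ℝ} (hr : r1 ≤ r0) (hK0 : 0 ≤ K)
    (Φ : (Va k → ℂ) × ℂ → ℂ) (Ψ : (Va k → ℂ) × ℂ → ℂ)
    (hder : ∀ (g : ℂ → Va k → ℂ) (f w : ℂ),
      (∀ F : MvPolynomial (Va k) ℂ, HasDerivAt (fun w => eval (g w) F)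
        (eval (g w) (dv (vf k) F) / eval (g w) (mm k)) w) →
      (g w, f * Complex.exp w) ∈ Nr c0 r0 →
      HasDerivAt (fun w => Φ (g w, f * Complex.exp w)) (Ψ (g w, f * Complex.exp w)) w)
    (hK : ∀ x ∈ Nr c0 r0, ‖x.2‖ ≤ r1 → ‖Ψ x‖ ≤ 2 * K * ‖x.2‖ ^ 2)
    (hD : ∀ x ∈ Nr c0 r0, ‖x.2‖ ≤ r1 → ‖Φ x‖ ≤ D * ‖x.2‖)
    {x : (Va k → ℂ) × ℂ} (hx : x ∈ Nr c0 r0) (hx1 : ‖x.2‖ ≤ r1) : ‖Φ x‖ ≤ K * ‖x.2‖ ^ 2 := by
  have hw := h.w_pos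
  set ε : ℝ := w0 / 2 with hε
  have hε0 : 0 < ε := by rw [hε]; positivity
  have hεw : ε < w0 := by rw [hε]; linarith
  have h1 : Real.exp (-ε) < 1 := Real.exp_lt_one_iff.2 (by linarith)
  have hb : ∀ N : ℕ, ‖Φ x‖ ≤ K * ‖x.2‖ ^ 2 + D * (‖x.2‖ * Real.exp (-ε) ^ N) := by
    intro N
    obtain ⟨y, hy, hy2, hyn⟩ := walk_in h hr Φ Ψ hder hK hx hx1 hε0.le hεw N
    have h2 : Real.exp (-ε) ^ N ≤ 1 := pow_le_one₀ (Real.exp_pos _).le h1.le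
    have hyr : ‖y.2‖ ≤ r1 := by
      rw [hy2]
      have := norm_nonneg x.2
      nlinarith
    have h3 := hD y hy hyr
    have h4 : ‖Φ x‖ ≤ ‖Φ y‖ + ‖Φ y - Φ x‖ := by
      have := norm_sub_le (Φ y) (Φ y - Φ x)
      rwa [sub_sub_cancel] at this
    rw [hy2] at h3
    have h5 : 0 ≤ K * ‖y.2‖ ^ 2 := by positivity
    have h6 : K * (‖x.2‖ ^ 2 - ‖y.2‖ ^ 2) = K * ‖x.2‖ ^ 2 - K * ‖y.2‖ ^ 2 := by ring
    linarith
  have ht : Filter.Tendsto (fun N : ℕ => K * ‖x.2‖ ^ 2 + D * (‖x.2‖ * Real.exp (-ε) ^ N)) Filter.atTop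
      (nhds (K * ‖x.2‖ ^ 2 + D * (‖x.2‖ * 0))) :=
    (((tendsto_pow_atTop_nhds_zero_of_lt_one (Real.exp_pos _).le h1).const_mul _).const_mul _).const_add _
  have := ge_of_tendsto' ht hb
  simpa using this

end VB

open UB VB in
theorem vbound {c0 : Fin (k + 1) → ℂ} {r0 w0 : ℝ} (h : StepD c0 r0 w0) :
    ∃ r1 C : ℝ, 0 < r1 ∧ r1 ≤ r0 ∧ 0 ≤ C ∧ ∀ x ∈ Nr c0 r0, ‖x.2‖ ≤ r1 →
      (∀ n, ‖x.2 * eval x.1 (UU n)‖ ≤ C ∧ ‖x.2 ^ 2 * eval x.1 (PP n)‖ ≤ C * ‖x.2‖ ^ 2) ∧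
      ‖x.1 .z - x.1 .e‖ ≤ C := by
  obtain ⟨r1, B0, hr1, hr10, hB0, hu⟩ := ubound h
  obtain ⟨C1, hC1, hland⟩ := landau h
  set c : ℝ := 1 + ∑ j, ‖c0 j‖ with hc
  have hc1 : 1 ≤ c := by
    have : 0 ≤ ∑ j, ‖c0 j‖ := Finset.sum_nonneg fun _ _ => norm_nonneg _
    rw [hc]; linarith
  have hcB : 0 ≤ c * B0 := by positivity
  have hBc : B0 ≤ c * B0 := by nlinarith
  have hnx : ∀ x ∈ Nr c0 r0, ‖x.2‖ ≤ r1 → ∀ n,
      ‖nx (fun n => x.2 * eval x.1 (UU n)) (∑ j, c0 j * (x.2 * eval x.1 (UU j))) n‖ ≤ c * B0 := by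
    intro x hx hxr n
    refine norm_nx hc1 hB0 (hu x hx hxr) ?_ n
    refine (norm_sum_le _ _).trans ?_
    have h1 : ∀ j, ‖c0 j * (x.2 * eval x.1 (UU j))‖ ≤ ‖c0 j‖ * B0 := by
      intro j
      rw [norm_mul]
      exact mul_le_mul_of_nonneg_left (hu x hx hxr j) (norm_nonneg _)
    calc ∑ j, ‖c0 j * (x.2 * eval x.1 (UU j))‖ ≤ ∑ j, ‖c0 j‖ * B0 := Finset.sum_le_sum fun j _ => h1 j
      _ = (∑ j, ‖c0 j‖) * B0 := by rw [Finset.sum_mul]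
      _ ≤ c * B0 := by
        refine mul_le_mul_of_nonneg_right ?_ hB0
        rw [hc]; linarith
  refine ⟨r1, c * B0, hr1, hr10, hcB, ?_⟩
  intro x hx hxr
  refine ⟨fun n => ⟨(hu x hx hxr n).trans hBc, ?_⟩, ?_⟩
  · have key := in_bound (K := 4 / 7 * (c * B0)) (D := C1 * B0) h hr10 (by positivity)
      (fun x => x.2 ^ 2 * eval x.1 (PP n))
      (fun x => -(x.2 ^ 2 * nx (fun n => x.2 * eval x.1 (UU n))
        (∑ j, c0 j * (x.2 * eval x.1 (UU j))) n / (x.2 * eval x.1 (mm k))))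
      (fun g f w hg hmem => dvn n hg hmem) ?_ ?_ hx hxr
    · refine key.trans ?_
      have : 0 ≤ ‖x.2‖ ^ 2 := by positivity
      nlinarith
    · intro y hy hyr
      have h1 := norm_div_mm hy (y.2 ^ 2 * nx (fun n => y.2 * eval y.1 (UU n))
        (∑ j, c0 j * (y.2 * eval y.1 (UU j))) n)
      have h2 := hnx y hy hyr n
      rw [norm_neg]
      refine h1.trans ?_
      rw [norm_mul, norm_pow]
      have h3 : ‖y.2‖ ^ 2 * ‖nx (fun n => y.2 * eval y.1 (UU n))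
        (∑ j, c0 j * (y.2 * eval y.1 (UU j))) n‖ ≤ ‖y.2‖ ^ 2 * (c * B0) :=
        mul_le_mul_of_nonneg_left h2 (by positivity)
      linarith
    · intro y hy hyr
      have hy0 : 0 < ‖y.2‖ := norm_pos_iff.2 (ne_two hy)
      have h1 := hland ‖y.2‖ hy0 (hyr.trans hr10) B0
        (fun y' hy' he m => hu y' hy' (by rw [he]; exact hyr) m) y hy rfl n
      refine h1.trans (le_of_eq ?_)
      ring
  · have key := in_bound (K := 4 / 7 * B0) (D := 1 / 4) h hr10 (by positivity)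
      (fun x => x.2 ^ 2 * (x.1 .z - x.1 .e))
      (fun x => -(x.2 ^ 2 * (x.2 * eval x.1 (UU 0)) / (x.2 * eval x.1 (mm k))))
      (fun g f w hg hmem => dq hg hmem) ?_ ?_ hx hxr
    · have hx0 : 0 < ‖x.2‖ := norm_pos_iff.2 (ne_two hx)
      have h1 : ‖x.2‖ ^ 2 * ‖x.1 .z - x.1 .e‖ ≤ ‖x.2‖ ^ 2 * (4 / 7 * B0) := by
        have h2 : ‖x.2 ^ 2 * (x.1 .z - x.1 .e)‖ ≤ 4 / 7 * B0 * ‖x.2‖ ^ 2 := key
        rw [norm_mul, norm_pow] at h2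
        linarith
      have h2 := le_of_mul_le_mul_left h1 (by positivity)
      linarith
    · intro y hy hyr
      have h1 := norm_div_mm hy (y.2 ^ 2 * (y.2 * eval y.1 (UU 0)))
      have h2 := hu y hy hyr 0
      rw [norm_neg]
      refine h1.trans ?_
      rw [norm_mul, norm_pow]
      have h3 : ‖y.2‖ ^ 2 * ‖y.2 * eval y.1 (UU 0)‖ ≤ ‖y.2‖ ^ 2 * B0 :=
        mul_le_mul_of_nonneg_left h2 (by positivity)
      linarith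
    · intro y hy hyr
      have h1 := hy.2.2.2.2.2.1
      have h2 := hy.2.2.2.2.2.2
      have h3 : y.2 ^ 2 * (y.1 .z - y.1 .e) = y.2 * ((y.2 * y.1 .z - 1) - (y.2 * y.1 .e - 1)) := by ring
      have h4 : ‖(y.2 * y.1 .z - 1) - (y.2 * y.1 .e - 1)‖ ≤ 1 / 4 :=
        (norm_sub_le _ _).trans (by linarith)
      rw [h3, norm_mul, mul_comm (1 / 4 : ℝ)]
      exact mul_le_mul_of_nonneg_left h4 (norm_nonneg _)

end Pool.Agent.Helper44.FT
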