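import Pool.Agent.Helper44.FT.Lie

/-!
# The vector field of finite type surfaces of revolution (definitions)

Variables (for `k + 1` coefficients `c j`): `c j`, the coupling constant `d`, `z = E / f`, `e = 1 / (f E)` (`f` radius, `E` complex
unit tangent of the profile), and for `n = 0, ..., k` the components of `Y_n = Δ^(n+1) x`: `a n = Z_n / E`, `al n = Z_n' / E`,
`b n = W_n E`, `be n = W_n' E` (`Z_n = p_n + i q_n`, `W_n = p_n - i q_n`, `p_n` radial, `q_n` vertical part of `Y_n`).
`Y_(k+1) = ∑ c j Y_j`. `W k` is the set of all points at which all derivatives of `a 0 + b 0` along the vector field vanish.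
-/

namespace Pool.Agent.Helper44.FT

open MvPolynomial

/-- The variables. -/
inductive Va (k : ℕ) : Type
  | c (j : Fin (k + 1)) : Va k
  | d : Va k
  | z : Va k
  | e : Va k
  | a (n : Fin (k + 1)) : Va k
  | al (n : Fin (k + 1)) : Va k
  | b (n : Fin (k + 1)) : Va k
  | be (n : Fin (k + 1)) : Va k
  deriving DecidableEq, Fintype

variable {k : ℕ}

/-- The successor in the chain, with a given last value. -/
def nx {α : Type*} (x : Fin (k + 1) → α) (y : α) (n : Fin (k + 1)) : α :=
  if h : n.1 + 1 < k + 1 then x ⟨n.1 + 1, h⟩ else y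

/-- `i κ` -/
noncomputable def KK (k : ℕ) : MvPolynomial (Va k) ℂ :=
  -(X .d * X (.a 0)) - C (1 / 2) * (X .z - X .e)

/-- `- i κ` -/
noncomputable def LL (k : ℕ) : MvPolynomial (Va k) ℂ :=
  -(X .d * X (.b 0)) - C (1 / 2) * (X .e - X .z)

/-- `f' / f` -/
noncomputable def mm (k : ℕ) : MvPolynomial (Va k) ℂ := C (1 / 2) * (X .z + X .e)

/-- The vector field. -/
noncomputable def vf (k : ℕ) : Va k → MvPolynomial (Va k) ℂ
  | .c _ => 0
  | .d => 0
  | .z => -(X .z * X .z) - X .d * X (.a 0) * X .z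
  | .e => -(X .e * X .e) - X .d * X (.b 0) * X .e
  | .a n => X (.al n) - KK k * X (.a n)
  | .al n => -((KK k + mm k) * X (.al n)) - nx (fun n => X (.a n)) (∑ j, X (.c j) * X (.a j)) n +
      C (1 / 2) * (X .z * X .e * X (.a n)) + C (1 / 2) * (X .e * X .e * X (.b n))
  | .b n => X (.be n) - LL k * X (.b n)
  | .be n => -((LL k + mm k) * X (.be n)) - nx (fun n => X (.b n)) (∑ j, X (.c j) * X (.b j)) n +
      C (1 / 2) * (X .z * X .e * X (.b n)) + C (1 / 2) * (X .z * X .z * X (.a n))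

/-- The function whose derivatives define the set `W`. -/
noncomputable def G0 (k : ℕ) : MvPolynomial (Va k) ℂ := X (.a 0) + X (.b 0)

/-- All derivatives of `a 0 + b 0` along the vector field vanish. -/
def W (k : ℕ) : Set (Va k → ℂ) := {p | ∀ j, it (vf k) (G0 k) p j = 0}

/-- Weights. -/
def wt : Va k → ℕ
  | .c j => 2 * (k + 1 - j.1)
  | .d => 0
  | .z => 1
  | .e => 1
  | .a n => 2 * n.1 + 1
  | .al n => 2 * n.1 + 2
  | .b n => 2 * n.1 + 1
  | .be n => 2 * n.1 + 2

/-- Homothety. -/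
def sc (l : ℂ) (p : Va k → ℂ) : Va k → ℂ := fun i => l ^ wt i * p i

/-- Change of the coupling constant. -/
noncomputable def ms (m : ℂ) (p : Va k → ℂ) : Va k → ℂ
  | .c j => p (.c j)
  | .d => p .d / m
  | .z => p .z
  | .e => p .e
  | .a n => m * p (.a n)
  | .al n => m * p (.al n)
  | .b n => m * p (.b n)
  | .be n => m * p (.be n)

/-- Exchange of `E` and `1 / E`. -/
def sw (p : Va k → ℂ) : Va k → ℂ
  | .c j => p (.c j)
  | .d => p .d
  | .z => p .e
  | .e => p .z
  | .a n => p (.b n)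
  | .al n => p (.be n)
  | .b n => p (.a n)
  | .be n => p (.al n)

/-- All `Y_n` and their derivatives vanish. -/
def Z0 (p : Va k → ℂ) : Prop :=
  ∀ n : Fin (k + 1), p (.a n) = 0 ∧ p (.al n) = 0 ∧ p (.b n) = 0 ∧ p (.be n) = 0

/-- `d = 1`, all `c j = 0`. -/
def Nul (p : Va k → ℂ) : Prop := p .d = 1 ∧ ∀ j, p (.c j) = 0

/-- `d = 0`, all `c j = 0`. -/
def Lin (p : Va k → ℂ) : Prop := p .d = 0 ∧ ∀ j, p (.c j) = 0

/-- `d = 1`, `c j = c0 j`. -/
def Par (c0 : Fin (k + 1) → ℂ) (p : Va k → ℂ) : Prop := p .d = 1 ∧ ∀ j, p (.c j) = c0 j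

section eval

variable (p : Va k → ℂ)

theorem ev_KK : eval p (KK k) = -(p .d * p (.a 0)) - (p .z - p .e) / 2 := by
  simp [KK]; ring

theorem ev_LL : eval p (LL k) = -(p .d * p (.b 0)) - (p .e - p .z) / 2 := by
  simp [LL]; ring

theorem ev_mm : eval p (mm k) = (p .z + p .e) / 2 := by
  simp [mm]; ring

theorem ev_nx (x : Fin (k + 1) → MvPolynomial (Va k) ℂ) (y : MvPolynomial (Va k) ℂ) (n : Fin (k + 1)) :
    eval p (nx x y n) = nx (fun n => eval p (x n)) (eval p y) n := by
  unfold nx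
  split_ifs <;> rfl

theorem ev_c (j : Fin (k + 1)) : eval p (vf k (.c j)) = 0 := by simp [vf]

theorem ev_d : eval p (vf k .d) = 0 := by simp [vf]

theorem ev_z : eval p (vf k .z) = -(p .z * p .z) - p .d * p (.a 0) * p .z := by simp [vf]

theorem ev_e : eval p (vf k .e) = -(p .e * p .e) - p .d * p (.b 0) * p .e := by simp [vf]

theorem ev_a (n : Fin (k + 1)) : eval p (vf k (.a n)) = p (.al n) - eval p (KK k) * p (.a n) := by
  simp [vf]

theorem ev_b (n : Fin (k + 1)) : eval p (vf k (.b n)) = p (.be n) - eval p (LL k) * p (.b n) := by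
  simp [vf]

theorem ev_al (n : Fin (k + 1)) : eval p (vf k (.al n)) =
    -((eval p (KK k) + eval p (mm k)) * p (.al n)) -
      nx (fun n => p (.a n)) (∑ j, p (.c j) * p (.a j)) n +
      p .z * p .e * p (.a n) / 2 + p .e * p .e * p (.b n) / 2 := by
  simp only [vf, map_add, map_sub, map_neg, map_mul, eval_X, eval_C, ev_nx, map_sum]
  ring

theorem ev_be (n : Fin (k + 1)) : eval p (vf k (.be n)) =
    -((eval p (LL k) + eval p (mm k)) * p (.be n)) -
      nx (fun n => p (.b n)) (∑ j, p (.c j) * p (.b j)) n +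
      p .z * p .e * p (.b n) / 2 + p .z * p .z * p (.a n) / 2 := by
  simp only [vf, map_add, map_sub, map_neg, map_mul, eval_X, eval_C, ev_nx, map_sum]
  ring

end eval

theorem W_ab {p : Va k → ℂ} (hp : p ∈ W k) : p (.b 0) = -p (.a 0) := by
  have h := hp 0
  rw [it_zero] at h
  simp only [G0, map_add, eval_X] at h
  linear_combination h

end Pool.Agent.Helper44.FT
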